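import Pool.Agent.Lib.GEX.Defs

/-!
# GEX.Alg: `A(R)` as a closed subalgebra of `C(R.S, ℂ)`  (1.2 h)

`ARalg R` has the carrier `{f | ∃ F, AR R F ∧ ∀ z : R.S, f z = F z}`. Closed: let `f` be in the closure; put `F z = f z` on `R.S` and `0` elsewhere. `F` is continuous on
`R.S`. For `n` choose `F_n` with `AR R F_n` and `|F_n - F| ≤ 1/(n+1)` on `R.S`; `F_n → F` uniformly on the open set `R.O`, so `F` is holomorphic on `R.O`
(`TendstoLocallyUniformlyOn.differentiableOn`, `TendstoUniformlyOn.tendstoLocallyUniformlyOn`).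
-/

open Set MeasureTheory Filter Topology
open Complex (I)

namespace Pool.Agent.Lib.GEX

/-- the algebra `A(R)` -/
def ARalg (R : Rect) : Subalgebra ℂ C(R.S, ℂ) where
  carrier := {f | ∃ F : ℂ → ℂ, AR R F ∧ ∀ z : R.S, f z = F z}
  mul_mem' := by
    rintro f g ⟨F, hF, hf⟩ ⟨G, hG, hg⟩
    exact ⟨fun z => F z * G z, hF.mul hG, fun z => by simp [hf, hg]⟩
  add_mem' := by
    rintro f g ⟨F, hF, hf⟩ ⟨G, hG, hg⟩
    exact ⟨fun z => F z + G z, hF.add hG, fun z => by simp [hf, hg]⟩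
  algebraMap_mem' := fun r => ⟨fun _ => r, AR.const r, fun z => by simp [Algebra.algebraMap_eq_smul_one]⟩

lemma mem_ARalg {R : Rect} {f : C(R.S, ℂ)} :
    f ∈ ARalg R ↔ ∃ F : ℂ → ℂ, AR R F ∧ ∀ z : R.S, f z = F z := Iff.rfl

instance (R : Rect) : CompactSpace R.S := isCompact_iff_compactSpace.1 Rect.isCompact_S

instance (R : Rect) : Nonempty R.S := Rect.nonempty_S.to_subtype

/-- restriction of a function of `A(R)` to `R.S` -/
def AR.res {R : Rect} {F : ℂ → ℂ} (hF : AR R F) : C(R.S, ℂ) :=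
  ⟨fun z => F z, hF.1.comp_continuous continuous_subtype_val fun z => z.2⟩

lemma AR.res_mem {R : Rect} {F : ℂ → ℂ} (hF : AR R F) : hF.res ∈ ARalg R := ⟨F, hF, fun _ => rfl⟩

theorem ARalg_closed (R : Rect) : IsClosed (ARalg R : Set C(R.S, ℂ)) := by
  classical
  refine isClosed_of_closure_subset fun f hf => ?_
  rw [Metric.mem_closure_iff] at hf
  have h1 : ∀ n : ℕ, ∃ G : ℂ → ℂ, AR R G ∧ ∀ z : R.S, dist (f z) (G z) < 1 / ((n : ℝ) + 1) := by
    intro n
    obtain ⟨g, ⟨G, hG, hg⟩, hd⟩ := hf (1 / ((n : ℝ) + 1)) (by positivity)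
    refine ⟨G, hG, fun z => ?_⟩
    rw [← hg z]
    exact (ContinuousMap.dist_apply_le_dist z).trans_lt hd
  choose G hG hd using h1
  let F : ℂ → ℂ := fun z => if h : z ∈ R.S then f ⟨z, h⟩ else 0
  have hF : ∀ z : R.S, F z = f z := fun z => by simp [F]
  have hc : ContinuousOn F R.S := by
    rw [continuousOn_iff_continuous_domRestrict]
    have : R.S.domRestrict F = f := funext fun z => hF z
    rw [this]
    exact f.continuous
  have ht : TendstoUniformlyOn G F atTop R.O := by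
    rw [Metric.tendstoUniformlyOn_iff]
    intro ε hε
    obtain ⟨N, hN⟩ := exists_nat_one_div_lt hε
    filter_upwards [eventually_ge_atTop N] with n hn z hz
    have h2 := hd n ⟨z, Rect.O_sub hz⟩
    rw [← hF] at h2
    refine h2.trans_le (le_trans ?_ hN.le)
    apply one_div_le_one_div_of_le (by positivity)
    have : (N : ℝ) ≤ n := by exact_mod_cast hn
    linarith
  have hdf : DifferentiableOn ℂ F R.O :=
    ht.tendstoLocallyUniformlyOn.differentiableOn (Eventually.of_forall fun n => (hG n).2) Rect.isOpen_O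
  exact ⟨F, ⟨hc, hdf⟩, fun z => (hF z).symm⟩

end Pool.Agent.Lib.GEX
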