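import Pool.Agent.Lib.GEX.Gen

/-!
# GEX.AlgA: the algebra  (1.5 h)

`GS` = the set of all generating functions. It is closed under multiplication (`gn_mul_desc`, `gn_mul_disj`; for `n ≤ m` or `m ≤ n` by symmetry; the product `0` is `gn` with coefficient `0`) and contains `1` (`n = k = 0`, `G = 1`), so
`Algebra.adjoin ℂ GS = span ℂ GS` (`Algebra.adjoin_eq_span`, with the submonoid with carrier `GS`: `Submonoid.closure_eq_of_le` or `closure` of a submonoid).
`Aa` = the topological closure of the adjoin.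
-/

open Set Filter Topology
open Complex (I)

namespace Pool.Agent.Lib.GEX

variable {s : Sys} {z : C(unitInterval, ℂ)}

def GS (s : Sys) (z : C(unitInterval, ℂ)) : Set C(unitInterval, ℂ) :=
  {g | ∃ n k, k < 2 ^ n ∧ ∃ G : ℂ → ℂ, AR (s.R n k) G ∧ ∀ t, g t = gn s z n k G t}

noncomputable def Aa (s : Sys) (z : C(unitInterval, ℂ)) : Subalgebra ℂ C(unitInterval, ℂ) :=
  (Algebra.adjoin ℂ (GS s z)).topologicalClosure

lemma Aa_closed : IsClosed (Aa s z : Set C(unitInterval, ℂ)) :=
  Subalgebra.isClosed_topologicalClosure _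

lemma GS_sub {g : C(unitInterval, ℂ)} (hg : g ∈ GS s z) : g ∈ Aa s z :=
  Subalgebra.le_topologicalClosure _ (Algebra.subset_adjoin hg)

/-- the generating function as a continuous function -/
noncomputable def gC (hz : Zm s z) {n k : ℕ} (hk : k < 2 ^ n) {G : ℂ → ℂ} (hG : AR (s.R n k) G) :
    C(unitInterval, ℂ) := ⟨gn s z n k G, gn_cont hz hk hG⟩

lemma gC_mem (hz : Zm s z) {n k : ℕ} (hk : k < 2 ^ n) {G : ℂ → ℂ} (hG : AR (s.R n k) G) :
    gC hz hk hG ∈ Aa s z := GS_sub ⟨n, k, hk, G, hG, fun _ => rfl⟩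

theorem GS_mul (hz : Zm s z) {f g : C(unitInterval, ℂ)} (hf : f ∈ GS s z) (hg : g ∈ GS s z) :
    f * g ∈ GS s z := by
  -- the case `n ≤ m`
  have key : ∀ (n k : ℕ), k < 2 ^ n → ∀ (m l : ℕ), l < 2 ^ m → n ≤ m → ∀ (G F : ℂ → ℂ),
      AR (s.R n k) G → AR (s.R m l) F → ∀ p : C(unitInterval, ℂ),
      (∀ t, p t = gn s z n k G t * gn s z m l F t) → p ∈ GS s z := by
    intro n k hk m l hl hnm G F hG hF p hp
    by_cases hkl : l / 2 ^ (m - n) = k
    · subst hkl
      obtain ⟨hS, hO⟩ := R_desc s (l := l) hnm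
      refine ⟨m, l, hl, fun w => s.Ψ n (l / 2 ^ (m - n)) w * G w * F w, ?_, ?_⟩
      · exact (((Ψ_AR s n (l / 2 ^ (m - n))).mul hG).mono hS hO).mul hF
      · intro t
        rw [hp t, gn_mul_desc hz hnm hl]
    · refine ⟨m, l, hl, fun _ => 0, AR.const 0, ?_⟩
      intro t
      rw [hp t, gn_mul_disj hz hnm hk hl hkl]
      unfold gn
      split_ifs <;> simp
  obtain ⟨n, k, hk, G, hG, hfG⟩ := hf
  obtain ⟨m, l, hl, F, hF, hgF⟩ := hg
  rcases le_total n m with h | h
  · exact key n k hk m l hl h G F hG hF (f * g) (fun t => by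
      rw [ContinuousMap.mul_apply, hfG t, hgF t])
  · exact key m l hl n k hk h F G hF hG (f * g) (fun t => by
      rw [ContinuousMap.mul_apply, hfG t, hgF t, mul_comm])

theorem GS_one (hz : Zm s z) : (1 : C(unitInterval, ℂ)) ∈ GS s z := by
  refine ⟨0, 0, by norm_num, fun _ => 1, AR.const 1, fun t => ?_⟩
  have hJ : J 0 0 t := by
    refine ⟨?_, ?_⟩
    · simpa using t.2.1
    · simpa using t.2.2
  unfold gn
  rw [if_pos hJ, s.Ψ0 0]
  simp

theorem adjoin_eq (hz : Zm s z) :
    ((Algebra.adjoin ℂ (GS s z) : Subalgebra ℂ C(unitInterval, ℂ)) : Set C(unitInterval, ℂ)) =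
      (Submodule.span ℂ (GS s z) : Set C(unitInterval, ℂ)) := by
  let S : Submonoid C(unitInterval, ℂ) :=
    { carrier := GS s z
      mul_mem' := fun {a b} ha hb => GS_mul hz ha hb
      one_mem' := GS_one hz }
  have hcl : Submonoid.closure (GS s z) = S := by
    apply le_antisymm
    · exact Submonoid.closure_le.2 (fun x hx => hx)
    · exact fun x hx => Submonoid.subset_closure hx
  have h := Algebra.adjoin_eq_span ℂ (GS s z)
  rw [hcl] at h
  have h' : ((Subalgebra.toSubmodule (Algebra.adjoin ℂ (GS s z)) :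
      Submodule ℂ C(unitInterval, ℂ)) : Set C(unitInterval, ℂ)) =
      (Submodule.span ℂ (S : Set C(unitInterval, ℂ)) : Set C(unitInterval, ℂ)) := by rw [h]
  exact h'

end Pool.Agent.Lib.GEX
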