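import Pool.Agent.Lib.GEX.Integ

/-!
# GEX.Split: additivity of the boundary integral  (0.8 h)

`Γ = R.B ∪ {re = t}` contains the boundaries of `R.left t` and `R.right t`. On the top and bottom side `intervalIntegral.integral_add_adjacent_intervals`; the integrals over `re = t` cancel.
-/

open Set MeasureTheory Filter Topology
open Complex (I)

namespace Pool.Agent.Lib.GEX

theorem BI_split {R : Rect} {t : ℝ} (h0 : R.x0 < t) (h1 : t < R.x1) {f : ℂ → ℂ}
    (hf : NS (R.B ∪ {z ∈ R.S | z.re = t}) f) :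
    BI R f = BI (R.left t h0) f + BI (R.right t h1) f := by
  have key : ∀ y : ℝ, (y = R.y0 ∨ y = R.y1) → ∀ s s' : ℝ, R.x0 ≤ s → s ≤ R.x1 → R.x0 ≤ s' →
      s' ≤ R.x1 → IntervalIntegrable (fun x : ℝ => f (x + y * I)) volume s s' := by
    intro y hy s s' a1 a2 a3 a4
    refine hf.intH fun x hx => Or.inl ?_
    have hx1 : R.x0 ≤ x := (le_min a1 a3).trans hx.1
    have hx2 : x ≤ R.x1 := hx.2.trans (max_le a2 a4)
    have e1 : ((x : ℂ) + y * I).re = x := by simp
    have e2 : ((x : ℂ) + y * I).im = y := by simp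
    have hyy := R.hy
    refine ⟨⟨?_, ?_, ?_, ?_⟩, fun hO => ?_⟩
    · rw [e1]; exact hx1
    · rw [e1]; exact hx2
    · rw [e2]; rcases hy with rfl | rfl <;> linarith
    · rw [e2]; rcases hy with rfl | rfl <;> linarith
    · have h3 := hO.2.2.1
      have h4 := hO.2.2.2
      rw [e2] at h3 h4
      rcases hy with rfl | rfl <;> linarith
  have hb := intervalIntegral.integral_add_adjacent_intervals
    (key R.y0 (Or.inl rfl) R.x0 t le_rfl R.hx.le h0.le h1.le)
    (key R.y0 (Or.inl rfl) t R.x1 h0.le h1.le R.hx.le le_rfl)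
  have ht := intervalIntegral.integral_add_adjacent_intervals
    (key R.y1 (Or.inr rfl) R.x0 t le_rfl R.hx.le h0.le h1.le)
    (key R.y1 (Or.inr rfl) t R.x1 h0.le h1.le R.hx.le le_rfl)
  simp only [BI, Rect.left, Rect.right]
  rw [← hb, ← ht]
  ring

end Pool.Agent.Lib.GEX
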