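import Pool.Agent.Lib.GEX.Defs

/-!
# GEX.DefsB: functions with an exponential singularity at a boundary point

`ze c z = -i/(z - c)`; for `c` on the top side of `R` and `z ∈ R.S` its real part is `≥ 0`.
`BB R c F`: `F` is continuous on `R.S \ {c}`, holomorphic inside and `|F| ≤ C exp (η Re ze)`.
`Gam R s t`: the boundary of `R` and the vertical lines `re = s`, `re = t` inside `R`.
`Apx R c Γ f`: `f` is a uniform limit on `Γ \ {c}` of functions in `BB R c`.
-/

open Set MeasureTheory Filter Topology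
open Complex (I)

namespace Pool.Agent.Lib.GEX

/-- the point `xm + i y1` of the top side -/
noncomputable def top (R : Rect) (xm : ℝ) : ℂ := xm + R.y1 * I

noncomputable def ze (c z : ℂ) : ℂ := -I / (z - c)

def BB (R : Rect) (c : ℂ) (F : ℂ → ℂ) : Prop :=
  ContinuousOn F (R.S \ {c}) ∧ DifferentiableOn ℂ F R.O ∧
    ∃ η C : ℝ, 0 ≤ η ∧ 0 ≤ C ∧ ∀ z ∈ R.S, z ≠ c → ‖F z‖ ≤ C * Real.exp (η * (ze c z).re)

def Gam (R : Rect) (s t : ℝ) : Set ℂ := R.B ∪ {z ∈ R.S | z.re = s ∨ z.re = t}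

def Apx (R : Rect) (c : ℂ) (Γ : Set ℂ) (f : ℂ → ℂ) : Prop :=
  ∀ ε : ℝ, 0 < ε → ∃ F : ℂ → ℂ, BB R c F ∧ ∀ z ∈ Γ, z ≠ c → ‖F z - f z‖ ≤ ε

@[simp] lemma top_re (R : Rect) (xm : ℝ) : (top R xm).re = xm := by simp [top]
@[simp] lemma top_im (R : Rect) (xm : ℝ) : (top R xm).im = R.y1 := by simp [top]

lemma ze_re (c z : ℂ) : (ze c z).re = -(z - c).im / Complex.normSq (z - c) := by
  unfold ze
  rw [Complex.div_re]
  simp

lemma ze_re_nonneg {R : Rect} {c z : ℂ} (hc : c.im = R.y1) (hz : z ∈ R.S) : 0 ≤ (ze c z).re := by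
  rw [ze_re]
  apply div_nonneg _ (Complex.normSq_nonneg _)
  have : (z - c).im = z.im - c.im := by simp
  rw [this, hc]
  linarith [hz.2.2.2]

lemma ze_re_le (c z : ℂ) : (ze c z).re ≤ ‖z - c‖⁻¹ := by
  calc (ze c z).re ≤ ‖ze c z‖ := Complex.re_le_norm _
    _ = ‖z - c‖⁻¹ := by simp [ze, div_eq_mul_inv]

lemma Gam_sub (R : Rect) (s t : ℝ) : Gam R s t ⊆ R.S := by
  rintro z (h | h)
  · exact h.1
  · exact h.1

section
variable {R : Rect} {c : ℂ}

lemma BB.of_AR {f : ℂ → ℂ} (_hc : c.im = R.y1) (hf : AR R f) : BB R c f := by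
  obtain ⟨M, hM0, hM⟩ := hf.bdd
  refine ⟨hf.1.mono fun z hz => hz.1, hf.2, 0, M, le_rfl, hM0, fun z hz _ => ?_⟩
  simpa using hM z hz

lemma BB.add {f g : ℂ → ℂ} (hc : c.im = R.y1) (hf : BB R c f) (hg : BB R c g) :
    BB R c (fun z => f z + g z) := by
  obtain ⟨f1, f2, η, C, hη, hC, hf3⟩ := hf
  obtain ⟨g1, g2, η', C', hη', hC', hg3⟩ := hg
  refine ⟨f1.add g1, f2.add g2, η + η', C + C', by positivity, by positivity, fun z hz hzc => ?_⟩
  have h0 := ze_re_nonneg hc hz
  have e1 : Real.exp (η * (ze c z).re) ≤ Real.exp ((η + η') * (ze c z).re) :=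
    Real.exp_le_exp.2 (by nlinarith)
  have e2 : Real.exp (η' * (ze c z).re) ≤ Real.exp ((η + η') * (ze c z).re) :=
    Real.exp_le_exp.2 (by nlinarith)
  calc ‖f z + g z‖ ≤ ‖f z‖ + ‖g z‖ := norm_add_le _ _
    _ ≤ C * Real.exp ((η + η') * (ze c z).re) + C' * Real.exp ((η + η') * (ze c z).re) := by
        have := hf3 z hz hzc
        have := hg3 z hz hzc
        have := mul_le_mul_of_nonneg_left e1 hC
        have := mul_le_mul_of_nonneg_left e2 hC'
        linarith
    _ = (C + C') * Real.exp ((η + η') * (ze c z).re) := by ring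

lemma BB.mul {f g : ℂ → ℂ} (hf : BB R c f) (hg : BB R c g) :
    BB R c (fun z => f z * g z) := by
  obtain ⟨f1, f2, η, C, hη, hC, hf3⟩ := hf
  obtain ⟨g1, g2, η', C', hη', hC', hg3⟩ := hg
  refine ⟨f1.mul g1, f2.mul g2, η + η', C * C', by positivity, by positivity, fun z hz hzc => ?_⟩
  rw [norm_mul, add_mul, Real.exp_add]
  calc ‖f z‖ * ‖g z‖ ≤ (C * Real.exp (η * (ze c z).re)) * (C' * Real.exp (η' * (ze c z).re)) :=
        mul_le_mul (hf3 z hz hzc) (hg3 z hz hzc) (norm_nonneg _) (by positivity)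
    _ = _ := by ring

lemma BB.const (hc : c.im = R.y1) (w : ℂ) : BB R c (fun _ => w) := BB.of_AR hc (AR.const w)

lemma BB.neg {f : ℂ → ℂ} (hc : c.im = R.y1) (hf : BB R c f) : BB R c (fun z => -f z) := by
  have := (BB.const hc (-1)).mul hf
  simpa using this

lemma BB.sub {f g : ℂ → ℂ} (hc : c.im = R.y1) (hf : BB R c f) (hg : BB R c g) :
    BB R c (fun z => f z - g z) := by
  have := hf.add hc (hg.neg hc)
  simpa [sub_eq_add_neg] using this

/-- a function in `BB` is bounded on every set of points of `R.S` at distance `≥ ρ` from `c`, and on the top side -/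
lemma BB.bdd {f : ℂ → ℂ} (hf : BB R c f) {K : ℝ} : ∃ M : ℝ, 0 ≤ M ∧
    ∀ z ∈ R.S, z ≠ c → (ze c z).re ≤ K → ‖f z‖ ≤ M := by
  obtain ⟨_, _, η, C, hη, hC, hf3⟩ := hf
  refine ⟨C * Real.exp (η * K), by positivity, fun z hz hzc hK => (hf3 z hz hzc).trans ?_⟩
  exact mul_le_mul_of_nonneg_left (Real.exp_le_exp.2 (mul_le_mul_of_nonneg_left hK hη)) hC

end

/-- on `Gam` the real part of `ze` is bounded -/
lemma ze_le_Gam {R : Rect} {xm d : ℝ} (hd : 0 < d) (h1 : R.x0 < xm - d) (h2 : xm + d < R.x1) :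
    ∃ K : ℝ, 0 < K ∧ ∀ z ∈ Gam R (xm - d) (xm + d), z ≠ top R xm → (ze (top R xm) z).re ≤ K := by
  set d0 := min d (R.y1 - R.y0) with hd0
  have hd0p : 0 < d0 := lt_min hd (by linarith [R.hy])
  refine ⟨d0⁻¹, by positivity, fun z hz hzc => ?_⟩
  by_cases him : z.im = R.y1
  · rw [ze_re]
    have : (z - top R xm).im = 0 := by simp [him]
    rw [this]; simp; positivity
  · refine (ze_re_le _ _).trans (inv_anti₀ hd0p ?_)
    have hS := Gam_sub _ _ _ hz
    have key : d ≤ |(z - top R xm).re| ∨ (R.y1 - R.y0) ≤ |(z - top R xm).im| := by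
      rcases hz with hB | ⟨_, h | h⟩
      · have hO : ¬ (R.x0 < z.re ∧ z.re < R.x1 ∧ R.y0 < z.im ∧ z.im < R.y1) := hB.2
        have hS' : R.x0 ≤ z.re ∧ z.re ≤ R.x1 ∧ R.y0 ≤ z.im ∧ z.im ≤ R.y1 := hS
        have h3 : z.im < R.y1 := lt_of_le_of_ne hS'.2.2.2 him
        by_cases ha : R.x0 < z.re
        · by_cases hb : z.re < R.x1
          · have hc : z.im = R.y0 := le_antisymm (not_lt.1 fun h => hO ⟨ha, hb, h, h3⟩) hS'.2.2.1
            right
            rw [Complex.sub_im, top_im, hc, abs_sub_comm, abs_of_pos (by linarith [R.hy])]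
          · left
            have : z.re = R.x1 := le_antisymm hS'.2.1 (not_lt.1 hb)
            rw [Complex.sub_re, top_re, this, abs_of_pos (by linarith)]; linarith
        · left
          have : z.re = R.x0 := le_antisymm (not_lt.1 ha) hS'.1
          rw [Complex.sub_re, top_re, this, abs_sub_comm, abs_of_pos (by linarith)]; linarith
      · left; rw [Complex.sub_re, top_re, h]; simp [abs_of_pos hd]
      · left; rw [Complex.sub_re, top_re, h]; simp [abs_of_pos hd]
    rcases key with h | h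
    · exact (min_le_left _ _).trans (h.trans (Complex.abs_re_le_norm _))
    · exact (min_le_right _ _).trans (h.trans (Complex.abs_im_le_norm _))

/-- the function `h` attached to a function of `BB` -/
theorem BB.flat {R : Rect} {c : ℂ} {f : ℂ → ℂ} (hc : c.im = R.y1) (hcO : c ∉ R.O) (hf : BB R c f) :
    ∃ h : ℂ → ℂ, AR R h ∧ (∀ z ∈ R.S, h z = 0 ↔ z = c) ∧ AR R (fun z => h z * f z) := by
  obtain ⟨f1, f2, η, C, hη, hC, hf3⟩ := hf
  set h : ℂ → ℂ := fun z => (z - c) * Complex.exp (-(η : ℂ) * ze c z) with hh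
  have hnorm : ∀ z, ‖h z‖ = ‖z - c‖ * Real.exp (-(η * (ze c z).re)) := by
    intro z
    simp only [hh, norm_mul, Complex.norm_exp]
    congr 2
    simp
  have hzediff : DifferentiableOn ℂ (ze c) {c}ᶜ := by
    intro z hz
    unfold ze
    have : z - c ≠ 0 := sub_ne_zero.2 hz
    fun_prop (disch := exact this)
  have hdiff : DifferentiableOn ℂ h {c}ᶜ := by
    intro z hz
    exact ((differentiableAt_id.sub_const c).differentiableWithinAt).mul
      (((hzediff z hz).const_mul _).cexp)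
  have hle : ∀ z ∈ R.S, ‖h z‖ ≤ ‖z - c‖ := by
    intro z hz
    rw [hnorm]
    refine mul_le_of_le_one_right (norm_nonneg _) (Real.exp_le_one_iff.2 ?_)
    exact neg_nonpos.2 (mul_nonneg hη (ze_re_nonneg hc hz))
  have hhc : h c = 0 := by simp [hh]
  have hOc : R.O ⊆ {c}ᶜ := fun z hz h => hcO (by rw [Set.mem_singleton_iff] at h; rwa [← h])
  have contAt : ∀ g : ℂ → ℂ, g c = 0 → (∃ M : ℝ, ∀ z ∈ R.S, ‖g z‖ ≤ M * ‖z - c‖) →
      ContinuousWithinAt g R.S c := by
    rintro g hg ⟨M, hM⟩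
    unfold ContinuousWithinAt
    rw [hg, tendsto_zero_iff_norm_tendsto_zero]
    refine squeeze_zero' (Eventually.of_forall fun z => norm_nonneg _)
      (eventually_nhdsWithin_of_forall hM) ?_
    have : Tendsto (fun z : ℂ => M * ‖z - c‖) (𝓝 c) (𝓝 (M * ‖c - c‖)) := by
      exact (Continuous.tendsto (by fun_prop) c)
    simpa using this.mono_left nhdsWithin_le_nhds
  have contOn : ∀ g : ℂ → ℂ, ContinuousOn g (R.S \ {c}) → g c = 0 →
      (∃ M : ℝ, ∀ z ∈ R.S, ‖g z‖ ≤ M * ‖z - c‖) → ContinuousOn g R.S := by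
    intro g h1 h2 h3 z hz
    by_cases hzc : z = c
    · rw [hzc]; exact contAt g h2 h3
    · have := h1 z ⟨hz, hzc⟩
      refine (this.mono_of_mem_nhdsWithin ?_)
      exact Filter.inter_mem self_mem_nhdsWithin
        (mem_nhdsWithin_of_mem_nhds (isOpen_compl_singleton.mem_nhds hzc))
  refine ⟨h, ⟨contOn h (hdiff.continuousOn.mono fun z hz => hz.2) hhc
      ⟨1, fun z hz => by simpa using hle z hz⟩, hdiff.mono hOc⟩, fun z _ => ?_, ?_, ?_⟩
  · constructor
    · intro h0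
      rcases mul_eq_zero.1 h0 with h1 | h1
      · exact sub_eq_zero.1 h1
      · exact absurd h1 (Complex.exp_ne_zero _)
    · rintro rfl; exact hhc
  · refine contOn _ (((hdiff.continuousOn.mono fun z hz => hz.2)).mul f1) (by simp [hhc])
      ⟨C, fun z hz => ?_⟩
    by_cases hzc : z = c
    · simp [hzc, hhc]
    rw [norm_mul, hnorm]
    calc ‖z - c‖ * Real.exp (-(η * (ze c z).re)) * ‖f z‖
        ≤ ‖z - c‖ * Real.exp (-(η * (ze c z).re)) * (C * Real.exp (η * (ze c z).re)) :=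
          mul_le_mul_of_nonneg_left (hf3 z hz hzc) (by positivity)
      _ = C * ‖z - c‖ * (Real.exp (-(η * (ze c z).re)) * Real.exp (η * (ze c z).re)) := by ring
      _ = C * ‖z - c‖ := by rw [← Real.exp_add]; simp
  · exact (hdiff.mono hOc).mul f2

end Pool.Agent.Lib.GEX
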