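import Pool.Agent.Lib.GEX.Integ
import Pool.Agent.Lib.GEX.DefsB

/-!
# GEX.VICut: the total variation after a cut  (2 h)

Top side (and bottom side, `y = y1` or `y0`): for `x ≠ xm`, with `p x = ‖P (x + y i)‖` (`0` for `x > xm + d`), `q x = ‖1 - P (x + y i)‖` (`0` for `x < xm - d`), pointwise
`p x + q x ≤ 1 + 2 e + 6 * 1_{|x - xm| ≤ d'}`: for `x ≤ xm - d'` `|P| ≤ 1 + e`, `|1-P| ≤ e`; for `x ≥ xm + d'` symmetric; in the middle `|P| ≤ 3`, `|1 - P| ≤ 4`. Multiply by `‖H‖ ≤ M` and integrate over `[x0, x1]`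
(write the integrals over `[x0, xm+d]` and `[xm-d, x1]` as integrals over `[x0,x1]` of indicator functions, or split `[x0,x1]` at `xm-d, xm-d', xm+d', xm+d`):
`∫ ‖HP‖ + ∫ ‖H(1-P)‖ ≤ ∫ ‖H‖ + 2 e M (x1 - x0) + 12 M d'`. Left side `re = x0`: `‖HP‖ ≤ (1+e)‖H‖`; right side `re = x1`: `‖H(1-P)‖ ≤ (1+e)‖H‖`; `re = xm + d`: `‖HP‖ ≤ e M`; `re = xm - d`: `‖H(1-P)‖ ≤ e M`.
Total: `VI R ‖H‖ + M (24 d' + 4 e (x1 - x0) + 4 e (y1 - y0))`.
-/

open Set MeasureTheory Filter Topology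
open Complex (I)

namespace Pool.Agent.Lib.GEX

namespace VICutAux

theorem sub {f : ℝ → ℝ} {a b c d : ℝ} (h : IntervalIntegrable f volume a b) (hac : a ≤ c)
    (hcd : c ≤ d) (hdb : d ≤ b) : IntervalIntegrable f volume c d := by
  refine h.mono_set ?_
  rw [uIcc_of_le hcd, uIcc_of_le (hac.trans (hcd.trans hdb))]
  exact Icc_subset_Icc hac hdb

theorem mono1 {f g : ℝ → ℝ} {a b : ℝ} (hab : a ≤ b) (hf : IntervalIntegrable f volume a b)
    (hg : IntervalIntegrable g volume a b) (c k : ℝ)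
    (h : ∀ x ∈ Icc a b, x ≠ c → f x ≤ g x + k) :
    ∫ x in a..b, f x ≤ (∫ x in a..b, g x) + k * (b - a) := by
  have e1 : (∫ x in a..b, g x) + k * (b - a) = ∫ x in a..b, (g x + k) := by
    rw [intervalIntegral.integral_add hg intervalIntegrable_const]
    simp [mul_comm]
  rw [e1]
  refine intervalIntegral.integral_mono_ae_restrict hab hf
    (hg.add intervalIntegrable_const) ?_
  have h1 : ∀ᵐ x ∂(volume.restrict (Icc a b)), x ∉ ({c} : Set ℝ) :=
    ae_restrict_of_ae ((finite_singleton c).countable.ae_notMem volume)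
  have h2 : ∀ᵐ x ∂(volume.restrict (Icc a b)), x ∈ Icc a b := ae_restrict_mem measurableSet_Icc
  filter_upwards [h1, h2] with x hx1 hx2
  exact h x hx2 fun hc => hx1 (by simp [hc])

theorem mono0 {f : ℝ → ℝ} {a b : ℝ} (hab : a ≤ b) (hf : IntervalIntegrable f volume a b) (k : ℝ)
    (h : ∀ x ∈ Icc a b, f x ≤ k) : ∫ x in a..b, f x ≤ k * (b - a) := by
  have := mono1 hab hf (g := fun _ => 0) intervalIntegrable_const 0 k
    (fun x hx _ => by simpa using h x hx)
  simpa using this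

theorem side {x0 x1 m d d' e M : ℝ} (hd' : 0 < d') (hdd : d' ≤ d) (h1 : x0 < m - d)
    (h2 : m + d < x1) (he : 0 < e) (hM : 0 ≤ M) {A B C : ℝ → ℝ}
    (iA : IntervalIntegrable A volume x0 (m + d)) (iB : IntervalIntegrable B volume (m - d) x1)
    (iC : IntervalIntegrable C volume x0 x1)
    (hA : ∀ x ∈ Icc x0 (m - d'), A x ≤ C x + e * M)
    (hB : ∀ x ∈ Icc (m + d') x1, B x ≤ C x + e * M)
    (hA2 : ∀ x ∈ Icc (m + d') (m + d), A x ≤ e * M)
    (hB2 : ∀ x ∈ Icc (m - d) (m - d'), B x ≤ e * M)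
    (hAB : ∀ x ∈ Icc (m - d') (m + d'), x ≠ m → A x + B x ≤ C x + 6 * M) :
    (∫ x in x0..(m + d), A x) + (∫ x in (m - d)..x1, B x) ≤
      (∫ x in x0..x1, C x) + 2 * e * M * (x1 - x0) + 12 * M * d' := by
  have iA1 := sub iA le_rfl (show x0 ≤ m - d by linarith) (by linarith)
  have iA2 := sub iA (show x0 ≤ m - d by linarith) (show m - d ≤ m - d' by linarith) (by linarith)
  have iA3 := sub iA (show x0 ≤ m - d' by linarith) (show m - d' ≤ m + d' by linarith)
    (by linarith)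
  have iA4 := sub iA (show x0 ≤ m + d' by linarith) (show m + d' ≤ m + d by linarith) le_rfl
  have iB2 := sub iB le_rfl (show m - d ≤ m - d' by linarith) (by linarith)
  have iB3 := sub iB (show m - d ≤ m - d' by linarith) (show m - d' ≤ m + d' by linarith)
    (by linarith)
  have iB4 := sub iB (show m - d ≤ m + d' by linarith) (show m + d' ≤ m + d by linarith)
    (by linarith)
  have iB5 := sub iB (show m - d ≤ m + d by linarith) (show m + d ≤ x1 by linarith) le_rfl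
  have iC1 := sub iC le_rfl (show x0 ≤ m - d by linarith) (by linarith)
  have iC2 := sub iC (show x0 ≤ m - d by linarith) (show m - d ≤ m - d' by linarith) (by linarith)
  have iC3 := sub iC (show x0 ≤ m - d' by linarith) (show m - d' ≤ m + d' by linarith)
    (by linarith)
  have iC4 := sub iC (show x0 ≤ m + d' by linarith) (show m + d' ≤ m + d by linarith)
    (by linarith)
  have iC5 := sub iC (show x0 ≤ m + d by linarith) (show m + d ≤ x1 by linarith) le_rfl
  have sA : (∫ x in x0..(m + d), A x) = (∫ x in x0..(m - d), A x) + (∫ x in (m - d)..(m - d'), A x)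
      + (∫ x in (m - d')..(m + d'), A x) + (∫ x in (m + d')..(m + d), A x) := by
    rw [intervalIntegral.integral_add_adjacent_intervals iA1 iA2,
      intervalIntegral.integral_add_adjacent_intervals (iA1.trans iA2) iA3,
      intervalIntegral.integral_add_adjacent_intervals ((iA1.trans iA2).trans iA3) iA4]
  have sB : (∫ x in (m - d)..x1, B x) = (∫ x in (m - d)..(m - d'), B x)
      + (∫ x in (m - d')..(m + d'), B x) + (∫ x in (m + d')..(m + d), B x)
      + (∫ x in (m + d)..x1, B x) := by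
    rw [intervalIntegral.integral_add_adjacent_intervals iB2 iB3,
      intervalIntegral.integral_add_adjacent_intervals (iB2.trans iB3) iB4,
      intervalIntegral.integral_add_adjacent_intervals ((iB2.trans iB3).trans iB4) iB5]
  have sC : (∫ x in x0..x1, C x) = (∫ x in x0..(m - d), C x) + (∫ x in (m - d)..(m - d'), C x)
      + (∫ x in (m - d')..(m + d'), C x) + (∫ x in (m + d')..(m + d), C x)
      + (∫ x in (m + d)..x1, C x) := by
    rw [intervalIntegral.integral_add_adjacent_intervals iC1 iC2,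
      intervalIntegral.integral_add_adjacent_intervals (iC1.trans iC2) iC3,
      intervalIntegral.integral_add_adjacent_intervals ((iC1.trans iC2).trans iC3) iC4,
      intervalIntegral.integral_add_adjacent_intervals (((iC1.trans iC2).trans iC3).trans iC4) iC5]
  have b1 := mono1 (show x0 ≤ m - d by linarith) iA1 iC1 0 (e * M)
    (fun x hx _ => hA x ⟨hx.1, hx.2.trans (by linarith)⟩)
  have b2 := mono1 (show m - d ≤ m - d' by linarith) iA2 iC2 0 (e * M)
    (fun x hx _ => hA x ⟨(show x0 ≤ m - d by linarith).trans hx.1, hx.2⟩)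
  have b2' := mono0 (show m - d ≤ m - d' by linarith) iB2 (e * M) hB2
  have b3 := mono1 (show m - d' ≤ m + d' by linarith) (iA3.add iB3) iC3 m (6 * M)
    (fun x hx hxm => hAB x hx hxm)
  have b4 := mono1 (show m + d' ≤ m + d by linarith) iB4 iC4 0 (e * M)
    (fun x hx _ => hB x ⟨hx.1, hx.2.trans (by linarith)⟩)
  have b4' := mono0 (show m + d' ≤ m + d by linarith) iA4 (e * M) hA2
  have b5 := mono1 (show m + d ≤ x1 by linarith) iB5 iC5 0 (e * M)
    (fun x hx _ => hB x ⟨(show m + d' ≤ m + d by linarith).trans hx.1, hx.2⟩)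
  rw [intervalIntegral.integral_add iA3 iB3] at b3
  rw [sA, sB, sC]
  have heM : 0 ≤ e * M := mul_nonneg he.le hM
  nlinarith [mul_nonneg heM (show 0 ≤ x1 - x0 - 2 * d by linarith),
    mul_nonneg heM hd'.le]

end VICutAux

open VICutAux IntegAux

theorem VI_cut {R : Rect} {xm d : ℝ} (hd : 0 < d) (h1 : R.x0 < xm - d) (h2 : xm + d < R.x1)
    {H P : ℂ → ℂ} (hH : NS (Gam R (xm - d) (xm + d)) H) (hP : NS (Gam R (xm - d) (xm + d)) P)
    {M : ℝ} (hM : ∀ z ∈ Gam R (xm - d) (xm + d), ‖H z‖ ≤ M) {d' e : ℝ} (hd' : 0 < d')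
    (hdd : d' ≤ d) (he : 0 < e) (he1 : e ≤ 1)
    (hb : ∀ z ∈ Gam R (xm - d) (xm + d), z ≠ top R xm →
      ‖P z‖ ≤ 3 ∧ (z.re ≤ xm - d' → ‖1 - P z‖ ≤ e) ∧ (xm + d' ≤ z.re → ‖P z‖ ≤ e)) :
    VI (R.left (xm + d) (by linarith)) (fun z => ‖H z * P z‖) +
      VI (R.right (xm - d) (by linarith)) (fun z => ‖H z * (1 - P z)‖) ≤
      VI R (fun z => ‖H z‖) + M * (24 * d' + 4 * e * ((R.x1 - R.x0) + (R.y1 - R.y0))) := by
  have hBG : R.B ⊆ Gam R (xm - d) (xm + d) := subset_union_left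
  have hx0 := R.hx
  have hy0 := R.hy
  have hM0 : 0 ≤ M :=
    (norm_nonneg _).trans (hM _ (hBG (bot (R := R) (x := R.x0) ⟨le_rfl, hx0.le⟩)))
  have heM : 0 ≤ e * M := mul_nonneg he.le hM0
  -- pointwise bounds
  have pA : ∀ z ∈ Gam R (xm - d) (xm + d), z.re ≤ xm - d' → ‖H z * P z‖ ≤ ‖H z‖ + e * M := by
    intro z hz hr
    have hne : z ≠ top R xm := fun h => by rw [h, top_re] at hr; linarith
    have h3 := (hb z hz hne).2.1 hr
    have h4 : ‖P z‖ ≤ 1 + e := by
      calc ‖P z‖ = ‖1 - (1 - P z)‖ := by congr 1; ring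
        _ ≤ ‖(1 : ℂ)‖ + ‖1 - P z‖ := norm_sub_le _ _
        _ ≤ 1 + e := by rw [norm_one]; linarith
    rw [norm_mul]
    nlinarith [mul_le_mul_of_nonneg_left h4 (norm_nonneg (H z)),
      mul_le_mul_of_nonneg_left (hM z hz) he.le]
  have pB : ∀ z ∈ Gam R (xm - d) (xm + d), xm + d' ≤ z.re →
      ‖H z * (1 - P z)‖ ≤ ‖H z‖ + e * M := by
    intro z hz hr
    have hne : z ≠ top R xm := fun h => by rw [h, top_re] at hr; linarith
    have h3 := (hb z hz hne).2.2 hr
    have h4 : ‖1 - P z‖ ≤ 1 + e := by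
      calc ‖1 - P z‖ ≤ ‖(1 : ℂ)‖ + ‖P z‖ := norm_sub_le _ _
        _ ≤ 1 + e := by rw [norm_one]; linarith
    rw [norm_mul]
    nlinarith [mul_le_mul_of_nonneg_left h4 (norm_nonneg (H z)),
      mul_le_mul_of_nonneg_left (hM z hz) he.le]
  have pA2 : ∀ z ∈ Gam R (xm - d) (xm + d), xm + d' ≤ z.re → ‖H z * P z‖ ≤ e * M := by
    intro z hz hr
    have hne : z ≠ top R xm := fun h => by rw [h, top_re] at hr; linarith
    have h3 := (hb z hz hne).2.2 hr
    rw [norm_mul, mul_comm]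
    exact mul_le_mul h3 (hM z hz) (norm_nonneg _) he.le
  have pB2 : ∀ z ∈ Gam R (xm - d) (xm + d), z.re ≤ xm - d' → ‖H z * (1 - P z)‖ ≤ e * M := by
    intro z hz hr
    have hne : z ≠ top R xm := fun h => by rw [h, top_re] at hr; linarith
    have h3 := (hb z hz hne).2.1 hr
    rw [norm_mul, mul_comm]
    exact mul_le_mul h3 (hM z hz) (norm_nonneg _) he.le
  have pAB : ∀ z ∈ Gam R (xm - d) (xm + d), z ≠ top R xm →
      ‖H z * P z‖ + ‖H z * (1 - P z)‖ ≤ ‖H z‖ + 6 * M := by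
    intro z hz hne
    have h3 := (hb z hz hne).1
    have h4 : ‖1 - P z‖ ≤ 4 := by
      calc ‖1 - P z‖ ≤ ‖(1 : ℂ)‖ + ‖P z‖ := norm_sub_le _ _
        _ ≤ 4 := by rw [norm_one]; linarith
    rw [norm_mul, norm_mul]
    nlinarith [mul_le_mul_of_nonneg_left h4 (norm_nonneg (H z)),
      mul_le_mul_of_nonneg_left h3 (norm_nonneg (H z)), hM z hz]
  -- membership
  have gB : ∀ x : ℝ, x ∈ Icc R.x0 R.x1 → ((x : ℂ) + R.y0 * I) ∈ Gam R (xm - d) (xm + d) :=
    fun x hx => hBG (bot hx)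
  have gT : ∀ x : ℝ, x ∈ Icc R.x0 R.x1 → ((x : ℂ) + R.y1 * I) ∈ Gam R (xm - d) (xm + d) :=
    fun x hx => hBG (tp hx)
  have gV : ∀ x y : ℝ, x ∈ Icc R.x0 R.x1 → y ∈ Icc R.y0 R.y1 →
      (x = xm - d ∨ x = xm + d ∨ x = R.x0 ∨ x = R.x1) →
      ((x : ℂ) + y * I) ∈ Gam R (xm - d) (xm + d) := by
    intro x y hx hy h
    have hS : ((x : ℂ) + y * I) ∈ R.S := by
      refine ⟨?_, ?_, ?_, ?_⟩
      · simpa using hx.1
      · simpa using hx.2
      · simpa using hy.1
      · simpa using hy.2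
    rcases h with h | h | h | h
    · exact Or.inr ⟨hS, Or.inl (by simpa using h)⟩
    · exact Or.inr ⟨hS, Or.inr (by simpa using h)⟩
    · rw [h]; exact hBG (lt hy)
    · rw [h]; exact hBG (rt hy)
  have nHP : NS (Gam R (xm - d) (xm + d)) (fun z => H z * P z) := hH.mul hP
  have nHQ : NS (Gam R (xm - d) (xm + d)) (fun z => H z * (1 - P z)) :=
    hH.mul ((NS.const _ 1).sub hP)
  -- horizontal sides
  have hor : ∀ y : ℝ, (y = R.y0 ∨ y = R.y1) →
      (∫ x in R.x0..(xm + d), ‖H (x + y * I) * P (x + y * I)‖) +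
        (∫ x in (xm - d)..R.x1, ‖H (x + y * I) * (1 - P (x + y * I))‖) ≤
      (∫ x in R.x0..R.x1, ‖H (x + y * I)‖) + 2 * e * M * (R.x1 - R.x0) + 12 * M * d' := by
    intro y hy
    have g : ∀ x : ℝ, x ∈ Icc R.x0 R.x1 → ((x : ℂ) + y * I) ∈ Gam R (xm - d) (xm + d) := by
      rcases hy with rfl | rfl
      · exact gB
      · exact gT
    have re1 : ∀ x : ℝ, ((x : ℂ) + y * I).re = x := fun x => by simp
    refine side (m := xm) hd' hdd h1 h2 he hM0 ?_ ?_ ?_ ?_ ?_ ?_ ?_ ?_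
    · refine (nHP.intH fun x hx => g x ?_).norm
      rw [uIcc_of_le (by linarith)] at hx
      exact ⟨hx.1, hx.2.trans (by linarith)⟩
    · refine (nHQ.intH fun x hx => g x ?_).norm
      rw [uIcc_of_le (by linarith)] at hx
      exact ⟨(show R.x0 ≤ xm - d by linarith).trans hx.1, hx.2⟩
    · refine (hH.intH fun x hx => g x ?_).norm
      rwa [uIcc_of_le hx0.le] at hx
    · intro x hx
      exact pA _ (g x ⟨hx.1, hx.2.trans (by linarith)⟩) (by rw [re1]; exact hx.2)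
    · intro x hx
      exact pB _ (g x ⟨(show R.x0 ≤ xm + d' by linarith).trans hx.1, hx.2⟩)
        (by rw [re1]; exact hx.1)
    · intro x hx
      exact pA2 _ (g x ⟨(show R.x0 ≤ xm + d' by linarith).trans hx.1, hx.2.trans (by linarith)⟩)
        (by rw [re1]; exact hx.1)
    · intro x hx
      exact pB2 _ (g x ⟨(show R.x0 ≤ xm - d by linarith).trans hx.1, hx.2.trans (by linarith)⟩)
        (by rw [re1]; exact hx.2)
    · intro x hx hxm
      refine pAB _ (g x ⟨(show R.x0 ≤ xm - d' by linarith).trans hx.1,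
        hx.2.trans (by linarith)⟩) fun h => hxm ?_
      have := congrArg Complex.re h
      rwa [re1, top_re] at this
  -- vertical sides
  have v1 : ∫ y in R.y0..R.y1, ‖H ((xm + d : ℝ) + y * I) * P ((xm + d : ℝ) + y * I)‖ ≤
      e * M * (R.y1 - R.y0) := by
    have g : ∀ y ∈ Icc R.y0 R.y1, ((((xm + d : ℝ) : ℂ)) + y * I) ∈ Gam R (xm - d) (xm + d) :=
      fun y hy => gV _ _ ⟨by linarith, by linarith⟩ hy (Or.inr (Or.inl rfl))
    refine mono0 hy0.le (nHP.intV fun y hy => g y (uy hy)).norm _ fun y hy => ?_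
    exact pA2 _ (g y hy) (by simp; linarith)
  have v2 : ∫ y in R.y0..R.y1, ‖H ((xm - d : ℝ) + y * I) * (1 - P ((xm - d : ℝ) + y * I))‖ ≤
      e * M * (R.y1 - R.y0) := by
    have g : ∀ y ∈ Icc R.y0 R.y1, ((((xm - d : ℝ) : ℂ)) + y * I) ∈ Gam R (xm - d) (xm + d) :=
      fun y hy => gV _ _ ⟨by linarith, by linarith⟩ hy (Or.inl rfl)
    refine mono0 hy0.le (nHQ.intV fun y hy => g y (uy hy)).norm _ fun y hy => ?_
    exact pB2 _ (g y hy) (by simp; linarith)
  have v3 : ∫ y in R.y0..R.y1, ‖H (R.x0 + y * I) * P (R.x0 + y * I)‖ ≤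
      (∫ y in R.y0..R.y1, ‖H (R.x0 + y * I)‖) + e * M * (R.y1 - R.y0) := by
    have g : ∀ y ∈ Icc R.y0 R.y1, ((R.x0 : ℂ) + y * I) ∈ Gam R (xm - d) (xm + d) :=
      fun y hy => hBG (lt hy)
    refine mono1 hy0.le (nHP.intV fun y hy => g y (uy hy)).norm
      (hH.intV fun y hy => g y (uy hy)).norm (R.y0 - 1) _ fun y hy _ => ?_
    exact pA _ (g y hy) (by simp; linarith)
  have v4 : ∫ y in R.y0..R.y1, ‖H (R.x1 + y * I) * (1 - P (R.x1 + y * I))‖ ≤
      (∫ y in R.y0..R.y1, ‖H (R.x1 + y * I)‖) + e * M * (R.y1 - R.y0) := by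
    have g : ∀ y ∈ Icc R.y0 R.y1, ((R.x1 : ℂ) + y * I) ∈ Gam R (xm - d) (xm + d) :=
      fun y hy => hBG (rt hy)
    refine mono1 hy0.le (nHQ.intV fun y hy => g y (uy hy)).norm
      (hH.intV fun y hy => g y (uy hy)).norm (R.y0 - 1) _ fun y hy _ => ?_
    exact pB _ (g y hy) (by simp; linarith)
  have w0 := hor R.y0 (Or.inl rfl)
  have w1 := hor R.y1 (Or.inr rfl)
  simp only [VI, Rect.left, Rect.right]
  nlinarith [w0, w1, v1, v2, v3, v4]

end Pool.Agent.Lib.GEX
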