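import Pool.Agent.Lib.GEX.VFun
import Pool.Agent.Lib.GEX.Split
import Pool.Agent.Lib.GEX.VICut

/-!
# GEX.Base: a vertical cut with contact point on the top side  (2.5 h)

`c = top R xm`, `Γ = Gam R (xm-d) (xm+d)`. `H` is `NS` on `Γ`: bounded on `R.B` (`bdd`), on the two vertical segments it is continuous (compact, `a, b` not on them). Let `M ≥ 1` bound `‖H‖` on `Γ`,
`S = 4((x1-x0)+(y1-y0))`, `Z ≥ 1` a bound of `‖z‖` on `R.S`. `vfun` with `d' = min d (ε/(48 M))`, `e = min 1 (ε/(4 M Z S))`. `P` is `NS` on `Γ` (continuous off `c`, bounded by `max 3 ‖P c‖`).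
(1) `HOK R' a c ha h (H P)`: `R'.S ⊆ R.S`, `b ∉ R'.S`. continuity off `a, c`: `H` cont off `a, b`, `P` off `c`; `ha (H P) = (ha H) P` on `R'.S \ {c}`; `h (H P) = H (h P)` on `R'.S \ {a}`; bounded on `R'.B ⊆ Γ`.
(2) `HOK R'' c b h hb (H (1-P))` similarly, `h (1-P) = h - hP`.
(3) identity: let `F ∈ A(R)`. `BI_split` at `t = xm + d` for `F H P` and at `xm - d` for `F H (1-P)` (all `NS` on `Γ`); `BI (R.right (xm+d)) (F H P) = 0` by `BI_eq_zero`, because there `F H P = F (hb H) Kb` (`contb`, `a ∉`);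
`BI (R.left (xm-d)) (F H (1-P)) = 0`: `= F (ha H) Ka`. Sum: `BI R (F H P) + BI R (F H (1-P)) = BI R (F H)` (`BI_add`, `BI_congr`).
(4) `VI_cut`. (5) conj: the same splitting; the two remaining integrals are `≤ VI` (`norm_BI_le`) `≤ Z M e * perimeter` (`VI_le` with a constant function, `VI_const`), since `‖P‖ ≤ e` on the boundary of `R.right (xm+d)` and
`‖1 - P‖ ≤ e` on that of `R.left (xm-d)` (except at `c`, which is not there). `‖conj z‖ = ‖z‖ ≤ Z`.
-/

open Set MeasureTheory Filter Topology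
open Complex (I)

namespace Pool.Agent.Lib.GEX

namespace BaseAux

lemma left_B {R : Rect} {t : ℝ} (h0 : R.x0 < t) (h1 : t < R.x1) :
    (R.left t h0).B ⊆ R.B ∪ {z ∈ R.S | z.re = t} := by
  rintro z ⟨hS, hO⟩
  rw [Rect.left_S h0 h1.le] at hS
  obtain ⟨hS, ht⟩ := hS
  by_cases h : z.re = t
  · exact Or.inr ⟨hS, h⟩
  · exact Or.inl ⟨hS, fun hO' => hO ⟨hO'.1, lt_of_le_of_ne ht h, hO'.2.2.1, hO'.2.2.2⟩⟩

lemma right_B {R : Rect} {t : ℝ} (h0 : R.x0 < t) (h1 : t < R.x1) :
    (R.right t h1).B ⊆ R.B ∪ {z ∈ R.S | z.re = t} := by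
  rintro z ⟨hS, hO⟩
  rw [Rect.right_S h1 h0.le] at hS
  obtain ⟨hS, ht⟩ := hS
  by_cases h : z.re = t
  · exact Or.inr ⟨hS, h⟩
  · exact Or.inl ⟨hS, fun hO' => hO ⟨lt_of_le_of_ne ht (Ne.symm h), hO'.2.1, hO'.2.2.1,
      hO'.2.2.2⟩⟩

lemma sub_G1 (R : Rect) (s t : ℝ) : R.B ∪ {z ∈ R.S | z.re = s} ⊆ Gam R s t := by
  rintro z (h | ⟨h1, h2⟩)
  · exact Or.inl h
  · exact Or.inr ⟨h1, Or.inl h2⟩

lemma sub_G2 (R : Rect) (s t : ℝ) : R.B ∪ {z ∈ R.S | z.re = t} ⊆ Gam R s t := by
  rintro z (h | ⟨h1, h2⟩)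
  · exact Or.inl h
  · exact Or.inr ⟨h1, Or.inr h2⟩

/-- the boundary function is bounded and continuous off a finite set on `Gam` -/
lemma nsH {R : Rect} {a b : ℂ} {ha hb H : ℂ → ℂ} (hH : HOK R a b ha hb H) {s t : ℝ}
    (ha1 : a.re ≠ s) (ha2 : a.re ≠ t) (hb1 : b.re ≠ s) (hb2 : b.re ≠ t) :
    NS (Gam R s t) H := by
  refine ⟨⟨{a, b}, (Set.finite_singleton b).insert a,
    hH.cont.mono (sdiff_subset_sdiff_left (Gam_sub R s t))⟩, ?_⟩
  obtain ⟨M, hM⟩ := hH.bdd
  have hKc : IsCompact {z : ℂ | z ∈ R.S ∧ (z.re = s ∨ z.re = t)} := by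
    have h1 : {z : ℂ | z ∈ R.S ∧ (z.re = s ∨ z.re = t)} =
        R.S ∩ ({z : ℂ | z.re = s} ∪ {z : ℂ | z.re = t}) := by
      ext z
      simp only [mem_ofPred_eq, mem_inter_iff, mem_union]
    rw [h1]
    exact Rect.isCompact_S.inter_right ((isClosed_eq Complex.continuous_re continuous_const).union
      (isClosed_eq Complex.continuous_re continuous_const))
  have hKa : {z : ℂ | z ∈ R.S ∧ (z.re = s ∨ z.re = t)} ⊆ R.S \ {a, b} := by
    rintro z ⟨hz, h⟩
    refine ⟨hz, ?_⟩
    rintro (rfl | h')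
    · rcases h with h | h
      · exact ha1 h
      · exact ha2 h
    · rw [Set.mem_singleton_iff] at h'
      subst h'
      rcases h with h | h
      · exact hb1 h
      · exact hb2 h
  obtain ⟨M', hM'⟩ := hKc.exists_bound_of_continuousOn (hH.cont.mono hKa)
  refine ⟨max M M', fun z hz => ?_⟩
  rcases hz with h | h
  · exact (hM z h).trans (le_max_left _ _)
  · exact (hM' z h).trans (le_max_right _ _)

/-- the two functions at the node on the left -/
lemma hok_left {R : Rect} {a b : ℂ} {ha hb H : ℂ → ℂ} (hH : HOK R a b ha hb H) {xm d : ℝ}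
    (hd : 0 < d) (h1 : R.x0 < xm - d) (h2 : xm + d < R.x1) (ha' : a.re < xm - d)
    (hb' : xm + d < b.re) {P h : ℂ → ℂ} (hh : AR R h) (hz : ∀ z ∈ R.S, h z = 0 ↔ z = top R xm)
    (hhP : AR R (fun z => h z * P z)) (hPc : ContinuousOn P (R.S \ {top R xm}))
    (hPd : DifferentiableOn ℂ P R.O) (hn : NS (Gam R (xm - d) (xm + d)) (fun z => H z * P z))
    (h0 : R.x0 < xm + d) :
    HOK (R.left (xm + d) h0) a (top R xm) ha h (fun z => H z * P z) := by
  have hSS : (R.left (xm + d) h0).S ⊆ R.S := by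
    rw [Rect.left_S h0 h2.le]
    exact fun z hz => hz.1
  have hre : ∀ z ∈ (R.left (xm + d) h0).S, z.re ≤ xm + d := by
    rw [Rect.left_S h0 h2.le]
    exact fun z hz => hz.2
  have hOO := Rect.left_O_sub h0 h2.le
  have hnb : ∀ z ∈ (R.left (xm + d) h0).S, z ≠ b := by
    rintro z hz rfl
    exact absurd (hre z hz) (not_le.2 hb')
  refine ⟨?_, ?_, ?_, hH.arA.mono hSS hOO, hh.mono hSS hOO, fun z hzS => hH.zA z (hSS hzS),
    fun z hzS => (hz z (hSS hzS)).1, ?_, (hH.diff.mono hOO).mul (hPd.mono hOO), ?_, ?_, ?_⟩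
  · rw [Rect.left_S h0 h2.le]
    exact ⟨hH.a_mem, by linarith⟩
  · rw [Rect.left_S h0 h2.le]
    refine ⟨⟨?_, ?_, ?_, ?_⟩, ?_⟩
    · rw [top_re]; linarith
    · rw [top_re]; linarith
    · rw [top_im]; exact R.hy.le
    · rw [top_im]
    · rw [top_re]; linarith
  · intro h
    rw [h, top_re] at ha'
    linarith
  · have e1 : (R.left (xm + d) h0).S \ {a, top R xm} ⊆ R.S \ {a, b} := by
      rintro z ⟨hzS, hz2⟩
      refine ⟨hSS hzS, ?_⟩
      rintro (h | h)
      · exact hz2 (Or.inl h)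
      · exact hnb z hzS h
    have e2 : (R.left (xm + d) h0).S \ {a, top R xm} ⊆ R.S \ {top R xm} := by
      rintro z ⟨hzS, hz2⟩
      exact ⟨hSS hzS, fun h => hz2 (Or.inr h)⟩
    exact (hH.cont.mono e1).mul (hPc.mono e2)
  · have e1 : (R.left (xm + d) h0).S \ {top R xm} ⊆ R.S \ {b} := by
      rintro z ⟨hzS, hz2⟩
      exact ⟨hSS hzS, fun h => hnb z hzS h⟩
    have e2 : (R.left (xm + d) h0).S \ {top R xm} ⊆ R.S \ {top R xm} :=
      sdiff_subset_sdiff_left hSS
    refine ((hH.conta.mono e1).mul (hPc.mono e2)).congr fun z _ => ?_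
    exact (mul_assoc _ _ _).symm
  · have e1 : (R.left (xm + d) h0).S \ {a} ⊆ R.S \ {a, b} := by
      rintro z ⟨hzS, hz2⟩
      refine ⟨hSS hzS, ?_⟩
      rintro (h | h)
      · exact hz2 h
      · exact hnb z hzS h
    refine ((hH.cont.mono e1).mul (hhP.1.mono ((sdiff_subset).trans hSS))).congr fun z _ => ?_
    show h z * (H z * P z) = H z * (h z * P z)
    ring
  · obtain ⟨_, M, hM⟩ := hn
    exact ⟨M, fun z hz => hM z (sub_G2 R _ _ (left_B h0 h2 hz))⟩

/-- the two functions at the node on the right -/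
lemma hok_right {R : Rect} {a b : ℂ} {ha hb H : ℂ → ℂ} (hH : HOK R a b ha hb H) {xm d : ℝ}
    (hd : 0 < d) (h1 : R.x0 < xm - d) (h2 : xm + d < R.x1) (ha' : a.re < xm - d)
    (hb' : xm + d < b.re) {P h : ℂ → ℂ} (hh : AR R h) (hz : ∀ z ∈ R.S, h z = 0 ↔ z = top R xm)
    (hhP : AR R (fun z => h z * P z)) (hPc : ContinuousOn P (R.S \ {top R xm}))
    (hPd : DifferentiableOn ℂ P R.O)
    (hn : NS (Gam R (xm - d) (xm + d)) (fun z => H z * (1 - P z))) (h0 : xm - d < R.x1) :
    HOK (R.right (xm - d) h0) (top R xm) b h hb (fun z => H z * (1 - P z)) := by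
  have hSS : (R.right (xm - d) h0).S ⊆ R.S := by
    rw [Rect.right_S h0 h1.le]
    exact fun z hz => hz.1
  have hre : ∀ z ∈ (R.right (xm - d) h0).S, xm - d ≤ z.re := by
    rw [Rect.right_S h0 h1.le]
    exact fun z hz => hz.2
  have hOO := Rect.right_O_sub h0 h1.le
  have hna : ∀ z ∈ (R.right (xm - d) h0).S, z ≠ a := by
    rintro z hz rfl
    exact absurd (hre z hz) (not_le.2 ha')
  have hQc : ContinuousOn (fun z => 1 - P z) (R.S \ {top R xm}) := continuousOn_const.sub hPc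
  have hQd : DifferentiableOn ℂ (fun z => 1 - P z) R.O := (differentiableOn_const 1).sub hPd
  refine ⟨?_, ?_, ?_, hh.mono hSS hOO, hH.arB.mono hSS hOO, fun z hzS => (hz z (hSS hzS)).1,
    fun z hzS => hH.zB z (hSS hzS), ?_, (hH.diff.mono hOO).mul (hQd.mono hOO), ?_, ?_, ?_⟩
  · rw [Rect.right_S h0 h1.le]
    refine ⟨⟨?_, ?_, ?_, ?_⟩, ?_⟩
    · rw [top_re]; linarith
    · rw [top_re]; linarith
    · rw [top_im]; exact R.hy.le
    · rw [top_im]
    · rw [top_re]; linarith
  · rw [Rect.right_S h0 h1.le]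
    exact ⟨hH.b_mem, by linarith⟩
  · intro h
    rw [← h, top_re] at hb'
    linarith
  · have e1 : (R.right (xm - d) h0).S \ {top R xm, b} ⊆ R.S \ {a, b} := by
      rintro z ⟨hzS, hz2⟩
      refine ⟨hSS hzS, ?_⟩
      rintro (h | h)
      · exact hna z hzS h
      · exact hz2 (Or.inr h)
    have e2 : (R.right (xm - d) h0).S \ {top R xm, b} ⊆ R.S \ {top R xm} := by
      rintro z ⟨hzS, hz2⟩
      exact ⟨hSS hzS, fun h => hz2 (Or.inl h)⟩
    exact (hH.cont.mono e1).mul (hQc.mono e2)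
  · have e1 : (R.right (xm - d) h0).S \ {b} ⊆ R.S \ {a, b} := by
      rintro z ⟨hzS, hz2⟩
      refine ⟨hSS hzS, ?_⟩
      rintro (h | h)
      · exact hna z hzS h
      · exact hz2 h
    refine ((hH.cont.mono e1).mul ((hh.1.sub hhP.1).mono ((sdiff_subset).trans hSS))).congr
      fun z _ => ?_
    show h z * (H z * (1 - P z)) = H z * (h z - h z * P z)
    ring
  · have e1 : (R.right (xm - d) h0).S \ {top R xm} ⊆ R.S \ {a} := by
      rintro z ⟨hzS, hz2⟩
      exact ⟨hSS hzS, fun h => hna z hzS h⟩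
    have e2 : (R.right (xm - d) h0).S \ {top R xm} ⊆ R.S \ {top R xm} :=
      sdiff_subset_sdiff_left hSS
    refine ((hH.contb.mono e1).mul (hQc.mono e2)).congr fun z _ => ?_
    exact (mul_assoc _ _ _).symm
  · obtain ⟨_, M, hM⟩ := hn
    exact ⟨M, fun z hz => hM z (sub_G1 R _ _ (right_B h1 h0 hz))⟩

/-- a product which is in the algebra of a smaller rectangle -/
lemma ar_prod {R Q : Rect} (hS : Q.S ⊆ R.S) (hO : Q.O ⊆ R.O) {F g H K P : ℂ → ℂ} {w : ℂ}
    (hF : AR R F) (hg : AR R g) (hd : DifferentiableOn ℂ H R.O)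
    (hc : ContinuousOn (fun z => g z * H z) (R.S \ {w})) (hw : w ∉ Q.S) (hK : AR Q K)
    (hP : ∀ z ∈ Q.S, P z = g z * K z) : AR Q (fun z => F z * (H z * P z)) := by
  have h1 : AR Q (fun z => g z * H z) := by
    refine ⟨hc.mono fun z hz => ⟨hS hz, ?_⟩, (hg.2.mul hd).mono hO⟩
    rintro rfl
    exact hw hz
  refine (((hF.mono hS hO).mul h1).mul hK).congr fun z hz => ?_
  rw [hP z hz]
  ring

end BaseAux

open BaseAux in
theorem cutOK_base {R R' R'' : Rect} {a b c : ℂ} (h : VCut R R' R'' a b c) :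
    CutOK R R' R'' a b c := by
  obtain ⟨xm, d, hd, h1, h2, haS, hbS, ha', hb', rfl, rfl, rfl⟩ := h
  intro ha hb H hH ε hε
  have hl : R.x0 < xm + d := by linarith
  have hr : xm - d < R.x1 := by linarith
  have hnsH : NS (Gam R (xm - d) (xm + d)) H :=
    nsH hH ha'.ne (by linarith) (by linarith) hb'.ne'
  obtain ⟨M0, hM0⟩ := hnsH.2
  set M : ℝ := max M0 1 with hMdef
  have hM1 : 1 ≤ M := le_max_right _ _
  have hMb : ∀ z ∈ Gam R (xm - d) (xm + d), ‖H z‖ ≤ M := fun z hz =>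
    (hM0 z hz).trans (le_max_left _ _)
  obtain ⟨Z0, hZ0⟩ := (Rect.isCompact_S (R := R)).exists_bound_of_continuousOn
    (f := fun z : ℂ => z) continuousOn_id
  set Z : ℝ := max Z0 1 with hZdef
  have hZ1 : 1 ≤ Z := le_max_right _ _
  have hZb : ∀ z ∈ R.S, ‖z‖ ≤ Z := fun z hz => (hZ0 z hz).trans (le_max_left _ _)
  set L : ℝ := (R.x1 - R.x0) + (R.y1 - R.y0) with hL
  have hLp : 0 < L := by
    have := R.hx
    have := R.hy
    rw [hL]; linarith
  set d' : ℝ := min d (ε / (48 * M)) with hd'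
  set e : ℝ := min 1 (ε / (4 * M * Z * (4 * L))) with he
  have hMp : 0 < M := by linarith
  have hZp : 0 < Z := by linarith
  have hd'p : 0 < d' := lt_min hd (by positivity)
  have hep : 0 < e := lt_min one_pos (by positivity)
  have hd'd : d' ≤ d := min_le_left _ _
  have he1 : e ≤ 1 := min_le_left _ _
  have hMd : M * (24 * d') ≤ ε / 2 := by
    have h3 : d' ≤ ε / (48 * M) := min_le_right _ _
    have h4 : M * (24 * d') ≤ M * (24 * (ε / (48 * M))) := by gcongr
    refine h4.trans (le_of_eq ?_)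
    field_simp
    norm_num
  have hMe : Z * M * e * (4 * L) ≤ ε / 4 := by
    have h3 : e ≤ ε / (4 * M * Z * (4 * L)) := min_le_right _ _
    have h4 : Z * M * e * (4 * L) ≤ Z * M * (ε / (4 * M * Z * (4 * L))) * (4 * L) := by gcongr
    refine h4.trans (le_of_eq ?_)
    field_simp
  obtain ⟨P, h, Ka, Kb, hh, hz, hhP, hPc, hPd, hKb, hPKb, hKa, hPKa, hbd⟩ :=
    vfun R hd h1 h2 hH.arA hH.arB hH.zA hH.zB ha' hb' hd'p hep
  have hnsP : NS (Gam R (xm - d) (xm + d)) P := by
    refine ⟨⟨{top R xm}, finite_singleton _, hPc.mono (sdiff_subset_sdiff_left (Gam_sub R _ _))⟩,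
      max 3 ‖P (top R xm)‖, fun z hz => ?_⟩
    by_cases hzc : z = top R xm
    · rw [hzc]; exact le_max_right _ _
    · exact (hbd z hz hzc).1.trans (le_max_left _ _)
  have hnsQ : NS (Gam R (xm - d) (xm + d)) (fun z => 1 - P z) := (NS.const _ 1).sub hnsP
  have hnsHP : NS (Gam R (xm - d) (xm + d)) (fun z => H z * P z) := hnsH.mul hnsP
  have hnsHQ : NS (Gam R (xm - d) (xm + d)) (fun z => H z * (1 - P z)) := hnsH.mul hnsQ
  -- the splitting, for an arbitrary continuous factor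
  have split : ∀ F : ℂ → ℂ, ContinuousOn F R.S →
      BI R (fun z => F z * H z) =
        (BI (R.left (xm + d) hl) (fun z => F z * (H z * P z)) +
          BI (R.right (xm + d) h2) (fun z => F z * (H z * P z))) +
        (BI (R.left (xm - d) h1) (fun z => F z * (H z * (1 - P z))) +
          BI (R.right (xm - d) hr) (fun z => F z * (H z * (1 - P z)))) := by
    intro F hF
    have hnsF : NS (Gam R (xm - d) (xm + d)) F := NS.of_cont hF (Gam_sub R _ _)
    have hX := hnsF.mul hnsHP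
    have hY := hnsF.mul hnsHQ
    rw [← BI_split hl h2 (hX.mono (sub_G2 R _ _)), ← BI_split h1 hr (hY.mono (sub_G1 R _ _)),
      ← BI_add (hX.mono fun z hz => Or.inl hz) (hY.mono fun z hz => Or.inl hz)]
    refine BI_congr fun z _ => ?_
    ring
  have hSr : (R.right (xm + d) h2).S ⊆ R.S := by
    rw [Rect.right_S h2 hl.le]; exact fun z hz => hz.1
  have hSl : (R.left (xm - d) h1).S ⊆ R.S := by
    rw [Rect.left_S h1 hr.le]; exact fun z hz => hz.1
  refine ⟨P, h, hh, hz, hhP, hok_left hH hd h1 h2 ha' hb' hh hz hhP hPc hPd hnsHP hl,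
    hok_right hH hd h1 h2 ha' hb' hh hz hhP hPc hPd hnsHQ hr, fun F hF => ?_, ?_, ?_⟩
  · rw [split F hF.1]
    have e1 : BI (R.right (xm + d) h2) (fun z => F z * (H z * P z)) = 0 := by
      refine BI_eq_zero (ar_prod hSr (Rect.right_O_sub h2 hl.le) hF hH.arB hH.diff hH.contb ?_
        hKb hPKb)
      rw [Rect.right_S h2 hl.le]
      rintro ⟨_, h3⟩
      have h3' : xm + d ≤ a.re := h3
      linarith
    have e2 : BI (R.left (xm - d) h1) (fun z => F z * (H z * (1 - P z))) = 0 := by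
      refine BI_eq_zero (ar_prod (P := fun z => 1 - P z) hSl (Rect.left_O_sub h1 hr.le) hF hH.arA
        hH.diff hH.conta ?_ hKa hPKa)
      rw [Rect.left_S h1 hr.le]
      rintro ⟨_, h3⟩
      have h3' : b.re ≤ xm - d := h3
      linarith
    rw [e1, e2, add_zero, zero_add]
  · refine (VI_cut hd h1 h2 hnsH hnsP hMb hd'p hd'd hep he1 hbd).trans ?_
    have h3 : M * (24 * d' + 4 * e * ((R.x1 - R.x0) + (R.y1 - R.y0))) =
        M * (24 * d') + M * e * (4 * L) := by rw [hL]; ring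
    rw [h3]
    have h4 : M * e * (4 * L) ≤ Z * M * e * (4 * L) := by
      have h5 : 0 ≤ M * e * (4 * L) := by positivity
      calc M * e * (4 * L) = 1 * (M * e * (4 * L)) := (one_mul _).symm
        _ ≤ Z * (M * e * (4 * L)) := mul_le_mul_of_nonneg_right hZ1 h5
        _ = Z * M * e * (4 * L) := by ring
    linarith
  · rw [split (fun z => (starRingEnd ℂ) z) Complex.continuous_conj.continuousOn]
    have hnsF : NS (Gam R (xm - d) (xm + d)) (fun z => (starRingEnd ℂ) z) :=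
      NS.of_cont Complex.continuous_conj.continuousOn (Gam_sub R _ _)
    have hcn : ∀ z ∈ Gam R (xm - d) (xm + d), ‖(starRingEnd ℂ) z‖ ≤ Z := fun z hz => by
      rw [RCLike.norm_conj]
      exact hZb z (Gam_sub R _ _ hz)
    have hconst : ‖((Z * M * e : ℝ) : ℂ)‖ = Z * M * e := by
      rw [Complex.norm_real, Real.norm_eq_abs, abs_of_nonneg (by positivity)]
    have b1 : ‖BI (R.right (xm + d) h2) (fun z => (starRingEnd ℂ) z * (H z * P z))‖ ≤
        2 * L * (Z * M * e) := by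
      have hn := (hnsF.mul hnsHP).mono ((right_B hl h2).trans (sub_G2 R (xm - d) _))
      refine (norm_BI_le hn).trans ((VI_le hn (NS.const _ ((Z * M * e : ℝ) : ℂ))
        (finite_singleton (top R xm)) ?_).trans ?_)
      · rintro z ⟨hzB, hzc⟩
        have hzG := sub_G2 R (xm - d) _ (right_B hl h2 hzB)
        have hzS := hzB.1
        rw [Rect.right_S h2 hl.le] at hzS
        have h3 : xm + d ≤ z.re := hzS.2
        have h4 := (hbd z hzG hzc).2.2 (by linarith)
        rw [hconst, norm_mul, norm_mul]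
        calc ‖(starRingEnd ℂ) z‖ * (‖H z‖ * ‖P z‖) ≤ Z * (M * e) :=
              mul_le_mul (hcn z hzG) (mul_le_mul (hMb z hzG) h4 (norm_nonneg _) hMp.le)
                (by positivity) hZp.le
          _ = Z * M * e := by ring
      · simp only [hconst]
        rw [VI_const]
        have h3 : ((R.right (xm + d) h2).x1 - (R.right (xm + d) h2).x0) +
            ((R.right (xm + d) h2).y1 - (R.right (xm + d) h2).y0) ≤ L := by
          simp only [Rect.right, hL]
          linarith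
        have h4 : 0 ≤ Z * M * e := by positivity
        nlinarith [mul_le_mul_of_nonneg_right h3 h4]
    have b2 : ‖BI (R.left (xm - d) h1) (fun z => (starRingEnd ℂ) z * (H z * (1 - P z)))‖ ≤
        2 * L * (Z * M * e) := by
      have hn := (hnsF.mul hnsHQ).mono ((left_B h1 hr).trans (sub_G1 R _ (xm + d)))
      refine (norm_BI_le hn).trans ((VI_le hn (NS.const _ ((Z * M * e : ℝ) : ℂ))
        (finite_singleton (top R xm)) ?_).trans ?_)
      · rintro z ⟨hzB, hzc⟩
        have hzG := sub_G1 R _ (xm + d) (left_B h1 hr hzB)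
        have hzS := hzB.1
        rw [Rect.left_S h1 hr.le] at hzS
        have h3 : z.re ≤ xm - d := hzS.2
        have h4 := (hbd z hzG hzc).2.1 (by linarith)
        rw [hconst, norm_mul, norm_mul]
        calc ‖(starRingEnd ℂ) z‖ * (‖H z‖ * ‖1 - P z‖) ≤ Z * (M * e) :=
              mul_le_mul (hcn z hzG) (mul_le_mul (hMb z hzG) h4 (norm_nonneg _) hMp.le)
                (by positivity) hZp.le
          _ = Z * M * e := by ring
      · simp only [hconst]
        rw [VI_const]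
        have h3 : ((R.left (xm - d) h1).x1 - (R.left (xm - d) h1).x0) +
            ((R.left (xm - d) h1).y1 - (R.left (xm - d) h1).y0) ≤ L := by
          simp only [Rect.left, hL]
          linarith
        have h4 : 0 ≤ Z * M * e := by positivity
        nlinarith [mul_le_mul_of_nonneg_right h3 h4]
    have h5 : ∀ p q r s : ℂ, p + s - ((p + q) + (r + s)) = -(q + r) := fun p q r s => by ring
    rw [h5, norm_neg]
    refine (norm_add_le _ _).trans ((add_le_add b1 b2).trans ?_)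
    linarith

end Pool.Agent.Lib.GEX
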