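import Pool.Agent.Lib.GEX.Defs

/-!
# GEX.Char: the characters of `A(R)` are evaluations  (1.5 h)

First `χ f` depends only on the values on `R.S`: if `f = g` on `R.S`, then `χ (f - g) = 0` by `hb` with `M = 0`, and `f = (f - g) + g`.
`χ (w f) = w χ f` by `hmul`, `hc`. Let `λ = χ id`. If `λ ∉ R.S`, then `(z - λ)⁻¹ ∈ A(R)` (`AR.inv_sub`) and `(z - λ)(z - λ)⁻¹ = 1` on `R.S`, so
`1 = χ 1 = (λ - λ) χ(..) = 0`. So `λ ∈ R.S`. For `f ∈ A(R)`, `p` the centre of `R` and `0 < r < 1` let `f_r(z) = f(p + r (z - p))`: for `z ∈ R.S` the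
point `p + r (z - p)` is in `R.O`; `U = {z | p + r (z - p) ∈ R.O}` is open, contains `R.S`, and `f_r` is holomorphic on `U`. By
`Complex.differentiableOn_dslope` `dslope f_r λ` is holomorphic on `U`, so in `A(R)`, and `f_r z - f_r λ = (z - λ) * dslope f_r λ z` (`sub_smul_dslope`). So `χ f_r = f_r λ`.
`f_r → f` uniformly on `R.S` as `r → 1` (`f` is uniformly continuous on the compact set `R.S`), so `χ f = f λ` by `hb`.
-/

open Set MeasureTheory Filter Topology
open Complex (I)

namespace Pool.Agent.Lib.GEX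

namespace CharAux

/-- the centre -/
noncomputable def ctr (R : Rect) : ℂ := ((R.x0 + R.x1) / 2 : ℝ) + ((R.y0 + R.y1) / 2 : ℝ) * I

lemma ctr_re (R : Rect) : (ctr R).re = (R.x0 + R.x1) / 2 := by
  unfold ctr
  simp only [Complex.add_re, Complex.ofReal_re, Complex.mul_re, Complex.I_re, Complex.I_im,
    Complex.ofReal_im]
  ring

lemma ctr_im (R : Rect) : (ctr R).im = (R.y0 + R.y1) / 2 := by
  unfold ctr
  simp only [Complex.add_im, Complex.ofReal_re, Complex.mul_im, Complex.I_re, Complex.I_im,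
    Complex.ofReal_im]
  ring

lemma shrink {R : Rect} {r : ℝ} (h0 : 0 < r) (h1 : r < 1) {z : ℂ} (hz : z ∈ R.S) :
    ctr R + (r : ℂ) * (z - ctr R) ∈ R.O := by
  obtain ⟨a1, a2, a3, a4⟩ := hz
  have hx := R.hx
  have hy := R.hy
  have e1 : (ctr R + (r : ℂ) * (z - ctr R)).re =
      (R.x0 + R.x1) / 2 + r * (z.re - (R.x0 + R.x1) / 2) := by
    rw [Complex.add_re, Complex.re_ofReal_mul, Complex.sub_re, ctr_re]
  have e2 : (ctr R + (r : ℂ) * (z - ctr R)).im =
      (R.y0 + R.y1) / 2 + r * (z.im - (R.y0 + R.y1) / 2) := by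
    rw [Complex.add_im, Complex.im_ofReal_mul, Complex.sub_im, ctr_im]
  refine ⟨?_, ?_, ?_, ?_⟩
  · rw [e1]
    nlinarith [mul_le_mul_of_nonneg_left a1 h0.le]
  · rw [e1]
    nlinarith [mul_le_mul_of_nonneg_left a2 h0.le]
  · rw [e2]
    nlinarith [mul_le_mul_of_nonneg_left a3 h0.le]
  · rw [e2]
    nlinarith [mul_le_mul_of_nonneg_left a4 h0.le]

end CharAux

open CharAux in
theorem AR_char (R : Rect) (χ : (ℂ → ℂ) → ℂ)
    (hadd : ∀ f g, AR R f → AR R g → χ (fun z => f z + g z) = χ f + χ g)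
    (hmul : ∀ f g, AR R f → AR R g → χ (fun z => f z * g z) = χ f * χ g)
    (hc : ∀ w : ℂ, χ (fun _ => w) = w) (C : ℝ)
    (hb : ∀ f, AR R f → ∀ M : ℝ, (∀ z ∈ R.S, ‖f z‖ ≤ M) → ‖χ f‖ ≤ C * M) :
    χ (fun z => z) ∈ R.S ∧ ∀ f, AR R f → χ f = f (χ fun z => z) := by
  have hsub : ∀ f g, AR R f → AR R g → χ f = χ (fun z => f z - g z) + χ g := by
    intro f g hf hg
    have h1 := hadd (fun z => f z - g z) g (hf.sub hg) hg
    have h2 : (fun z => f z - g z + g z) = f := by
      funext z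
      ring
    rw [h2] at h1
    exact h1
  have hdep : ∀ f g, AR R f → AR R g → (∀ z ∈ R.S, f z = g z) → χ f = χ g := by
    intro f g hf hg h
    have h1 := hsub f g hf hg
    have h2 := hb (fun z => f z - g z) (hf.sub hg) 0 (fun z hz => by rw [h z hz]; simp)
    rw [mul_zero] at h2
    have h3 : χ (fun z => f z - g z) = 0 := norm_le_zero_iff.1 h2
    rw [h1, h3, zero_add]
  set l : ℂ := χ (fun z => z) with hl
  have hlin : χ (fun z => z - l) = 0 := by
    have h1 := hadd (fun z => z) (fun _ => -l) AR.id (AR.const _)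
    rw [hc, ← hl, add_neg_cancel] at h1
    have h2 : (fun z : ℂ => z - l) = fun z => z + -l := by
      funext z
      ring
    rw [h2]
    exact h1
  have hlar : AR R (fun z => z - l) := AR.id.sub (AR.const l)
  have hmem : l ∈ R.S := by
    by_contra hcon
    have h1 := AR.inv_sub hcon
    have h2 := hmul (fun z => z - l) (fun z => (z - l)⁻¹) hlar h1
    rw [hlin, zero_mul] at h2
    have h3 := hdep (fun z => (z - l) * (z - l)⁻¹) (fun _ => 1) (hlar.mul h1) (AR.const 1)
      (fun z hz => by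
        apply mul_inv_cancel₀
        intro h
        rw [sub_eq_zero] at h
        exact hcon (h ▸ hz))
    rw [h2, hc] at h3
    exact zero_ne_one h3
  refine ⟨hmem, ?_⟩
  intro f hf
  have hC : 1 ≤ C := by
    have h1 := hb (fun _ => 1) (AR.const 1) 1 (fun z _ => by simp)
    rw [hc] at h1
    simpa using h1
  -- dilations
  have hdil : ∀ r : ℝ, 0 < r → r < 1 → AR R (fun z => f (ctr R + (r : ℂ) * (z - ctr R))) ∧
      χ (fun z => f (ctr R + (r : ℂ) * (z - ctr R))) = f (ctr R + (r : ℂ) * (l - ctr R)) := by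
    intro r h0 h1
    set fr : ℂ → ℂ := fun z => f (ctr R + (r : ℂ) * (z - ctr R)) with hfr
    have haff : Differentiable ℂ (fun z : ℂ => ctr R + (r : ℂ) * (z - ctr R)) := by fun_prop
    set U : Set ℂ := (fun z : ℂ => ctr R + (r : ℂ) * (z - ctr R)) ⁻¹' R.O with hU
    have hUo : IsOpen U := Rect.isOpen_O.preimage haff.continuous
    have hSU : R.S ⊆ U := fun z hz => shrink h0 h1 hz
    have hd : DifferentiableOn ℂ fr U := hf.2.comp haff.differentiableOn (fun z hz => hz)
    have hnb : U ∈ 𝓝 l := hUo.mem_nhds (hSU hmem)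
    have hds : DifferentiableOn ℂ (dslope fr l) U := (Complex.differentiableOn_dslope hnb).2 hd
    have har : ∀ g : ℂ → ℂ, DifferentiableOn ℂ g U → AR R g := fun g hg =>
      ⟨hg.continuousOn.mono hSU, hg.mono (Rect.O_sub.trans hSU)⟩
    refine ⟨har fr hd, ?_⟩
    have h2 : fr = fun z => (fr l) + (z - l) * dslope fr l z := by
      funext z
      have h3 := sub_smul_dslope fr l z
      rw [smul_eq_mul] at h3
      rw [h3]
      ring
    have h4 := hadd (fun _ => fr l) (fun z => (z - l) * dslope fr l z) (AR.const _)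
      (hlar.mul (har _ hds))
    rw [hc, hmul (fun z => z - l) (dslope fr l) hlar (har _ hds), hlin, zero_mul, add_zero,
      ← h2] at h4
    exact h4
  obtain ⟨M, hM0, hM⟩ := (AR.id.sub (AR.const (ctr R)) : AR R (fun z => z - ctr R)).bdd
  have huc := R.isCompact_S.uniformContinuousOn_of_continuous hf.1
  have key : ∀ ε : ℝ, 0 < ε → ‖χ f - f l‖ ≤ (C + 1) * ε := by
    intro ε hε
    obtain ⟨δ, hδ, hδ'⟩ := Metric.uniformContinuousOn_iff.1 huc ε hε
    set t : ℝ := min (1 / 2) (δ / (2 * (M + 1))) with ht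
    have hM1 : 0 < 2 * (M + 1) := by linarith
    have ht0 : 0 < t := lt_min (by norm_num) (div_pos hδ hM1)
    have ht1 : t ≤ 1 / 2 := min_le_left _ _
    have ht2 : t ≤ δ / (2 * (M + 1)) := min_le_right _ _
    have ht3 : t * (2 * (M + 1)) ≤ δ := (le_div_iff₀ hM1).1 ht2
    obtain ⟨har, hval⟩ := hdil (1 - t) (by linarith) (by linarith)
    have hclose : ∀ z ∈ R.S, ‖f z - f (ctr R + ((1 - t : ℝ) : ℂ) * (z - ctr R))‖ ≤ ε := by
      intro z hz
      have h1 : ctr R + ((1 - t : ℝ) : ℂ) * (z - ctr R) ∈ R.S :=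
        Rect.O_sub (shrink (by linarith) (by linarith) hz)
      have h2 : dist z (ctr R + ((1 - t : ℝ) : ℂ) * (z - ctr R)) < δ := by
        rw [Complex.dist_eq]
        have h3 : z - (ctr R + ((1 - t : ℝ) : ℂ) * (z - ctr R)) = (t : ℂ) * (z - ctr R) := by
          push_cast
          ring
        rw [h3, norm_mul, Complex.norm_real, Real.norm_of_nonneg ht0.le]
        have h4 := hM z hz
        have h5 := mul_le_mul_of_nonneg_left h4 ht0.le
        nlinarith
      have h6 := hδ' z hz _ h1 h2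
      rw [Complex.dist_eq] at h6
      exact h6.le
    have h1 := hsub f _ hf har
    have h2 := hb _ (hf.sub har) ε hclose
    have h3 := hclose l hmem
    rw [hval] at h1
    have h4 : χ f - f l = χ (fun z => f z - f (ctr R + ((1 - t : ℝ) : ℂ) * (z - ctr R))) -
        (f l - f (ctr R + ((1 - t : ℝ) : ℂ) * (l - ctr R))) := by
      rw [h1]
      ring
    rw [h4]
    refine (norm_sub_le _ _).trans ?_
    linarith
  have hz : ‖χ f - f l‖ ≤ 0 := by
    by_contra hcon
    push Not at hcon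
    have hC1 : 0 < C + 1 := by linarith
    have h1 := key (‖χ f - f l‖ / (2 * (C + 1))) (by positivity)
    have h2 : (C + 1) * (‖χ f - f l‖ / (2 * (C + 1))) = ‖χ f - f l‖ / 2 := by
      field_simp
    rw [h2] at h1
    linarith
  exact sub_eq_zero.1 (norm_le_zero_iff.1 hz)

end Pool.Agent.Lib.GEX
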