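import Pool.Agent.Lib.GEX.Gelf
import Pool.Agent.Lib.GEX.Char
import Pool.Agent.Lib.GEX.Alg

/-!
# GEX.Bez: Bezout identity in `A(R)`  (1 h)

`closed_bez` for `S = ARalg R ⊆ C(R.S, ℂ)` (`ARalg_closed`). Let `χ : ARalg R →ₐ[ℂ] ℂ`. Apply `AR_char` to
`χ' F = if hF : AR R F then χ ⟨hF.res, hF.res_mem⟩ else 0` (`C = 1`, `char_norm_le`; additivity etc. because `hF.res` depends only on the values): with `λ = χ' id ∈ R.S`:
`χ f.res = f λ`, `χ g.res = g λ`, not both zero.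
-/

open Set MeasureTheory Filter Topology
open Complex (I)

namespace Pool.Agent.Lib.GEX

/-- characters of `ARalg R` are evaluations -/
theorem ARalg_char (R : Rect) (χ : ARalg R →ₐ[ℂ] ℂ) :
    ∃ l ∈ R.S, ∀ (F : ℂ → ℂ) (hF : AR R F), χ ⟨hF.res, hF.res_mem⟩ = F l := by
  classical
  set χ' : (ℂ → ℂ) → ℂ := fun F => if hF : AR R F then χ ⟨hF.res, hF.res_mem⟩ else 0 with hχ'
  have hval : ∀ (F : ℂ → ℂ) (hF : AR R F), χ' F = χ ⟨hF.res, hF.res_mem⟩ := by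
    intro F hF
    simp only [hχ']
    rw [dif_pos hF]
  have hadd : ∀ f g, AR R f → AR R g → χ' (fun z => f z + g z) = χ' f + χ' g := by
    intro f g hf hg
    rw [hval _ hf, hval _ hg, hval _ (hf.add hg), ← map_add]
    rfl
  have hmul : ∀ f g, AR R f → AR R g → χ' (fun z => f z * g z) = χ' f * χ' g := by
    intro f g hf hg
    rw [hval _ hf, hval _ hg, hval _ (hf.mul hg), ← map_mul]
    rfl
  have hc : ∀ w : ℂ, χ' (fun _ => w) = w := by
    intro w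
    rw [hval _ (AR.const w)]
    have h := χ.commutes w
    simp only [Algebra.algebraMap_self, RingHom.id_apply] at h
    rw [← h]
    congr 1
    apply Subtype.ext
    ext z
    simp [AR.res, h]
  have hb : ∀ f, AR R f → ∀ M : ℝ, (∀ z ∈ R.S, ‖f z‖ ≤ M) → ‖χ' f‖ ≤ 1 * M := by
    intro f hf M hM
    rw [hval _ hf, one_mul]
    refine (char_norm_le (ARalg R) (ARalg_closed R) χ ⟨hf.res, hf.res_mem⟩).trans ?_
    rw [ContinuousMap.norm_le_of_nonempty]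
    intro z
    exact hM z z.2
  obtain ⟨h1, h2⟩ := AR_char R χ' hadd hmul hc 1 hb
  refine ⟨χ' (fun z => z), h1, fun F hF => ?_⟩
  rw [← hval F hF, h2 F hF]

theorem bez (R : Rect) {f g : ℂ → ℂ} (hf : AR R f) (hg : AR R g)
    (h : ∀ z ∈ R.S, f z ≠ 0 ∨ g z ≠ 0) :
    ∃ u v : ℂ → ℂ, AR R u ∧ AR R v ∧ ∀ z ∈ R.S, u z * f z + v z * g z = 1 := by
  obtain ⟨u, v, huv⟩ := closed_bez (ARalg R) (ARalg_closed R) ⟨hf.res, hf.res_mem⟩
    ⟨hg.res, hg.res_mem⟩ (by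
      intro χ
      obtain ⟨l, hl, hχ⟩ := ARalg_char R χ
      rw [hχ f hf, hχ g hg]
      exact h l hl)
  obtain ⟨U, hU, hU'⟩ := u.2
  obtain ⟨V, hV, hV'⟩ := v.2
  refine ⟨U, V, hU, hV, fun z hz => ?_⟩
  have h1 := congrArg (fun s : ARalg R => (s : C(R.S, ℂ)) ⟨z, hz⟩) huv
  simp only [Subalgebra.coe_add, Subalgebra.coe_mul, Subalgebra.coe_one, ContinuousMap.add_apply,
    ContinuousMap.mul_apply, ContinuousMap.one_apply] at h1
  rw [hU' ⟨z, hz⟩, hV' ⟨z, hz⟩] at h1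
  exact h1

end Pool.Agent.Lib.GEX
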