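import Pool.Agent.Lib.GEX.Defs

/-!
# GEX.Rot: rotation by `i`  (1.5 h)

`m z = I z`. `z ∈ R.S ↔ I z ∈ R.rot.S`, same for `O`, `B`. `AR R.rot f ↔ AR R (f ∘ m)`, `HOK R.rot (I a) (I b) ha hb H ↔ HOK R a b (ha ∘ m) (hb ∘ m) (H ∘ m)`.
`BI R.rot f = I * BI R (f ∘ m)` and `VI R.rot g = VI R (g ∘ m)` (substitution `x ↦ -x` in the integrals over `[-y1, -y0]`: `intervalIntegral.integral_comp_neg`). Given `ha hb H ε` for `R.rot`, apply the
hypothesis to `ha ∘ m, ...` and put `P z = P0 (-I z)`, `h z = h0 (-I z)`. Third property: `F` on `R.rot`, use `F ∘ m`. For the last one `conj (I z) = -I conj z` and `‖-I * I * ..‖`.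
-/

open Set MeasureTheory Filter Topology
open Complex (I)

namespace Pool.Agent.Lib.GEX

namespace RotAux

theorem m1 (z : ℂ) : I * (-I * z) = z := by
  linear_combination (-z) * Complex.I_mul_I

theorem m2 (z : ℂ) : -I * (I * z) = z := by
  linear_combination (-z) * Complex.I_mul_I

theorem hor (x y : ℝ) : I * ((x : ℂ) + y * I) = ((-y : ℝ) : ℂ) + x * I := by
  push_cast
  linear_combination (y : ℂ) * Complex.I_mul_I

theorem sub {E : Type*} [NormedAddCommGroup E] [NormedSpace ℝ E] (f : ℂ → E) (x a b : ℝ) :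
    ∫ y in a..b, f (I * ((x : ℂ) + y * I)) = ∫ y in (-b)..(-a), f ((y : ℂ) + x * I) := by
  rw [← intervalIntegral.integral_comp_neg (fun y : ℝ => f ((y : ℂ) + x * I))]
  refine intervalIntegral.integral_congr fun y _ => ?_
  rw [hor]

end RotAux

open RotAux

theorem BI_rot (R : Rect) (f : ℂ → ℂ) : BI R.rot f = I * BI R (fun z => f (I * z)) := by
  unfold BI
  rw [sub f R.x1 R.y0 R.y1, sub f R.x0 R.y0 R.y1]
  simp only [hor]
  show (∫ x in (-R.y1)..(-R.y0), f (x + R.x0 * I)) - (∫ x in (-R.y1)..(-R.y0), f (x + R.x1 * I))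
    + I * (∫ y in R.x0..R.x1, f (((-R.y0 : ℝ) : ℂ) + y * I))
    - I * (∫ y in R.x0..R.x1, f (((-R.y1 : ℝ) : ℂ) + y * I)) = _
  linear_combination (-((∫ x in (-R.y1)..(-R.y0), f (x + R.x1 * I)) -
    (∫ x in (-R.y1)..(-R.y0), f (x + R.x0 * I)))) * Complex.I_mul_I

theorem VI_rot (R : Rect) (g : ℂ → ℝ) : VI R.rot g = VI R (fun z => g (I * z)) := by
  unfold VI
  rw [sub g R.x1 R.y0 R.y1, sub g R.x0 R.y0 R.y1]
  simp only [hor]
  show (∫ x in (-R.y1)..(-R.y0), g (x + R.x0 * I)) + (∫ x in (-R.y1)..(-R.y0), g (x + R.x1 * I))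
    + (∫ y in R.x0..R.x1, g (((-R.y0 : ℝ) : ℂ) + y * I))
    + (∫ y in R.x0..R.x1, g (((-R.y1 : ℝ) : ℂ) + y * I)) = _
  ring

namespace RotAux

theorem memS (R : Rect) (z : ℂ) : I * z ∈ R.rot.S ↔ z ∈ R.S := by
  simp only [Rect.S, Rect.rot, mem_setOf_eq, Complex.mul_re, Complex.mul_im, Complex.I_re,
    Complex.I_im]
  constructor
  · rintro ⟨h1, h2, h3, h4⟩
    refine ⟨?_, ?_, ?_, ?_⟩ <;> linarith
  · rintro ⟨h1, h2, h3, h4⟩
    refine ⟨?_, ?_, ?_, ?_⟩ <;> linarith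

theorem memO (R : Rect) (z : ℂ) : I * z ∈ R.rot.O ↔ z ∈ R.O := by
  simp only [Rect.O, Rect.rot, mem_setOf_eq, Complex.mul_re, Complex.mul_im, Complex.I_re,
    Complex.I_im]
  constructor
  · rintro ⟨h1, h2, h3, h4⟩
    refine ⟨?_, ?_, ?_, ?_⟩ <;> linarith
  · rintro ⟨h1, h2, h3, h4⟩
    refine ⟨?_, ?_, ?_, ?_⟩ <;> linarith

theorem memB (R : Rect) (z : ℂ) : I * z ∈ R.rot.B ↔ z ∈ R.B := by
  unfold Rect.B
  rw [mem_diff, mem_diff, memS, memO]

theorem memS' (R : Rect) (z : ℂ) : -I * z ∈ R.S ↔ z ∈ R.rot.S := by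
  rw [← memS, m1]

theorem memO' (R : Rect) (z : ℂ) : -I * z ∈ R.O ↔ z ∈ R.rot.O := by
  rw [← memO, m1]

theorem memB' (R : Rect) (z : ℂ) : -I * z ∈ R.B ↔ z ∈ R.rot.B := by
  rw [← memB, m1]

theorem eq_iff (z a : ℂ) : I * z = I * a ↔ z = a :=
  mul_right_inj' Complex.I_ne_zero

theorem eq_iff' (z a : ℂ) : -I * z = a ↔ z = I * a := by
  constructor
  · rintro rfl
    exact (m1 z).symm
  · rintro rfl
    exact m2 a

theorem cd1 : Continuous fun z : ℂ => I * z := by fun_prop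

theorem cd2 : Continuous fun z : ℂ => -I * z := by fun_prop

theorem dd1 (s : Set ℂ) : DifferentiableOn ℂ (fun z : ℂ => I * z) s := by fun_prop

theorem dd2 (s : Set ℂ) : DifferentiableOn ℂ (fun z : ℂ => -I * z) s := by fun_prop

theorem ar1 {R : Rect} {f : ℂ → ℂ} (h : AR R.rot f) : AR R (fun z => f (I * z)) :=
  ⟨h.1.comp cd1.continuousOn fun z hz => (memS R z).2 hz,
    h.2.comp (dd1 _) fun z hz => (memO R z).2 hz⟩

theorem ar2 {R : Rect} {f : ℂ → ℂ} (h : AR R f) : AR R.rot (fun z => f (-I * z)) :=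
  ⟨h.1.comp cd2.continuousOn fun z hz => (memS' R z).2 hz,
    h.2.comp (dd2 _) fun z hz => (memO' R z).2 hz⟩

theorem hok1 {R : Rect} {a b : ℂ} {ha hb H : ℂ → ℂ} (h : HOK R.rot (I * a) (I * b) ha hb H) :
    HOK R a b (fun z => ha (I * z)) (fun z => hb (I * z)) (fun z => H (I * z)) where
  a_mem := (memS R a).1 h.a_mem
  b_mem := (memS R b).1 h.b_mem
  ne := fun e => h.ne (by rw [e])
  arA := ar1 h.arA
  arB := ar1 h.arB
  zA := fun z hz h0 => (eq_iff z a).1 (h.zA _ ((memS R z).2 hz) h0)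
  zB := fun z hz h0 => (eq_iff z b).1 (h.zB _ ((memS R z).2 hz) h0)
  cont := h.cont.comp cd1.continuousOn fun z hz => ⟨(memS R z).2 hz.1, by
    have h2 := hz.2
    simp only [mem_insert_iff, mem_singleton_iff, eq_iff] at h2 ⊢
    exact h2⟩
  diff := h.diff.comp (dd1 _) fun z hz => (memO R z).2 hz
  conta := h.conta.comp cd1.continuousOn fun z hz => ⟨(memS R z).2 hz.1, by
    have h2 := hz.2
    simp only [mem_singleton_iff, eq_iff] at h2 ⊢
    exact h2⟩
  contb := h.contb.comp cd1.continuousOn fun z hz => ⟨(memS R z).2 hz.1, by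
    have h2 := hz.2
    simp only [mem_singleton_iff, eq_iff] at h2 ⊢
    exact h2⟩
  bdd := by
    obtain ⟨M, hM⟩ := h.bdd
    exact ⟨M, fun z hz => hM _ ((memB R z).2 hz)⟩

theorem hok2 {R : Rect} {a b : ℂ} {ha hb H : ℂ → ℂ} (h : HOK R a b ha hb H) :
    HOK R.rot (I * a) (I * b) (fun z => ha (-I * z)) (fun z => hb (-I * z))
      (fun z => H (-I * z)) where
  a_mem := (memS R a).2 h.a_mem
  b_mem := (memS R b).2 h.b_mem
  ne := fun e => h.ne ((eq_iff a b).1 e)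
  arA := ar2 h.arA
  arB := ar2 h.arB
  zA := fun z hz h0 => (eq_iff' z a).1 (h.zA _ ((memS' R z).2 hz) h0)
  zB := fun z hz h0 => (eq_iff' z b).1 (h.zB _ ((memS' R z).2 hz) h0)
  cont := h.cont.comp cd2.continuousOn fun z hz => ⟨(memS' R z).2 hz.1, by
    have h2 := hz.2
    simp only [mem_insert_iff, mem_singleton_iff, eq_iff'] at h2 ⊢
    exact h2⟩
  diff := h.diff.comp (dd2 _) fun z hz => (memO' R z).2 hz
  conta := h.conta.comp cd2.continuousOn fun z hz => ⟨(memS' R z).2 hz.1, by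
    have h2 := hz.2
    simp only [mem_singleton_iff, eq_iff'] at h2 ⊢
    exact h2⟩
  contb := h.contb.comp cd2.continuousOn fun z hz => ⟨(memS' R z).2 hz.1, by
    have h2 := hz.2
    simp only [mem_singleton_iff, eq_iff'] at h2 ⊢
    exact h2⟩
  bdd := by
    obtain ⟨M, hM⟩ := h.bdd
    exact ⟨M, fun z hz => hM _ ((memB' R z).2 hz)⟩

theorem BI_const_mul (R : Rect) (w : ℂ) (f : ℂ → ℂ) : BI R (fun z => w * f z) = w * BI R f := by
  unfold BI
  simp only [intervalIntegral.integral_const_mul]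
  ring

theorem conj_rot (R : Rect) (f : ℂ → ℂ) :
    BI R.rot (fun z => (starRingEnd ℂ) z * f z) =
      BI R (fun z => (starRingEnd ℂ) z * f (I * z)) := by
  rw [BI_rot]
  have h1 : (fun z : ℂ => (starRingEnd ℂ) (I * z) * f (I * z)) =
      fun z => -I * ((starRingEnd ℂ) z * f (I * z)) := by
    funext z
    rw [map_mul, Complex.conj_I]
    ring
  rw [h1, BI_const_mul, m1]

end RotAux

theorem cutOK_rot {R R' R'' : Rect} {a b c : ℂ} (h : CutOK R R' R'' a b c) :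
    CutOK R.rot R'.rot R''.rot (I * a) (I * b) (I * c) := by
  intro ha hb H hok ε hε
  obtain ⟨P, g, hg1, hg2, hg3, hg4, hg5, hg6, hg7, hg8⟩ :=
    h (fun z => ha (I * z)) (fun z => hb (I * z)) (fun z => H (I * z)) (hok1 hok) ε hε
  refine ⟨fun z => P (-I * z), fun z => g (-I * z), ar2 hg1, ?_, ar2 hg3, ?_, ?_, ?_, ?_, ?_⟩
  · intro z hz
    rw [hg2 _ ((memS' R z).2 hz), eq_iff']
  · have h1 := hok2 hg4
    simp only [m1] at h1
    exact h1
  · have h1 := hok2 hg5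
    simp only [m1] at h1
    exact h1
  · intro F hF
    have h1 := hg6 (fun z => F (I * z)) (ar1 hF)
    rw [BI_rot, BI_rot, BI_rot, ← h1]
    simp only [m2]
    ring
  · rw [VI_rot, VI_rot, VI_rot]
    simp only [m2]
    exact hg7
  · rw [conj_rot R' (fun z => H z * P (-I * z)), conj_rot R'' (fun z => H z * (1 - P (-I * z))),
      conj_rot R H]
    simp only [m2]
    exact hg8

end Pool.Agent.Lib.GEX
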