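import Pool.Agent.Lib.GEX.Base
import Pool.Agent.Lib.GEX.Rot
import Pool.Agent.Lib.GEX.Swap

/-!
# GEX.CutAll: every cut is good
-/

namespace Pool.Agent.Lib.GEX

theorem cutOK {R R' R'' : Rect} {a b c : ℂ} (h : Cut R R' R'' a b c) : CutOK R R' R'' a b c := by
  induction h with
  | base h => exact cutOK_base h
  | rot _ ih => exact cutOK_rot ih
  | swap _ ih => exact cutOK_swap ih

end Pool.Agent.Lib.GEX
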