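import Pool.Agent.Lib.GEX.CutGeo

/-!
# GEX.CutEx: existence of cuts

`Rect.W`, `Rect.T` width and height. `side = true`: contact on the top side (vertical cut) resp. on the right side
(horizontal cut); `false`: bottom resp. left side.
-/

open Set
open Complex (I)

namespace Pool.Agent.Lib.GEX

def Rect.W (R : Rect) : ℝ := R.x1 - R.x0
def Rect.T (R : Rect) : ℝ := R.y1 - R.y0

namespace CutExAux

lemma rot4 (R : Rect) : R.rot.rot.rot.rot = R := by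
  ext <;> simp [Rect.rot]

lemma vtop (R : Rect) {a b : ℂ} (ha : a ∈ R.S) (hb : b ∈ R.S) {t δ : ℝ} (hδ : 0 < δ)
    (h1 : a.re < t) (h2 : t < b.re) :
    ∃ (R' R'' : Rect) (c : ℂ), Cut R R' R'' a b c ∧ c.re = t ∧ c.im = R.y1 ∧
      R'.y0 = R.y0 ∧ R'.y1 = R.y1 ∧ R''.y0 = R.y0 ∧ R''.y1 = R.y1 ∧
      R'.x0 = R.x0 ∧ R'.x1 ≤ t + δ ∧ t - δ ≤ R''.x0 ∧ R''.x1 = R.x1 := by
  obtain ⟨d, hd0, hd1, hd2, hd3⟩ : ∃ d : ℝ, 0 < d ∧ d ≤ δ ∧ a.re < t - d ∧ t + d < b.re := by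
    refine ⟨min δ (min ((t - a.re) / 2) ((b.re - t) / 2)), ?_, min_le_left _ _, ?_, ?_⟩
    · refine lt_min hδ (lt_min ?_ ?_) <;> linarith
    · have h3 : min δ (min ((t - a.re) / 2) ((b.re - t) / 2)) ≤ (t - a.re) / 2 :=
        (min_le_right _ _).trans (min_le_left _ _)
      linarith
    · have h3 : min δ (min ((t - a.re) / 2) ((b.re - t) / 2)) ≤ (b.re - t) / 2 :=
        (min_le_right _ _).trans (min_le_right _ _)
      linarith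
  have hx0 : R.x0 < t - d := lt_of_le_of_lt ha.1 hd2
  have hx1 : t + d < R.x1 := lt_of_lt_of_le hd3 hb.2.1
  refine ⟨R.left (t + d) (by linarith), R.right (t - d) (by linarith), t + R.y1 * I,
    Cut.base ⟨t, d, hd0, hx0, hx1, ha, hb, hd2, hd3, rfl, rfl, rfl⟩, by simp, by simp, rfl, rfl,
    rfl, rfl, rfl, ?_, ?_, rfl⟩
  · show t + d ≤ t + δ
    linarith
  · show t - δ ≤ t - d
    linarith

lemma vtop' (R : Rect) {a b : ℂ} (ha : a ∈ R.S) (hb : b ∈ R.S) {t δ : ℝ} (hδ : 0 < δ)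
    (h : (a.re < t ∧ t < b.re) ∨ (b.re < t ∧ t < a.re)) :
    ∃ (R' R'' : Rect) (c : ℂ), Cut R R' R'' a b c ∧ c.re = t ∧ c.im = R.y1 ∧
      R'.y0 = R.y0 ∧ R'.y1 = R.y1 ∧ R''.y0 = R.y0 ∧ R''.y1 = R.y1 ∧
      (a.re < t → R'.x0 = R.x0 ∧ R'.x1 ≤ t + δ ∧ t - δ ≤ R''.x0 ∧ R''.x1 = R.x1) ∧
      (t < a.re → R''.x0 = R.x0 ∧ R''.x1 ≤ t + δ ∧ t - δ ≤ R'.x0 ∧ R'.x1 = R.x1) := by
  rcases h with ⟨h1, h2⟩ | ⟨h1, h2⟩
  · obtain ⟨R', R'', c, k, c1, c2, e1, e2, e3, e4, e5, e6, e7, e8⟩ := vtop R ha hb hδ h1 h2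
    exact ⟨R', R'', c, k, c1, c2, e1, e2, e3, e4, fun _ => ⟨e5, e6, e7, e8⟩,
      fun h3 => absurd h3 (by linarith)⟩
  · obtain ⟨R', R'', c, k, c1, c2, e1, e2, e3, e4, e5, e6, e7, e8⟩ := vtop R hb ha hδ h1 h2
    exact ⟨R'', R', c, k.swap, c1, c2, e3, e4, e1, e2, fun h3 => absurd h3 (by linarith),
      fun _ => ⟨e5, e6, e7, e8⟩⟩

lemma rot2_mem {R : Rect} {a : ℂ} (ha : a ∈ R.S) : -a ∈ R.rot.rot.S := by
  have h1 := mem_rot_S.2 (mem_rot_S.2 ha)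
  have h2 : I * (I * a) = -a := by rw [← mul_assoc, Complex.I_mul_I]; ring
  rwa [h2] at h1

lemma rot3_mem {R : Rect} {a : ℂ} (ha : a ∈ R.S) : -I * a ∈ R.rot.rot.rot.S := by
  have h1 := mem_rot_S.2 (rot2_mem ha)
  have h2 : I * -a = -I * a := by ring
  rwa [h2] at h1

end CutExAux

open CutExAux

/-- vertical cut -/
theorem cut_vert (R : Rect) {a b : ℂ} (ha : a ∈ R.S) (hb : b ∈ R.S) {t δ : ℝ} (hδ : 0 < δ)
    (h : (a.re < t ∧ t < b.re) ∨ (b.re < t ∧ t < a.re)) (side : Bool) :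
    ∃ (R' R'' : Rect) (c : ℂ), Cut R R' R'' a b c ∧ c.re = t ∧
      c.im = (if side then R.y1 else R.y0) ∧
      R'.y0 = R.y0 ∧ R'.y1 = R.y1 ∧ R''.y0 = R.y0 ∧ R''.y1 = R.y1 ∧
      (a.re < t → R'.x0 = R.x0 ∧ R'.x1 ≤ t + δ ∧ t - δ ≤ R''.x0 ∧ R''.x1 = R.x1) ∧
      (t < a.re → R''.x0 = R.x0 ∧ R''.x1 ≤ t + δ ∧ t - δ ≤ R'.x0 ∧ R'.x1 = R.x1) := by
  cases side with
  | true => simpa using vtop' R ha hb hδ h
  | false =>
    have h' : ((-a).re < -t ∧ -t < (-b).re) ∨ ((-b).re < -t ∧ -t < (-a).re) := by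
      simp only [Complex.neg_re]
      rcases h with ⟨h1, h2⟩ | ⟨h1, h2⟩
      · exact Or.inr ⟨by linarith, by linarith⟩
      · exact Or.inl ⟨by linarith, by linarith⟩
    obtain ⟨Q', Q'', c, k, c1, c2, e1, e2, e3, e4, f1, f2⟩ :=
      vtop' R.rot.rot (rot2_mem ha) (rot2_mem hb) hδ h'
    have k2 := k.rot.rot
    rw [rot4] at k2
    have ea : I * (I * -a) = a := by rw [← mul_assoc, Complex.I_mul_I]; ring
    have eb : I * (I * -b) = b := by rw [← mul_assoc, Complex.I_mul_I]; ring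
    have ec : I * (I * c) = -c := by rw [← mul_assoc, Complex.I_mul_I]; ring
    rw [ea, eb, ec] at k2
    simp only [Rect.rot] at c2 e1 e2 e3 e4 f1 f2
    simp only [Complex.neg_re] at f1 f2
    refine ⟨Q'.rot.rot, Q''.rot.rot, -c, k2, ?_, ?_, ?_, ?_, ?_, ?_, ?_, ?_⟩
    · simp [c1]
    · simp [c2]
    · simp [Rect.rot, e2]
    · simp [Rect.rot, e1]
    · simp [Rect.rot, e4]
    · simp [Rect.rot, e3]
    · intro h3
      obtain ⟨g1, g2, g3, g4⟩ := f2 (by linarith)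
      simp only [Rect.rot]
      exact ⟨by linarith, by linarith, by linarith, by linarith⟩
    · intro h3
      obtain ⟨g1, g2, g3, g4⟩ := f1 (by linarith)
      simp only [Rect.rot]
      exact ⟨by linarith, by linarith, by linarith, by linarith⟩

/-- horizontal cut -/
theorem cut_horiz (R : Rect) {a b : ℂ} (ha : a ∈ R.S) (hb : b ∈ R.S) {t δ : ℝ} (hδ : 0 < δ)
    (h : (a.im < t ∧ t < b.im) ∨ (b.im < t ∧ t < a.im)) (side : Bool) :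
    ∃ (R' R'' : Rect) (c : ℂ), Cut R R' R'' a b c ∧ c.im = t ∧
      c.re = (if side then R.x1 else R.x0) ∧
      R'.x0 = R.x0 ∧ R'.x1 = R.x1 ∧ R''.x0 = R.x0 ∧ R''.x1 = R.x1 ∧
      (a.im < t → R'.y0 = R.y0 ∧ R'.y1 ≤ t + δ ∧ t - δ ≤ R''.y0 ∧ R''.y1 = R.y1) ∧
      (t < a.im → R''.y0 = R.y0 ∧ R''.y1 ≤ t + δ ∧ t - δ ≤ R'.y0 ∧ R'.y1 = R.y1) := by
  have hre : ∀ z : ℂ, (-I * z).re = z.im := fun z => by simp
  have h' : ((-I * a).re < t ∧ t < (-I * b).re) ∨ ((-I * b).re < t ∧ t < (-I * a).re) := by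
    rw [hre, hre]
    exact h
  obtain ⟨Q', Q'', c, k, c1, c2, e1, e2, e3, e4, f1, f2⟩ :=
    cut_vert R.rot.rot.rot (rot3_mem ha) (rot3_mem hb) hδ h' (!side)
  have k2 := k.rot
  rw [rot4] at k2
  have ea : I * (-I * a) = a := by rw [← mul_assoc, mul_neg, Complex.I_mul_I]; ring
  have eb : I * (-I * b) = b := by rw [← mul_assoc, mul_neg, Complex.I_mul_I]; ring
  rw [ea, eb] at k2
  rw [hre] at f1 f2
  simp only [Rect.rot] at c2 e1 e2 e3 e4 f1 f2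
  refine ⟨Q'.rot, Q''.rot, I * c, k2, ?_, ?_, ?_, ?_, ?_, ?_, ?_, ?_⟩
  · simp [c1]
  · cases side <;> simp at c2 ⊢ <;> linarith
  · simp [Rect.rot, e2]
  · simp [Rect.rot, e1]
  · simp [Rect.rot, e4]
  · simp [Rect.rot, e3]
  · intro h3
    obtain ⟨g1, g2, g3, g4⟩ := f1 h3
    simp only [Rect.rot]
    exact ⟨by linarith, by linarith, by linarith, by linarith⟩
  · intro h3
    obtain ⟨g1, g2, g3, g4⟩ := f2 h3
    simp only [Rect.rot]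
    exact ⟨by linarith, by linarith, by linarith, by linarith⟩

end Pool.Agent.Lib.GEX
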