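import Pool.Agent.Lib.GEX.Defs

/-!
# GEX.CutGeo: geometry of a cut  (1 h)

Induction on `Cut`. Base: direct from `VCut` (`Rect.left_S`, `Rect.right_S`, `Rect.left_O_sub`, ...). Rotation: `I z ∈ R.rot.S ↔ z ∈ R.S`, the same for `O`; every `w` is `I z` with `z = -I w`. Swap: symmetric.
-/

open Set
open Complex (I)

namespace Pool.Agent.Lib.GEX

lemma mem_rot_S {R : Rect} {z : ℂ} : I * z ∈ R.rot.S ↔ z ∈ R.S := by
  simp only [Rect.S, Rect.rot, mem_ofPred_eq, Complex.mul_re, Complex.mul_im, Complex.I_re,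
    Complex.I_im]
  constructor
  · rintro ⟨h1, h2, h3, h4⟩; refine ⟨?_, ?_, ?_, ?_⟩ <;> linarith
  · rintro ⟨h1, h2, h3, h4⟩; refine ⟨?_, ?_, ?_, ?_⟩ <;> linarith

lemma mem_rot_O {R : Rect} {z : ℂ} : I * z ∈ R.rot.O ↔ z ∈ R.O := by
  simp only [Rect.O, Rect.rot, mem_ofPred_eq, Complex.mul_re, Complex.mul_im, Complex.I_re,
    Complex.I_im]
  constructor
  · rintro ⟨h1, h2, h3, h4⟩; refine ⟨?_, ?_, ?_, ?_⟩ <;> linarith
  · rintro ⟨h1, h2, h3, h4⟩; refine ⟨?_, ?_, ?_, ?_⟩ <;> linarith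

structure CutFacts (R R' R'' : Rect) (a b c : ℂ) : Prop where
  sub' : R'.S ⊆ R.S
  sub'' : R''.S ⊆ R.S
  osub' : R'.O ⊆ R.O
  osub'' : R''.O ⊆ R.O
  cover : R.S ⊆ R'.S ∪ R''.S
  a_mem : a ∈ R'.S
  b_mem : b ∈ R''.S
  c_mem' : c ∈ R'.S
  c_mem'' : c ∈ R''.S
  a_not : a ∉ R''.S
  b_not : b ∉ R'.S
  ac : a ≠ c
  cb : c ≠ b

lemma cutFacts_base {R R' R'' : Rect} {a b c : ℂ} (h : VCut R R' R'' a b c) :
    CutFacts R R' R'' a b c := by
  obtain ⟨xm, d, hd, h0, h1, ha, hb, hax, hbx, rfl, rfl, rfl⟩ := h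
  have hy := R.hy
  have cre : ((xm : ℂ) + R.y1 * I).re = xm := by simp
  have cim : ((xm : ℂ) + R.y1 * I).im = R.y1 := by simp
  refine ⟨?_, ?_, ?_, ?_, ?_, ?_, ?_, ?_, ?_, ?_, ?_, ?_, ?_⟩
  · rintro z ⟨k1, k2, k3, k4⟩
    simp only [Rect.left] at k1 k2 k3 k4
    exact ⟨k1, by linarith, k3, k4⟩
  · rintro z ⟨k1, k2, k3, k4⟩
    simp only [Rect.right] at k1 k2 k3 k4
    exact ⟨by linarith, k2, k3, k4⟩
  · rintro z ⟨k1, k2, k3, k4⟩
    simp only [Rect.left] at k1 k2 k3 k4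
    exact ⟨k1, by linarith, k3, k4⟩
  · rintro z ⟨k1, k2, k3, k4⟩
    simp only [Rect.right] at k1 k2 k3 k4
    exact ⟨by linarith, k2, k3, k4⟩
  · rintro z ⟨k1, k2, k3, k4⟩
    rcases le_total z.re (xm + d) with hz | hz
    · exact Or.inl ⟨k1, hz, k3, k4⟩
    · exact Or.inr ⟨show xm - d ≤ z.re by linarith, k2, k3, k4⟩
  · exact ⟨ha.1, show a.re ≤ xm + d by linarith, ha.2.2.1, ha.2.2.2⟩
  · exact ⟨show xm - d ≤ b.re by linarith, hb.2.1, hb.2.2.1, hb.2.2.2⟩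
  · refine ⟨?_, ?_, ?_, ?_⟩ <;> simp only [cre, cim, Rect.left] <;> linarith
  · refine ⟨?_, ?_, ?_, ?_⟩ <;> simp only [cre, cim, Rect.right] <;> linarith
  · rintro ⟨k1, k2, k3, k4⟩
    simp only [Rect.right] at k1
    linarith
  · rintro ⟨k1, k2, k3, k4⟩
    simp only [Rect.left] at k2
    linarith
  · intro e
    rw [e, cre] at hax
    linarith
  · intro e
    rw [← e, cre] at hbx
    linarith

lemma exists_I_mul (w : ℂ) : ∃ z : ℂ, w = I * z :=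
  ⟨-I * w, by rw [← mul_assoc, mul_neg, Complex.I_mul_I, neg_neg, one_mul]⟩

theorem cutFacts {R R' R'' : Rect} {a b c : ℂ} (h : Cut R R' R'' a b c) :
    CutFacts R R' R'' a b c := by
  induction h with
  | base h => exact cutFacts_base h
  | rot h ih =>
    refine ⟨?_, ?_, ?_, ?_, ?_, ?_, ?_, ?_, ?_, ?_, ?_, ?_, ?_⟩
    · intro w hw
      obtain ⟨z, rfl⟩ := exists_I_mul w
      exact mem_rot_S.2 (ih.sub' (mem_rot_S.1 hw))
    · intro w hw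
      obtain ⟨z, rfl⟩ := exists_I_mul w
      exact mem_rot_S.2 (ih.sub'' (mem_rot_S.1 hw))
    · intro w hw
      obtain ⟨z, rfl⟩ := exists_I_mul w
      exact mem_rot_O.2 (ih.osub' (mem_rot_O.1 hw))
    · intro w hw
      obtain ⟨z, rfl⟩ := exists_I_mul w
      exact mem_rot_O.2 (ih.osub'' (mem_rot_O.1 hw))
    · intro w hw
      obtain ⟨z, rfl⟩ := exists_I_mul w
      rcases ih.cover (mem_rot_S.1 hw) with h1 | h1
      · exact Or.inl (mem_rot_S.2 h1)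
      · exact Or.inr (mem_rot_S.2 h1)
    · exact mem_rot_S.2 ih.a_mem
    · exact mem_rot_S.2 ih.b_mem
    · exact mem_rot_S.2 ih.c_mem'
    · exact mem_rot_S.2 ih.c_mem''
    · exact fun h1 => ih.a_not (mem_rot_S.1 h1)
    · exact fun h1 => ih.b_not (mem_rot_S.1 h1)
    · exact fun h1 => ih.ac (mul_left_cancel₀ Complex.I_ne_zero h1)
    · exact fun h1 => ih.cb (mul_left_cancel₀ Complex.I_ne_zero h1)
  | swap h ih =>
    exact ⟨ih.sub'', ih.sub', ih.osub'', ih.osub', fun z hz => (ih.cover hz).symm, ih.b_mem,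
      ih.a_mem, ih.c_mem'', ih.c_mem', ih.b_not, ih.a_not, ih.cb.symm, ih.ac.symm⟩

end Pool.Agent.Lib.GEX
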