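import Mathlib

/-!
# GEX.Defs: rectangles, the algebras `A(R)`, boundary integrals, cuts

`Rect` is a closed rectangle `[x0,x1] x [y0,y1]` of the plane, `R.S` the closed set, `R.O` its interior, `R.B` the boundary.
`AR R f`: `f` is continuous on `R.S` and holomorphic on `R.O`.
`BI R f` is the boundary integral `∮ f dz` (counterclockwise), `VI R g` the integral of `g` with respect to arc length.
`HOK R a b ha hb H`: the invariant of a node of the construction.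
`VCut`: cut of a rectangle by a vertical line with contact point on the top side; `Cut`: all rotated and interchanged versions.
`CutOK`: what the construction needs at a cut.
-/

open Set MeasureTheory Filter Topology
open Complex (I)

namespace Pool.Agent.Lib.GEX

/-- a nondegenerate closed rectangle -/
@[ext] structure Rect where
  x0 : ℝ
  x1 : ℝ
  y0 : ℝ
  y1 : ℝ
  hx : x0 < x1
  hy : y0 < y1

/-- the closed rectangle -/
def Rect.S (R : Rect) : Set ℂ := {z | R.x0 ≤ z.re ∧ z.re ≤ R.x1 ∧ R.y0 ≤ z.im ∧ z.im ≤ R.y1}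

/-- the open rectangle -/
def Rect.O (R : Rect) : Set ℂ := {z | R.x0 < z.re ∧ z.re < R.x1 ∧ R.y0 < z.im ∧ z.im < R.y1}

/-- the boundary -/
def Rect.B (R : Rect) : Set ℂ := R.S \ R.O

/-- continuous on the closed rectangle and holomorphic inside -/
def AR (R : Rect) (f : ℂ → ℂ) : Prop := ContinuousOn f R.S ∧ DifferentiableOn ℂ f R.O

/-- the boundary integral `∮ f dz` -/
noncomputable def BI (R : Rect) (f : ℂ → ℂ) : ℂ :=
  (∫ x in R.x0..R.x1, f (x + R.y0 * I)) - (∫ x in R.x0..R.x1, f (x + R.y1 * I))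
    + I * (∫ y in R.y0..R.y1, f (R.x1 + y * I)) - I * (∫ y in R.y0..R.y1, f (R.x0 + y * I))

/-- the integral of `g` over the boundary with respect to arc length -/
noncomputable def VI (R : Rect) (g : ℂ → ℝ) : ℝ :=
  (∫ x in R.x0..R.x1, g (x + R.y0 * I)) + (∫ x in R.x0..R.x1, g (x + R.y1 * I))
    + (∫ y in R.y0..R.y1, g (R.x1 + y * I)) + (∫ y in R.y0..R.y1, g (R.x0 + y * I))

/-- bounded and continuous off a finite set -/
def NS (Γ : Set ℂ) (f : ℂ → ℂ) : Prop :=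
  (∃ E : Set ℂ, E.Finite ∧ ContinuousOn f (Γ \ E)) ∧ ∃ M : ℝ, ∀ z ∈ Γ, ‖f z‖ ≤ M

/-- invariant of a node: `a, b` are points of the boundary, `ha, hb ∈ A(R)` vanish at most at `a`, `b`, and `H` is holomorphic
inside, continuous off `a, b`, bounded on the boundary, `ha H` is continuous at `a`, `hb H` at `b`. -/
structure HOK (R : Rect) (a b : ℂ) (ha hb H : ℂ → ℂ) : Prop where
  a_mem : a ∈ R.S
  b_mem : b ∈ R.S
  ne : a ≠ b
  arA : AR R ha
  arB : AR R hb
  zA : ∀ z ∈ R.S, ha z = 0 → z = a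
  zB : ∀ z ∈ R.S, hb z = 0 → z = b
  cont : ContinuousOn H (R.S \ {a, b})
  diff : DifferentiableOn ℂ H R.O
  conta : ContinuousOn (fun z => ha z * H z) (R.S \ {b})
  contb : ContinuousOn (fun z => hb z * H z) (R.S \ {a})
  bdd : ∃ M : ℝ, ∀ z ∈ R.B, ‖H z‖ ≤ M

/-- multiplication of a rectangle by `i` -/
def Rect.rot (R : Rect) : Rect := ⟨-R.y1, -R.y0, R.x0, R.x1, neg_lt_neg R.hy, R.hx⟩

/-- the part of `R` with `re ≤ t` -/
def Rect.left (R : Rect) (t : ℝ) (ht : R.x0 < t) : Rect := ⟨R.x0, t, R.y0, R.y1, ht, R.hy⟩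

/-- the part of `R` with `t ≤ re` -/
def Rect.right (R : Rect) (t : ℝ) (ht : t < R.x1) : Rect := ⟨t, R.x1, R.y0, R.y1, ht, R.hy⟩

/-- cut by the vertical line `re = xm` with overlap `[xm - d, xm + d]`, contact point on the top side -/
def VCut (R R' R'' : Rect) (a b c : ℂ) : Prop :=
  ∃ (xm d : ℝ) (_ : 0 < d) (_ : R.x0 < xm - d) (_ : xm + d < R.x1),
    a ∈ R.S ∧ b ∈ R.S ∧ a.re < xm - d ∧ xm + d < b.re ∧ c = xm + R.y1 * I ∧
    R' = R.left (xm + d) (by linarith) ∧ R'' = R.right (xm - d) (by linarith)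

/-- a cut: `R` is the union of the overlapping rectangles `R'` (containing `a`) and `R''` (containing `b`) with contact point `c`. -/
inductive Cut : Rect → Rect → Rect → ℂ → ℂ → ℂ → Prop
  | base {R R' R'' : Rect} {a b c : ℂ} : VCut R R' R'' a b c → Cut R R' R'' a b c
  | rot {R R' R'' : Rect} {a b c : ℂ} : Cut R R' R'' a b c →
      Cut R.rot R'.rot R''.rot (I * a) (I * b) (I * c)
  | swap {R R' R'' : Rect} {a b c : ℂ} : Cut R R' R'' a b c → Cut R R'' R' b a c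

/-- what is needed at a cut -/
def CutOK (R R' R'' : Rect) (a b c : ℂ) : Prop :=
  ∀ ha hb H : ℂ → ℂ, HOK R a b ha hb H → ∀ ε : ℝ, 0 < ε →
    ∃ P h : ℂ → ℂ, AR R h ∧ (∀ z ∈ R.S, h z = 0 ↔ z = c) ∧ AR R (fun z => h z * P z) ∧
      HOK R' a c ha h (fun z => H z * P z) ∧ HOK R'' c b h hb (fun z => H z * (1 - P z)) ∧
      (∀ F : ℂ → ℂ, AR R F →
        BI R' (fun z => F z * (H z * P z)) + BI R'' (fun z => F z * (H z * (1 - P z))) =
          BI R (fun z => F z * H z)) ∧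
      VI R' (fun z => ‖H z * P z‖) + VI R'' (fun z => ‖H z * (1 - P z)‖) ≤
        VI R (fun z => ‖H z‖) + ε ∧
      ‖BI R' (fun z => (starRingEnd ℂ) z * (H z * P z)) +
          BI R'' (fun z => (starRingEnd ℂ) z * (H z * (1 - P z))) -
          BI R (fun z => (starRingEnd ℂ) z * H z)‖ ≤ ε

/-! ### basic facts -/

section basic

variable {R : Rect}

lemma Rect.O_sub : R.O ⊆ R.S := fun _ h => ⟨h.1.le, h.2.1.le, h.2.2.1.le, h.2.2.2.le⟩

lemma Rect.isOpen_O : IsOpen R.O := by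
  have : R.O = {z : ℂ | R.x0 < z.re} ∩ {z : ℂ | z.re < R.x1} ∩
      ({z : ℂ | R.y0 < z.im} ∩ {z : ℂ | z.im < R.y1}) := by
    ext z; simp [Rect.O]; tauto
  rw [this]
  exact ((isOpen_lt continuous_const Complex.continuous_re).inter
    (isOpen_lt Complex.continuous_re continuous_const)).inter
    ((isOpen_lt continuous_const Complex.continuous_im).inter
    (isOpen_lt Complex.continuous_im continuous_const))

lemma Rect.isClosed_S : IsClosed R.S := by
  have : R.S = {z : ℂ | R.x0 ≤ z.re} ∩ {z : ℂ | z.re ≤ R.x1} ∩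
      ({z : ℂ | R.y0 ≤ z.im} ∩ {z : ℂ | z.im ≤ R.y1}) := by
    ext z; simp [Rect.S]; tauto
  rw [this]
  exact ((isClosed_le continuous_const Complex.continuous_re).inter
    (isClosed_le Complex.continuous_re continuous_const)).inter
    ((isClosed_le continuous_const Complex.continuous_im).inter
    (isClosed_le Complex.continuous_im continuous_const))

lemma Rect.S_eq : R.S = Icc R.x0 R.x1 ×ℂ Icc R.y0 R.y1 := by
  ext z; simp [Rect.S, Complex.mem_reProdIm]; tauto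

lemma Rect.O_eq : R.O = Ioo R.x0 R.x1 ×ℂ Ioo R.y0 R.y1 := by
  ext z; simp [Rect.O, Complex.mem_reProdIm]; tauto

lemma Rect.isCompact_S : IsCompact R.S := by
  rw [Rect.S_eq]; exact isCompact_Icc.reProdIm isCompact_Icc

lemma Rect.convex_S : Convex ℝ R.S := by
  intro z hz w hw s t hs ht hst
  have e1 : (s • z + t • w).re = s * z.re + t * w.re := by simp
  have e2 : (s • z + t • w).im = s * z.im + t * w.im := by simp
  refine ⟨?_, ?_, ?_, ?_⟩ <;> simp only [e1, e2]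
  · have h3 : R.x0 = s * R.x0 + t * R.x0 := by rw [← add_mul, hst, one_mul]
    linarith [mul_le_mul_of_nonneg_left hz.1 hs, mul_le_mul_of_nonneg_left hw.1 ht]
  · have h3 : R.x1 = s * R.x1 + t * R.x1 := by rw [← add_mul, hst, one_mul]
    linarith [mul_le_mul_of_nonneg_left hz.2.1 hs, mul_le_mul_of_nonneg_left hw.2.1 ht]
  · have h3 : R.y0 = s * R.y0 + t * R.y0 := by rw [← add_mul, hst, one_mul]
    linarith [mul_le_mul_of_nonneg_left hz.2.2.1 hs, mul_le_mul_of_nonneg_left hw.2.2.1 ht]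
  · have h3 : R.y1 = s * R.y1 + t * R.y1 := by rw [← add_mul, hst, one_mul]
    linarith [mul_le_mul_of_nonneg_left hz.2.2.2 hs, mul_le_mul_of_nonneg_left hw.2.2.2 ht]

lemma Rect.nonempty_S : R.S.Nonempty :=
  ⟨⟨R.x0, R.y0⟩, le_rfl, R.hx.le, le_rfl, R.hy.le⟩

lemma AR.add {f g : ℂ → ℂ} (hf : AR R f) (hg : AR R g) : AR R (fun z => f z + g z) :=
  ⟨hf.1.add hg.1, hf.2.add hg.2⟩

lemma AR.sub {f g : ℂ → ℂ} (hf : AR R f) (hg : AR R g) : AR R (fun z => f z - g z) :=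
  ⟨hf.1.sub hg.1, hf.2.sub hg.2⟩

lemma AR.mul {f g : ℂ → ℂ} (hf : AR R f) (hg : AR R g) : AR R (fun z => f z * g z) :=
  ⟨hf.1.mul hg.1, hf.2.mul hg.2⟩

lemma AR.const (w : ℂ) : AR R (fun _ => w) := ⟨continuousOn_const, differentiableOn_const w⟩

lemma AR.id : AR R (fun z => z) := ⟨continuousOn_id, differentiableOn_id⟩

lemma AR.of_diff {f : ℂ → ℂ} (hf : Differentiable ℂ f) : AR R f :=
  ⟨hf.continuous.continuousOn, hf.differentiableOn⟩

lemma AR.inv_sub {p : ℂ} (hp : p ∉ R.S) : AR R (fun z => (z - p)⁻¹) := by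
  have h0 : ∀ z ∈ R.S, z - p ≠ 0 := fun z hz h => hp (by rwa [sub_eq_zero.1 h] at hz)
  refine ⟨ContinuousOn.inv₀ (by fun_prop) h0, DifferentiableOn.inv (by fun_prop) fun z hz => ?_⟩
  exact h0 z (Rect.O_sub hz)

lemma AR.congr {f g : ℂ → ℂ} (hf : AR R f) (h : ∀ z ∈ R.S, g z = f z) : AR R g :=
  ⟨hf.1.congr h, hf.2.congr fun z hz => h z (Rect.O_sub hz)⟩

lemma AR.mono {R' : Rect} {f : ℂ → ℂ} (hf : AR R f) (hS : R'.S ⊆ R.S) (hO : R'.O ⊆ R.O) :
    AR R' f := ⟨hf.1.mono hS, hf.2.mono hO⟩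

lemma AR.bdd {f : ℂ → ℂ} (hf : AR R f) : ∃ M : ℝ, 0 ≤ M ∧ ∀ z ∈ R.S, ‖f z‖ ≤ M := by
  obtain ⟨M, hM⟩ := Rect.isCompact_S.exists_bound_of_continuousOn hf.1
  exact ⟨max M 0, le_max_right _ _, fun z hz => (hM z hz).trans (le_max_left _ _)⟩

lemma Rect.left_S {t : ℝ} (ht : R.x0 < t) (ht' : t ≤ R.x1) :
    (R.left t ht).S = {z ∈ R.S | z.re ≤ t} := by
  ext z; simp only [Rect.S, Rect.left, mem_setOf_eq]
  constructor
  · rintro ⟨h1, h2, h3, h4⟩; exact ⟨⟨h1, h2.trans ht', h3, h4⟩, h2⟩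
  · rintro ⟨⟨h1, _, h3, h4⟩, h2⟩; exact ⟨h1, h2, h3, h4⟩

lemma Rect.right_S {t : ℝ} (ht : t < R.x1) (ht' : R.x0 ≤ t) :
    (R.right t ht).S = {z ∈ R.S | t ≤ z.re} := by
  ext z; simp only [Rect.S, Rect.right, mem_setOf_eq]
  constructor
  · rintro ⟨h1, h2, h3, h4⟩; exact ⟨⟨ht'.trans h1, h2, h3, h4⟩, h1⟩
  · rintro ⟨⟨_, h2, h3, h4⟩, h1⟩; exact ⟨h1, h2, h3, h4⟩

lemma Rect.left_O_sub {t : ℝ} (ht : R.x0 < t) (ht' : t ≤ R.x1) : (R.left t ht).O ⊆ R.O :=
  fun _ h => ⟨h.1, lt_of_lt_of_le h.2.1 ht', h.2.2.1, h.2.2.2⟩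

lemma Rect.right_O_sub {t : ℝ} (ht : t < R.x1) (ht' : R.x0 ≤ t) : (R.right t ht).O ⊆ R.O :=
  fun _ h => ⟨lt_of_le_of_lt ht' h.1, h.2.1, h.2.2.1, h.2.2.2⟩

end basic

end Pool.Agent.Lib.GEX
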