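import Mathlib

/-!
# GEX.Gelf: Gelfand theory in closed subalgebras  (1.2 h)

`S` a closed subalgebra of a commutative Banach algebra `E` is itself a commutative Banach algebra (`hS.completeSpace_coe`,
norm instances of subalgebras: `Subalgebra.toNormedRing` / `Subalgebra.normedCommRing`, `NormedAlgebra`).
`char_norm_le`: `AlgHom.norm_apply_le_self` (or `AlgHom.norm_apply_le_self_mul_norm_one`); here `‖1‖ = 1` is assumed in `E`.
`closed_bez`: if the ideal `Ideal.span {f, g}` of `S` is not `⊤` it is contained in a maximal ideal `m`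
(`Ideal.exists_le_maximal`); `Ideal.toCharacterSpace m` is a character vanishing on `m`
(`Ideal.toCharacterSpace_apply_eq_zero_of_mem`), a contradiction. Then `Ideal.mem_span_pair`.
`closed_inv`: take `g = 0` in `closed_bez` (or `WeakDual.CharacterSpace.exists_apply_eq_zero`).
If `E` is trivial everything is clear (`1 = 0`); `NormOneClass` excludes this.
-/

namespace Pool.Agent.Lib.GEX

variable {E : Type*} [NormedCommRing E] [NormedAlgebra ℂ E] [CompleteSpace E] [NormOneClass E]

theorem char_norm_le (S : Subalgebra ℂ E) (hS : IsClosed (S : Set E)) (χ : S →ₐ[ℂ] ℂ) (s : S) :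
    ‖χ s‖ ≤ ‖(s : E)‖ := by
  have : CompleteSpace S := hS.completeSpace_coe
  have : NormOneClass S := ⟨by
    show ‖((1 : S) : E)‖ = 1
    rw [Subalgebra.coe_one]
    exact norm_one⟩
  exact AlgHom.norm_apply_le_self χ s

theorem closed_bez (S : Subalgebra ℂ E) (hS : IsClosed (S : Set E)) (f g : S)
    (h : ∀ χ : S →ₐ[ℂ] ℂ, χ f ≠ 0 ∨ χ g ≠ 0) : ∃ u v : S, u * f + v * g = 1 := by
  have : CompleteSpace S := hS.completeSpace_coe
  have : NormOneClass S := ⟨by
    show ‖((1 : S) : E)‖ = 1
    rw [Subalgebra.coe_one]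
    exact norm_one⟩
  have htop : Ideal.span {f, g} = (⊤ : Ideal S) := by
    by_contra hne
    obtain ⟨M, hM, hle⟩ := Ideal.exists_le_maximal _ hne
    have h1 : f ∈ M := hle (Ideal.subset_span (Set.mem_insert _ _))
    have h2 : g ∈ M := hle (Ideal.subset_span (Set.mem_insert_of_mem _ (Set.mem_singleton _)))
    have e1 := M.toCharacterSpace_apply_eq_zero_of_mem h1
    have e2 := M.toCharacterSpace_apply_eq_zero_of_mem h2
    rcases h (WeakDual.CharacterSpace.toAlgHom M.toCharacterSpace) with h3 | h3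
    · exact h3 e1
    · exact h3 e2
  have h1 : (1 : S) ∈ Ideal.span {f, g} := by rw [htop]; trivial
  obtain ⟨u, v, huv⟩ := Ideal.mem_span_pair.1 h1
  exact ⟨u, v, huv⟩

theorem closed_inv (S : Subalgebra ℂ E) (hS : IsClosed (S : Set E)) (f : S)
    (h : ∀ χ : S →ₐ[ℂ] ℂ, χ f ≠ 0) : ∃ u : S, u * f = 1 := by
  obtain ⟨u, v, huv⟩ := closed_bez S hS f 0 (fun χ => Or.inl (h χ))
  exact ⟨u, by rw [mul_zero, add_zero] at huv; exact huv⟩

end Pool.Agent.Lib.GEX
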