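import Pool.Agent.Lib.GEX.ZInj

/-!
# GEX.Gen: the generating functions  (2.5 h)

`Zm s z` bundles the two properties of `exists_z`. `gn n k G t = Ψ n k (z t) * G (z t)` if `J n k t`, `0` otherwise.
`Ψ_AR`: `Ψ n k ∈ A(R n k)` (induction on `n`, `k = 2l` or `2l+1`). `Ψ_zero_left`: for `0 < k < 2^n`, `t = k/2^n`: `Ψ n k (z t) = 0` (induction on `n`: `k = 2l+1`: `z t = a n k` is the contact point of `(n-1, l)`, `h = 0` there;
`k = 2l`: `t = l/2^(n-1)`, `0 < l`, `Ψ (n) (2l) = Ψ (n-1) l * h`). `Ψ_zero_right`: for `k + 1 < 2^n`, `t = (k+1)/2^n`: `Ψ n k (z t) = 0`.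
`gn_cont`: `gn n k G` is continuous for `G ∈ A(R n k)`, `k < 2^n`: on the closed set `J n k` it is continuous, on the closure of the complement it is `0`: the two closed sets meet only in end points of the interval in
`(0,1)`, where the function is `0` (`Continuous.if_le` twice, or `IsClosed` gluing / `ContinuousOn.if'`).
Multiplication: `gn_mul_desc`: if `(m, l)` is below `(n, k)`, i.e. `n ≤ m`, `l / 2^(m-n) = k`: `gn n k G * gn m l F = gn m l (Ψ n k G F)` (`J m l t → J n k t`). `gn_mul_disj`: otherwise (and `(n,k)` not below `(m,l)`) the product is `0`: if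
`J n k t` and `J m l t`, `n ≤ m`, `l / 2^(m-n) ≠ k`, then `t` is an end point of `J n k` in `(0,1)`, where `Ψ n k (z t) = 0`.
`gn_split`: `gn (n+1) (2k) G + gn (n+1) (2k+1) G = gn n k (h n k * G)`: at the midpoint `z t = a (n+1) (2k+1)`, all terms are `0`.
-/

open Set Filter Topology
open Complex (I)

namespace Pool.Agent.Lib.GEX

/-- the properties of the map `z` -/
structure Zm (s : Sys) (z : C(unitInterval, ℂ)) : Prop where
  mem : ∀ n k, k < 2 ^ n → ∀ t, J n k t → z t ∈ (s.R n k).S
  surj : ∀ n k, k < 2 ^ n → ∀ w ∈ (s.R n k).S, ∃ t, J n k t ∧ z t = w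

open Classical in
/-- the generating function of the node `(n, k)` with coefficient `G` -/
noncomputable def gn (s : Sys) (z : C(unitInterval, ℂ)) (n k : ℕ) (G : ℂ → ℂ)
    (t : unitInterval) : ℂ :=
  if J n k t then s.Ψ n k (z t) * G (z t) else 0

variable {s : Sys} {z : C(unitInterval, ℂ)}

namespace GenAux

theorem J_iff {n k : ℕ} {t : unitInterval} :
    J n k t ↔ (k : ℝ) ≤ 2 ^ n * (t : ℝ) ∧ 2 ^ n * (t : ℝ) ≤ k + 1 := by
  unfold J
  have h : (0 : ℝ) < 2 ^ n := by positivity
  rw [div_le_iff₀ h, le_div_iff₀ h, mul_comm (t : ℝ)]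

theorem J_half {n k : ℕ} {t : unitInterval} (h : J (n + 1) k t) : J n (k / 2) t := by
  rw [J_iff] at h ⊢
  obtain ⟨h1, h2⟩ := h
  rw [pow_succ] at h1 h2
  rcases Nat.even_or_odd' k with ⟨l, rfl | rfl⟩
  · have e : 2 * l / 2 = l := by omega
    rw [e]
    push_cast at h1 h2
    constructor <;> linarith
  · have e : (2 * l + 1) / 2 = l := by omega
    rw [e]
    push_cast at h1 h2
    constructor <;> linarith

theorem eq_of_div {n : ℕ} {x : ℝ} {t : unitInterval} (h : (t : ℝ) = x / 2 ^ n) :
    2 ^ n * (t : ℝ) = x := by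
  rw [h]
  field_simp

theorem div_of_eq {n : ℕ} {x : ℝ} {t : unitInterval} (h : 2 ^ n * (t : ℝ) = x) :
    (t : ℝ) = x / 2 ^ n := by
  rw [← h]
  field_simp

end GenAux

open GenAux

theorem Ψ_AR (s : Sys) (n k : ℕ) : AR (s.R n k) (s.Ψ n k) := by
  induction n generalizing k with
  | zero =>
    rw [s.Ψ0 k]
    exact AR.const 1
  | succ n ih =>
    rcases Nat.even_or_odd' k with ⟨l, rfl | rfl⟩
    · rw [s.Ψ1 n l]
      exact ((ih l).mul (s.hAR n l)).mono (s.sub0 n l) (s.osub0 n l)
    · rw [s.Ψ2 n l]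
      exact ((ih l).mul (s.hAR n l)).mono (s.sub1 n l) (s.osub1 n l)

/-- descendants -/
theorem R_desc (s : Sys) {n m l : ℕ} (h : n ≤ m) :
    (s.R m l).S ⊆ (s.R n (l / 2 ^ (m - n))).S ∧ (s.R m l).O ⊆ (s.R n (l / 2 ^ (m - n))).O := by
  obtain ⟨d, rfl⟩ := Nat.exists_eq_add_of_le h
  rw [Nat.add_sub_cancel_left]
  clear h
  induction d generalizing l with
  | zero => simp
  | succ d ih =>
    have h1 := ih (l := l / 2)
    have h2 : l / 2 / 2 ^ d = l / 2 ^ (d + 1) := by
      rw [Nat.div_div_eq_div_mul, pow_succ, mul_comm]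
    rw [h2] at h1
    rcases Nat.even_or_odd' l with ⟨j, hj | hj⟩
    · have e : l / 2 = j := by omega
      rw [e] at h1
      rw [hj] at h1 ⊢
      exact ⟨(s.sub0 (n + d) j).trans h1.1, (s.osub0 (n + d) j).trans h1.2⟩
    · have e : l / 2 = j := by omega
      rw [e] at h1
      rw [hj] at h1 ⊢
      exact ⟨(s.sub1 (n + d) j).trans h1.1, (s.osub1 (n + d) j).trans h1.2⟩

theorem J_desc {n m l : ℕ} (h : n ≤ m) {t : unitInterval} (ht : J m l t) :
    J n (l / 2 ^ (m - n)) t := by
  obtain ⟨d, rfl⟩ := Nat.exists_eq_add_of_le h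
  rw [Nat.add_sub_cancel_left]
  clear h
  induction d generalizing l with
  | zero => simpa using ht
  | succ d ih =>
    have h1 := ih (l := l / 2) (J_half ht)
    have h2 : l / 2 / 2 ^ d = l / 2 ^ (d + 1) := by
      rw [Nat.div_div_eq_div_mul, pow_succ, mul_comm]
    rw [h2] at h1
    exact h1

theorem Ψ_left (hz : Zm s z) {n k : ℕ} (h0 : 0 < k) (hk : k < 2 ^ n) {t : unitInterval}
    (ht : (t : ℝ) = k / 2 ^ n) : s.Ψ n k (z t) = 0 := by
  induction n generalizing k with
  | zero =>
    rw [pow_zero] at hk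
    omega
  | succ n ih =>
    rw [pow_succ] at hk
    rcases Nat.even_or_odd' k with ⟨l, rfl | rfl⟩
    · rw [s.Ψ1 n l]
      have h1 : (t : ℝ) = (l : ℝ) / 2 ^ n := by
        rw [ht]
        push_cast
        rw [pow_succ]
        field_simp
      show s.Ψ n l (z t) * s.h n l (z t) = 0
      rw [ih (by omega) (by omega) h1, zero_mul]
    · rw [s.Ψ2 n l]
      have hl : l < 2 ^ n := by omega
      have h1 : (t : ℝ) = (2 * (l : ℝ) + 1) / 2 ^ (n + 1) := by
        rw [ht]
        push_cast
        ring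
      have hJ : J n l t := by
        rw [J_iff]
        have h2 := eq_of_div h1
        rw [pow_succ] at h2
        constructor <;> linarith
      have h3 := (s.h0 n l (z t) (hz.mem n l hl t hJ)).2 (z_contact s hz.mem hl h1)
      show s.Ψ n l (z t) * s.h n l (z t) = 0
      rw [h3, mul_zero]

theorem Ψ_right (hz : Zm s z) {n k : ℕ} (hk : k + 1 < 2 ^ n) {t : unitInterval}
    (ht : (t : ℝ) = (k + 1) / 2 ^ n) : s.Ψ n k (z t) = 0 := by
  induction n generalizing k with
  | zero =>
    rw [pow_zero] at hk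
    omega
  | succ n ih =>
    rw [pow_succ] at hk
    rcases Nat.even_or_odd' k with ⟨l, rfl | rfl⟩
    · rw [s.Ψ1 n l]
      have hl : l < 2 ^ n := by omega
      have h1 : (t : ℝ) = (2 * (l : ℝ) + 1) / 2 ^ (n + 1) := by
        rw [ht]
        push_cast
        ring
      have hJ : J n l t := by
        rw [J_iff]
        have h2 := eq_of_div h1
        rw [pow_succ] at h2
        constructor <;> linarith
      have h3 := (s.h0 n l (z t) (hz.mem n l hl t hJ)).2 (z_contact s hz.mem hl h1)
      show s.Ψ n l (z t) * s.h n l (z t) = 0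
      rw [h3, mul_zero]
    · rw [s.Ψ2 n l]
      have h1 : (t : ℝ) = ((l : ℝ) + 1) / 2 ^ n := by
        rw [ht]
        push_cast
        rw [pow_succ]
        field_simp
        ring
      show s.Ψ n l (z t) * s.h n l (z t) = 0
      rw [ih (by omega) h1, zero_mul]

theorem gn_cont (hz : Zm s z) {n k : ℕ} (hk : k < 2 ^ n) {G : ℂ → ℂ} (hG : AR (s.R n k) G) :
    Continuous (gn s z n k G) := by
  classical
  have hclosed : IsClosed {t : unitInterval | J n k t} := by
    have : {t : unitInterval | J n k t} = {t : unitInterval | (k : ℝ) / 2 ^ n ≤ (t : ℝ)} ∩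
        {t : unitInterval | (t : ℝ) ≤ (k + 1) / 2 ^ n} := rfl
    rw [this]
    exact (isClosed_le continuous_const continuous_subtype_val).inter
      (isClosed_le continuous_subtype_val continuous_const)
  have hcont : ContinuousOn (fun t => s.Ψ n k (z t) * G (z t)) {t : unitInterval | J n k t} := by
    have h1 := ((Ψ_AR s n k).mul hG).1
    exact h1.comp z.continuous.continuousOn fun t ht => hz.mem n k hk t ht
  have hfr : ∀ a ∈ frontier {t : unitInterval | J n k t}, s.Ψ n k (z a) * G (z a) = 0 := by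
    intro a ha
    rw [hclosed.frontier_eq] at ha
    obtain ⟨haJ, haI⟩ := ha
    have haJ' : J n k a := haJ
    have hJ2 := J_iff.1 haJ'
    have hop : ∀ O : Set unitInterval, IsOpen O → a ∈ O → (∀ t ∈ O, J n k t) → False :=
      fun O h1 h2 h3 => haI (interior_maximal h3 h1 h2)
    have hc : Continuous fun t : unitInterval => (2 : ℝ) ^ n * (t : ℝ) :=
      continuous_const.mul continuous_subtype_val
    have hcase : (0 < k ∧ (2 : ℝ) ^ n * (a : ℝ) = k) ∨
        (k + 1 < 2 ^ n ∧ (2 : ℝ) ^ n * (a : ℝ) = k + 1) := by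
      by_contra hcon
      push Not at hcon
      obtain ⟨c1, c2⟩ := hcon
      have hp : (0 : ℝ) < 2 ^ n := by positivity
      have lo : k = 0 ∨ (k : ℝ) < 2 ^ n * (a : ℝ) := by
        rcases Nat.eq_zero_or_pos k with h | h
        · exact Or.inl h
        · exact Or.inr (lt_of_le_of_ne hJ2.1 fun h' => c1 h h'.symm)
      have hi : k + 1 = 2 ^ n ∨ 2 ^ n * (a : ℝ) < k + 1 := by
        rcases Nat.lt_or_ge (k + 1) (2 ^ n) with h | h
        · exact Or.inr (lt_of_le_of_ne hJ2.2 (c2 h))
        · exact Or.inl (by omega)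
      refine hop ({t | k = 0 ∨ (k : ℝ) < 2 ^ n * (t : ℝ)} ∩
        {t | k + 1 = 2 ^ n ∨ 2 ^ n * (t : ℝ) < k + 1}) ?_ ⟨lo, hi⟩ ?_
      · refine IsOpen.inter ?_ ?_
        · by_cases h : k = 0
          · simp only [h, true_or, Set.setOf_true]
            exact isOpen_univ
          · simp only [h, false_or]
            exact isOpen_lt continuous_const hc
        · by_cases h : k + 1 = 2 ^ n
          · simp only [h, true_or, Set.setOf_true]
            exact isOpen_univ
          · simp only [h, false_or]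
            exact isOpen_lt hc continuous_const
      · rintro t ⟨h1, h2⟩
        rw [J_iff]
        constructor
        · rcases h1 with h1 | h1
          · rw [h1, Nat.cast_zero]
            exact mul_nonneg hp.le t.2.1
          · exact h1.le
        · rcases h2 with h2 | h2
          · have h3 : (k : ℝ) + 1 = 2 ^ n := by exact_mod_cast h2
            rw [h3]
            exact mul_le_of_le_one_right hp.le t.2.2
          · exact h2.le
    rcases hcase with ⟨h1, h2⟩ | ⟨h1, h2⟩
    · rw [Ψ_left hz h1 hk (div_of_eq h2), zero_mul]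
    · rw [Ψ_right hz h1 (div_of_eq h2), zero_mul]
  have hmain : Continuous fun t : unitInterval =>
      if J n k t then s.Ψ n k (z t) * G (z t) else 0 := by
    refine continuous_if hfr ?_ continuousOn_const
    rw [hclosed.closure_eq]
    exact hcont
  have heq : gn s z n k G = fun t : unitInterval =>
      if J n k t then s.Ψ n k (z t) * G (z t) else 0 := by
    funext t
    unfold gn
    by_cases h : J n k t
    · simp only [if_pos h]
    · simp only [if_neg h]
  rw [heq]
  exact hmain

theorem gn_mul_desc (hz : Zm s z) {n m l : ℕ} (h : n ≤ m) (hl : l < 2 ^ m) (G F : ℂ → ℂ)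
    (t : unitInterval) : gn s z n (l / 2 ^ (m - n)) G t * gn s z m l F t =
      gn s z m l (fun w => s.Ψ n (l / 2 ^ (m - n)) w * G w * F w) t := by
  unfold gn
  by_cases hJ : J m l t
  · rw [if_pos hJ, if_pos hJ, if_pos (J_desc h hJ)]
    ring
  · rw [if_neg hJ, if_neg hJ, mul_zero]

theorem gn_mul_disj (hz : Zm s z) {n m k l : ℕ} (h : n ≤ m) (hk : k < 2 ^ n) (hl : l < 2 ^ m)
    (hkl : l / 2 ^ (m - n) ≠ k) (G F : ℂ → ℂ) (t : unitInterval) :
    gn s z n k G t * gn s z m l F t = 0 := by
  unfold gn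
  by_cases h1 : J n k t
  · by_cases h2 : J m l t
    · have h3 := J_desc h h2
      have hq : l / 2 ^ (m - n) < 2 ^ n := by
        rw [Nat.div_lt_iff_lt_mul (by positivity), ← pow_add, Nat.add_sub_cancel' h]
        exact hl
      rw [J_iff] at h3
      have h1' := J_iff.1 h1
      have hzero : s.Ψ n k (z t) = 0 := by
        rcases Nat.lt_or_gt_of_ne hkl with hlt | hgt
        · have h4 : ((l / 2 ^ (m - n) : ℕ) : ℝ) + 1 ≤ k := by exact_mod_cast hlt
          exact Ψ_left hz (lt_of_le_of_lt (Nat.zero_le _) hlt) hk (div_of_eq (by linarith))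
        · have h4 : (k : ℝ) + 1 ≤ ((l / 2 ^ (m - n) : ℕ) : ℝ) := by exact_mod_cast hgt
          exact Ψ_right hz (lt_of_le_of_lt hgt hq) (div_of_eq (by linarith))
      rw [if_pos h1, hzero, zero_mul, zero_mul]
    · rw [if_neg h2, mul_zero]
  · rw [if_neg h1, zero_mul]

theorem gn_split (hz : Zm s z) {n k : ℕ} (hk : k < 2 ^ n) (G : ℂ → ℂ) (t : unitInterval) :
    gn s z (n + 1) (2 * k) G t + gn s z (n + 1) (2 * k + 1) G t =
      gn s z n k (fun w => s.h n k w * G w) t := by
  unfold gn
  by_cases h1 : J (n + 1) (2 * k) t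
  · have hJ : J n k t := by
      have := J_half h1
      rwa [show 2 * k / 2 = k by omega] at this
    by_cases h2 : J (n + 1) (2 * k + 1) t
    · rw [if_pos h1, if_pos h2, if_pos hJ, s.Ψ1 n k, s.Ψ2 n k]
      have e1 := (J_iff.1 h1).2
      have e2 := (J_iff.1 h2).1
      push_cast at e1 e2
      have h3 := (s.h0 n k (z t) (hz.mem n k hk t hJ)).2
        (z_contact s hz.mem hk (div_of_eq (le_antisymm e1 e2)))
      simp only [h3, mul_zero, zero_mul, add_zero]
    · rw [if_pos h1, if_neg h2, if_pos hJ, s.Ψ1 n k]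
      ring
  · by_cases h2 : J (n + 1) (2 * k + 1) t
    · have hJ : J n k t := by
        have := J_half h2
        rwa [show (2 * k + 1) / 2 = k by omega] at this
      rw [if_neg h1, if_pos h2, if_pos hJ, s.Ψ2 n k]
      ring
    · have hJ : ¬ J n k t := by
        intro hJ
        rw [J_iff] at hJ h1 h2
        rw [pow_succ] at h1 h2
        push_cast at h1 h2
        rcases le_total (2 ^ n * 2 * (t : ℝ)) (2 * (k : ℝ) + 1) with h | h
        · exact h1 ⟨by linarith [hJ.1], h⟩
        · exact h2 ⟨h, by linarith [hJ.2]⟩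
      rw [if_neg h1, if_neg h2, if_neg hJ, add_zero]

end Pool.Agent.Lib.GEX
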