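import Pool.Agent.Lib.GEX.InvP

/-!
# GEX.Ind: a function in `BB` close to the indicator function of the left half  (1 h)

`N = 2πk/(y1-y0)`, `k` large, `F ∈ BB` from `inv_apx` with error `ε/2` (`ε ≤ 1` w.l.o.g.). `PN = 1/(1+e)`, `e = exp (N (z - c))`. On `Γ \ {c}`:
top and bottom side (`z.im = y1`, resp. `z.im = y0`: `exp(-i N (y1-y0)) = exp(-2πik) = 1`): `e = exp (N (z.re - xm)) > 0`, so `|PN| ≤ 1` and `|1-PN| = |e/(1+e)| ≤ 1`. In general `|e| = exp (N (z.re - xm))`: for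
`z.re ≤ xm - d'`: `|1 - PN| = |e/(1+e)| ≤ exp(-N d')/(1 - exp(-N d')) ≤ 2 exp(-N d')`; for `z.re ≥ xm + d'`: `|PN| ≤ 1/(|e| - 1) ≤ 2 exp(-N d')` (if `exp(-N d') ≤ 1/2`). A point of `Γ` which is not on the top or bottom
side has `|z.re - xm| ≥ d ≥ d'` (`d' ≤ d` w.l.o.g.: a smaller `d'` gives a stronger conclusion). Choose `k` with `2 exp(-N d') ≤ ε/2`.
-/

open Set MeasureTheory Filter Topology
open Complex (I)

namespace Pool.Agent.Lib.GEX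

namespace IndAux

lemma small {w : ℂ} {δ : ℝ} (h : ‖w‖ ≤ δ) (hδ : δ ≤ 1 / 3) :
    ‖(1 + w)⁻¹‖ ≤ 3 / 2 ∧ ‖1 - (1 + w)⁻¹‖ ≤ 3 / 2 * δ := by
  have h0 : 2 / 3 ≤ ‖1 + w‖ := by
    have h1 : ‖(1 : ℂ)‖ - ‖-w‖ ≤ ‖1 - (-w)‖ := norm_sub_norm_le _ _
    rw [norm_neg, norm_one, sub_neg_eq_add] at h1
    linarith
  have hne : 1 + w ≠ 0 := by
    intro h1
    rw [h1, norm_zero] at h0
    linarith
  have h2 : ‖(1 + w)⁻¹‖ ≤ 3 / 2 := by
    rw [norm_inv]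
    calc ‖1 + w‖⁻¹ ≤ (2 / 3 : ℝ)⁻¹ := inv_anti₀ (by norm_num) h0
      _ = 3 / 2 := by norm_num
  refine ⟨h2, ?_⟩
  have h3 : 1 - (1 + w)⁻¹ = (1 + w)⁻¹ * w := by
    field_simp
    ring
  rw [h3, norm_mul]
  have h4 : (0 : ℝ) ≤ ‖w‖ := norm_nonneg _
  calc ‖(1 + w)⁻¹‖ * ‖w‖ ≤ 3 / 2 * ‖w‖ := mul_le_mul_of_nonneg_right h2 h4
    _ ≤ 3 / 2 * δ := by linarith

lemma large {w : ℂ} {δ : ℝ} (hw : w ≠ 0) (h : ‖w⁻¹‖ ≤ δ) (hδ : δ ≤ 1 / 3) :
    ‖(1 + w)⁻¹‖ ≤ 3 / 2 * δ ∧ ‖1 - (1 + w)⁻¹‖ ≤ 3 / 2 := by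
  obtain ⟨h1, h2⟩ := small h hδ
  have hne : 1 + w⁻¹ ≠ 0 := by
    intro h3
    have h4 : ‖w⁻¹‖ = 1 := by
      have : w⁻¹ = -1 := by
        have := eq_neg_of_add_eq_zero_right h3
        exact this
      rw [this, norm_neg, norm_one]
    linarith
  have hne' : 1 + w ≠ 0 := by
    intro h3
    apply hne
    have : w = -1 := eq_neg_of_add_eq_zero_right h3
    rw [this]
    norm_num
  have h5 : (1 + w)⁻¹ = 1 - (1 + w⁻¹)⁻¹ := by
    have : w + 1 ≠ 0 := by rwa [add_comm]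
    field_simp
    ring
  rw [h5]
  refine ⟨h2, ?_⟩
  rw [sub_sub_cancel]
  exact h1

lemma pos {x : ℝ} (hx : 0 < x) :
    ‖(1 + (x : ℂ))⁻¹‖ ≤ 1 ∧ ‖1 - (1 + (x : ℂ))⁻¹‖ ≤ 1 := by
  have h0 : (1 + (x : ℂ))⁻¹ = (((1 + x)⁻¹ : ℝ) : ℂ) := by push_cast; rfl
  have h1 : 1 - (1 + (x : ℂ))⁻¹ = ((1 - (1 + x)⁻¹ : ℝ) : ℂ) := by push_cast; rfl
  have h2 : 0 < (1 + x)⁻¹ := by positivity
  have h3 : (1 + x)⁻¹ ≤ 1 := inv_le_one_of_one_le₀ (by linarith)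
  rw [h1, h0, Complex.norm_real, Complex.norm_real, Real.norm_eq_abs, Real.norm_eq_abs,
    abs_of_pos h2, abs_of_nonneg (by linarith)]
  exact ⟨h3, by linarith⟩

lemma cases_Gam {R : Rect} {xm d : ℝ} (h1 : R.x0 < xm - d) (h2 : xm + d < R.x1) {z : ℂ}
    (hz : z ∈ Gam R (xm - d) (xm + d)) :
    (z.im = R.y1 ∨ z.im = R.y0) ∨ z.re ≤ xm - d ∨ xm + d ≤ z.re := by
  rcases hz with hB | ⟨_, h | h⟩
  · have hO : ¬ (R.x0 < z.re ∧ z.re < R.x1 ∧ R.y0 < z.im ∧ z.im < R.y1) := hB.2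
    have hS : R.x0 ≤ z.re ∧ z.re ≤ R.x1 ∧ R.y0 ≤ z.im ∧ z.im ≤ R.y1 := hB.1
    by_cases ha : R.x0 < z.re
    · by_cases hb : z.re < R.x1
      · by_cases hc : R.y0 < z.im
        · left; left
          exact le_antisymm hS.2.2.2 (not_lt.1 fun h => hO ⟨ha, hb, hc, h⟩)
        · left; right
          exact le_antisymm (not_lt.1 hc) hS.2.2.1
      · right; right
        linarith [not_lt.1 hb]
    · right; left
      linarith [not_lt.1 ha]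
  · right; left; exact h.le
  · right; right; exact h.ge

lemma exp_real {R : Rect} {xm : ℝ} {k : ℕ} {z : ℂ} (h : z.im = R.y1 ∨ z.im = R.y0) :
    Complex.exp ((2 * Real.pi * k / (R.y1 - R.y0) : ℝ) * (z - top R xm)) =
      ((Real.exp ((2 * Real.pi * k / (R.y1 - R.y0)) * (z.re - xm)) : ℝ) : ℂ) := by
  have hy : R.y1 - R.y0 ≠ 0 := by linarith [R.hy]
  obtain ⟨M, hM⟩ : ∃ M : ℝ, M = 2 * Real.pi * k / (R.y1 - R.y0) := ⟨_, rfl⟩
  have hM' : M * (R.y1 - R.y0) = 2 * Real.pi * k := by rw [hM]; field_simp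
  rw [← hM, Complex.ofReal_exp]
  rcases h with h | h
  · congr 1
    apply Complex.ext
    · rw [Complex.re_ofReal_mul]
      simp
    · rw [Complex.im_ofReal_mul, Complex.ofReal_im]
      simp [h]
  · rw [Complex.exp_eq_exp_iff_exists_int]
    refine ⟨-(k : ℤ), ?_⟩
    apply Complex.ext
    · rw [Complex.re_ofReal_mul]
      simp
    · rw [Complex.im_ofReal_mul]
      simp [h]
      linarith

lemma norm_exp' {R : Rect} {xm : ℝ} {k : ℕ} (z : ℂ) :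
    ‖Complex.exp ((2 * Real.pi * k / (R.y1 - R.y0) : ℝ) * (z - top R xm))‖ =
      Real.exp ((2 * Real.pi * k / (R.y1 - R.y0)) * (z.re - xm)) := by
  rw [Complex.norm_exp]
  congr 1
  rw [Complex.re_ofReal_mul]
  simp

end IndAux

open IndAux

theorem ind_apx (R : Rect) {xm d : ℝ} (hd : 0 < d) (h1 : R.x0 < xm - d) (h2 : xm + d < R.x1)
    {d' ε : ℝ} (hd' : 0 < d') (hε : 0 < ε) :
    ∃ P : ℂ → ℂ, BB R (top R xm) P ∧ ∀ z ∈ Gam R (xm - d) (xm + d), z ≠ top R xm →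
      ‖P z‖ ≤ 2 ∧ ‖1 - P z‖ ≤ 2 ∧ (z.re ≤ xm - d' → ‖1 - P z‖ ≤ ε) ∧
      (xm + d' ≤ z.re → ‖P z‖ ≤ ε) := by
  have hy : 0 < R.y1 - R.y0 := by linarith [R.hy]
  set d0 : ℝ := min d d' with hd0
  have hd0p : 0 < d0 := lt_min hd hd'
  have hd0d : d0 ≤ d := min_le_left _ _
  have hd0d' : d0 ≤ d' := min_le_right _ _
  set δ : ℝ := min (1 / 3) (ε / 3) with hδ
  have hδp : 0 < δ := lt_min (by norm_num) (by positivity)
  have hδ3 : δ ≤ 1 / 3 := min_le_left _ _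
  have hδε : 3 / 2 * δ ≤ ε / 2 := by
    have : δ ≤ ε / 3 := min_le_right _ _
    linarith
  obtain ⟨k0, hk0⟩ := exists_nat_ge (-Real.log δ * (R.y1 - R.y0) / (2 * Real.pi * d0))
  set k : ℕ := k0 + 1 with hk
  set N : ℝ := 2 * Real.pi * k / (R.y1 - R.y0) with hN
  have hpi : 0 < Real.pi := Real.pi_pos
  have hkpos : (0 : ℝ) < k := by rw [hk]; positivity
  have hNp : 0 < N := by positivity
  have hNd : -Real.log δ ≤ N * d0 := by
    have h3 : -Real.log δ * (R.y1 - R.y0) / (2 * Real.pi * d0) ≤ k := by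
      refine hk0.trans ?_
      rw [hk]; push_cast; linarith
    rw [div_le_iff₀ (by positivity)] at h3
    rw [hN, div_mul_eq_mul_div, le_div_iff₀ hy]
    calc -Real.log δ * (R.y1 - R.y0) ≤ k * (2 * Real.pi * d0) := h3
      _ = 2 * Real.pi * k * d0 := by ring
  have hexp : Real.exp (-(N * d0)) ≤ δ := by
    calc Real.exp (-(N * d0)) ≤ Real.exp (Real.log δ) := Real.exp_le_exp.2 (by linarith)
      _ = δ := Real.exp_log hδp
  obtain ⟨F, hF, hFz⟩ := inv_apx R hd h1 h2 (k := k) (by omega) (min (ε / 2) (1 / 2))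
    (lt_min (by positivity) (by norm_num))
  refine ⟨F, hF, fun z hz hzc => ?_⟩
  have hap := hFz z hz hzc
  set e : ℂ := Complex.exp ((2 * Real.pi * k / (R.y1 - R.y0) : ℝ) * (z - top R xm)) with he
  have hap1 : ‖F z - (1 + e)⁻¹‖ ≤ ε / 2 := hap.trans (min_le_left _ _)
  have hap2 : ‖F z - (1 + e)⁻¹‖ ≤ 1 / 2 := hap.trans (min_le_right _ _)
  have hen : ‖e‖ = Real.exp (N * (z.re - xm)) := norm_exp' z
  have hene : e ≠ 0 := Complex.exp_ne_zero _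
  have hsm : z.re ≤ xm - d0 → ‖e‖ ≤ δ := by
    intro h
    rw [hen]
    refine (Real.exp_le_exp.2 ?_).trans hexp
    have : N * (z.re - xm) ≤ N * (-d0) := mul_le_mul_of_nonneg_left (by linarith) hNp.le
    linarith
  have hla : xm + d0 ≤ z.re → ‖e⁻¹‖ ≤ δ := by
    intro h
    rw [norm_inv, hen, ← Real.exp_neg]
    refine (Real.exp_le_exp.2 ?_).trans hexp
    have : N * d0 ≤ N * (z.re - xm) := mul_le_mul_of_nonneg_left (by linarith) hNp.le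
    linarith
  have hall : ‖(1 + e)⁻¹‖ ≤ 3 / 2 ∧ ‖1 - (1 + e)⁻¹‖ ≤ 3 / 2 := by
    rcases cases_Gam h1 h2 hz with h | h | h
    · have h3 : e = ((Real.exp (N * (z.re - xm)) : ℝ) : ℂ) := exp_real h
      have h4 := pos (Real.exp_pos (N * (z.re - xm)))
      rw [← h3] at h4
      exact ⟨by linarith [h4.1], by linarith [h4.2]⟩
    · have h3 := small (hsm (by linarith)) hδ3
      exact ⟨h3.1, by linarith [h3.2]⟩
    · have h3 := large hene (hla (by linarith)) hδ3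
      exact ⟨by linarith [h3.1], h3.2⟩
  have tri1 : ‖F z‖ ≤ ‖F z - (1 + e)⁻¹‖ + ‖(1 + e)⁻¹‖ := by
    calc ‖F z‖ = ‖(F z - (1 + e)⁻¹) + (1 + e)⁻¹‖ := by rw [sub_add_cancel]
      _ ≤ _ := norm_add_le _ _
  have tri2 : ‖1 - F z‖ ≤ ‖F z - (1 + e)⁻¹‖ + ‖1 - (1 + e)⁻¹‖ := by
    calc ‖1 - F z‖ = ‖(1 - (1 + e)⁻¹) - (F z - (1 + e)⁻¹)‖ := by congr 1; ring
      _ ≤ ‖1 - (1 + e)⁻¹‖ + ‖F z - (1 + e)⁻¹‖ := norm_sub_le _ _
      _ = _ := add_comm _ _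
  refine ⟨by linarith [hall.1], by linarith [hall.2], fun h => ?_, fun h => ?_⟩
  · have h3 := small (hsm (by linarith)) hδ3
    linarith [h3.2]
  · have h3 := large hene (hla (by linarith)) hδ3
    linarith [h3.1]

end Pool.Agent.Lib.GEX
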