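import Pool.Agent.Lib.GEX.Defs

/-!
# GEX.Integ: boundary integrals  (1.5 h)

`NS.intH`: `g x = f (x + y i)` is bounded on `uIcc s t` and continuous on `uIcc s t` minus the finite set of `x` with `x + y i ∈ E` (finite because `x ↦ x + y i` is injective); so it is a.e. strongly measurable
on the restriction (`ContinuousOn.aestronglyMeasurable` on the measurable set `uIcc s t \ finite`, which has full measure) and bounded: integrable. `intV` is similar.
`BI_eq_zero`: `Complex.integral_boundary_rect_eq_zero_of_continuousOn_of_differentiableOn` with `z = x0 + y0 i`, `w = x1 + y1 i`. `norm_BI_le`: triangle inequality and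
`intervalIntegral.norm_integral_le_integral_norm`. `VI_le`: `intervalIntegral.integral_mono_ae`-type argument on the four sides (finite sets are null). `VI_const`: direct. `BI_add`, `BI_sub`: linearity.
-/

open Set MeasureTheory Filter Topology
open Complex (I)

namespace Pool.Agent.Lib.GEX

lemma NS.mono {Γ Γ' : Set ℂ} {f : ℂ → ℂ} (h : NS Γ f) (hs : Γ' ⊆ Γ) : NS Γ' f := by
  obtain ⟨⟨E, hE, hc⟩, M, hM⟩ := h
  exact ⟨⟨E, hE, hc.mono (diff_subset_diff_left hs)⟩, M, fun z hz => hM z (hs hz)⟩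

lemma NS.mul {Γ : Set ℂ} {f g : ℂ → ℂ} (hf : NS Γ f) (hg : NS Γ g) :
    NS Γ (fun z => f z * g z) := by
  obtain ⟨⟨E, hE, hc⟩, M, hM⟩ := hf
  obtain ⟨⟨E', hE', hc'⟩, M', hM'⟩ := hg
  refine ⟨⟨E ∪ E', hE.union hE', ?_⟩, M * M', fun z hz => ?_⟩
  · exact (hc.mono (diff_subset_diff_right subset_union_left)).mul
      (hc'.mono (diff_subset_diff_right subset_union_right))
  · rw [norm_mul]
    exact mul_le_mul (hM z hz) (hM' z hz) (norm_nonneg _) ((norm_nonneg _).trans (hM z hz))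

lemma NS.sub {Γ : Set ℂ} {f g : ℂ → ℂ} (hf : NS Γ f) (hg : NS Γ g) :
    NS Γ (fun z => f z - g z) := by
  obtain ⟨⟨E, hE, hc⟩, M, hM⟩ := hf
  obtain ⟨⟨E', hE', hc'⟩, M', hM'⟩ := hg
  refine ⟨⟨E ∪ E', hE.union hE', ?_⟩, M + M', fun z hz => ?_⟩
  · exact (hc.mono (diff_subset_diff_right subset_union_left)).sub
      (hc'.mono (diff_subset_diff_right subset_union_right))
  · exact (norm_sub_le _ _).trans (add_le_add (hM z hz) (hM' z hz))

lemma NS.add {Γ : Set ℂ} {f g : ℂ → ℂ} (hf : NS Γ f) (hg : NS Γ g) :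
    NS Γ (fun z => f z + g z) := by
  obtain ⟨⟨E, hE, hc⟩, M, hM⟩ := hf
  obtain ⟨⟨E', hE', hc'⟩, M', hM'⟩ := hg
  refine ⟨⟨E ∪ E', hE.union hE', ?_⟩, M + M', fun z hz => ?_⟩
  · exact (hc.mono (diff_subset_diff_right subset_union_left)).add
      (hc'.mono (diff_subset_diff_right subset_union_right))
  · exact (norm_add_le _ _).trans (add_le_add (hM z hz) (hM' z hz))

lemma NS.of_cont {R : Rect} {Γ : Set ℂ} {f : ℂ → ℂ} (hf : ContinuousOn f R.S) (hs : Γ ⊆ R.S) :
    NS Γ f := by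
  obtain ⟨M, hM⟩ := Rect.isCompact_S.exists_bound_of_continuousOn hf
  exact ⟨⟨∅, finite_empty, by simpa using hf.mono hs⟩, M, fun z hz => hM z (hs hz)⟩

lemma NS.const (Γ : Set ℂ) (w : ℂ) : NS Γ (fun _ => w) :=
  ⟨⟨∅, finite_empty, continuousOn_const⟩, ‖w‖, fun _ _ => le_rfl⟩

namespace IntegAux

theorem int_of_bdd {g : ℝ → ℂ} {s t : ℝ} {F : Set ℝ} (hF : F.Finite)
    (hc : ContinuousOn g (uIcc s t \ F)) {M : ℝ} (hM : ∀ x ∈ uIcc s t, ‖g x‖ ≤ M) :
    IntervalIntegrable g volume s t := by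
  have h1 : AEStronglyMeasurable g (volume.restrict (uIcc s t \ F)) :=
    hc.aestronglyMeasurable (measurableSet_uIcc.diff hF.measurableSet)
  have h2 : volume.restrict (uIcc s t \ F) = volume.restrict (uIcc s t) :=
    Measure.restrict_congr_set (sdiff_null_ae_eq_self (hF.measure_zero _))
  rw [h2] at h1
  have h3 : IntegrableOn g (uIcc s t) volume := by
    haveI : IsFiniteMeasure (volume.restrict (uIcc s t)) := by
      refine ⟨?_⟩
      rw [Measure.restrict_apply_univ, uIcc]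
      exact measure_Icc_lt_top
    exact Integrable.of_bound h1 M
      ((ae_restrict_iff' measurableSet_uIcc).2 (Eventually.of_forall fun x hx => hM x hx))
  exact h3.intervalIntegrable

theorem finH {E : Set ℂ} (hE : E.Finite) (y : ℝ) : {x : ℝ | (x : ℂ) + y * I ∈ E}.Finite := by
  refine hE.preimage (f := fun x : ℝ => (x : ℂ) + y * I) ?_
  intro a _ b _ hab
  have h1 := congrArg Complex.re hab
  simpa using h1

theorem finV {E : Set ℂ} (hE : E.Finite) (x : ℝ) : {y : ℝ | (x : ℂ) + y * I ∈ E}.Finite := by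
  refine hE.preimage (f := fun y : ℝ => (x : ℂ) + y * I) ?_
  intro a _ b _ hab
  have h1 := congrArg Complex.im hab
  simpa using h1

end IntegAux

open IntegAux

theorem NS.intH {Γ : Set ℂ} {f : ℂ → ℂ} (hf : NS Γ f) {s t y : ℝ}
    (h : ∀ x ∈ uIcc s t, ((x : ℂ) + y * I) ∈ Γ) :
    IntervalIntegrable (fun x : ℝ => f (x + y * I)) volume s t := by
  obtain ⟨⟨E, hE, hc⟩, M, hM⟩ := hf
  refine int_of_bdd (finH hE y) ?_ (M := M) fun x hx => hM _ (h x hx)
  refine hc.comp (by fun_prop) ?_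
  intro x hx
  exact ⟨h x hx.1, hx.2⟩

theorem NS.intV {Γ : Set ℂ} {f : ℂ → ℂ} (hf : NS Γ f) {s t x : ℝ}
    (h : ∀ y ∈ uIcc s t, ((x : ℂ) + y * I) ∈ Γ) :
    IntervalIntegrable (fun y : ℝ => f (x + y * I)) volume s t := by
  obtain ⟨⟨E, hE, hc⟩, M, hM⟩ := hf
  refine int_of_bdd (finV hE x) ?_ (M := M) fun y hy => hM _ (h y hy)
  refine hc.comp (by fun_prop) ?_
  intro y hy
  exact ⟨h y hy.1, hy.2⟩

theorem BI_eq_zero {R : Rect} {f : ℂ → ℂ} (hf : AR R f) : BI R f = 0 := by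
  have hx := R.hx.le
  have hy := R.hy.le
  have h1 := Complex.integral_boundary_rect_eq_zero_of_continuousOn_of_differentiableOn f
    ⟨R.x0, R.y0⟩ ⟨R.x1, R.y1⟩ (by
      simp only
      rw [uIcc_of_le hx, uIcc_of_le hy, ← Rect.S_eq]
      exact hf.1) (by
      simp only
      rw [min_eq_left hx, max_eq_right hx, min_eq_left hy, max_eq_right hy, ← Rect.O_eq]
      exact hf.2)
  simp only [smul_eq_mul] at h1
  exact h1

namespace IntegAux

variable {R : Rect}

theorem bot {x : ℝ} (hx : x ∈ Icc R.x0 R.x1) : ((x : ℂ) + R.y0 * I) ∈ R.B := by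
  refine ⟨⟨?_, ?_, ?_, ?_⟩, fun h => ?_⟩
  · simpa using hx.1
  · simpa using hx.2
  · simp
  · simpa using R.hy.le
  · have h1 := h.2.2.1
    simp at h1

theorem tp {x : ℝ} (hx : x ∈ Icc R.x0 R.x1) : ((x : ℂ) + R.y1 * I) ∈ R.B := by
  refine ⟨⟨?_, ?_, ?_, ?_⟩, fun h => ?_⟩
  · simpa using hx.1
  · simpa using hx.2
  · simpa using R.hy.le
  · simp
  · have h1 := h.2.2.2
    simp at h1

theorem rt {y : ℝ} (hy : y ∈ Icc R.y0 R.y1) : ((R.x1 : ℂ) + y * I) ∈ R.B := by
  refine ⟨⟨?_, ?_, ?_, ?_⟩, fun h => ?_⟩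
  · simpa using R.hx.le
  · simp
  · simpa using hy.1
  · simpa using hy.2
  · have h1 := h.2.1
    simp at h1

theorem lt {y : ℝ} (hy : y ∈ Icc R.y0 R.y1) : ((R.x0 : ℂ) + y * I) ∈ R.B := by
  refine ⟨⟨?_, ?_, ?_, ?_⟩, fun h => ?_⟩
  · simp
  · simpa using R.hx.le
  · simpa using hy.1
  · simpa using hy.2
  · have h1 := h.1
    simp at h1

theorem ux {x : ℝ} (hx : x ∈ uIcc R.x0 R.x1) : x ∈ Icc R.x0 R.x1 := by
  rwa [uIcc_of_le R.hx.le] at hx

theorem uy {y : ℝ} (hy : y ∈ uIcc R.y0 R.y1) : y ∈ Icc R.y0 R.y1 := by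
  rwa [uIcc_of_le R.hy.le] at hy

variable {f g : ℂ → ℂ}

theorem iB (hf : NS R.B f) : IntervalIntegrable (fun x : ℝ => f (x + R.y0 * I)) volume
    R.x0 R.x1 := hf.intH fun _ hx => bot (ux hx)

theorem iT (hf : NS R.B f) : IntervalIntegrable (fun x : ℝ => f (x + R.y1 * I)) volume
    R.x0 R.x1 := hf.intH fun _ hx => tp (ux hx)

theorem iR (hf : NS R.B f) : IntervalIntegrable (fun y : ℝ => f (R.x1 + y * I)) volume
    R.y0 R.y1 := hf.intV fun _ hy => rt (uy hy)

theorem iL (hf : NS R.B f) : IntervalIntegrable (fun y : ℝ => f (R.x0 + y * I)) volume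
    R.y0 R.y1 := hf.intV fun _ hy => lt (uy hy)

end IntegAux

theorem BI_add {R : Rect} {f g : ℂ → ℂ} (hf : NS R.B f) (hg : NS R.B g) :
    BI R (fun z => f z + g z) = BI R f + BI R g := by
  unfold BI
  rw [intervalIntegral.integral_add (iB hf) (iB hg), intervalIntegral.integral_add (iT hf) (iT hg),
    intervalIntegral.integral_add (iR hf) (iR hg), intervalIntegral.integral_add (iL hf) (iL hg)]
  ring

theorem BI_congr {R : Rect} {f g : ℂ → ℂ} (h : ∀ z ∈ R.B, f z = g z) : BI R f = BI R g := by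
  unfold BI
  have h1 : ∫ x in R.x0..R.x1, f (x + R.y0 * I) = ∫ x in R.x0..R.x1, g (x + R.y0 * I) :=
    intervalIntegral.integral_congr fun x hx => h _ (bot (ux hx))
  have h2 : ∫ x in R.x0..R.x1, f (x + R.y1 * I) = ∫ x in R.x0..R.x1, g (x + R.y1 * I) :=
    intervalIntegral.integral_congr fun x hx => h _ (tp (ux hx))
  have h3 : ∫ y in R.y0..R.y1, f (R.x1 + y * I) = ∫ y in R.y0..R.y1, g (R.x1 + y * I) :=
    intervalIntegral.integral_congr fun x hx => h _ (rt (uy hx))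
  have h4 : ∫ y in R.y0..R.y1, f (R.x0 + y * I) = ∫ y in R.y0..R.y1, g (R.x0 + y * I) :=
    intervalIntegral.integral_congr fun x hx => h _ (lt (uy hx))
  rw [h1, h2, h3, h4]

theorem norm_BI_le {R : Rect} {f : ℂ → ℂ} (hf : NS R.B f) : ‖BI R f‖ ≤ VI R (fun z => ‖f z‖) := by
  have hx := R.hx.le
  have hy := R.hy.le
  have h1 := intervalIntegral.norm_integral_le_integral_norm (μ := volume)
    (f := fun x : ℝ => f (x + R.y0 * I)) hx
  have h2 := intervalIntegral.norm_integral_le_integral_norm (μ := volume)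
    (f := fun x : ℝ => f (x + R.y1 * I)) hx
  have h3 := intervalIntegral.norm_integral_le_integral_norm (μ := volume)
    (f := fun y : ℝ => f (R.x1 + y * I)) hy
  have h4 := intervalIntegral.norm_integral_le_integral_norm (μ := volume)
    (f := fun y : ℝ => f (R.x0 + y * I)) hy
  unfold BI VI
  refine (norm_sub_le _ _).trans ?_
  have h5 := norm_add_le ((∫ x in R.x0..R.x1, f (x + R.y0 * I)) -
    ∫ x in R.x0..R.x1, f (x + R.y1 * I)) (I * ∫ y in R.y0..R.y1, f (R.x1 + y * I))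
  have h6 := norm_sub_le (∫ x in R.x0..R.x1, f (x + R.y0 * I))
    (∫ x in R.x0..R.x1, f (x + R.y1 * I))
  rw [norm_mul, Complex.norm_I, one_mul] at h5 ⊢
  linarith

theorem VI_le {R : Rect} {f g : ℂ → ℂ} (hf : NS R.B f) (hg : NS R.B g) {E : Set ℂ}
    (hE : E.Finite) (h : ∀ z ∈ R.B \ E, ‖f z‖ ≤ ‖g z‖) :
    VI R (fun z => ‖f z‖) ≤ VI R (fun z => ‖g z‖) := by
  have hx := R.hx.le
  have hy := R.hy.le
  have key : ∀ {F : Set ℝ} {s t : ℝ} {u v : ℝ → ℂ}, F.Finite →
      (∀ x ∈ Icc s t, x ∉ F → ‖u x‖ ≤ ‖v x‖) →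
      (fun x => ‖u x‖) ≤ᵐ[volume.restrict (Icc s t)] (fun x => ‖v x‖) := by
    intro F s t u v hF huv
    have h1 : ∀ᵐ x ∂(volume.restrict (Icc s t)), x ∉ F :=
      ae_restrict_of_ae (hF.countable.ae_notMem volume)
    have h2 : ∀ᵐ x ∂(volume.restrict (Icc s t)), x ∈ Icc s t := ae_restrict_mem measurableSet_Icc
    filter_upwards [h1, h2] with x hx1 hx2
    exact huv x hx2 hx1
  have h1 := intervalIntegral.integral_mono_ae_restrict hx (iB hf).norm (iB hg).norm
    (key (finH hE R.y0) fun x hx hxE => h _ ⟨bot hx, hxE⟩)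
  have h2 := intervalIntegral.integral_mono_ae_restrict hx (iT hf).norm (iT hg).norm
    (key (finH hE R.y1) fun x hx hxE => h _ ⟨tp hx, hxE⟩)
  have h3 := intervalIntegral.integral_mono_ae_restrict hy (iR hf).norm (iR hg).norm
    (key (finV hE R.x1) fun x hx hxE => h _ ⟨rt hx, hxE⟩)
  have h4 := intervalIntegral.integral_mono_ae_restrict hy (iL hf).norm (iL hg).norm
    (key (finV hE R.x0) fun x hx hxE => h _ ⟨lt hx, hxE⟩)
  unfold VI
  linarith

theorem VI_smul {R : Rect} (f : ℂ → ℂ) (m : ℝ) :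
    VI R (fun z => m * ‖f z‖) = m * VI R (fun z => ‖f z‖) := by
  unfold VI
  simp only [intervalIntegral.integral_const_mul]
  ring

theorem VI_const (R : Rect) (m : ℝ) :
    VI R (fun _ => m) = 2 * ((R.x1 - R.x0) + (R.y1 - R.y0)) * m := by
  unfold VI
  simp only [intervalIntegral.integral_const, smul_eq_mul]
  ring

theorem VI_nonneg (R : Rect) (f : ℂ → ℂ) : 0 ≤ VI R (fun z => ‖f z‖) := by
  unfold VI
  have h1 := intervalIntegral.integral_nonneg_of_forall (μ := volume) R.hx.le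
    (f := fun x : ℝ => ‖f (x + R.y0 * I)‖) (fun _ => norm_nonneg _)
  have h2 := intervalIntegral.integral_nonneg_of_forall (μ := volume) R.hx.le
    (f := fun x : ℝ => ‖f (x + R.y1 * I)‖) (fun _ => norm_nonneg _)
  have h3 := intervalIntegral.integral_nonneg_of_forall (μ := volume) R.hy.le
    (f := fun y : ℝ => ‖f (R.x1 + y * I)‖) (fun _ => norm_nonneg _)
  have h4 := intervalIntegral.integral_nonneg_of_forall (μ := volume) R.hy.le
    (f := fun y : ℝ => ‖f (R.x0 + y * I)‖) (fun _ => norm_nonneg _)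
  linarith

end Pool.Agent.Lib.GEX
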