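import Pool.Agent.Lib.GEX.PoleP
import Pool.Agent.Lib.GEX.Gelf

/-!
# GEX.InvP: the approximate indicator function  (2 h)

`c = top R xm`, `Γ = Gam ..`, `X = Γ \ {c}` (a subtype), `E = X →ᵇ ℂ` (bounded continuous functions, a commutative Banach algebra; `X` is not empty), `S` = closure of the subalgebra of restrictions of functions in
`BB R c` to `X` (bounded by `BB.bdd`, `ze_le_Gam`). `g = 1 + exp (N (z - c))` (restriction of an entire function, in `S`). Claim (`closed_inv`): no character `χ` of `S` kills `g`. Let `λ = χ id` and suppose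
`χ g = 0`. `χ (exp (N (id - c))) = exp (N (λ - c))` (`NormedSpace.map_exp` / continuity of `χ` and the exponential series; in `E` the exponential is computed
pointwise). So `exp (N (λ - c)) = -1`: `λ = c + i (2 j + 1) π / N`, `j ∈ ℤ`; so `λ.re = xm`. If `λ ∉ R.S`, `(z - λ)⁻¹ ∈ A(R)` is an inverse of `id - λ` in `S`: contradiction. If `λ ∈ R.S` and
`R.y0 < λ.im < R.y1`: contradiction by `pole_push` (`id - λ` is invertible in `S`). The remaining cases `λ.im = R.y1`, i.e. `2 j + 1 = 0`, and `λ.im = R.y0`, i.e. `2 j + 1 = -2 k` (as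
`N = 2 π k/(y1 - y0)`) are impossible by parity. So `1/g ∈ S`, i.e. `Apx`.
-/

open Set MeasureTheory Filter Topology
open Complex (I)

namespace Pool.Agent.Lib.GEX

namespace InvPAux

open scoped BoundedContinuousFunction

section exp

variable {E : Type*} [NormedCommRing E] [NormedAlgebra ℂ E] [CompleteSpace E] [NormOneClass E]

/-- the exponential in a closed subalgebra -/
lemma exp_el (S : Subalgebra ℂ E) (hS : IsClosed (S : Set E)) (s : S) :
    ∃ e : S, ∀ χ : S →ₐ[ℂ] ℂ, χ e = Complex.exp (χ s) := by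
  have : CompleteSpace S := hS.completeSpace_coe
  have hsum : Summable fun n : ℕ => ((n.factorial : ℂ)⁻¹) • s ^ n :=
    NormedSpace.expSeries_summable' (𝕂 := ℂ) s
  refine ⟨∑' n : ℕ, ((n.factorial : ℂ)⁻¹) • s ^ n, fun χ => ?_⟩
  have hcont : Continuous χ :=
    AddMonoidHomClass.continuous_of_bound χ 1 (fun t => by
      rw [one_mul]
      exact char_norm_le S hS χ t)
  have h1 := hsum.map_tsum χ hcont
  rw [h1, Complex.exp_eq_exp_ℂ, NormedSpace.exp_eq_tsum ℂ]
  refine tsum_congr fun n => ?_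
  simp

end exp

variable {R : Rect} {xm d : ℝ}

/-- the space -/
abbrev XX (R : Rect) (xm d : ℝ) : Type :=
  {z : ℂ // z ∈ Gam R (xm - d) (xm + d) ∧ z ≠ top R xm}

/-- the restrictions of functions of `BB` -/
def S0 (R : Rect) (xm d : ℝ) : Subalgebra ℂ (XX R xm d →ᵇ ℂ) where
  carrier := {u | ∃ F : ℂ → ℂ, BB R (top R xm) F ∧ ∀ x : XX R xm d, u x = F x}
  mul_mem' := by
    rintro u v ⟨F, hF, hu⟩ ⟨G, hG, hv⟩
    exact ⟨_, hF.mul hG, fun x => by
      rw [BoundedContinuousFunction.mul_apply, hu, hv]⟩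
  add_mem' := by
    rintro u v ⟨F, hF, hu⟩ ⟨G, hG, hv⟩
    exact ⟨_, hF.add (top_im R xm) hG, fun x => by
      rw [BoundedContinuousFunction.add_apply, hu, hv]⟩
  algebraMap_mem' := fun r => ⟨_, BB.const (top_im R xm) r, fun x => rfl⟩

lemma exists_el (hd : 0 < d) (h1 : R.x0 < xm - d) (h2 : xm + d < R.x1) {F : ℂ → ℂ}
    (hF : BB R (top R xm) F) : ∃ u : XX R xm d →ᵇ ℂ, u ∈ S0 R xm d ∧ ∀ x, u x = F x := by
  obtain ⟨K, _, hK⟩ := ze_le_Gam hd h1 h2
  obtain ⟨M, hM0, hM⟩ := hF.bdd (K := K)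
  have hc : Continuous fun x : XX R xm d => F x := by
    have : ContinuousOn F (R.S \ {top R xm}) := hF.1
    exact this.comp_continuous continuous_subtype_val
      (fun x => ⟨Gam_sub _ _ _ x.2.1, x.2.2⟩)
  refine ⟨BoundedContinuousFunction.ofNormedAddCommGroup (fun x : XX R xm d => F x) hc M
    (fun x => hM x (Gam_sub _ _ _ x.2.1) x.2.2 (hK x x.2.1 x.2.2)), ⟨F, hF, fun x => rfl⟩,
    fun x => rfl⟩

/-- an element whose values are approximable lies in the closure -/
lemma mem_of_apx (hd : 0 < d) (h1 : R.x0 < xm - d) (h2 : xm + d < R.x1) {f : ℂ → ℂ}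
    (hf : Apx R (top R xm) (Gam R (xm - d) (xm + d)) f)
    (hc : ContinuousOn f (Gam R (xm - d) (xm + d) \ {top R xm})) :
    ∃ u : XX R xm d →ᵇ ℂ, u ∈ (S0 R xm d).topologicalClosure ∧ ∀ x, u x = f x := by
  obtain ⟨M, hM0, hM⟩ := PolePAux.apx_bdd hd h1 h2 hf
  have hcc : Continuous fun x : XX R xm d => f x :=
    hc.comp_continuous continuous_subtype_val (fun x => ⟨x.2.1, x.2.2⟩)
  refine ⟨BoundedContinuousFunction.ofNormedAddCommGroup (fun x : XX R xm d => f x) hcc M
    (fun x => hM x x.2.1 x.2.2), ?_, fun x => rfl⟩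
  show _ ∈ closure ((S0 R xm d : Subalgebra ℂ (XX R xm d →ᵇ ℂ)) : Set (XX R xm d →ᵇ ℂ))
  rw [Metric.mem_closure_iff]
  intro ε hε
  obtain ⟨F, hF, hFf⟩ := hf (ε / 2) (by positivity)
  obtain ⟨v, hv, hvF⟩ := exists_el hd h1 h2 hF
  refine ⟨v, hv, lt_of_le_of_lt ?_ (half_lt_self hε)⟩
  rw [BoundedContinuousFunction.dist_le (by positivity)]
  intro x
  rw [dist_comm, dist_eq_norm, hvF]
  exact hFf x x.2.1 x.2.2

lemma apx_of_mem {u : XX R xm d →ᵇ ℂ} (hu : u ∈ (S0 R xm d).topologicalClosure) {f : ℂ → ℂ}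
    (hf : ∀ x : XX R xm d, u x = f x) :
    Apx R (top R xm) (Gam R (xm - d) (xm + d)) f := by
  intro ε hε
  have hu' : u ∈ closure ((S0 R xm d : Subalgebra ℂ (XX R xm d →ᵇ ℂ)) :
    Set (XX R xm d →ᵇ ℂ)) := hu
  rw [Metric.mem_closure_iff] at hu'
  obtain ⟨v, ⟨F, hF, hv⟩, hdist⟩ := hu' ε hε
  refine ⟨F, hF, fun z hz hzc => ?_⟩
  have e := (BoundedContinuousFunction.dist_le hε.le).1 hdist.le ⟨z, hz, hzc⟩
  rw [hv, hf, dist_comm, dist_eq_norm] at e
  exact e

lemma nonempty_XX (hd : 0 < d) (h1 : R.x0 < xm - d) : Nonempty (XX R xm d) := by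
  refine ⟨⟨⟨R.x0, R.y0⟩, Or.inl ⟨⟨le_rfl, R.hx.le, le_rfl, R.hy.le⟩, fun h => ?_⟩, fun h => ?_⟩⟩
  · exact lt_irrefl _ h.1
  · have := congrArg Complex.re h
    rw [top_re] at this
    simp only at this
    linarith

/-- the evaluation -/
noncomputable def ev (S : Subalgebra ℂ (XX R xm d →ᵇ ℂ)) (x : XX R xm d) : S →ₐ[ℂ] ℂ where
  toFun u := (u : XX R xm d →ᵇ ℂ) x
  map_one' := rfl
  map_mul' _ _ := rfl
  map_zero' := rfl
  map_add' _ _ := rfl
  commutes' _ := rfl

end InvPAux

open InvPAux in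
theorem inv_apx (R : Rect) {xm d : ℝ} (hd : 0 < d) (h1 : R.x0 < xm - d) (h2 : xm + d < R.x1)
    {k : ℕ} (hk : 1 ≤ k) :
    Apx R (top R xm) (Gam R (xm - d) (xm + d))
      (fun z => (1 + Complex.exp ((2 * Real.pi * k / (R.y1 - R.y0) : ℝ) * (z - top R xm)))⁻¹) := by
  have hne : Nonempty (XX R xm d) := nonempty_XX hd h1
  set N : ℝ := 2 * Real.pi * k / (R.y1 - R.y0) with hN
  have hy : 0 < R.y1 - R.y0 := sub_pos.2 R.hy
  have hk0 : (0 : ℝ) < k := by exact_mod_cast hk
  have hN0 : 0 < N := by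
    have := Real.pi_pos
    positivity
  set c := top R xm with hc
  set S := (S0 R xm d).topologicalClosure with hS
  have hScl : IsClosed (S : Set (BoundedContinuousFunction (XX R xm d) ℂ)) := (S0 R xm d).isClosed_topologicalClosure
  have hle : S0 R xm d ≤ S := (S0 R xm d).le_topologicalClosure
  -- the identity function
  obtain ⟨i0, hi0, hi0'⟩ := exists_el hd h1 h2 (BB.of_AR (top_im R xm) (AR.id (R := R)))
  set i : S := ⟨i0, hle hi0⟩ with hi
  have hiv : ∀ x : XX R xm d, ev S x i = x := fun x => hi0' x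
  set s : S := algebraMap ℂ S N * (i - algebraMap ℂ S c) with hs
  obtain ⟨e, he⟩ := exp_el S hScl s
  have hχs : ∀ χ : S →ₐ[ℂ] ℂ, χ s = N * (χ i - c) := by
    intro χ
    rw [hs, map_mul, map_sub, AlgHom.commutes, AlgHom.commutes]
    rfl
  have hinv : ∃ u : S, u * (1 + e) = 1 := by
    apply closed_inv S hScl
    intro χ hχ
    rw [map_add, map_one, he, hχs] at hχ
    set l := χ i with hl
    have hexp : Complex.exp (N * (l - c)) = -1 := by
      rw [add_comm] at hχ
      exact eq_neg_of_add_eq_zero_left hχ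
    have hre : l.re = xm := by
      have h3 : ‖Complex.exp (N * (l - c))‖ = 1 := by rw [hexp]; simp
      rw [Complex.norm_exp, Real.exp_eq_one_iff] at h3
      have h4 : ((N : ℂ) * (l - c)).re = N * (l.re - xm) := by
        rw [Complex.re_ofReal_mul, Complex.sub_re, hc, top_re]
      rw [h4] at h3
      rcases mul_eq_zero.1 h3 with h5 | h5
      · exact absurd h5 hN0.ne'
      · linarith
    -- an inverse of `i - l` gives a contradiction
    have hno : (∀ z ∈ Gam R (xm - d) (xm + d), z ≠ l) →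
        ¬ ∃ v : S, ∀ x : XX R xm d, (v : BoundedContinuousFunction (XX R xm d) ℂ) x =
          ((x : ℂ) - l)⁻¹ := by
      rintro hxl ⟨v, hv⟩
      have h5 : v * (i - algebraMap ℂ S l) = 1 := by
        apply Subtype.ext
        apply BoundedContinuousFunction.ext
        intro x
        have h6 : (v : BoundedContinuousFunction (XX R xm d) ℂ) x * ((x : ℂ) - l) = 1 := by
          rw [hv x]
          exact inv_mul_cancel₀ (sub_ne_zero.2 (hxl x x.2.1))
        have h7 : ev S x (v * (i - algebraMap ℂ S l)) = 1 := by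
          rw [map_mul, map_sub, hiv, AlgHom.commutes]
          exact h6
        exact h7
      have h8 := congrArg χ h5
      rw [map_mul, map_sub, AlgHom.commutes, map_one] at h8
      have h9 : χ i - algebraMap ℂ ℂ l = 0 := by
        rw [hl]
        exact sub_self _
      rw [h9, mul_zero] at h8
      exact zero_ne_one h8
    by_cases hlS : l ∈ R.S
    · by_cases hb1 : l.im = R.y1
      · -- `l = c`
        have h5 : l = c := by
          apply Complex.ext
          · rw [hre, hc, top_re]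
          · rw [hb1, hc, top_im]
        rw [h5, sub_self, mul_zero, Complex.exp_zero] at hexp
        norm_num at hexp
      · by_cases hb0 : l.im = R.y0
        · have h5 : (N : ℂ) * (l - c) = -(k * (2 * Real.pi * I)) := by
            have h6 : l - c = -((R.y1 - R.y0 : ℝ) : ℂ) * I := by
              apply Complex.ext
              · rw [Complex.sub_re, hre, hc, top_re]; simp
              · rw [Complex.sub_im, hb0, hc, top_im]; simp
            have h7 : (N : ℂ) * ((R.y1 - R.y0 : ℝ) : ℂ) = 2 * Real.pi * k := by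
              rw [← Complex.ofReal_mul, hN, div_mul_cancel₀ _ hy.ne']
              push_cast
              ring
            rw [h6]
            linear_combination (-I) * h7
          rw [h5, Complex.exp_neg, Complex.exp_nat_mul_two_pi_mul_I] at hexp
          norm_num at hexp
        · have hl0 : R.y0 < l.im := lt_of_le_of_ne hlS.2.2.1 (Ne.symm hb0)
          have hl1 : l.im < R.y1 := lt_of_le_of_ne hlS.2.2.2 hb1
          have hp := pole_push R hd h1 h2 (p := l) (by rw [hre]; linarith)
            (by rw [hre]; linarith) hl0 hl1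
          have hxl : ∀ z ∈ Gam R (xm - d) (xm + d), z ≠ l := by
            rintro z (hz | ⟨_, hz⟩) rfl
            · exact hz.2 ⟨by rw [hre]; linarith, by rw [hre]; linarith, hl0, hl1⟩
            · rw [hre] at hz
              rcases hz with hz | hz <;> linarith
          have hcont : ContinuousOn (fun z => (z - l)⁻¹)
              (Gam R (xm - d) (xm + d) \ {top R xm}) := by
            apply ContinuousOn.inv₀ (by fun_prop)
            intro z hz
            exact sub_ne_zero.2 (hxl z hz.1)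
          obtain ⟨v, hv, hv'⟩ := mem_of_apx hd h1 h2 hp hcont
          exact hno hxl ⟨⟨v, hv⟩, hv'⟩
    · obtain ⟨v, hv, hv'⟩ := exists_el hd h1 h2
        (BB.of_AR (top_im R xm) (AR.inv_sub (R := R) hlS))
      refine hno (fun z hz hzl => hlS (hzl ▸ Gam_sub _ _ _ hz)) ⟨⟨v, hle hv⟩, hv'⟩
  obtain ⟨u, hu⟩ := hinv
  refine apx_of_mem (u := (u : BoundedContinuousFunction (XX R xm d) ℂ)) u.2 (fun x => ?_)
  have h3 := congrArg (ev S x) hu
  rw [map_mul, map_add, map_one, he, hχs, hiv] at h3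
  exact eq_inv_of_mul_eq_one_left h3

end Pool.Agent.Lib.GEX
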