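import Pool.Agent.Lib.GEX.RepA

/-!
# GEX.RepB: the conjugate of `z` is not in the algebra  (1.5 h)

(1) `Σ_{k<2^n} M n k ≤ 4 + Σ_{m<n} 2^m (1/4)^(m+3) ≤ 5` (`Lmass`, `M0`; induction with bound `5 - (1/2)^n` or similar). (2) `‖Σ_{k<2^n} L n k cj‖ ≥ 2 - Σ_{m<n} 2^m (1/4)^(m+3) ≥ 1` (`Lconj`, `Lroot`).
(3) Let `g ∈ span`, `Rep s z n g`, `η` with `‖cj (z t) - g t‖ ≤ η` for all `t`. For `w ∈ (R n k).S` there is `t` with `J n k t`, `z t = w` (`surj`), so `‖cj w - G k w‖ ≤ η`; `Lbd` for `F = cj - G k` (`Ladd`, `Lsmul`):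
`1 ≤ ‖Σ L n k cj‖ = ‖Σ (L n k cj - L n k (G k))‖ ≤ Σ M n k η ≤ 5 η`. So `‖conj z - g‖ ≥ 1/5` on the span, hence on the closure `Aa` (`adjoin_eq`).
-/

open Set Filter Topology
open Complex (I)

namespace Pool.Agent.Lib.GEX

variable {s : Sys} {z : C(unitInterval, ℂ)}

private lemma sum_pairs {E : Type*} [AddCommMonoid E] (f : ℕ → E) (m : ℕ) :
    ∑ l ∈ Finset.range (2 * m), f l = ∑ k ∈ Finset.range m, (f (2 * k) + f (2 * k + 1)) := by
  induction m with
  | zero => simp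
  | succ m ih =>
    rw [show 2 * (m + 1) = 2 * m + 1 + 1 by ring, Finset.sum_range_succ, Finset.sum_range_succ,
      ih, Finset.sum_range_succ]
    rw [add_assoc]

private lemma pow_id (n : ℕ) : (2 : ℝ) ^ n * (1 / 4) ^ (n + 3) = (1 / 2) ^ n / 64 := by
  have h : (2 : ℝ) ^ n * (1 / 4) ^ n = (1 / 2) ^ n := by
    rw [← mul_pow]; norm_num
  rw [pow_add, ← mul_assoc, h]; norm_num; ring

private lemma mass_le (s : Sys) (n : ℕ) :
    ∑ k ∈ Finset.range (2 ^ n), s.M n k ≤ 5 - (1 / 2) ^ n := by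
  induction n with
  | zero =>
    have := s.M0
    simp
    linarith
  | succ n ih =>
    have e : (2 : ℕ) ^ (n + 1) = 2 * 2 ^ n := by ring
    rw [e, sum_pairs]
    have h1 : ∑ k ∈ Finset.range (2 ^ n), (s.M (n + 1) (2 * k) + s.M (n + 1) (2 * k + 1)) ≤
        ∑ k ∈ Finset.range (2 ^ n), (s.M n k + (1 / 4) ^ (n + 3)) :=
      Finset.sum_le_sum fun k _ => s.Lmass n k
    have h0 : ∑ k ∈ Finset.range (2 ^ n), (s.M n k + (1 / 4) ^ (n + 3)) =
        ∑ k ∈ Finset.range (2 ^ n), s.M n k + (1 / 2) ^ n / 64 := by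
      rw [Finset.sum_add_distrib, Finset.sum_const, Finset.card_range, nsmul_eq_mul]
      push_cast
      rw [pow_id]
    rw [h0] at h1
    have h2 : (0 : ℝ) < (1 / 2) ^ n := by positivity
    have h3 : ((1 : ℝ) / 2) ^ (n + 1) = (1 / 2) ^ n / 2 := by rw [pow_succ]; ring
    rw [h3]
    linarith

private lemma conj_ge (s : Sys) (n : ℕ) :
    1 + (1 / 2) ^ n ≤ ‖∑ k ∈ Finset.range (2 ^ n), s.L n k cj‖ := by
  induction n with
  | zero =>
    have := s.Lroot
    simp
    linarith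
  | succ n ih =>
    have e : (2 : ℕ) ^ (n + 1) = 2 * 2 ^ n := by ring
    rw [e, sum_pairs]
    set A := ∑ k ∈ Finset.range (2 ^ n), (s.L (n + 1) (2 * k) cj + s.L (n + 1) (2 * k + 1) cj)
      with hA
    set B := ∑ k ∈ Finset.range (2 ^ n), s.L n k cj with hB
    have h1 : ‖A - B‖ ≤ (1 / 2) ^ n / 64 := by
      rw [hA, hB, ← Finset.sum_sub_distrib]
      refine (norm_sum_le _ _).trans ?_
      have := Finset.sum_le_sum (s := Finset.range (2 ^ n)) fun k _ => s.Lconj n k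
      refine this.trans ?_
      rw [Finset.sum_const, Finset.card_range, nsmul_eq_mul]
      push_cast
      rw [pow_id]
    have h2 : (0 : ℝ) < (1 / 2) ^ n := by positivity
    have h3 : ((1 : ℝ) / 2) ^ (n + 1) = (1 / 2) ^ n / 2 := by rw [pow_succ]; ring
    have h4 : ‖B‖ ≤ ‖A‖ + ‖A - B‖ := by
      have : B = A - (A - B) := by ring
      calc ‖B‖ = ‖A - (A - B)‖ := by rw [← this]
        _ ≤ _ := norm_sub_le _ _
    rw [h3]
    linarith

private lemma cont_cj : Continuous cj := Complex.continuous_conj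

private lemma span_far (hz : Zm s z) {g : C(unitInterval, ℂ)}
    (hg : g ∈ Submodule.span ℂ (GS s z)) {η : ℝ} (h : ∀ t, ‖cj (z t) - g t‖ ≤ η) :
    1 ≤ 5 * η := by
  obtain ⟨n, G, hAR, hGz, hsum⟩ := Rep_span hz hg
  have hη : 0 ≤ η := (norm_nonneg _).trans (h 0)
  have key : ∀ k ∈ Finset.range (2 ^ n), ‖s.L n k cj - s.L n k (G k)‖ ≤ s.M n k * η := by
    intro k hk
    rw [Finset.mem_range] at hk
    have hc : ContinuousOn (G k) (s.R n k).S := (hAR k hk).1
    have hcj : ContinuousOn cj (s.R n k).S := cont_cj.continuousOn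
    have hm : ContinuousOn (fun w => (-1 : ℂ) * G k w) (s.R n k).S := continuousOn_const.mul hc
    have e : s.L n k (fun w => cj w + (-1 : ℂ) * G k w) = s.L n k cj - s.L n k (G k) := by
      rw [s.Ladd n k _ _ hcj hm, s.Lsmul n k (-1) _ hc]
      ring
    rw [← e]
    refine s.Lbd n k _ η (hcj.add hm) ?_
    intro w hw
    obtain ⟨t, ht, rfl⟩ := hz.surj n k hk w hw
    have := h t
    rw [hGz k hk t ht] at this
    rwa [neg_one_mul, ← sub_eq_add_neg]
  have h1 := conj_ge s n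
  have h2 := mass_le s n
  have h3 : (0 : ℝ) < (1 / 2) ^ n := by positivity
  have h4 : ∑ k ∈ Finset.range (2 ^ n), s.L n k cj =
      ∑ k ∈ Finset.range (2 ^ n), (s.L n k cj - s.L n k (G k)) := by
    rw [Finset.sum_sub_distrib, hsum, sub_zero]
  have h5 : ‖∑ k ∈ Finset.range (2 ^ n), s.L n k cj‖ ≤
      ∑ k ∈ Finset.range (2 ^ n), s.M n k * η := by
    rw [h4]
    exact (norm_sum_le _ _).trans (Finset.sum_le_sum key)
  rw [← Finset.sum_mul] at h5
  nlinarith

theorem not_top (hz : Zm s z) : Aa s z ≠ ⊤ := by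
  intro htop
  let c : C(unitInterval, ℂ) := ⟨fun t => cj (z t), cont_cj.comp z.continuous⟩
  have hc : c ∈ Aa s z := by rw [htop]; trivial
  have hc' : c ∈ closure (Submodule.span ℂ (GS s z) : Set C(unitInterval, ℂ)) := by
    rw [← adjoin_eq hz]
    exact hc
  rw [Metric.mem_closure_iff] at hc'
  obtain ⟨g, hg, hd⟩ := hc' (1 / 6) (by norm_num)
  have := span_far hz hg (η := 1 / 6) (fun t => by
    have h1 : dist (c t) (g t) ≤ dist c g := ContinuousMap.dist_apply_le_dist t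
    rw [dist_eq_norm] at h1
    exact (h1.trans hd.le))
  norm_num at this

end Pool.Agent.Lib.GEX
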