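import Pool.Agent.Lib.GEX.AlgA

/-!
# GEX.Sep: the algebra separates points  (2 h)

`Ψ_ne`: if `J n k t`, `k < 2^n`, and `t` is not an end point of `J n k` in `(0,1)` (i.e. not (`0 < k` and `t = k/2^n`) and not (`k+1 < 2^n` and `t = (k+1)/2^n`)), then `Ψ n k (z t) ≠ 0`. Proof: `Ψ n k` is the product of `h m (k / 2^(n-m))` over
`m < n`; `h m l (z t) = 0` iff `z t = a (m+1) (2l+1)` (`h0`), and by `z_inj` (`J m l t` by `J_desc`) `t = (2l+1)/2^(m+1)`, which together with `J n k t` means that `t` is an end point of `J n k`. (Induction on `n`.)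
Let `x < y`. `z ∈ Aa` (`gn` with `n = k = 0`, `G = id`), so assume `z x = z y`. There is a largest `n` with a node `(n,k)`, `J n k x` and `J n k y` (the lengths tend to 0; take `n` minimal such that no common node exists, minus 1);
then `x ≤ m := (2k+1)/2^(n+1) ≤ y` and not both equal; `J (n+1) (2k) x`, `J (n+1) (2k+1) y`.
If `x = m` (or `y = m`): `z x = a (n+1) (2k+1)` (`z_contact`) and `z y = z x` gives `y = m` by `z_inj`, a contradiction. So `x < m < y`. Consider `f = gn (n+1) (2k) 1`: `f y = 0`. If `f x ≠ 0` done. Otherwise, by `Ψ_ne`, `x` is the left end point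
of `J (n+1) (2k)` and in `(0,1)`: `x = 2k/2^(n+1)`, `0 < k`. Write `x = j/2^i` with `j` odd, `j = 2 l + 1`, `i ≥ 1`: `z x = a i j` is the contact point of `(i-1, l)` (`z_contact`), and `J (i-1) l y` since `y ∈ J n k` and
`x` is an end point of `J n k`, `i ≤ n`. So `z y = z x` gives `y = x` by `z_inj`, a contradiction.
-/

open Set Filter Topology
open Complex (I)

namespace Pool.Agent.Lib.GEX

set_option linter.unusedVariables false

variable {s : Sys} {z : C(unitInterval, ℂ)}

theorem z_mem (hz : Zm s z) : z ∈ Aa s z := by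
  apply GS_sub
  refine ⟨0, 0, by norm_num, fun w => w, AR.id, fun t => ?_⟩
  have hJ : J 0 0 t := ⟨by simpa using t.2.1, by simpa using t.2.2⟩
  simp [gn, hJ, s.Ψ0]

theorem Ψ_ne (hz : Zm s z) {n k : ℕ} (hk : k < 2 ^ n) {t : unitInterval} (ht : J n k t)
    (h1 : ¬ (0 < k ∧ (t : ℝ) = k / 2 ^ n)) (h2 : ¬ (k + 1 < 2 ^ n ∧ (t : ℝ) = (k + 1) / 2 ^ n)) :
    s.Ψ n k (z t) ≠ 0 := by
  induction n generalizing k with
  | zero => simp [s.Ψ0]
  | succ n ih =>
    have hpos : (0 : ℝ) < 2 ^ n := by positivity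
    have e2 : (2 : ℝ) ^ (n + 1) = 2 * 2 ^ n := by ring
    have p2 : 2 ^ (n + 1) = 2 * 2 ^ n := by ring
    obtain ⟨l, hl | hl⟩ := Nat.even_or_odd' k
    · subst hl
      have hl' : l < 2 ^ n := by omega
      have ht' : J n l t := by
        have := J_desc (Nat.le_succ n) ht
        simpa using this
      have a1 : ((2 * l : ℕ) : ℝ) / 2 ^ (n + 1) = l / 2 ^ n := by
        rw [e2]; push_cast; field_simp
      rw [s.Ψ1]
      refine mul_ne_zero (ih hl' ht' ?_ ?_) ?_
      · rintro ⟨h0, h3⟩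
        exact h1 ⟨by omega, by rw [h3, a1]⟩
      · rintro ⟨h0, h3⟩
        have h4 := ht.2
        rw [h3, e2, div_le_div_iff₀ hpos (by positivity)] at h4
        push_cast at h4
        nlinarith
      · intro h3
        have h4 := (s.h0 n l (z t) (hz.mem n l hl' t ht')).1 h3
        have h5 := z_inj s hz.mem hl' ht' h4
        refine h2 ⟨by omega, ?_⟩
        rw [h5]; push_cast; ring
    · subst hl
      have hl' : l < 2 ^ n := by omega
      have ht' : J n l t := by
        have := J_desc (Nat.le_succ n) ht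
        have e : (2 * l + 1) / 2 ^ (n.succ - n) = l := by
          have : n.succ - n = 1 := by omega
          rw [this]; omega
        rwa [e] at this
      rw [s.Ψ2]
      refine mul_ne_zero (ih hl' ht' ?_ ?_) ?_
      · rintro ⟨h0, h3⟩
        have h4 := ht.1
        rw [h3, e2, div_le_div_iff₀ (by positivity) hpos] at h4
        push_cast at h4
        nlinarith
      · rintro ⟨h0, h3⟩
        refine h2 ⟨by omega, ?_⟩
        rw [h3, e2]; push_cast; field_simp; ring
      · intro h3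
        have h4 := (s.h0 n l (z t) (hz.mem n l hl' t ht')).1 h3
        have h5 := z_inj s hz.mem hl' ht' h4
        refine h1 ⟨by omega, ?_⟩
        rw [h5]; push_cast; ring

private theorem sep_aux (hz : Zm s z) {x y : unitInterval} (hxy : (x : ℝ) < y) :
    ∃ f ∈ Aa s z, f x ≠ f y := by
  by_contra hcon
  push Not at hcon
  have hzxy : z x = z y := hcon z (z_mem hz)
  -- the deepest common node
  have hex : ∃ n, (∃ k, k < 2 ^ n ∧ J n k x ∧ J n k y) ∧
      ¬ (∃ k, k < 2 ^ (n + 1) ∧ J (n + 1) k x ∧ J (n + 1) k y) := by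
    by_contra hno
    push Not at hno
    have hall : ∀ n, ∃ k, k < 2 ^ n ∧ J n k x ∧ J n k y := by
      intro n
      induction n with
      | zero =>
        exact ⟨0, by norm_num, ⟨by simpa using x.2.1, by simpa using x.2.2⟩,
          ⟨by simpa using y.2.1, by simpa using y.2.2⟩⟩
      | succ n ih =>
        obtain ⟨k, hk, h1, h2⟩ := ih
        obtain ⟨k', hk', h1', h2'⟩ := hno n ⟨k, hk, h1, h2⟩
        exact ⟨k', hk', h1', h2'⟩
    obtain ⟨N, hN⟩ := exists_pow_lt_of_lt_one (sub_pos.2 hxy) (show (1 / 2 : ℝ) < 1 by norm_num)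
    obtain ⟨k, hk, h1, h2⟩ := hall N
    have h3 : (y : ℝ) - x ≤ (1 / 2) ^ N := by
      have h4 := h1.1
      have h5 := h2.2
      have h6 : ((k : ℝ) + 1) / 2 ^ N - k / 2 ^ N = (1 / 2) ^ N := by
        rw [← sub_div, one_div, inv_pow]; ring
      linarith
    linarith
  obtain ⟨n, ⟨k, hk, hx, hy⟩, hno⟩ := hex
  push Not at hno
  have hpos : (0 : ℝ) < 2 ^ n := by positivity
  have e2 : (2 : ℝ) ^ (n + 1) = 2 * 2 ^ n := by ring
  have p2 : 2 ^ (n + 1) = 2 * 2 ^ n := by ring
  have a1 : ((2 * k : ℕ) : ℝ) / 2 ^ (n + 1) = k / 2 ^ n := by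
    rw [e2]; push_cast; field_simp
  have a2 : (((2 * k + 1 : ℕ) : ℝ) + 1) / 2 ^ (n + 1) = (k + 1) / 2 ^ n := by
    rw [e2]; push_cast; field_simp; ring
  set m : ℝ := (2 * k + 1) / 2 ^ (n + 1) with hm
  have hJ0 : ∀ t : unitInterval, J n k t → (t : ℝ) ≤ m → J (n + 1) (2 * k) t := by
    intro t ht h
    refine ⟨by rw [a1]; exact ht.1, ?_⟩
    push_cast
    exact h
  have hJ1 : ∀ t : unitInterval, J n k t → m ≤ (t : ℝ) → J (n + 1) (2 * k + 1) t := by
    intro t ht h
    refine ⟨?_, by rw [a2]; exact ht.2⟩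
    push_cast
    exact h
  have hym : m < y := by
    by_contra h
    push Not at h
    exact hno (2 * k) (by omega) (hJ0 x hx (hxy.le.trans h)) (hJ0 y hy h)
  have hxm : (x : ℝ) < m := by
    by_contra h
    push Not at h
    exact hno (2 * k + 1) (by omega) (hJ1 x hx h) (hJ1 y hy (h.trans hxy.le))
  have hk2 : 2 * k < 2 ^ (n + 1) := by omega
  have hf := hcon (gC hz hk2 (AR.const 1)) (gC_mem hz hk2 (AR.const 1))
  have hxJ := hJ0 x hx hxm.le
  have hyJ : ¬ J (n + 1) (2 * k) y := by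
    intro h
    have := h.2
    push_cast at this
    exact absurd hym (not_lt.2 this)
  have hΨ : s.Ψ (n + 1) (2 * k) (z x) = 0 := by
    have h1 : gn s z (n + 1) (2 * k) (fun _ => 1) x = gn s z (n + 1) (2 * k) (fun _ => 1) y := hf
    simpa [gn, hxJ, hyJ] using h1
  have hxk : 0 < 2 * k ∧ (x : ℝ) = ((2 * k : ℕ) : ℝ) / 2 ^ (n + 1) := by
    by_contra h1
    refine Ψ_ne hz hk2 hxJ h1 ?_ hΨ
    rintro ⟨_, h3⟩
    rw [h3] at hxm
    push_cast at hxm
    exact absurd hxm (lt_irrefl _)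
  obtain ⟨hk0, hxk⟩ := hxk
  rw [a1] at hxk
  -- `x` is a dyadic number
  obtain ⟨r, j, hj, hkj⟩ := Nat.exists_eq_two_pow_mul_odd (show k ≠ 0 by omega)
  obtain ⟨l, rfl⟩ := hj
  have hr : r < n := by
    by_contra h
    push Not at h
    have h1 : 2 ^ n ≤ 2 ^ r := Nat.pow_le_pow_right (by norm_num) h
    have h2 : 2 ^ r ≤ k := by rw [hkj]; exact Nat.le_mul_of_pos_right _ (by omega)
    omega
  obtain ⟨i, rfl⟩ : ∃ i, n = i + 1 + r := ⟨n - 1 - r, by omega⟩
  have hl : l < 2 ^ i := by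
    have h1 : 2 ^ (i + 1 + r) = 2 ^ r * (2 * 2 ^ i) := by ring
    rw [h1, hkj] at hk
    have := Nat.lt_of_mul_lt_mul_left hk
    omega
  have hxi : (x : ℝ) = (2 * l + 1) / 2 ^ (i + 1) := by
    rw [hxk, hkj]
    have : (2 : ℝ) ^ (i + 1 + r) = 2 ^ (i + 1) * 2 ^ r := by ring
    rw [this]
    push_cast
    have h3 : (2 : ℝ) ^ r ≠ 0 := by positivity
    have h4 : (2 : ℝ) ^ (i + 1) ≠ 0 := by positivity
    field_simp
  have hyi : J i l y := by
    have h1 := J_desc (show i ≤ i + 1 + r by omega) hy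
    have h2 : k / 2 ^ (i + 1 + r - i) = l := by
      have h3 : i + 1 + r - i = r + 1 := by omega
      rw [h3, hkj, pow_succ, ← Nat.div_div_eq_div_mul, Nat.mul_div_cancel_left _ (by positivity)]
      omega
    rwa [h2] at h1
  have hz1 := z_contact s hz.mem hl hxi
  have hz2 : z y = s.a (i + 1) (2 * l + 1) := by rw [← hzxy, hz1]
  have hy2 := z_inj s hz.mem hl hyi hz2
  rw [← hxi] at hy2
  exact absurd hy2 hxy.ne'

theorem sep (hz : Zm s z) (x y : unitInterval) (hxy : x ≠ y) : ∃ f ∈ Aa s z, f x ≠ f y := by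
  have h : (x : ℝ) ≠ y := fun h => hxy (Subtype.ext h)
  rcases lt_or_gt_of_ne h with h | h
  · exact sep_aux hz h
  · obtain ⟨f, hf, h2⟩ := sep_aux hz h
    exact ⟨f, hf, h2.symm⟩

end Pool.Agent.Lib.GEX
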