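import Pool.Agent.Lib.GEX.Root

/-!
# GEX.Tree: construction of the system  (1.5 h)

`child0 s, child1 s, hh s` from `st_step` by `Classical.choose`; `st 0 k = root`, `st (n+1) k = if k % 2 = 0 then child0 (st n (k/2)) else child1 (st n (k/2))`, so `st (n+1) (2k) = child0 (st n k)`,
`st (n+1) (2k+1) = child1 (st n k)`; `(st n k).n = n`. `R, a, b, Ψ` from the state, `h n k = hh (st n k)`, `L n k F = BI R (F H)`, `M n k = VI R ‖H‖`.
`Ladd`: `BI_add` (`NS R.B (F H)`: `F` continuous on `R.S` (`NS.of_cont`), `H` is `NS` on `R.B` by `ok.cont`, `ok.bdd`). `Lbd`: `norm_BI_le`, `VI_le` against `m * H`, `VI_smul`. `Lann`: `BI_eq_zero` for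
`(Ψ G) H = (Ψ H) G`. Everything else is read off from `st_step`, `St.small`, `st_root`, `VI_nonneg`.
-/

open Set MeasureTheory Filter Topology
open Complex (I)

namespace Pool.Agent.Lib.GEX

namespace TreeAux

noncomputable def child0 (s : St) : St := Classical.choose (st_step s)

noncomputable def child1 (s : St) : St := Classical.choose (Classical.choose_spec (st_step s))

noncomputable def hh (s : St) : ℂ → ℂ :=
  Classical.choose (Classical.choose_spec (Classical.choose_spec (st_step s)))

theorem step_spec (s : St) :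
    (child0 s).n = s.n + 1 ∧ (child1 s).n = s.n + 1 ∧
    CutFacts s.R (child0 s).R (child1 s).R s.a s.b (child0 s).b ∧
    (child0 s).a = s.a ∧ (child1 s).a = (child0 s).b ∧ (child1 s).b = s.b ∧
    AR s.R (hh s) ∧ (∀ z ∈ s.R.S, hh s z = 0 ↔ z = (child0 s).b) ∧
    (child0 s).Ψ = (fun z => s.Ψ z * hh s z) ∧ (child1 s).Ψ = (fun z => s.Ψ z * hh s z) ∧
    (∀ F : ℂ → ℂ, AR s.R F →
      BI (child0 s).R (fun z => F z * (child0 s).H z) +
        BI (child1 s).R (fun z => F z * (child1 s).H z) = BI s.R (fun z => F z * s.H z)) ∧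
    VI (child0 s).R (fun z => ‖(child0 s).H z‖) + VI (child1 s).R (fun z => ‖(child1 s).H z‖) ≤
      VI s.R (fun z => ‖s.H z‖) + (1 / 4) ^ (s.n + 3) ∧
    ‖BI (child0 s).R (fun z => cj z * (child0 s).H z) +
      BI (child1 s).R (fun z => cj z * (child1 s).H z) -
      BI s.R (fun z => cj z * s.H z)‖ ≤ (1 / 4) ^ (s.n + 3) :=
  Classical.choose_spec (Classical.choose_spec (Classical.choose_spec (st_step s)))

noncomputable def root : St := Classical.choose st_root

theorem root_spec : root.n = 0 ∧ root.Ψ = (fun _ => 1) ∧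
    VI root.R (fun z => ‖root.H z‖) ≤ 4 ∧ 2 ≤ ‖BI root.R (fun z => cj z * root.H z)‖ :=
  Classical.choose_spec st_root

noncomputable def st : ℕ → ℕ → St
  | 0, _ => root
  | n + 1, k => if k % 2 = 0 then child0 (st n (k / 2)) else child1 (st n (k / 2))

theorem st_zero (k : ℕ) : st 0 k = root := rfl

theorem st_even (n k : ℕ) : st (n + 1) (2 * k) = child0 (st n k) := by
  have h1 : 2 * k % 2 = 0 := by omega
  have h2 : 2 * k / 2 = k := by omega
  show (if 2 * k % 2 = 0 then child0 (st n (2 * k / 2)) else child1 (st n (2 * k / 2))) = _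
  rw [if_pos h1, h2]

theorem st_odd (n k : ℕ) : st (n + 1) (2 * k + 1) = child1 (st n k) := by
  have h1 : ¬ (2 * k + 1) % 2 = 0 := by omega
  have h2 : (2 * k + 1) / 2 = k := by omega
  show (if (2 * k + 1) % 2 = 0 then child0 (st n ((2 * k + 1) / 2))
    else child1 (st n ((2 * k + 1) / 2))) = _
  rw [if_neg h1, h2]

theorem st_n (n k : ℕ) : (st n k).n = n := by
  induction n generalizing k with
  | zero => exact root_spec.1
  | succ n ih =>
    rcases Nat.even_or_odd' k with ⟨j, hj | hj⟩
    · rw [hj, st_even, (step_spec _).1, ih]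
    · rw [hj, st_odd, (step_spec _).2.1, ih]

theorem B_sub (R : Rect) : R.B ⊆ R.S := diff_subset

theorem nsH (s : St) : NS s.R.B s.H := by
  refine ⟨⟨{s.a, s.b}, by simp, ?_⟩, s.ok.bdd⟩
  exact s.ok.cont.mono (diff_subset_diff_left (B_sub s.R))

theorem nsFH (s : St) {F : ℂ → ℂ} (hF : ContinuousOn F s.R.S) :
    NS s.R.B (fun z => F z * s.H z) :=
  (NS.of_cont hF (B_sub s.R)).mul (nsH s)

theorem BI_smul (R : Rect) (w : ℂ) (f : ℂ → ℂ) : BI R (fun z => w * f z) = w * BI R f := by
  unfold BI
  rw [intervalIntegral.integral_const_mul, intervalIntegral.integral_const_mul,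
    intervalIntegral.integral_const_mul, intervalIntegral.integral_const_mul]
  ring

theorem Ladd' (s : St) {F G : ℂ → ℂ} (hF : ContinuousOn F s.R.S) (hG : ContinuousOn G s.R.S) :
    BI s.R (fun z => (F z + G z) * s.H z) =
      BI s.R (fun z => F z * s.H z) + BI s.R (fun z => G z * s.H z) := by
  rw [← BI_add (nsFH s hF) (nsFH s hG)]
  congr 1
  funext z
  ring

theorem Lsmul' (s : St) (w : ℂ) (F : ℂ → ℂ) :
    BI s.R (fun z => (w * F z) * s.H z) = w * BI s.R (fun z => F z * s.H z) := by
  rw [← BI_smul]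
  congr 1
  funext z
  ring

theorem Lbd' (s : St) {F : ℂ → ℂ} {m : ℝ} (hF : ContinuousOn F s.R.S)
    (hm : ∀ z ∈ s.R.S, ‖F z‖ ≤ m) :
    ‖BI s.R (fun z => F z * s.H z)‖ ≤ VI s.R (fun z => ‖s.H z‖) * m := by
  have hm0 : 0 ≤ m := by
    obtain ⟨z, hz⟩ := Rect.nonempty_S (R := s.R)
    exact (norm_nonneg _).trans (hm z hz)
  have h2 : NS s.R.B (fun z => (m : ℂ) * s.H z) := (NS.const s.R.B (m : ℂ)).mul (nsH s)
  refine (norm_BI_le (nsFH s hF)).trans ?_
  refine (VI_le (nsFH s hF) h2 (finite_empty) ?_).trans (le_of_eq ?_)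
  · intro z hz
    rw [norm_mul, norm_mul, Complex.norm_real, Real.norm_eq_abs, abs_of_nonneg hm0]
    exact mul_le_mul_of_nonneg_right (hm z (B_sub _ hz.1)) (norm_nonneg _)
  · have h3 : (fun z => ‖(m : ℂ) * s.H z‖) = fun z => m * ‖s.H z‖ := by
      funext z
      rw [norm_mul, Complex.norm_real, Real.norm_eq_abs, abs_of_nonneg hm0]
    rw [h3, VI_smul, mul_comm]

theorem Lann' (s : St) {G : ℂ → ℂ} (hG : AR s.R G) :
    BI s.R (fun z => (s.Ψ z * G z) * s.H z) = 0 := by
  have h1 : (fun z => (s.Ψ z * G z) * s.H z) = fun z => G z * (s.Ψ z * s.H z) := by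
    funext z
    ring
  rw [h1]
  exact BI_eq_zero (hG.mul s.psiH)

end TreeAux

open TreeAux

theorem exists_sys : Nonempty Sys := by
  refine ⟨{ R := fun n k => (st n k).R
            a := fun n k => (st n k).a
            b := fun n k => (st n k).b
            h := fun n k => hh (st n k)
            Ψ := fun n k => (st n k).Ψ
            L := fun n k F => BI (st n k).R (fun z => F z * (st n k).H z)
            M := fun n k => VI (st n k).R (fun z => ‖(st n k).H z‖)
            sub0 := ?_, sub1 := ?_, osub0 := ?_, osub1 := ?_, cover := ?_, a_mem := ?_,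
            b_mem := ?_, a0 := ?_, b1 := ?_, ab := ?_, a_not := ?_, b_not := ?_, small := ?_,
            hAR := ?_, h0 := ?_, Ψ0 := ?_, Ψ1 := ?_, Ψ2 := ?_, Ladd := ?_, Lsmul := ?_,
            Lbd := ?_, Lann := ?_, Lsplit := ?_, Lmass := ?_, Lconj := ?_, M0 := ?_,
            Mnn := ?_, Lroot := ?_ }⟩
  · intro n k
    simp only [st_even]
    exact (step_spec (st n k)).2.2.1.sub'
  · intro n k
    simp only [st_odd]
    exact (step_spec (st n k)).2.2.1.sub''
  · intro n k
    simp only [st_even]
    exact (step_spec (st n k)).2.2.1.osub'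
  · intro n k
    simp only [st_odd]
    exact (step_spec (st n k)).2.2.1.osub''
  · intro n k
    simp only [st_even, st_odd]
    exact (step_spec (st n k)).2.2.1.cover
  · intro n k
    exact (st n k).ok.a_mem
  · intro n k
    exact (st n k).ok.b_mem
  · intro n k
    simp only [st_even]
    exact (step_spec (st n k)).2.2.2.1
  · intro n k
    simp only [st_odd]
    exact (step_spec (st n k)).2.2.2.2.2.1
  · intro n k
    simp only [st_even, st_odd]
    exact (step_spec (st n k)).2.2.2.2.1.symm
  · intro n k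
    simp only [st_odd]
    exact (step_spec (st n k)).2.2.1.a_not
  · intro n k
    simp only [st_even]
    exact (step_spec (st n k)).2.2.1.b_not
  · intro n k
    have h1 := (st n k).small
    rw [st_n] at h1
    have h2 : ((4 : ℝ) / 5) ^ (n / 6) ≤ (4 / 5) ^ (n / 12) :=
      pow_le_pow_of_le_one (by norm_num) (by norm_num) (by omega)
    exact ⟨h1.1.trans h2, h1.2.trans h2⟩
  · intro n k
    exact (step_spec (st n k)).2.2.2.2.2.2.1
  · intro n k z hz
    simp only [st_odd]
    rw [(step_spec (st n k)).2.2.2.2.1]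
    exact (step_spec (st n k)).2.2.2.2.2.2.2.1 z hz
  · intro k
    exact root_spec.2.1
  · intro n k
    simp only [st_even]
    exact (step_spec (st n k)).2.2.2.2.2.2.2.2.1
  · intro n k
    simp only [st_odd]
    exact (step_spec (st n k)).2.2.2.2.2.2.2.2.2.1
  · intro n k F G hF hG
    exact Ladd' (st n k) hF hG
  · intro n k w F _
    exact Lsmul' (st n k) w F
  · intro n k F m hF hm
    exact Lbd' (st n k) hF hm
  · intro n k G hG
    exact Lann' (st n k) hG
  · intro n k F hF
    simp only [st_even, st_odd]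
    exact (step_spec (st n k)).2.2.2.2.2.2.2.2.2.2.1 F hF
  · intro n k
    have h1 := (step_spec (st n k)).2.2.2.2.2.2.2.2.2.2.2.1
    rw [st_n] at h1
    simp only [st_even, st_odd]
    exact h1
  · intro n k
    have h1 := (step_spec (st n k)).2.2.2.2.2.2.2.2.2.2.2.2
    rw [st_n] at h1
    simp only [st_even, st_odd]
    exact h1
  · exact root_spec.2.2.1
  · intro n k
    exact VI_nonneg _ _
  · exact root_spec.2.2.2

end Pool.Agent.Lib.GEX
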