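import Pool.Agent.Lib.GEX.Natr
import Pool.Agent.Lib.GEX.Sep
import Pool.Agent.Lib.GEX.RepB
import Pool.Agent.Lib.GEX.Tree

/-!
# GEX.Main: a nontrivial natural uniform algebra on the unit interval
-/

namespace Pool.Agent.Lib.GEX

theorem gelfand_example :
    ∃ A : Subalgebra ℂ C(unitInterval, ℂ),
      IsClosed (A : Set C(unitInterval, ℂ)) ∧
      (∀ x y : unitInterval, x ≠ y → ∃ f ∈ A, f x ≠ f y) ∧
      A ≠ ⊤ ∧
      ∀ φ : A →ₐ[ℂ] ℂ, ∃ x : unitInterval, ∀ f : A, φ f = (f : C(unitInterval, ℂ)) x := by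
  obtain ⟨s⟩ := exists_sys
  obtain ⟨z, h1, h2⟩ := exists_z s
  have hz : Zm s z := ⟨h1, h2⟩
  exact ⟨Aa s z, Aa_closed, fun x y h => sep hz x y h, not_top hz, fun φ => natural hz φ⟩

end Pool.Agent.Lib.GEX
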