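import Pool.Agent.Lib.GEX.NatC

/-!
# GEX.NatA: an infinite branch of good nodes  (1.2 h)

`t` = the common point of the intervals `J n (κ n)` (`J_nested`). `z t ∈ (R n (κ n)).S` (`hz.mem`), `lam ∈ (R n (κ n)).S` (`MR.eval`), so `‖z t - lam‖ ≤ 2 (4/5)^(n/12) → 0` (`diam`, `diam_lim`): `z t = lam`. Let `l < 2^n`, `G ∈ A(R n l)`.
`l = κ n`: `m n l G = Ψ lam * G lam` (`MR.eval`) `= gn s z n l G t`. `l ≠ κ n`: `m n l G * m n (κ n) 1 = 0` (`disj`, `p = n`), so `m n l G = 0`; and `gn s z n l G t * gn s z n (κ n) 1 t = 0` (`gn_mul_disj`), where `gn s z n (κ n) 1 t = Ψ n (κ n) lam = m n (κ n) 1 ≠ 0`.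
-/

open Set Filter Topology
open Complex (I)

namespace Pool.Agent.Lib.GEX

variable {s : Sys} {z : C(unitInterval, ℂ)} {lam : ℂ} {m : ℕ → ℕ → (ℂ → ℂ) → ℂ}

theorem MR.caseA (hz : Zm s z) (hm : MR s lam m) (κ : ℕ → ℕ) (h0 : ∀ n, κ n < 2 ^ n)
    (h1 : ∀ n, κ (n + 1) / 2 = κ n) (hg : ∀ n, m n (κ n) (fun _ => 1) ≠ 0) :
    ∃ t : unitInterval, ∀ n l, l < 2 ^ n → ∀ G, AR (s.R n l) G → m n l G = gn s z n l G t := by
  obtain ⟨t, ht⟩ := J_nested κ h0 h1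
  have hlam : ∀ n, lam ∈ (s.R n (κ n)).S := fun n => (hm.eval (h0 n) (hg n)).1
  have h2 : ‖z t - lam‖ ≤ 0 :=
    ge_of_tendsto' diam_lim fun n => diam s n (κ n) (hz.mem n (κ n) (h0 n) t (ht n)) (hlam n)
  have h3 : z t = lam := sub_eq_zero.1 (norm_eq_zero.1 (le_antisymm h2 (norm_nonneg _)))
  have h4 : ∀ n G, gn s z n (κ n) G t = s.Ψ n (κ n) lam * G lam := by
    intro n G
    unfold gn
    rw [if_pos (ht n), h3]
  refine ⟨t, fun n l hl G hG => ?_⟩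
  by_cases h : l = κ n
  · subst h
    rw [(hm.eval (h0 n) (hg n)).2 G hG, h4]
  · have hd : κ n / 2 ^ (n - n) ≠ l := by
      rw [Nat.sub_self, pow_zero, Nat.div_one]
      exact fun e => h e.symm
    have h5 := hm.disj n n l (κ n) G (fun _ => 1) le_rfl hl (h0 n) hd hG (AR.const 1)
    have h6 := gn_mul_disj hz (n := n) (m := n) (k := l) (l := κ n) le_rfl hl (h0 n) hd G
      (fun _ => 1) t
    have h7 : gn s z n (κ n) (fun _ => 1) t ≠ 0 := by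
      rw [h4, ← (hm.eval (h0 n) (hg n)).2 (fun _ => 1) (AR.const 1)]
      exact hg n
    rw [(mul_eq_zero.1 h5).resolve_right (hg n), (mul_eq_zero.1 h6).resolve_right h7]

end Pool.Agent.Lib.GEX
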