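import Pool.Agent.Lib.GEX.NatC

/-!
# GEX.NatB: a good node with `lam` = contact point  (1.3 h)

`t = (2k+1)/2^(n+1)`, `J n k t`, `z t = a (n+1) (2k+1) = lam` (`z_contact`). `gn s z n k 1 t = Ψ n k lam = m n k 1 ≠ 0` (`MR.eval`, `G = 1`). Let `l < 2^p`, `F ∈ A(R p l)`.
(1) `p ≤ n`, `k / 2^(n-p) = l`: `m p l F * m n k 1 = m n k (Ψ_(p,l) F 1)` (`desc`) `= Ψ_(n,k) lam * (Ψ_(p,l) lam * F lam)` (`eval`; `Ψ_AR`, `R_desc` for `AR.mono`), so `m p l F = Ψ_(p,l) lam * F lam = gn s z p l F t` (`J_desc`).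
(2) `p ≤ n`, `k / 2^(n-p) ≠ l`: `m p l F * m n k 1 = 0` (`disj`), `gn s z p l F t * gn s z n k 1 t = 0` (`gn_mul_disj`): both values are `0`. (3) `n < p`, `l / 2^(p-n) ≠ k`: the same with the roles exchanged.
(4) `n < p`, `l / 2^(p-n) = k`: `e = l / 2^(p-(n+1)) ∈ {2k, 2k+1}` (`Nat.div_div_eq_div_mul`); `m (n+1) e 1 = 0` (`dead`), so `m p l F = 0` (`zero_desc`). `gn s z p l F t = 0`: `Ψ p l lam = Ψ (n+1) e lam * Q lam` (`Ψ_quot`), `Ψ (n+1) e lam = Ψ n k lam * h n k lam = 0` (`h0`).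
-/

open Set Filter Topology
open Complex (I)

namespace Pool.Agent.Lib.GEX

variable {s : Sys} {z : C(unitInterval, ℂ)} {lam : ℂ} {m : ℕ → ℕ → (ℂ → ℂ) → ℂ}

theorem MR.caseB (hz : Zm s z) (hm : MR s lam m) {n k : ℕ} (hk : k < 2 ^ n)
    (hg : m n k (fun _ => 1) ≠ 0) (hl : lam = s.a (n + 1) (2 * k + 1)) :
    ∃ t : unitInterval, ∀ p l, l < 2 ^ p → ∀ F, AR (s.R p l) F → m p l F = gn s z p l F t := by
  have hev := hm.eval hk hg
  have h2n : (0 : ℝ) < 2 ^ n := by positivity
  have hk' : (k : ℝ) + 1 ≤ 2 ^ n := by exact_mod_cast hk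
  have ht01 : (2 * (k : ℝ) + 1) / 2 ^ (n + 1) ∈ Set.Icc (0 : ℝ) 1 := by
    constructor
    · positivity
    · rw [div_le_one (by positivity), pow_succ]
      linarith
  obtain ⟨t, ht⟩ : ∃ t : unitInterval, (t : ℝ) = (2 * k + 1) / 2 ^ (n + 1) := ⟨⟨_, ht01⟩, rfl⟩
  have hzt : z t = lam := by
    rw [hl]
    exact z_contact s hz.mem hk ht
  have hJ : J n k t := by
    rw [GenAux.J_iff]
    have h2 := GenAux.eq_of_div ht
    rw [pow_succ] at h2
    constructor <;> linarith
  have hm1 : m n k (fun _ => 1) = s.Ψ n k lam := by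
    rw [hev.2 _ (AR.const 1), mul_one]
  have hg1 : gn s z n k (fun _ => 1) t ≠ 0 := by
    unfold gn
    rw [if_pos hJ, hzt, mul_one, ← hm1]
    exact hg
  refine ⟨t, fun p l hlp F hF => ?_⟩
  rcases Nat.lt_or_ge n p with hnp | hpn
  · by_cases hkl : l / 2 ^ (p - n) = k
    · have hle : n + 1 ≤ p := hnp
      have he2 : l / 2 ^ (p - (n + 1)) / 2 = k := by
        rw [Nat.div_div_eq_div_mul, ← pow_succ]
        have : p - (n + 1) + 1 = p - n := by omega
        rw [this]
        exact hkl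
      have hd := hm.dead hk hg hl
      have he : m (n + 1) (l / 2 ^ (p - (n + 1))) (fun _ => 1) = 0 := by
        rcases Nat.even_or_odd' (l / 2 ^ (p - (n + 1))) with ⟨j, hj | hj⟩
        · have : j = k := by omega
          rw [hj, this]
          exact hd.1
        · have : j = k := by omega
          rw [hj, this]
          exact hd.2
      rw [hm.zero_desc hle hlp he hF]
      have hPz : s.Ψ (n + 1) (l / 2 ^ (p - (n + 1))) lam = 0 := by
        have h0 : s.h n k lam = 0 := (s.h0 n k lam hev.1).2 hl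
        rcases Nat.even_or_odd' (l / 2 ^ (p - (n + 1))) with ⟨j, hj | hj⟩
        · have hjk : j = k := by omega
          rw [hj, hjk, s.Ψ1 n k]
          show s.Ψ n k lam * s.h n k lam = 0
          rw [h0, mul_zero]
        · have hjk : j = k := by omega
          rw [hj, hjk, s.Ψ2 n k]
          show s.Ψ n k lam * s.h n k lam = 0
          rw [h0, mul_zero]
      obtain ⟨Q, _, hQ⟩ := Ψ_quot s (l := l) hle
      unfold gn
      by_cases hJl : J p l t
      · rw [if_pos hJl, hzt, hQ lam, hPz, zero_mul, zero_mul]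
      · rw [if_neg hJl]
    · have h1 := hm.disj n p k l (fun _ => 1) F hnp.le hk hlp hkl (AR.const 1) hF
      have h2 := gn_mul_disj hz hnp.le hk hlp hkl (fun _ => 1) F t
      rw [(mul_eq_zero.1 h1).resolve_left hg, (mul_eq_zero.1 h2).resolve_left hg1]
  · by_cases hkl : k / 2 ^ (n - p) = l
    · subst hkl
      have hAR : AR (s.R n k) (fun w => s.Ψ p (k / 2 ^ (n - p)) w * F w * 1) :=
        ((((Ψ_AR s p (k / 2 ^ (n - p))).mul hF).mono (R_desc s hpn).1 (R_desc s hpn).2)).mul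
          (AR.const 1)
      have h1 := hm.desc p n k F (fun _ => 1) hpn hk hF (AR.const 1)
      rw [hev.2 _ hAR, hm1] at h1
      have hne : s.Ψ n k lam ≠ 0 := by
        rw [← hm1]
        exact hg
      have h2 : m p (k / 2 ^ (n - p)) F = s.Ψ p (k / 2 ^ (n - p)) lam * F lam := by
        apply mul_right_cancel₀ hne
        rw [h1]
        ring
      rw [h2]
      unfold gn
      rw [if_pos (J_desc hpn hJ), hzt]
    · have h1 := hm.disj p n l k F (fun _ => 1) hpn hlp hk hkl hF (AR.const 1)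
      have h2 := gn_mul_disj hz hpn hlp hk hkl F (fun _ => 1) t
      rw [(mul_eq_zero.1 h1).resolve_right hg, (mul_eq_zero.1 h2).resolve_right hg1]

end Pool.Agent.Lib.GEX
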