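import Pool.Agent.Lib.GEX.NatE

/-!
# GEX.NatC: children of a good node  (1 h)

`(n,k)` good: `m (n+1) (2k) 1 + m (n+1) (2k+1) 1 = m n k (h 1)` (`split`) `= Ψ lam * h lam` (`MR.eval`), `Ψ lam = m n k 1 ≠ 0` (`MR.eval` with `G = 1`), and `h n k lam = 0` iff `lam = a (n+1) (2k+1)` (`h0`, `lam ∈ (R n k).S`). The product of the two numbers is `0`
(`disj` with `p = n + 1`, nodes `2k`, `2k+1`). `child`: the sum is not `0`. `dead`: sum `0` and product `0`, so both `0`.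
`zero_desc`: `e = l / 2^(p-n)`, `m n e 1 = 0`, `F ∈ A(R p l)`: `(m p l F)² = m p l (Ψ_(p,l) F F)` and, with `Ψ_(p,l) = Ψ_(n,e) Q` (`Ψ_quot`), `= m p l (Ψ_(n,e) 1 (Q F F)) = m n e 1 * m p l (Q F F) = 0` (`desc`, `congr`).
-/

open Set Filter Topology
open Complex (I)

namespace Pool.Agent.Lib.GEX

variable {s : Sys} {lam : ℂ} {m : ℕ → ℕ → (ℂ → ℂ) → ℂ}

theorem MR.child (hm : MR s lam m) {n k : ℕ} (hk : k < 2 ^ n) (hg : m n k (fun _ => 1) ≠ 0)
    (hl : lam ≠ s.a (n + 1) (2 * k + 1)) :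
    m (n + 1) (2 * k) (fun _ => 1) ≠ 0 ∨ m (n + 1) (2 * k + 1) (fun _ => 1) ≠ 0 := by
  obtain ⟨hS, hev⟩ := hm.eval hk hg
  by_contra hcon
  rw [not_or, not_not, not_not] at hcon
  have h1 := hm.split n k (fun _ => 1) hk (AR.const 1)
  rw [hcon.1, hcon.2, add_zero, hev _ ((s.hAR n k).mul (AR.const 1))] at h1
  have h2 := hev _ (AR.const 1)
  rw [mul_one] at h2
  rw [h2] at hg
  have h3 : s.h n k lam ≠ 0 := fun h => hl ((s.h0 n k lam hS).1 h)
  rw [mul_one] at h1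
  exact mul_ne_zero hg h3 h1.symm

theorem MR.dead (hm : MR s lam m) {n k : ℕ} (hk : k < 2 ^ n) (hg : m n k (fun _ => 1) ≠ 0)
    (hl : lam = s.a (n + 1) (2 * k + 1)) :
    m (n + 1) (2 * k) (fun _ => 1) = 0 ∧ m (n + 1) (2 * k + 1) (fun _ => 1) = 0 := by
  obtain ⟨hS, hev⟩ := hm.eval hk hg
  have h1 := hm.split n k (fun _ => 1) hk (AR.const 1)
  rw [hev _ ((s.hAR n k).mul (AR.const 1)), (s.h0 n k lam hS).2 hl] at h1
  have h2 : 2 * k + 1 < 2 ^ (n + 1) := by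
    rw [pow_succ]
    omega
  have h3 := hm.disj (n + 1) (n + 1) (2 * k) (2 * k + 1) (fun _ => 1) (fun _ => 1) le_rfl
    (by omega) h2 (by rw [Nat.sub_self, pow_zero, Nat.div_one]; omega)
    (AR.const 1) (AR.const 1)
  rw [zero_mul, mul_zero] at h1
  rcases mul_eq_zero.1 h3 with h4 | h4
  · rw [h4, zero_add] at h1
    exact ⟨h4, h1⟩
  · rw [h4, add_zero] at h1
    exact ⟨h1, h4⟩

theorem MR.zero_desc (hm : MR s lam m) {n p l : ℕ} (h : n ≤ p) (hl : l < 2 ^ p)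
    (h0 : m n (l / 2 ^ (p - n)) (fun _ => 1) = 0) {F : ℂ → ℂ} (hF : AR (s.R p l) F) :
    m p l F = 0 := by
  obtain ⟨Q, hQ, hΨ⟩ := Ψ_quot s (m := p) (l := l) h
  have e : l / 2 ^ (p - p) = l := by
    rw [Nat.sub_self, pow_zero, Nat.div_one]
  have h1 := hm.desc p p l F F le_rfl hl (by rw [e]; exact hF) hF
  rw [e] at h1
  have h2 : (fun w => s.Ψ p l w * F w * F w) =
      fun w => s.Ψ n (l / 2 ^ (p - n)) w * (1 : ℂ) * (Q w * F w * F w) := by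
    funext w
    rw [hΨ w]
    ring
  have h3 := hm.desc n p l (fun _ => 1) (fun w => Q w * F w * F w) h hl (AR.const 1)
    ((hQ.mul hF).mul hF)
  rw [h2, ← h3, h0, zero_mul] at h1
  exact mul_self_eq_zero.1 h1

end Pool.Agent.Lib.GEX
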