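import Pool.Agent.Lib.GEX.Gen

/-!
# GEX.NatD: the rules for a character on the generating functions  (1 h)

`MR s lam m`: `m n k G` is the value of the character on the generating function of the node `(n,k)` with coefficient `G`.
`Ψ_quot`: induction on `m - n` (`Ψ m l = Ψ (m-1) (l/2) * h (m-1) (l/2)`, `R_desc`, `sub0`, `sub1`, `osub0`, `osub1`).
-/

open Set Filter Topology
open Complex (I)

namespace Pool.Agent.Lib.GEX

structure MR (s : Sys) (lam : ℂ) (m : ℕ → ℕ → (ℂ → ℂ) → ℂ) : Prop where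
  add : ∀ n k G F, k < 2 ^ n → AR (s.R n k) G → AR (s.R n k) F →
    m n k (fun w => G w + F w) = m n k G + m n k F
  smul : ∀ n k (c : ℂ) G, k < 2 ^ n → AR (s.R n k) G → m n k (fun w => c * G w) = c * m n k G
  congr : ∀ n k G F, k < 2 ^ n → AR (s.R n k) G → AR (s.R n k) F →
    (∀ w ∈ (s.R n k).S, G w = F w) → m n k G = m n k F
  desc : ∀ n p l G F, n ≤ p → l < 2 ^ p → AR (s.R n (l / 2 ^ (p - n))) G → AR (s.R p l) F →
    m n (l / 2 ^ (p - n)) G * m p l F = m p l (fun w => s.Ψ n (l / 2 ^ (p - n)) w * G w * F w)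
  disj : ∀ n p k l G F, n ≤ p → k < 2 ^ n → l < 2 ^ p → l / 2 ^ (p - n) ≠ k →
    AR (s.R n k) G → AR (s.R p l) F → m n k G * m p l F = 0
  split : ∀ n k G, k < 2 ^ n → AR (s.R n k) G →
    m (n + 1) (2 * k) G + m (n + 1) (2 * k + 1) G = m n k (fun w => s.h n k w * G w)
  one : m 0 0 (fun _ => 1) = 1
  idd : m 0 0 (fun w => w) = lam
  bd : ∀ n k G M, k < 2 ^ n → AR (s.R n k) G → (∀ w ∈ (s.R n k).S, ‖s.Ψ n k w * G w‖ ≤ M) →
    ‖m n k G‖ ≤ M

/-- `Ψ` of a descendant is a multiple of `Ψ` of the ancestor -/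
theorem Ψ_quot (s : Sys) {n m l : ℕ} (h : n ≤ m) : ∃ Q : ℂ → ℂ, AR (s.R m l) Q ∧
    ∀ w, s.Ψ m l w = s.Ψ n (l / 2 ^ (m - n)) w * Q w := by
  obtain ⟨d, rfl⟩ := Nat.exists_eq_add_of_le h
  rw [Nat.add_sub_cancel_left]
  clear h
  induction d generalizing l with
  | zero => exact ⟨fun _ => 1, AR.const 1, fun w => by simp⟩
  | succ d ih =>
    obtain ⟨Q, hQ, hQ2⟩ := ih (l := l / 2)
    have h2 : l / 2 / 2 ^ d = l / 2 ^ (d + 1) := by
      rw [Nat.div_div_eq_div_mul, pow_succ, mul_comm]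
    rw [h2] at hQ2
    rcases Nat.even_or_odd' l with ⟨j, hj | hj⟩
    · have e : l / 2 = j := by omega
      rw [e] at hQ hQ2
      refine ⟨fun w => Q w * s.h (n + d) j w, ?_, fun w => ?_⟩
      · rw [hj]
        exact (hQ.mul (s.hAR (n + d) j)).mono (s.sub0 (n + d) j) (s.osub0 (n + d) j)
      · have e1 : s.Ψ (n + (d + 1)) l w = s.Ψ (n + d) j w * s.h (n + d) j w := by
          rw [hj]
          exact congrFun (s.Ψ1 (n + d) j) w
        rw [e1, hQ2 w]
        ring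
    · have e : l / 2 = j := by omega
      rw [e] at hQ hQ2
      refine ⟨fun w => Q w * s.h (n + d) j w, ?_, fun w => ?_⟩
      · rw [hj]
        exact (hQ.mul (s.hAR (n + d) j)).mono (s.sub1 (n + d) j) (s.osub1 (n + d) j)
      · have e1 : s.Ψ (n + (d + 1)) l w = s.Ψ (n + d) j w * s.h (n + d) j w := by
          rw [hj]
          exact congrFun (s.Ψ2 (n + d) j) w
        rw [e1, hQ2 w]
        ring

end Pool.Agent.Lib.GEX
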