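import Pool.Agent.Lib.GEX.NatD
import Pool.Agent.Lib.GEX.Char

/-!
# GEX.NatE: a good node  (1.2 h)

`(n,k)` is good if `m n k 1 ≠ 0`. `χ G = m n k G / m n k 1` satisfies the hypotheses of `AR_char`: additive (`add`); multiplicative: `m n k G * m n k F = m n k (Ψ G F)` (`desc` with `p = n`, `l / 2^0 = l`) and
`m n k 1 * m n k (G F) = m n k (Ψ 1 (G F))`, equal by `congr`; constants: `smul` with `G = 1`, `congr`; bound: `bd`, `|Ψ| ≤ S` on `R.S` (`Ψ_AR`, `AR.bdd`), `C = S / ‖m n k 1‖`. `χ id = lam`: `m 0 0 id * m n k 1 = m n k (Ψ 0 0 * w * 1)` (`desc` with `n = 0`,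
`k / 2^n = 0`), `Ψ 0 0 = 1` (`Ψ0`), `congr`. So `lam ∈ (R n k).S`, `m n k G = m n k 1 * G lam`; `G = Ψ`: `(m n k 1)² = m n k (Ψ 1 1) = m n k 1 * Ψ lam`, so `m n k 1 = Ψ lam`.
-/

open Set Filter Topology
open Complex (I)

namespace Pool.Agent.Lib.GEX

theorem MR.eval {s : Sys} {lam : ℂ} {m : ℕ → ℕ → (ℂ → ℂ) → ℂ} (hm : MR s lam m) {n k : ℕ}
    (hk : k < 2 ^ n) (hg : m n k (fun _ => 1) ≠ 0) :
    lam ∈ (s.R n k).S ∧ ∀ G, AR (s.R n k) G → m n k G = s.Ψ n k lam * G lam := by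
  set μ : ℂ := m n k (fun _ => 1) with hμ
  have hΨ : AR (s.R n k) (s.Ψ n k) := Ψ_AR s n k
  have desc : ∀ G F : ℂ → ℂ, AR (s.R n k) G → AR (s.R n k) F →
      m n k G * m n k F = m n k (fun w => s.Ψ n k w * G w * F w) := by
    intro G F hG hF
    have h1 := hm.desc n n k G F le_rfl hk
    simp only [Nat.sub_self, pow_zero, Nat.div_one] at h1
    exact h1 hG hF
  have hmul : ∀ f g : ℂ → ℂ, AR (s.R n k) f → AR (s.R n k) g →
      m n k (fun z => f z * g z) * μ = m n k f * m n k g := by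
    intro f g hf hg
    rw [desc f g hf hg, mul_comm, hμ, desc (fun _ => 1) (fun z => f z * g z) (AR.const 1)
      (hf.mul hg)]
    refine hm.congr n k _ _ hk ((hΨ.mul (AR.const 1)).mul (hf.mul hg)) ((hΨ.mul hf).mul hg) ?_
    intro w _
    ring
  have hconst : ∀ w : ℂ, m n k (fun _ => w) = w * μ := by
    intro w
    have h1 := hm.smul n k w (fun _ => 1) hk (AR.const 1)
    simpa using h1
  obtain ⟨B, hB0, hB⟩ := hΨ.bdd
  have hchar := AR_char (s.R n k) (fun G => m n k G / μ) (fun f g hf hg => by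
      rw [hm.add n k f g hk hf hg, add_div]) (fun f g hf hfg => by
      rw [div_mul_div_comm, ← hmul f g hf hfg, mul_div_mul_right _ _ hg]) (fun w => by
      rw [hconst w, mul_div_assoc, div_self hg, mul_one]) (B / ‖μ‖) (fun f hf M hM => by
      have hpos : 0 < ‖μ‖ := norm_pos_iff.2 hg
      have h1 : ‖m n k f‖ ≤ B * M := hm.bd n k f (B * M) hk hf (fun w hw => by
        rw [norm_mul]
        exact mul_le_mul (hB w hw) (hM w hw) (norm_nonneg _) hB0)
      rw [norm_div, div_mul_eq_mul_div]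
      gcongr)
  have hid : m n k (fun z => z) = lam * μ := by
    have h1 := hm.desc 0 n k (fun w => w) (fun _ => 1) (Nat.zero_le n) hk
    have h2 : k / 2 ^ (n - 0) = 0 := by
      rw [Nat.sub_zero]
      exact Nat.div_eq_of_lt hk
    rw [h2] at h1
    have h3 := h1 AR.id (AR.const 1)
    rw [hm.idd] at h3
    rw [hμ, h3]
    refine hm.congr n k _ _ hk AR.id ?_ ?_
    · have h4 : (fun w : ℂ => s.Ψ 0 0 w * w * 1) = fun w => w := by
        funext w
        rw [s.Ψ0 0]
        ring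
      rw [h4]
      exact AR.id
    · intro w _
      rw [s.Ψ0 0]
      ring
  have hlam : m n k (fun z => z) / μ = lam := by
    rw [hid, mul_div_assoc, div_self hg, mul_one]
  simp only [hlam] at hchar
  obtain ⟨hS, hev⟩ := hchar
  have hev' : ∀ G, AR (s.R n k) G → m n k G = μ * G lam := by
    intro G hG
    have h1 := hev G hG
    rw [div_eq_iff hg] at h1
    rw [h1, mul_comm]
  refine ⟨hS, fun G hG => ?_⟩
  have h1 : μ * μ = μ * s.Ψ n k lam := by
    rw [← hev' _ hΨ, hμ, desc (fun _ => 1) (fun _ => 1) (AR.const 1) (AR.const 1)]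
    refine hm.congr n k _ _ hk ((hΨ.mul (AR.const 1)).mul (AR.const 1)) hΨ ?_
    intro w _
    ring
  have h2 : μ = s.Ψ n k lam := mul_left_cancel₀ hg h1
  rw [← h2]
  exact hev' G hG

end Pool.Agent.Lib.GEX
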