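import Pool.Agent.Lib.GEX.AlgA
import Pool.Agent.Lib.GEX.NatD
import Pool.Agent.Lib.GEX.Gelf

/-!
# GEX.NatR: the rules hold for a character  (1.5 h)

`m n k G = if h : k < 2^n ∧ AR (s.R n k) G then φ ⟨gC hz h.1 h.2, _⟩ else 0`. All rules follow from `gn_mul_desc`, `gn_mul_disj`, `gn_split` (equalities of elements of `Aa s z` by `Subtype.ext`, `ContinuousMap.ext`) and `map_add`, `map_mul`; `congr`: `gn` depends only on the
values of `G` at points `z t`, `J n k t`, which are in `(R n k).S`; closure of `AR` under products: `AR.mono` with `R_desc`, `Ψ_AR`, `s.hAR`, children `sub0 ..`; `one`: `gn 0 0 1 = 1` (`J 0 0 t` always, `Ψ0`); `idd`: `gn 0 0 id = z`;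
`bd`: `char_norm_le` and `‖gC‖ ≤ M` (`M ≥ 0` as `(R n k).S` is nonempty). `z_memA`: `z` is the generating function of `(0,0)` with `G = id`.
-/

open Set Filter Topology
open Complex (I)

namespace Pool.Agent.Lib.GEX

variable {s : Sys} {z : C(unitInterval, ℂ)}

namespace NatRAux

theorem J00 (t : unitInterval) : J 0 0 t := by
  refine ⟨?_, ?_⟩
  · simpa using t.2.1
  · simpa using t.2.2

open Classical in
noncomputable def val (hz : Zm s z) (φ : Aa s z →ₐ[ℂ] ℂ) (n k : ℕ) (G : ℂ → ℂ) : ℂ :=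
  if h : k < 2 ^ n ∧ AR (s.R n k) G then φ ⟨gC hz h.1 h.2, gC_mem hz h.1 h.2⟩ else 0

theorem val_eq (hz : Zm s z) (φ : Aa s z →ₐ[ℂ] ℂ) {n k : ℕ} {G : ℂ → ℂ} (hk : k < 2 ^ n)
    (hG : AR (s.R n k) G) : val hz φ n k G = φ ⟨gC hz hk hG, gC_mem hz hk hG⟩ := by
  unfold val
  rw [dif_pos ⟨hk, hG⟩]

theorem anc_lt {n p l : ℕ} (h : n ≤ p) (hl : l < 2 ^ p) : l / 2 ^ (p - n) < 2 ^ n := by
  rw [Nat.div_lt_iff_lt_mul (by positivity), ← pow_add, Nat.add_sub_cancel' h]
  exact hl

end NatRAux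

theorem z_memA (hz : Zm s z) : z ∈ Aa s z := by
  refine GS_sub ⟨0, 0, by norm_num, fun w => w, AR.id, fun t => ?_⟩
  unfold gn
  rw [if_pos (NatRAux.J00 t), s.Ψ0 0]
  simp

theorem exists_MR (hz : Zm s z) (φ : Aa s z →ₐ[ℂ] ℂ) : ∃ m : ℕ → ℕ → (ℂ → ℂ) → ℂ,
    MR s (φ ⟨z, z_memA hz⟩) m ∧ ∀ n k (hk : k < 2 ^ n) G (hG : AR (s.R n k) G),
      φ ⟨gC hz hk hG, gC_mem hz hk hG⟩ = m n k G := by
  refine ⟨NatRAux.val hz φ, ?_, ?_⟩
  swap
  · intro n k hk G hG
    exact (NatRAux.val_eq hz φ hk hG).symm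
  constructor
  · intro n k G F hk hG hF
    rw [NatRAux.val_eq hz φ hk hG, NatRAux.val_eq hz φ hk hF, NatRAux.val_eq hz φ hk (hG.add hF),
      ← map_add]
    congr 1
    apply Subtype.ext
    apply ContinuousMap.ext
    intro t
    show gn s z n k (fun w => G w + F w) t = gn s z n k G t + gn s z n k F t
    unfold gn
    split_ifs
    · ring
    · ring
  · intro n k c G hk hG
    rw [NatRAux.val_eq hz φ hk hG, NatRAux.val_eq hz φ hk ((AR.const c).mul hG),
      ← smul_eq_mul, ← map_smul]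
    congr 1
    apply Subtype.ext
    apply ContinuousMap.ext
    intro t
    show gn s z n k (fun w => c * G w) t = c * gn s z n k G t
    unfold gn
    split_ifs
    · ring
    · ring
  · intro n k G F hk hG hF hGF
    rw [NatRAux.val_eq hz φ hk hG, NatRAux.val_eq hz φ hk hF]
    congr 1
    apply Subtype.ext
    apply ContinuousMap.ext
    intro t
    show gn s z n k G t = gn s z n k F t
    unfold gn
    split_ifs with h
    · rw [hGF _ (hz.mem n k hk t h)]
    · rfl
  · intro n p l G F hnp hl hG hF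
    obtain ⟨hS, hO⟩ := R_desc s (l := l) hnp
    have hk := NatRAux.anc_lt hnp hl
    rw [NatRAux.val_eq hz φ hk hG, NatRAux.val_eq hz φ hl hF,
      NatRAux.val_eq hz φ hl ((((Ψ_AR s n (l / 2 ^ (p - n))).mul hG).mono hS hO).mul hF),
      ← map_mul]
    congr 1
    apply Subtype.ext
    apply ContinuousMap.ext
    intro t
    exact gn_mul_desc hz hnp hl G F t
  · intro n p k l G F hnp hk hl hkl hG hF
    rw [NatRAux.val_eq hz φ hk hG, NatRAux.val_eq hz φ hl hF, ← map_mul, ← map_zero φ]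
    congr 1
    apply Subtype.ext
    apply ContinuousMap.ext
    intro t
    exact gn_mul_disj hz hnp hk hl hkl G F t
  · intro n k G hk hG
    have h2 : 2 ^ (n + 1) = 2 * 2 ^ n := by ring
    rw [NatRAux.val_eq hz φ (by omega : 2 * k < 2 ^ (n + 1)) (hG.mono (s.sub0 n k) (s.osub0 n k)),
      NatRAux.val_eq hz φ (by omega : 2 * k + 1 < 2 ^ (n + 1))
        (hG.mono (s.sub1 n k) (s.osub1 n k)),
      NatRAux.val_eq hz φ hk ((s.hAR n k).mul hG), ← map_add]
    congr 1
    apply Subtype.ext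
    apply ContinuousMap.ext
    intro t
    exact gn_split hz hk G t
  · rw [NatRAux.val_eq hz φ (by norm_num : 0 < 2 ^ 0) (AR.const 1)]
    refine (congrArg φ ?_).trans (map_one φ)
    apply Subtype.ext
    apply ContinuousMap.ext
    intro t
    have e1 : ((1 : Aa s z) : C(unitInterval, ℂ)) = 1 := rfl
    rw [e1, ContinuousMap.one_apply]
    show gn s z 0 0 (fun _ => 1) t = 1
    unfold gn
    rw [if_pos (NatRAux.J00 t), s.Ψ0 0]
    simp
  · rw [NatRAux.val_eq hz φ (by norm_num : 0 < 2 ^ 0) AR.id]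
    congr 1
    apply Subtype.ext
    apply ContinuousMap.ext
    intro t
    show gn s z 0 0 (fun w => w) t = z t
    unfold gn
    rw [if_pos (NatRAux.J00 t), s.Ψ0 0]
    simp
  · intro n k G M hk hG hM
    rw [NatRAux.val_eq hz φ hk hG]
    refine (char_norm_le (Aa s z) Aa_closed φ _).trans ?_
    have hM0 : 0 ≤ M := by
      obtain ⟨w, hw⟩ := (Rect.nonempty_S (R := s.R n k))
      exact (norm_nonneg _).trans (hM w hw)
    rw [ContinuousMap.norm_le _ hM0]
    intro t
    show ‖gn s z n k G t‖ ≤ M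
    unfold gn
    split_ifs with h
    · exact hM _ (hz.mem n k hk t h)
    · rw [norm_zero]
      exact hM0

end Pool.Agent.Lib.GEX
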