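import Pool.Agent.Lib.GEX.NatA
import Pool.Agent.Lib.GEX.NatB
import Pool.Agent.Lib.GEX.NatR

/-!
# GEX.Natr: the algebra is natural  (1 h)

`exists_MR`: `lam = φ z`. Case B: some good node `(n,k)` has `lam = a (n+1) (2k+1)`: `MR.caseB`. Otherwise every good node has a good child (`MR.child`); `(0,0)` is good (`one`); choose a sequence `κ` of good nodes: `MR.caseA`. So there is `t` with `φ g = g t` for all
`g ∈ GS s z` (`g = gC ..`). The set of `f ∈ Aa s z` with `φ f = f t` is closed (`φ` is continuous by `char_norm_le`) and contains `Algebra.adjoin ℂ (GS s z)` (the algebra homomorphisms agree on generators), so it is everything.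
-/

open Set Filter Topology
open Complex (I)

namespace Pool.Agent.Lib.GEX

variable {s : Sys} {z : C(unitInterval, ℂ)}

theorem natural (hz : Zm s z) (φ : Aa s z →ₐ[ℂ] ℂ) :
    ∃ x : unitInterval, ∀ f : Aa s z, φ f = (f : C(unitInterval, ℂ)) x := by
  obtain ⟨m, hm, hφ⟩ := exists_MR hz φ
  have key : ∃ t : unitInterval, ∀ p l, l < 2 ^ p → ∀ F, AR (s.R p l) F →
      m p l F = gn s z p l F t := by
    by_cases hB : ∃ n k, k < 2 ^ n ∧ m n k (fun _ => 1) ≠ 0 ∧
        φ ⟨z, z_memA hz⟩ = s.a (n + 1) (2 * k + 1)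
    · obtain ⟨n, k, hk, hg, hl⟩ := hB
      exact hm.caseB hz hk hg hl
    · have hstep : ∀ n (k : {k : ℕ // k < 2 ^ n ∧ m n k (fun _ => 1) ≠ 0}),
          ∃ k' : {k : ℕ // k < 2 ^ (n + 1) ∧ m (n + 1) k (fun _ => 1) ≠ 0},
            k'.1 / 2 = k.1 := by
        rintro n ⟨k, hk, hg⟩
        have hne : φ ⟨z, z_memA hz⟩ ≠ s.a (n + 1) (2 * k + 1) :=
          fun e => hB ⟨n, k, hk, hg, e⟩
        have h2 : 2 ^ (n + 1) = 2 * 2 ^ n := by rw [pow_succ, mul_comm]
        rcases hm.child hk hg hne with h | h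
        · refine ⟨⟨2 * k, by omega, h⟩, ?_⟩
          show 2 * k / 2 = k
          omega
        · refine ⟨⟨2 * k + 1, by omega, h⟩, ?_⟩
          show (2 * k + 1) / 2 = k
          omega
      choose f hf using hstep
      have hbase : m 0 0 (fun _ => 1) ≠ 0 := by
        rw [hm.one]
        exact one_ne_zero
      let κ : ∀ n, {k : ℕ // k < 2 ^ n ∧ m n k (fun _ => 1) ≠ 0} := fun n =>
        Nat.rec (motive := fun n => {k : ℕ // k < 2 ^ n ∧ m n k (fun _ => 1) ≠ 0})
          ⟨0, by norm_num, hbase⟩ (fun n k => f n k) n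
      exact hm.caseA hz (fun n => (κ n).1) (fun n => (κ n).2.1) (fun n => hf n (κ n))
        (fun n => (κ n).2.2)
  obtain ⟨t, ht⟩ := key
  have hadj : ∀ g (hg : g ∈ Algebra.adjoin ℂ (GS s z)),
      φ ⟨g, Subalgebra.le_topologicalClosure _ hg⟩ = g t := by
    intro g hg
    induction hg using Algebra.adjoin_induction with
    | mem g hg =>
      obtain ⟨n, k, hk, G, hG, hgt⟩ := hg
      have h1 : g = gC hz hk hG := ContinuousMap.ext hgt
      subst h1
      rw [hφ n k hk G hG, ht n k hk G hG]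
      rfl
    | algebraMap r =>
      have h1 : (⟨algebraMap ℂ C(unitInterval, ℂ) r, Subalgebra.le_topologicalClosure _
          (algebraMap_mem (Algebra.adjoin ℂ (GS s z)) r)⟩ : Aa s z) =
          algebraMap ℂ (Aa s z) r := rfl
      rw [h1, AlgHom.commutes]
      rfl
    | add x y hx hy h1 h2 =>
      have h3 := map_add φ ⟨x, Subalgebra.le_topologicalClosure _ hx⟩
        ⟨y, Subalgebra.le_topologicalClosure _ hy⟩
      rw [h1, h2] at h3
      exact h3
    | mul x y hx hy h1 h2 =>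
      have h3 := map_mul φ ⟨x, Subalgebra.le_topologicalClosure _ hx⟩
        ⟨y, Subalgebra.le_topologicalClosure _ hy⟩
      rw [h1, h2] at h3
      exact h3
  refine ⟨t, fun f => ?_⟩
  by_contra hne
  have hpos : 0 < ‖φ f - (f : C(unitInterval, ℂ)) t‖ := norm_pos_iff.2 (sub_ne_zero.2 hne)
  have hf : (f : C(unitInterval, ℂ)) ∈
      closure (Algebra.adjoin ℂ (GS s z) : Set C(unitInterval, ℂ)) := by
    have h1 := f.2
    exact h1
  obtain ⟨g, hg, hfg⟩ := Metric.mem_closure_iff.1 hf _ (half_pos hpos)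
  rw [dist_eq_norm] at hfg
  have h1 : ‖φ (f - ⟨g, Subalgebra.le_topologicalClosure _ hg⟩)‖ ≤
      ‖(f : C(unitInterval, ℂ)) - g‖ := char_norm_le (Aa s z) Aa_closed φ _
  have h5 : φ (f - ⟨g, Subalgebra.le_topologicalClosure _ hg⟩) =
      φ f - φ ⟨g, Subalgebra.le_topologicalClosure _ hg⟩ :=
    map_sub φ f ⟨g, Subalgebra.le_topologicalClosure _ hg⟩
  rw [h5, hadj g hg] at h1
  have h2 : ‖((f : C(unitInterval, ℂ)) - g) t‖ ≤ ‖(f : C(unitInterval, ℂ)) - g‖ :=
    ContinuousMap.norm_coe_le_norm _ t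
  rw [ContinuousMap.sub_apply] at h2
  have h3 : ‖φ f - (f : C(unitInterval, ℂ)) t‖ ≤
      ‖φ f - g t‖ + ‖(f : C(unitInterval, ℂ)) t - g t‖ := by
    have h4 : φ f - (f : C(unitInterval, ℂ)) t =
        (φ f - g t) - ((f : C(unitInterval, ℂ)) t - g t) := by ring
    rw [h4]
    exact norm_sub_le _ _
  linarith

end Pool.Agent.Lib.GEX
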