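import Pool.Agent.Lib.GEX.DefsB

/-!
# GEX.PoleN: poles near the contact point  (1.2 h)

`c = top R xm`, `K` from `ze_le_Gam`. Let `s0 = min (1/(2K)) ((R.y1 - R.y0)/2)` and `0 < s < s0`, `p = c - s i`. `ze c p = 1/s`: `-I/(-(s I)) = 1/s`. For `η > 0` let
`f z = exp (η (ze c z - 1/s))`, holomorphic on `{c}ᶜ`, `f p = 1`, and `U = - dslope f p` (`dslope f p z = (f z - f p)/(z - p)` for `z ≠ p`). `U` is holomorphic on
`{c}ᶜ` (`Complex.differentiableOn_dslope`). Growth: on the compact ball `closedBall p (s/2)` (which does not contain `c`) `U` is bounded by continuity, for `z ∈ R.S`, `z ≠ c`, `|z - p| ≥ s/2`: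
`|U z| ≤ (2/s)(1 + exp (η Re ze))`; as `Re ze ≥ 0` this gives `BB R c U`. On `Gam` (`z ≠ c`): `|U z - 1/(z-p)| = |f z|/|z - p| ≤ exp (η (K - 1/s))/|z - p|`, and `K - 1/s ≤ -K`, `|z - p| ≥ dist(p, Gam) > 0`
(`p` is in the open set `(xm - d, xm + d) × (y0, y1)`, disjoint from the closed set `Gam`; or directly). Let `η → ∞`.
-/

open Set MeasureTheory Filter Topology
open Complex (I)

namespace Pool.Agent.Lib.GEX

theorem pole_near (R : Rect) {xm d : ℝ} (hd : 0 < d) (h1 : R.x0 < xm - d) (h2 : xm + d < R.x1) :
    ∃ s0 : ℝ, 0 < s0 ∧ s0 < R.y1 - R.y0 ∧ ∀ s : ℝ, 0 < s → s < s0 →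
      Apx R (top R xm) (Gam R (xm - d) (xm + d)) (fun z => (z - (top R xm - s * I))⁻¹) := by
  obtain ⟨K, hK, hKG⟩ := ze_le_Gam (R := R) hd h1 h2
  have hy := R.hy
  refine ⟨min (1 / (2 * K)) ((R.y1 - R.y0) / 2), lt_min (by positivity) (by linarith),
    lt_of_le_of_lt (min_le_right _ _) (by linarith), ?_⟩
  intro s hs hs0
  have hsK : s < 1 / (2 * K) := lt_of_lt_of_le hs0 (min_le_left _ _)
  have hsy : s < (R.y1 - R.y0) / 2 := lt_of_lt_of_le hs0 (min_le_right _ _)
  have hKs : K < 1 / (2 * s) := by
    rw [lt_div_iff₀ (by positivity)] at hsK ⊢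
    linarith
  set c := top R xm with hc
  set p := c - s * I with hp
  have hcre : c.re = xm := by rw [hc, top_re]
  have hcim : c.im = R.y1 := by rw [hc, top_im]
  have hpre : p.re = xm := by simp [hp, hcre]
  have hpim : p.im = R.y1 - s := by simp [hp, hcim]
  have hpc : p ≠ c := by
    intro h
    have := congrArg Complex.im h
    rw [hpim, hcim] at this
    linarith
  -- distance to `Gam`
  have hρ : 0 < min d (min s (R.y1 - R.y0 - s)) := by
    refine lt_min hd (lt_min hs (by linarith))
  set ρ := min d (min s (R.y1 - R.y0 - s)) with hρd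
  have hρ1 : ρ ≤ d := min_le_left _ _
  have hρ2 : ρ ≤ s := (min_le_right _ _).trans (min_le_left _ _)
  have hρ3 : ρ ≤ R.y1 - R.y0 - s := (min_le_right _ _).trans (min_le_right _ _)
  have hdist : ∀ z ∈ Gam R (xm - d) (xm + d), ρ ≤ ‖z - p‖ := by
    intro z hz
    have hre : ρ ≤ |z.re - xm| → ρ ≤ ‖z - p‖ := by
      intro h
      refine h.trans ?_
      have := Complex.abs_re_le_norm (z - p)
      rwa [Complex.sub_re, hpre] at this
    have him : ρ ≤ |z.im - (R.y1 - s)| → ρ ≤ ‖z - p‖ := by
      intro h
      refine h.trans ?_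
      have := Complex.abs_im_le_norm (z - p)
      rwa [Complex.sub_im, hpim] at this
    rcases hz with ⟨hS, hO⟩ | ⟨_, h | h⟩
    · obtain ⟨a1, a2, a3, a4⟩ := hS
      by_cases b1 : R.x0 < z.re
      · by_cases b2 : z.re < R.x1
        · by_cases b3 : R.y0 < z.im
          · have b4 : z.im = R.y1 := le_antisymm a4 (not_lt.1 fun h => hO ⟨b1, b2, b3, h⟩)
            apply him
            rw [b4, show R.y1 - (R.y1 - s) = s by ring, abs_of_pos hs]
            exact hρ2
          · have b4 : z.im = R.y0 := le_antisymm (not_lt.1 b3) a3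
            apply him
            rw [b4, abs_sub_comm, abs_of_pos (by linarith)]
            linarith
        · have b4 : z.re = R.x1 := le_antisymm a2 (not_lt.1 b2)
          apply hre
          rw [b4, abs_of_pos (by linarith)]
          linarith
      · have b4 : z.re = R.x0 := le_antisymm (not_lt.1 b1) a1
        apply hre
        rw [b4, abs_sub_comm, abs_of_pos (by linarith)]
        linarith
    · apply hre
      rw [h, abs_sub_comm, show xm - (xm - d) = d by ring, abs_of_pos hd]
      exact hρ1
    · apply hre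
      rw [h, show xm + d - xm = d by ring, abs_of_pos hd]
      exact hρ1
  have hzep : ze c p = 1 / s := by
    unfold ze
    have e : p - c = -(s * I) := by rw [hp]; ring
    have hs' : (s : ℂ) ≠ 0 := by exact_mod_cast hs.ne'
    rw [e, neg_div_neg_eq]
    field_simp [Complex.I_ne_zero]
  intro ε hε
  obtain ⟨η, hη, hηε⟩ : ∃ η : ℝ, 0 < η ∧ Real.exp (η * (K - 1 / s)) / ρ ≤ ε := by
    have hneg : K - 1 / s < 0 := by
      have : 1 / (2 * s) < 1 / s := by
        apply one_div_lt_one_div_of_lt hs
        linarith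
      linarith
    have ht : Tendsto (fun η : ℝ => Real.exp (η * (K - 1 / s)) / ρ) atTop (𝓝 (0 / ρ)) := by
      apply Tendsto.div_const
      apply Real.tendsto_exp_atBot.comp
      exact tendsto_id.atTop_mul_const_of_neg hneg
    rw [zero_div] at ht
    have := (ht.eventually (ge_mem_nhds hε)).and (eventually_gt_atTop 0)
    obtain ⟨η, h, h'⟩ := this.exists
    exact ⟨η, h', h⟩
  set f : ℂ → ℂ := fun z => Complex.exp (η * (ze c z - 1 / s)) with hf
  have hfp : f p = 1 := by
    simp only [hf, hzep]
    simp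
  have hnf : ∀ z, ‖f z‖ = Real.exp (η * ((ze c z).re - 1 / s)) := by
    intro z
    simp only [hf]
    rw [Complex.norm_exp]
    congr 1
    have : ((1 : ℂ) / s) = ((1 / s : ℝ) : ℂ) := by push_cast; rfl
    rw [this]
    simp
  have hzediff : DifferentiableOn ℂ (ze c) {c}ᶜ := by
    intro z hz
    unfold ze
    have : z - c ≠ 0 := sub_ne_zero.2 hz
    fun_prop (disch := exact this)
  have hfdiff : DifferentiableOn ℂ f {c}ᶜ := by
    intro z hz
    exact (((hzediff z hz).sub_const _).const_mul _).cexp
  have hdsl : DifferentiableOn ℂ (dslope f p) {c}ᶜ :=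
    (Complex.differentiableOn_dslope (isOpen_compl_singleton.mem_nhds hpc)).2 hfdiff
  have hval : ∀ z, z ≠ p → dslope f p z = (f z - 1) / (z - p) := by
    intro z hz
    rw [dslope_of_ne _ hz, slope_def_field, hfp]
  have hOc : R.O ⊆ {c}ᶜ := by
    intro z hz h
    rw [Set.mem_singleton_iff] at h
    have := hz.2.2.2
    rw [h, hcim] at this
    exact lt_irrefl _ this
  refine ⟨fun z => -dslope f p z, ⟨(hdsl.continuousOn.mono fun z hz => hz.2).neg,
    (hdsl.mono hOc).neg, ?_⟩, ?_⟩
  · -- growth
    have hball : Metric.closedBall p (s / 2) ⊆ {c}ᶜ := by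
      intro z hz h
      rw [Set.mem_singleton_iff] at h
      rw [h, Metric.mem_closedBall, dist_eq_norm] at hz
      have e : c - p = s * I := by rw [hp]; ring
      rw [e, norm_mul, Complex.norm_I, mul_one, Complex.norm_real, Real.norm_eq_abs,
        abs_of_pos hs] at hz
      linarith
    obtain ⟨M, hM⟩ := (isCompact_closedBall p (s / 2)).exists_bound_of_continuousOn
      (hdsl.continuousOn.mono hball)
    refine ⟨η, |M| + 4 / s, hη.le, by positivity, fun z hz hzc => ?_⟩
    have hre := ze_re_nonneg hcim hz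
    have hexp1 : 1 ≤ Real.exp (η * (ze c z).re) := Real.one_le_exp (by positivity)
    rw [norm_neg]
    by_cases hzb : ‖z - p‖ ≤ s / 2
    · have h3 : ‖dslope f p z‖ ≤ |M| :=
        (hM z (by rw [Metric.mem_closedBall, dist_eq_norm]; exact hzb)).trans (le_abs_self M)
      have h4 : 0 < 4 / s := by positivity
      have h5 := abs_nonneg M
      nlinarith
    · push Not at hzb
      have hzp : z ≠ p := by
        intro h
        rw [h, sub_self, norm_zero] at hzb
        linarith
      rw [hval z hzp, norm_div]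
      have h3 : ‖f z - 1‖ ≤ 2 * Real.exp (η * (ze c z).re) := by
        have h5 : ‖f z - 1‖ ≤ ‖f z‖ + ‖(1 : ℂ)‖ := norm_sub_le _ _
        rw [norm_one, hnf] at h5
        have h6 : Real.exp (η * ((ze c z).re - 1 / s)) ≤ Real.exp (η * (ze c z).re) := by
          apply Real.exp_le_exp.2
          apply mul_le_mul_of_nonneg_left _ hη.le
          have : 0 < 1 / s := by positivity
          linarith
        linarith
      have h4 : ‖f z - 1‖ / ‖z - p‖ ≤ (2 * Real.exp (η * (ze c z).re)) / (s / 2) := by
        apply div_le_div₀ (by positivity) h3 (by positivity) hzb.le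
      refine h4.trans ?_
      have e : (2 * Real.exp (η * (ze c z).re)) / (s / 2) =
          4 / s * Real.exp (η * (ze c z).re) := by
        field_simp
        ring
      rw [e]
      have h5 := abs_nonneg M
      nlinarith
  · intro z hz hzc
    have hdz := hdist z hz
    have hzp : z ≠ p := by
      intro h
      rw [h, sub_self, norm_zero] at hdz
      linarith
    have hzp' : z - p ≠ 0 := sub_ne_zero.2 hzp
    have e : -dslope f p z - (z - p)⁻¹ = -(f z / (z - p)) := by
      rw [hval z hzp]
      field_simp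
      ring
    rw [e, norm_neg, norm_div]
    refine le_trans ?_ hηε
    apply div_le_div₀ (by positivity) _ hρ hdz
    rw [hnf]
    apply Real.exp_le_exp.2
    apply mul_le_mul_of_nonneg_left _ hη.le
    have := hKG z hz hzc
    linarith

end Pool.Agent.Lib.GEX
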