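import Pool.Agent.Lib.GEX.PoleN

/-!
# GEX.PoleP: pushing poles  (1.5 h)

`Γ = Gam R (xm-d) (xm+d)`, `V = {p | xm - d < p.re < xm + d, R.y0 < p.im < R.y1}`, `c = top R xm`. `T = {p ∈ V | Apx .. (z - p)⁻¹}` contains the points `c - s i` (`pole_near`).
If `p ∈ T`, `ρ > 0`, `|z - p| ≥ ρ` for `z ∈ Γ`, and `|p' - p| < ρ`, then `1/(z - p') = Σ (p'-p)^k/(z-p)^(k+1)` uniformly on `Γ`, so `Apx .. (z - p')⁻¹`
(lemmas `Apx` is closed under finite sums, products of functions bounded on `Γ \ {c}`, and uniform limits; functions in `BB` are bounded on `Γ \ {c}` by `BB.bdd`, `ze_le_Gam`). For `p ∈ V` the distance to `Γ` is at least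
`δ(p) = min (p.re - (xm-d)) (xm+d - p.re) (p.im - y0) (y1 - p.im) > 0`: a point of `Γ` is not in `V`. On the segment from `c - s i` to a given `p ∈ V` (convex set `V`) `δ ≥ δ₀ > 0`, so finitely many
steps lead to `p` (or: `T` is open and closed in the preconnected set `V`, `IsPreconnected.subset_of_closure_inter_subset`).
-/

open Set MeasureTheory Filter Topology
open Complex (I)

namespace Pool.Agent.Lib.GEX

namespace PolePAux

variable {R : Rect} {xm d : ℝ}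

lemma apx_bdd (hd : 0 < d) (h1 : R.x0 < xm - d) (h2 : xm + d < R.x1) {f : ℂ → ℂ}
    (hf : Apx R (top R xm) (Gam R (xm - d) (xm + d)) f) :
    ∃ M : ℝ, 0 ≤ M ∧ ∀ z ∈ Gam R (xm - d) (xm + d), z ≠ top R xm → ‖f z‖ ≤ M := by
  obtain ⟨F, hF, hFf⟩ := hf 1 one_pos
  obtain ⟨K, _, hK⟩ := ze_le_Gam hd h1 h2
  obtain ⟨M, hM0, hM⟩ := hF.bdd (K := K)
  refine ⟨M + 1, by linarith, fun z hz hzc => ?_⟩
  have e1 := hM z (Gam_sub _ _ _ hz) hzc (hK z hz hzc)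
  have e2 := hFf z hz hzc
  calc ‖f z‖ = ‖F z - (F z - f z)‖ := by congr 1; ring
    _ ≤ ‖F z‖ + ‖F z - f z‖ := norm_sub_le _ _
    _ ≤ M + 1 := add_le_add e1 e2

lemma apx_mul (hd : 0 < d) (h1 : R.x0 < xm - d) (h2 : xm + d < R.x1) {f g : ℂ → ℂ}
    (hf : Apx R (top R xm) (Gam R (xm - d) (xm + d)) f)
    (hg : Apx R (top R xm) (Gam R (xm - d) (xm + d)) g) :
    Apx R (top R xm) (Gam R (xm - d) (xm + d)) (fun z => f z * g z) := by
  intro ε hε
  obtain ⟨A, hA0, hA⟩ := apx_bdd hd h1 h2 hf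
  obtain ⟨B, hB0, hB⟩ := apx_bdd hd h1 h2 hg
  have hD : 0 < A + B + 1 := by linarith
  obtain ⟨F, hF, hFf⟩ := hf (min 1 (ε / (A + B + 1))) (lt_min one_pos (by positivity))
  obtain ⟨G, hG, hGg⟩ := hg (min 1 (ε / (A + B + 1))) (lt_min one_pos (by positivity))
  refine ⟨_, hF.mul hG, fun z hz hzc => ?_⟩
  have a1 := hFf z hz hzc
  have a2 := hGg z hz hzc
  have a3 := hA z hz hzc
  have a4 := hB z hz hzc
  have a5 : ‖G z‖ ≤ B + 1 := by
    calc ‖G z‖ = ‖g z + (G z - g z)‖ := by congr 1; ring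
      _ ≤ ‖g z‖ + ‖G z - g z‖ := norm_add_le _ _
      _ ≤ B + 1 := add_le_add a4 (a2.trans (min_le_left _ _))
  have a1' := a1.trans (min_le_right _ _)
  have a2' := a2.trans (min_le_right _ _)
  calc ‖F z * G z - f z * g z‖ = ‖(F z - f z) * G z + f z * (G z - g z)‖ := by congr 1; ring
    _ ≤ ‖F z - f z‖ * ‖G z‖ + ‖f z‖ * ‖G z - g z‖ := by
        refine (norm_add_le _ _).trans ?_
        rw [norm_mul, norm_mul]
    _ ≤ (ε / (A + B + 1)) * (B + 1) + A * (ε / (A + B + 1)) :=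
        add_le_add (mul_le_mul a1' a5 (norm_nonneg _) (by positivity))
          (mul_le_mul a3 a2' (norm_nonneg _) hA0)
    _ = ε := by field_simp; ring

lemma apx_pow (hd : 0 < d) (h1 : R.x0 < xm - d) (h2 : xm + d < R.x1) {f : ℂ → ℂ}
    (hf : Apx R (top R xm) (Gam R (xm - d) (xm + d)) f) (n : ℕ) :
    Apx R (top R xm) (Gam R (xm - d) (xm + d)) (fun z => f z ^ (n + 1)) := by
  induction n with
  | zero => simpa using hf
  | succ n ih =>
    have := apx_mul hd h1 h2 ih hf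
    simpa only [pow_succ] using this

lemma apx_add {Γ : Set ℂ} {f g : ℂ → ℂ}
    (hf : Apx R (top R xm) Γ f) (hg : Apx R (top R xm) Γ g) :
    Apx R (top R xm) Γ (fun z => f z + g z) := by
  intro ε hε
  obtain ⟨F, hF, hFf⟩ := hf (ε / 2) (by positivity)
  obtain ⟨G, hG, hGg⟩ := hg (ε / 2) (by positivity)
  refine ⟨_, hF.add (top_im R xm) hG, fun z hz hzc => ?_⟩
  calc ‖F z + G z - (f z + g z)‖ = ‖(F z - f z) + (G z - g z)‖ := by congr 1; ring
    _ ≤ ‖F z - f z‖ + ‖G z - g z‖ := norm_add_le _ _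
    _ ≤ ε / 2 + ε / 2 := add_le_add (hFf z hz hzc) (hGg z hz hzc)
    _ = ε := by ring

lemma apx_const {Γ : Set ℂ} (w : ℂ) : Apx R (top R xm) Γ (fun _ => w) := by
  intro ε hε
  exact ⟨_, BB.const (top_im R xm) w, fun z _ _ => by simpa using hε.le⟩

lemma apx_sum {Γ : Set ℂ} {f : ℕ → ℂ → ℂ} (hf : ∀ k, Apx R (top R xm) Γ (f k)) (n : ℕ) :
    Apx R (top R xm) Γ (fun z => ∑ k ∈ Finset.range n, f k z) := by
  induction n with
  | zero => simpa using (apx_const (R := R) (xm := xm) (Γ := Γ) 0)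
  | succ n ih =>
    have := apx_add ih (hf n)
    simpa only [Finset.sum_range_succ] using this

lemma apx_lim {c : ℂ} {Γ : Set ℂ} {f : ℂ → ℂ}
    (h : ∀ ε : ℝ, 0 < ε → ∃ g : ℂ → ℂ, Apx R c Γ g ∧ ∀ z ∈ Γ, z ≠ c → ‖g z - f z‖ ≤ ε) :
    Apx R c Γ f := by
  intro ε hε
  obtain ⟨g, hg, hgf⟩ := h (ε / 2) (by positivity)
  obtain ⟨F, hF, hFg⟩ := hg (ε / 2) (by positivity)
  refine ⟨F, hF, fun z hz hzc => ?_⟩
  calc ‖F z - f z‖ = ‖(F z - g z) + (g z - f z)‖ := by congr 1; ring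
    _ ≤ ‖F z - g z‖ + ‖g z - f z‖ := norm_add_le _ _
    _ ≤ ε / 2 + ε / 2 := add_le_add (hFg z hz hzc) (hgf z hz hzc)
    _ = ε := by ring

/-- one step: from the pole `p` to the pole `p'` -/
lemma step (hd : 0 < d) (h1 : R.x0 < xm - d) (h2 : xm + d < R.x1) {p p' : ℂ} {ρ : ℝ}
    (hp : Apx R (top R xm) (Gam R (xm - d) (xm + d)) (fun z => (z - p)⁻¹))
    (hρ : ∀ z ∈ Gam R (xm - d) (xm + d), ρ ≤ ‖z - p‖) (hpp : ‖p' - p‖ < ρ) :
    Apx R (top R xm) (Gam R (xm - d) (xm + d)) (fun z => (z - p')⁻¹) := by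
  have hρ0 : 0 < ρ := lt_of_le_of_lt (norm_nonneg _) hpp
  refine apx_lim fun ε hε => ?_
  set q : ℝ := ‖p' - p‖ / ρ with hq
  have hq0 : 0 ≤ q := by positivity
  have hq1 : q < 1 := (div_lt_one hρ0).2 hpp
  have hlim : Tendsto (fun n : ℕ => q ^ n * (ρ - ‖p' - p‖)⁻¹) atTop (𝓝 (0 * (ρ - ‖p' - p‖)⁻¹)) :=
    (tendsto_pow_atTop_nhds_zero_of_lt_one hq0 hq1).mul_const _
  rw [zero_mul] at hlim
  obtain ⟨n, hn⟩ := (hlim.eventually (gt_mem_nhds hε)).exists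
  refine ⟨fun z => ∑ k ∈ Finset.range n, (p' - p) ^ k * ((z - p)⁻¹) ^ (k + 1), ?_, ?_⟩
  · exact apx_sum (fun k => apx_mul hd h1 h2 (apx_const _) (apx_pow hd h1 h2 hp k)) n
  · intro z hz _
    have hz1 := hρ z hz
    have hzp : z - p ≠ 0 := by
      intro h
      rw [h, norm_zero] at hz1
      linarith
    have hz2 : ρ - ‖p' - p‖ ≤ ‖z - p'‖ := by
      have : ‖z - p‖ ≤ ‖z - p'‖ + ‖p' - p‖ := by
        calc ‖z - p‖ = ‖(z - p') + (p' - p)‖ := by congr 1; ring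
          _ ≤ _ := norm_add_le _ _
      linarith
    have hzp' : z - p' ≠ 0 := by
      intro h
      rw [h, norm_zero] at hz2
      linarith
    set w : ℂ := (p' - p) * (z - p)⁻¹ with hw
    have hwn : ‖w‖ ≤ q := by
      rw [hw, norm_mul, norm_inv, hq, div_eq_mul_inv]
      exact mul_le_mul_of_nonneg_left (inv_anti₀ hρ0 hz1) (norm_nonneg _)
    have hw1 : w - 1 = -(z - p') * (z - p)⁻¹ := by
      rw [hw]
      field_simp
      ring
    have hw1' : w - 1 ≠ 0 := by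
      rw [hw1]
      exact mul_ne_zero (neg_ne_zero.2 hzp') (inv_ne_zero hzp)
    have hsum : (∑ k ∈ Finset.range n, (p' - p) ^ k * ((z - p)⁻¹) ^ (k + 1)) - (z - p')⁻¹
        = - (w ^ n * (z - p')⁻¹) := by
      have e1 : (∑ k ∈ Finset.range n, (p' - p) ^ k * ((z - p)⁻¹) ^ (k + 1))
          = (∑ k ∈ Finset.range n, w ^ k) * (z - p)⁻¹ := by
        rw [Finset.sum_mul]
        refine Finset.sum_congr rfl fun k _ => ?_
        rw [hw, mul_pow]
        ring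
      have e2 : (∑ k ∈ Finset.range n, w ^ k) = (w ^ n - 1) / (w - 1) :=
        geom_sum_eq (fun h => hw1' (by rw [h, sub_self])) n
      rw [e1, e2, hw1]
      field_simp
      ring
    rw [hsum, norm_neg, norm_mul, norm_pow, norm_inv]
    calc ‖w‖ ^ n * ‖z - p'‖⁻¹ ≤ q ^ n * (ρ - ‖p' - p‖)⁻¹ :=
          mul_le_mul (pow_le_pow_left₀ (norm_nonneg _) hwn n)
            (inv_anti₀ (by linarith) hz2) (by positivity) (by positivity)
      _ ≤ ε := hn.le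

end PolePAux

open PolePAux in
theorem pole_push (R : Rect) {xm d : ℝ} (hd : 0 < d) (h1 : R.x0 < xm - d) (h2 : xm + d < R.x1)
    {p : ℂ} (hp1 : xm - d < p.re) (hp2 : p.re < xm + d) (hp3 : R.y0 < p.im) (hp4 : p.im < R.y1) :
    Apx R (top R xm) (Gam R (xm - d) (xm + d)) (fun z => (z - p)⁻¹) := by
  set Γ := Gam R (xm - d) (xm + d) with hΓ
  let Q : Rect := ⟨xm - d, xm + d, R.y0, R.y1, by linarith, R.hy⟩
  have hV1 : IsOpen Q.O := Rect.isOpen_O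
  have hV2 : Convex ℝ Q.O := by
    have e : Q.O = ({z : ℂ | Q.x0 < z.re} ∩ {z : ℂ | z.re < Q.x1}) ∩
        ({z : ℂ | Q.y0 < z.im} ∩ {z : ℂ | z.im < Q.y1}) := by
      ext z
      simp only [Rect.O, mem_ofPred_eq, mem_inter_iff]
      tauto
    rw [e]
    exact ((convex_halfSpace_re_gt _).inter (convex_halfSpace_re_lt _)).inter
      ((convex_halfSpace_im_gt _).inter (convex_halfSpace_im_lt _))
  have hdisj : ∀ z ∈ Γ, z ∉ Q.O := by
    rintro z (hz | ⟨_, h | h⟩) hzQ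
    · exact hz.2 ⟨h1.trans hzQ.1, hzQ.2.1.trans h2, hzQ.2.2.1, hzQ.2.2.2⟩
    · exact absurd hzQ.1 (by rw [h]; exact lt_irrefl _)
    · exact absurd hzQ.2.1 (by rw [h]; exact lt_irrefl _)
  have hdist : ∀ p ∈ Q.O, ∃ δ : ℝ, 0 < δ ∧ Metric.ball p δ ⊆ Q.O ∧ ∀ z ∈ Γ, δ ≤ ‖z - p‖ := by
    intro p hp
    obtain ⟨δ, hδ, hb⟩ := Metric.isOpen_iff.1 hV1 p hp
    refine ⟨δ, hδ, hb, fun z hz => ?_⟩
    by_contra hlt
    exact hdisj z hz (hb (by rw [Metric.mem_ball, dist_eq_norm]; exact not_le.1 hlt))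
  set u : Set ℂ := {p | p ∈ Q.O ∧ Apx R (top R xm) Γ (fun z => (z - p)⁻¹)} with hu
  have hopen : IsOpen u := by
    rw [Metric.isOpen_iff]
    rintro p ⟨hp, hpA⟩
    obtain ⟨δ, hδ, hb, hΓδ⟩ := hdist p hp
    refine ⟨δ, hδ, fun p' hp' => ⟨hb hp', step hd h1 h2 hpA hΓδ ?_⟩⟩
    rwa [Metric.mem_ball, dist_eq_norm] at hp'
  have hne : (Q.O ∩ u).Nonempty := by
    obtain ⟨s0, hs0, hs1, hs⟩ := pole_near R hd h1 h2
    have hmem : (top R xm - ((s0 / 2 : ℝ) : ℂ) * I) ∈ Q.O := by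
      refine ⟨?_, ?_, ?_, ?_⟩
      · simp [Q, hd]
      · simp [Q, hd]
      · simp [Q]
        linarith
      · simp [Q, hs0]
    exact ⟨_, hmem, hmem, hs (s0 / 2) (by positivity) (by linarith)⟩
  have hclos : closure u ∩ Q.O ⊆ u := by
    rintro p ⟨hpc, hp⟩
    obtain ⟨δ, hδ, hb, hΓδ⟩ := hdist p hp
    obtain ⟨p', hp', hpp⟩ := Metric.mem_closure_iff.1 hpc (δ / 2) (by positivity)
    rw [dist_eq_norm] at hpp
    refine ⟨hp, step (ρ := δ / 2) hd h1 h2 hp'.2 (fun z hz => ?_) hpp⟩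
    have e1 := hΓδ z hz
    have e2 : ‖z - p‖ ≤ ‖z - p'‖ + ‖p - p'‖ := by
      calc ‖z - p‖ = ‖(z - p') - (p - p')‖ := by congr 1; ring
        _ ≤ _ := norm_sub_le _ _
    linarith
  have hsub : Q.O ⊆ u := hV2.isPreconnected.subset_of_closure_inter_subset hopen hne hclos
  exact (hsub (show p ∈ Q.O from ⟨hp1, hp2, hp3, hp4⟩)).2

end Pool.Agent.Lib.GEX
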