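import Pool.Agent.Lib.GEX.Gelf
import Pool.Agent.Lib.GEX.Char
import Pool.Agent.Lib.GEX.Alg

/-!
# GEX.Quo: approximate inverses on a subrectangle  (1.5 h)

`E = C(R'.S, ℂ)`, `S` = closure (`Subalgebra.topologicalClosure`) of the subalgebra of all restrictions `F|R'.S`, `F ∈ A(R)`. Claim: `g|R'.S` is invertible in `S` (`closed_inv`). Let `χ` be a character of `S`;
`χ' F = χ (F|R'.S)` (for `AR R F`, `0` otherwise) satisfies the hypotheses of `AR_char` for `R` (`‖χ' F‖ ≤ sup_{R'.S} ‖F‖ ≤ sup_{R.S} ‖F‖`, `char_norm_le`), so `χ' F = F λ`, `λ ∈ R.S`. Moreover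
`|F λ| ≤ sup_{R'.S} |F|` for `F = exp(α z)`, `α ∈ {1, -1, i, -i}`: this gives `λ.re ≤ R'.x1`, `R'.x0 ≤ λ.re`, `R'.y0 ≤ λ.im`, `λ.im ≤ R'.y1`, i.e. `λ ∈ R'.S`, so `χ g = g λ ≠ 0`.
So `k g = 1` with `k ∈ S`; approximate `k` by `q|R'.S`, `q ∈ A(R)`, within `ε/(1 + sup ‖g‖)`.
-/

open Set MeasureTheory Filter Topology
open Complex (I)

namespace Pool.Agent.Lib.GEX

namespace QuoAux

/-- the restrictions of functions of `A(R)` to a smaller rectangle -/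
def sub0 (R R' : Rect) : Subalgebra ℂ C(R'.S, ℂ) where
  carrier := {f | ∃ F : ℂ → ℂ, AR R F ∧ ∀ z : R'.S, f z = F z}
  mul_mem' := by
    rintro f g ⟨F, hF, hf⟩ ⟨G, hG, hg⟩
    exact ⟨fun z => F z * G z, hF.mul hG, fun z => by simp [hf, hg]⟩
  add_mem' := by
    rintro f g ⟨F, hF, hf⟩ ⟨G, hG, hg⟩
    exact ⟨fun z => F z + G z, hF.add hG, fun z => by simp [hf, hg]⟩
  algebraMap_mem' := fun r =>
    ⟨fun _ => r, AR.const r, fun z => by simp [Algebra.algebraMap_eq_smul_one]⟩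

/-- the restriction of a function -/
def rs {R R' : Rect} (hS : R'.S ⊆ R.S) {F : ℂ → ℂ} (hF : AR R F) : C(R'.S, ℂ) :=
  ⟨fun z => F z, hF.1.comp_continuous continuous_subtype_val fun z => hS z.2⟩

theorem rs_mem {R R' : Rect} (hS : R'.S ⊆ R.S) {F : ℂ → ℂ} (hF : AR R F) :
    rs hS hF ∈ (sub0 R R').topologicalClosure :=
  (sub0 R R').le_topologicalClosure ⟨F, hF, fun _ => rfl⟩

theorem rs_norm {R R' : Rect} (hS : R'.S ⊆ R.S) {F : ℂ → ℂ} (hF : AR R F) {M : ℝ}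
    (h : ∀ z ∈ R'.S, ‖F z‖ ≤ M) : ‖rs hS hF‖ ≤ M := by
  obtain ⟨z0, hz0⟩ := R'.nonempty_S
  have hM : 0 ≤ M := (norm_nonneg _).trans (h z0 hz0)
  rw [ContinuousMap.norm_le _ hM]
  exact fun z => h z z.2

open Classical in
/-- the character as a function on functions -/
noncomputable def ch {R R' : Rect} (hS : R'.S ⊆ R.S)
    (χ : (sub0 R R').topologicalClosure →ₐ[ℂ] ℂ) (F : ℂ → ℂ) : ℂ :=
  if hF : AR R F then χ ⟨rs hS hF, rs_mem hS hF⟩ else 0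

theorem ch_eq {R R' : Rect} (hS : R'.S ⊆ R.S)
    (χ : (sub0 R R').topologicalClosure →ₐ[ℂ] ℂ) {F : ℂ → ℂ} (hF : AR R F) :
    ch hS χ F = χ ⟨rs hS hF, rs_mem hS hF⟩ := by
  unfold ch
  rw [dif_pos hF]

theorem ch_bound {R R' : Rect} (hS : R'.S ⊆ R.S)
    (χ : (sub0 R R').topologicalClosure →ₐ[ℂ] ℂ) {F : ℂ → ℂ} (hF : AR R F) {M : ℝ}
    (h : ∀ z ∈ R'.S, ‖F z‖ ≤ M) : ‖ch hS χ F‖ ≤ M := by
  rw [ch_eq hS χ hF]
  exact (char_norm_le _ (Subalgebra.isClosed_topologicalClosure _) χ _).trans (rs_norm hS hF h)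

/-- the characters of the closure are evaluations at points of the smaller rectangle -/
theorem ch_eval {R R' : Rect} (hS : R'.S ⊆ R.S)
    (χ : (sub0 R R').topologicalClosure →ₐ[ℂ] ℂ) :
    ∃ w ∈ R'.S, ∀ F, AR R F → ch hS χ F = F w := by
  have hadd : ∀ f g, AR R f → AR R g →
      ch hS χ (fun z => f z + g z) = ch hS χ f + ch hS χ g := by
    intro f g hf hg
    rw [ch_eq hS χ hf, ch_eq hS χ hg, ch_eq hS χ (hf.add hg), ← map_add]
    try rfl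
  have hmul : ∀ f g, AR R f → AR R g →
      ch hS χ (fun z => f z * g z) = ch hS χ f * ch hS χ g := by
    intro f g hf hg
    rw [ch_eq hS χ hf, ch_eq hS χ hg, ch_eq hS χ (hf.mul hg), ← map_mul]
    try rfl
  have hc : ∀ c : ℂ, ch hS χ (fun _ => c) = c := by
    intro c
    rw [ch_eq hS χ (AR.const c)]
    have h3 : (⟨rs hS (AR.const c), rs_mem hS (AR.const c)⟩ :
        (sub0 R R').topologicalClosure) = algebraMap ℂ _ c := by
      apply Subtype.ext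
      ext z
      simp [rs, Algebra.algebraMap_eq_smul_one]
    rw [h3, AlgHom.commutes]
    try rfl
  have hb : ∀ f, AR R f → ∀ M : ℝ, (∀ z ∈ R.S, ‖f z‖ ≤ M) → ‖ch hS χ f‖ ≤ 1 * M := by
    intro f hf M hM
    rw [one_mul]
    exact ch_bound hS χ hf fun z hz => hM z (hS hz)
  obtain ⟨-, h2⟩ := AR_char R (ch hS χ) hadd hmul hc 1 hb
  set w := ch hS χ (fun z => z) with hw
  have hex : ∀ (α : ℂ) (m : ℝ), (∀ z ∈ R'.S, (α * z).re ≤ m) → (α * w).re ≤ m := by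
    intro α m hm
    have hF : AR R (fun z => Complex.exp (α * z)) :=
      AR.of_diff (Complex.differentiable_exp.comp (differentiable_id.const_mul α))
    have h3 := ch_bound hS χ hF (M := Real.exp m) (fun z hz => by
      rw [Complex.norm_exp]
      exact Real.exp_le_exp.2 (hm z hz))
    rw [h2 _ hF, Complex.norm_exp] at h3
    exact Real.exp_le_exp.1 h3
  refine ⟨w, ⟨?_, ?_, ?_, ?_⟩, h2⟩
  · have := hex (-1) (-R'.x0) (fun z hz => by simpa using hz.1)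
    simpa using this
  · have := hex 1 R'.x1 (fun z hz => by simpa using hz.2.1)
    simpa using this
  · have := hex I (-R'.y0) (fun z hz => by simpa using hz.2.2.1)
    simpa using this
  · have := hex (-I) R'.y1 (fun z hz => by simpa using hz.2.2.2)
    simpa using this

end QuoAux

open QuoAux

theorem quo (R R' : Rect) (hS : R'.S ⊆ R.S) {g : ℂ → ℂ} (hg : AR R g)
    (h : ∀ z ∈ R'.S, g z ≠ 0) {ε : ℝ} (hε : 0 < ε) :
    ∃ q : ℂ → ℂ, AR R q ∧ ∀ z ∈ R'.S, ‖g z * q z - 1‖ ≤ ε := by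
  have hcl := Subalgebra.isClosed_topologicalClosure (sub0 R R')
  obtain ⟨u, hu⟩ := closed_inv (sub0 R R').topologicalClosure hcl ⟨rs hS hg, rs_mem hS hg⟩
    (fun χ => by
      obtain ⟨w, hw, hev⟩ := ch_eval hS χ
      rw [← ch_eq hS χ hg, hev g hg]
      exact h w hw)
  have hmem : (u : C(R'.S, ℂ)) ∈ closure ((sub0 R R' : Set C(R'.S, ℂ))) := by
    have := u.2
    rwa [← SetLike.mem_coe, Subalgebra.topologicalClosure_coe] at this
  have hδ : 0 < ε / (1 + ‖rs hS hg‖) := by positivity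
  obtain ⟨q, ⟨Q, hQ, hqQ⟩, hdist⟩ := Metric.mem_closure_iff.1 hmem _ hδ
  refine ⟨Q, hQ, fun z hz => ?_⟩
  have h1 : (u : C(R'.S, ℂ)) ⟨z, hz⟩ * g z = 1 := by
    have h2 := congrArg (fun f : (sub0 R R').topologicalClosure =>
      (f : C(R'.S, ℂ)) ⟨z, hz⟩) hu
    simpa [rs] using h2
  have h2 : g z * Q z - 1 = g z * (q ⟨z, hz⟩ - (u : C(R'.S, ℂ)) ⟨z, hz⟩) := by
    rw [mul_sub, mul_comm (g z) ((u : C(R'.S, ℂ)) ⟨z, hz⟩), h1, hqQ]
  rw [h2, norm_mul]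
  have h3 : ‖g z‖ ≤ ‖rs hS hg‖ := (rs hS hg).norm_coe_le_norm ⟨z, hz⟩
  have h4 : ‖q ⟨z, hz⟩ - (u : C(R'.S, ℂ)) ⟨z, hz⟩‖ ≤ ε / (1 + ‖rs hS hg‖) := by
    have h5 := (q - (u : C(R'.S, ℂ))).norm_coe_le_norm ⟨z, hz⟩
    rw [dist_comm, dist_eq_norm] at hdist
    exact h5.trans hdist.le
  calc ‖g z‖ * ‖q ⟨z, hz⟩ - (u : C(R'.S, ℂ)) ⟨z, hz⟩‖
      ≤ (1 + ‖rs hS hg‖) * (ε / (1 + ‖rs hS hg‖)) :=
        mul_le_mul (by linarith) h4 (norm_nonneg _) (by positivity)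
    _ = ε := by field_simp

end Pool.Agent.Lib.GEX
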