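import Pool.Agent.Lib.GEX.AlgA

/-!
# GEX.RepA: functions of the algebra on the leaves  (2 h)

`Rep s z n g`: on the intervals of level `n` the function `g` is `G k ∘ z` with `G k ∈ A(R n k)` and the sum of the functionals is `0`.
`Rep_gn`: `G' l = Ψ n k * G` for `l = k`, `0` otherwise; `gn n k G t = G' l (z t)` for `J n l t`: for `l ≠ k` and `J n k t` the point `t` is an end point, where `Ψ n k = 0`. The sum is `L n k (Ψ G) = 0` (`Lann`) plus `L n l 0 = 0` (`Lsmul` with `w = 0`, or `Ladd`).
`Rep_succ`: `G' (2k) = G' (2k+1) = G k` (i.e. `G' l = G (l/2)`), `J (n+1) l t → J n (l/2) t`, `Lsplit`, `Σ_{l<2^(n+1)} x_l = Σ_{k<2^n} (x_(2k) + x_(2k+1))`.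
`Rep_add`, `Rep_smul`: `Ladd`, `Lsmul`. `Rep_span`: every `g` in the span of `GS` has `Rep s z n g` for some `n` (`Submodule.span_induction`; for sums pass to the maximum of the two levels by `Rep_succ`).
-/

open Set Filter Topology
open Complex (I)

namespace Pool.Agent.Lib.GEX

variable {s : Sys} {z : C(unitInterval, ℂ)}

def Rep (s : Sys) (z : C(unitInterval, ℂ)) (n : ℕ) (g : unitInterval → ℂ) : Prop :=
  ∃ G : ℕ → ℂ → ℂ, (∀ k, k < 2 ^ n → AR (s.R n k) (G k)) ∧
    (∀ k, k < 2 ^ n → ∀ t, J n k t → g t = G k (z t)) ∧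
    ∑ k ∈ Finset.range (2 ^ n), s.L n k (G k) = 0

private lemma repA_L0 (s : Sys) (n k : ℕ) : s.L n k (fun _ => 0) = 0 := by
  have h := s.Lsmul n k 0 (fun _ => 0) continuousOn_const
  simpa using h

private lemma repA_sum (f : ℕ → ℂ) (N : ℕ) :
    ∑ l ∈ Finset.range (2 * N), f l = ∑ k ∈ Finset.range N, (f (2 * k) + f (2 * k + 1)) := by
  induction N with
  | zero => simp
  | succ N ih =>
    rw [show 2 * (N + 1) = 2 * N + 1 + 1 by ring, Finset.sum_range_succ, Finset.sum_range_succ, ih,
      Finset.sum_range_succ, add_assoc]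

theorem Rep_gn (hz : Zm s z) {n k : ℕ} (hk : k < 2 ^ n) {G : ℂ → ℂ} (hG : AR (s.R n k) G) :
    Rep s z n (gn s z n k G) := by
  classical
  have hpow : (0 : ℝ) < 2 ^ n := by positivity
  refine ⟨fun l => if l = k then (fun w => s.Ψ n k w * G w) else fun _ => 0, ?_, ?_, ?_⟩
  · intro l _
    by_cases h : l = k
    · subst h
      simp only [if_true]
      exact (Ψ_AR s n l).mul hG
    · simp only [if_neg h]
      exact AR.const 0
  · intro l hl t ht
    by_cases h : l = k
    · subst h
      simp only [if_true]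
      unfold gn
      rw [if_pos ht]
    · simp only [if_neg h]
      unfold gn
      by_cases hJ : J n k t
      · rw [if_pos hJ]
        rcases lt_or_gt_of_ne h with hlt | hgt
        · have h1 : (t : ℝ) ≤ k / 2 ^ n := by
            refine ht.2.trans ?_
            rw [div_le_div_iff_of_pos_right hpow]
            exact_mod_cast hlt
          have h2 : (t : ℝ) = k / 2 ^ n := le_antisymm h1 hJ.1
          rw [Ψ_left hz (by omega) hk h2, zero_mul]
        · have h1 : ((k : ℝ) + 1) / 2 ^ n ≤ t := by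
            refine le_trans ?_ ht.1
            rw [div_le_div_iff_of_pos_right hpow]
            exact_mod_cast hgt
          have h2 : (t : ℝ) = (k + 1) / 2 ^ n := le_antisymm hJ.2 h1
          rw [Ψ_right hz (by omega) h2, zero_mul]
      · rw [if_neg hJ]
  · refine Finset.sum_eq_zero fun l _ => ?_
    by_cases h : l = k
    · subst h
      simp only [if_true]
      exact s.Lann n l G hG
    · simp only [if_neg h]
      exact repA_L0 s n l

theorem Rep_succ {n : ℕ} {g : unitInterval → ℂ} (h : Rep s z n g) : Rep s z (n + 1) g := by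
  obtain ⟨G, h1, h2, h3⟩ := h
  have hhalf : ∀ l, l < 2 ^ (n + 1) → l / 2 < 2 ^ n := by
    intro l hl
    rw [pow_succ] at hl
    omega
  refine ⟨fun l => G (l / 2), ?_, ?_, ?_⟩
  · intro l hl
    have hk := hhalf l hl
    rcases Nat.even_or_odd' l with ⟨k, rfl | rfl⟩
    · have e : 2 * k / 2 = k := by omega
      show AR (s.R (n + 1) (2 * k)) (G (2 * k / 2))
      rw [e] at hk ⊢
      exact (h1 k hk).mono (s.sub0 n k) (s.osub0 n k)
    · have e : (2 * k + 1) / 2 = k := by omega
      show AR (s.R (n + 1) (2 * k + 1)) (G ((2 * k + 1) / 2))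
      rw [e] at hk ⊢
      exact (h1 k hk).mono (s.sub1 n k) (s.osub1 n k)
  · intro l hl t ht
    have h4 := J_desc (Nat.le_succ n) ht
    have e : l / 2 ^ (n.succ - n) = l / 2 := by
      rw [Nat.succ_sub (le_refl n), Nat.sub_self]
      norm_num
    rw [e] at h4
    exact h2 (l / 2) (hhalf l hl) t h4
  · rw [show 2 ^ (n + 1) = 2 * 2 ^ n by rw [pow_succ]; ring, repA_sum]
    rw [← h3]
    refine Finset.sum_congr rfl fun k hk => ?_
    have hk' := Finset.mem_range.1 hk
    have e0 : 2 * k / 2 = k := by omega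
    have e1 : (2 * k + 1) / 2 = k := by omega
    show s.L (n + 1) (2 * k) (G (2 * k / 2)) + s.L (n + 1) (2 * k + 1) (G ((2 * k + 1) / 2)) = _
    rw [e0, e1]
    exact s.Lsplit n k (G k) (h1 k hk')

private lemma Rep_mono {n m : ℕ} (hnm : n ≤ m) {g : unitInterval → ℂ} (h : Rep s z n g) :
    Rep s z m g := by
  induction m, hnm using Nat.le_induction with
  | base => exact h
  | succ m _ ih => exact Rep_succ ih

private lemma Rep_add {n : ℕ} {f g : unitInterval → ℂ} (hf : Rep s z n f) (hg : Rep s z n g) :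
    Rep s z n (fun t => f t + g t) := by
  obtain ⟨F, f1, f2, f3⟩ := hf
  obtain ⟨G, g1, g2, g3⟩ := hg
  refine ⟨fun k w => F k w + G k w, fun k hk => (f1 k hk).add (g1 k hk), fun k hk t ht => ?_, ?_⟩
  · show f t + g t = F k (z t) + G k (z t)
    rw [f2 k hk t ht, g2 k hk t ht]
  · show ∑ k ∈ Finset.range (2 ^ n), s.L n k (fun w => F k w + G k w) = 0
    have h : ∀ k ∈ Finset.range (2 ^ n), s.L n k (fun w => F k w + G k w) =
        s.L n k (F k) + s.L n k (G k) := by
      intro k hk
      have hk' := Finset.mem_range.1 hk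
      exact s.Ladd n k (F k) (G k) (f1 k hk').1 (g1 k hk').1
    rw [Finset.sum_congr rfl h, Finset.sum_add_distrib, f3, g3, add_zero]

private lemma Rep_smul {n : ℕ} (c : ℂ) {f : unitInterval → ℂ} (hf : Rep s z n f) :
    Rep s z n (fun t => c * f t) := by
  obtain ⟨F, f1, f2, f3⟩ := hf
  refine ⟨fun k w => c * F k w, fun k hk => (AR.const c).mul (f1 k hk), fun k hk t ht => ?_, ?_⟩
  · show c * f t = c * F k (z t)
    rw [f2 k hk t ht]
  · show ∑ k ∈ Finset.range (2 ^ n), s.L n k (fun w => c * F k w) = 0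
    have h : ∀ k ∈ Finset.range (2 ^ n), s.L n k (fun w => c * F k w) = c * s.L n k (F k) := by
      intro k hk
      have hk' := Finset.mem_range.1 hk
      exact s.Lsmul n k c (F k) (f1 k hk').1
    rw [Finset.sum_congr rfl h, ← Finset.mul_sum, f3, mul_zero]

theorem Rep_span (hz : Zm s z) {g : C(unitInterval, ℂ)} (hg : g ∈ Submodule.span ℂ (GS s z)) :
    ∃ n, Rep s z n g := by
  induction hg using Submodule.span_induction with
  | mem g hg =>
    obtain ⟨n, k, hk, G, hG, hgt⟩ := hg
    refine ⟨n, ?_⟩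
    have e : (g : unitInterval → ℂ) = gn s z n k G := funext hgt
    rw [e]
    exact Rep_gn hz hk hG
  | zero =>
    refine ⟨0, fun _ _ => 0, fun k _ => AR.const 0, fun k _ t _ => rfl, ?_⟩
    exact Finset.sum_eq_zero fun l _ => repA_L0 s 0 l
  | add f g _ _ hf hg =>
    obtain ⟨n, hn⟩ := hf
    obtain ⟨m, hm⟩ := hg
    exact ⟨max n m, Rep_add (Rep_mono (le_max_left n m) hn) (Rep_mono (le_max_right n m) hm)⟩
  | smul c f _ hf =>
    obtain ⟨n, hn⟩ := hf
    exact ⟨n, Rep_smul c hn⟩

end Pool.Agent.Lib.GEX
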