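import Pool.Agent.Lib.GEX.Step

/-!
# GEX.Root: the root  (0.8 h)

Unit square, `a = 0`, `b = 1 + I`, `ha = hb = H = Ψ = 1`, `n = 0`, `j = 6`, `q = 0`, `w = 4/5 R.W = 4/5`, `t = 4/5` (`shr_six`), `hW : 1 ≤ 1`, `hw : 4/5 ≤ 4/5`.
`VI (fun _ => ‖1‖) = 4` (`VI_const`). `BI cj`: `cj (x + y i) = x - y i`; `∫_0^1 x - ∫_0^1 (x - i) + i ∫_0^1 (1 - y i) - i ∫_0^1 (-y i) = i + i = 2 i`.
-/

open Set MeasureTheory Filter Topology
open Complex (I)

namespace Pool.Agent.Lib.GEX

theorem st_root : ∃ s : St, s.n = 0 ∧ s.Ψ = (fun _ => 1) ∧ VI s.R (fun z => ‖s.H z‖) ≤ 4 ∧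
    2 ≤ ‖BI s.R (fun z => cj z * s.H z)‖ := by
  set R : Rect := ⟨0, 1, 0, 1, one_pos, one_pos⟩ with hR
  have ha : (0 : ℂ) ∈ R.S := by simp [Rect.S, hR]
  have hb : (1 + I : ℂ) ∈ R.S := by simp [Rect.S, hR]
  have hab : (0 : ℂ) ≠ 1 + I := by
    intro h
    have := congrArg Complex.re h
    simp at this
  have hW : R.W = 1 := by simp [Rect.W, hR]
  have hT : R.T = 1 := by simp [Rect.T, hR]
  have hok : HOK R 0 (1 + I) (fun _ => 1) (fun _ => 1) (fun _ => 1) := by
    refine ⟨ha, hb, hab, AR.const 1, AR.const 1, ?_, ?_, continuousOn_const,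
      differentiableOn_const 1, by simpa using continuousOn_const,
      by simpa using continuousOn_const, 1, fun z _ => by simp⟩
    · intro z _ h; exact absurd h one_ne_zero
    · intro z _ h; exact absurd h one_ne_zero
  refine ⟨⟨R, 0, 1 + I, fun _ => 1, fun _ => 1, fun _ => 1, fun _ => 1, 0, 6, 0,
    4 / 5 * R.W, 4 / 5 * R.T, hok, AR.const 1, by simpa using AR.const 1, shr_six R ha hb hab,
    by norm_num, by rw [hW]; norm_num, by rw [hT]; norm_num, by rw [hW]; norm_num,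
    by rw [hT]; norm_num⟩, rfl, rfl, ?_, ?_⟩
  · have : VI R (fun _ => ‖(1 : ℂ)‖) = 4 := by
      rw [VI_const]; simp [hR]; norm_num
    exact this.le
  · have hBI : BI R (fun z => cj z * 1) = 2 * I := by
      simp only [BI, cj, mul_one, hR]
      have e1 : ∀ x : ℝ, (starRingEnd ℂ) ((x : ℂ) + ((0 : ℝ) : ℂ) * I) = (x : ℂ) := by
        intro x; simp
      have e2 : ∀ x : ℝ, (starRingEnd ℂ) ((x : ℂ) + ((1 : ℝ) : ℂ) * I) = (x : ℂ) - I := by
        intro x; simp [sub_eq_add_neg]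
      have e3 : ∀ y : ℝ, (starRingEnd ℂ) (((1 : ℝ) : ℂ) + (y : ℂ) * I) = 1 - (y : ℂ) * I := by
        intro x; simp [sub_eq_add_neg]
      have e4 : ∀ y : ℝ, (starRingEnd ℂ) (((0 : ℝ) : ℂ) + (y : ℂ) * I) = 0 - (y : ℂ) * I := by
        intro x; simp
      simp_rw [e1, e2, e3, e4]
      rw [intervalIntegral.integral_sub (Continuous.intervalIntegrable (by fun_prop) _ _) (Continuous.intervalIntegrable (by fun_prop) _ _),
        intervalIntegral.integral_sub (Continuous.intervalIntegrable (by fun_prop) _ _) (Continuous.intervalIntegrable (by fun_prop) _ _),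
        intervalIntegral.integral_sub (Continuous.intervalIntegrable (by fun_prop) _ _) (Continuous.intervalIntegrable (by fun_prop) _ _)]
      simp
      ring
    show 2 ≤ ‖BI R (fun z => cj z * 1)‖
    rw [hBI]
    simp

end Pool.Agent.Lib.GEX
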