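import Pool.Agent.Lib.GEX.CutEx

/-!
# GEX.Shr: shrinking in six levels  (2.5 h)

`Shr k R a b w t`: `R` can be cut `k` times (complete binary tree of depth `k`) into pieces of width `≤ w` and height `≤ t`.
Lemmas: (mono) larger `w, t`. (pad) `Shr k → Shr (k+1)` for `a ≠ b` in `R.S`: at a leaf make any further cut (`a ≠ b` gives `a.re ≠ b.re` or `a.im ≠ b.im`; cut between; children are contained in the parent, so their
width and height are not larger: `R'.S ⊆ R.S` gives `R.x0 ≤ R'.x0`, etc.; by `cutFacts` `a ≠ c`, `c ≠ b` and the points are in the children). (comp) if `Shr k R a b w t` and every leaf can be cut further.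
(width) for `a ≠ b` in `R.S`: `Shr 3 R a b (4/5 W) T`. Let `w = W`, `M1 = x0 + w/4`, `M2 = x0 + 3w/4`.
 Case 1: some `s ∈ (M1, M2)` strictly between `a.re` and `b.re`: one vertical cut at `s` with `δ = w/20`: widths `≤ 3w/4 + w/20`; pad.
 Case 2: not case 1 and `a.im ≠ b.im`. horizontal cut at the middle of `a.im, b.im` with contact `c` on the right side if `a.re < M2` and `b.re < M2`, otherwise on the left side (if `M2 ≤ a.re` or `M2 ≤ b.re`, then, as we are not
  in case 1, both `≥ M2`). Both children `(R', a, c)`, `(R'', c, b)` have the same `x0, x1` and are in case 1 (a number in `(M1, M2)` larger than `a.re`, resp. smaller). Depth 2; pad.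
 Case 3: `a.im = b.im`, so `a.re ≠ b.re`: vertical cut at the middle of `a.re, b.re` with contact on the top side if `a.im ≠ y1`, otherwise on the bottom side: `c.im ≠ a.im`. The children have width `≤ w`, and are in case 1 or 2
  (for their own width `w' ≤ w`: get `4/5 w' ≤ 4/5 w`). Depth 3.
(height) in the same way with the coordinates exchanged (`Shr 3 R a b W (4/5 T)`). Together: `Shr 6 R a b (4/5 W) (4/5 T)`.
-/

open Set
open Complex (I)

namespace Pool.Agent.Lib.GEX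

def Shr : ℕ → Rect → ℂ → ℂ → ℝ → ℝ → Prop
  | 0, R, _, _, w, t => R.W ≤ w ∧ R.T ≤ t
  | k + 1, R, a, b, w, t => ∃ (R' R'' : Rect) (c : ℂ), Cut R R' R'' a b c ∧
      Shr k R' a c w t ∧ Shr k R'' c b w t

namespace ShrAux

theorem sub_dims {R R' : Rect} (h : R'.S ⊆ R.S) :
    R.x0 ≤ R'.x0 ∧ R'.x1 ≤ R.x1 ∧ R.y0 ≤ R'.y0 ∧ R'.y1 ≤ R.y1 := by
  have h1 : (⟨R'.x0, R'.y0⟩ : ℂ) ∈ R.S := h ⟨le_rfl, R'.hx.le, le_rfl, R'.hy.le⟩
  have h2 : (⟨R'.x1, R'.y1⟩ : ℂ) ∈ R.S := h ⟨R'.hx.le, le_rfl, R'.hy.le, le_rfl⟩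
  exact ⟨h1.1, h2.2.1, h1.2.2.1, h2.2.2.2⟩

theorem W_le {R R' : Rect} (h : R'.S ⊆ R.S) : R'.W ≤ R.W := by
  obtain ⟨h1, h2, -, -⟩ := sub_dims h
  unfold Rect.W
  linarith

theorem T_le {R R' : Rect} (h : R'.S ⊆ R.S) : R'.T ≤ R.T := by
  obtain ⟨-, -, h1, h2⟩ := sub_dims h
  unfold Rect.T
  linarith

theorem mono {w t w' t' : ℝ} (hw : w ≤ w') (ht : t ≤ t') :
    ∀ (k : ℕ) (R : Rect) (a b : ℂ), Shr k R a b w t → Shr k R a b w' t' := by
  intro k
  induction k with
  | zero =>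
    intro R a b h
    exact ⟨h.1.trans hw, h.2.trans ht⟩
  | succ k ih =>
    rintro R a b ⟨R', R'', c, h1, h2, h3⟩
    exact ⟨R', R'', c, h1, ih _ _ _ h2, ih _ _ _ h3⟩

theorem exists_cut (R : Rect) {a b : ℂ} (ha : a ∈ R.S) (hb : b ∈ R.S) (hab : a ≠ b) :
    ∃ (R' R'' : Rect) (c : ℂ), Cut R R' R'' a b c := by
  by_cases h : a.re = b.re
  · have h2 : a.im ≠ b.im := fun h3 => hab (Complex.ext h h3)
    have h4 : (a.im < (a.im + b.im) / 2 ∧ (a.im + b.im) / 2 < b.im) ∨
        (b.im < (a.im + b.im) / 2 ∧ (a.im + b.im) / 2 < a.im) := by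
      rcases lt_or_gt_of_ne h2 with h5 | h5
      · left; constructor <;> linarith
      · right; constructor <;> linarith
    obtain ⟨R', R'', c, h5, -⟩ := cut_horiz R ha hb one_pos h4 true
    exact ⟨R', R'', c, h5⟩
  · have h4 : (a.re < (a.re + b.re) / 2 ∧ (a.re + b.re) / 2 < b.re) ∨
        (b.re < (a.re + b.re) / 2 ∧ (a.re + b.re) / 2 < a.re) := by
      rcases lt_or_gt_of_ne h with h5 | h5
      · left; constructor <;> linarith
      · right; constructor <;> linarith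
    obtain ⟨R', R'', c, h5, -⟩ := cut_vert R ha hb one_pos h4 true
    exact ⟨R', R'', c, h5⟩

theorem pad {w t : ℝ} : ∀ (k : ℕ) (R : Rect) (a b : ℂ), a ∈ R.S → b ∈ R.S → a ≠ b →
    Shr k R a b w t → Shr (k + 1) R a b w t := by
  intro k
  induction k with
  | zero =>
    intro R a b ha hb hab h
    obtain ⟨R', R'', c, h1⟩ := exists_cut R ha hb hab
    have hf := cutFacts h1
    exact ⟨R', R'', c, h1, ⟨(W_le hf.sub').trans h.1, (T_le hf.sub').trans h.2⟩,
      ⟨(W_le hf.sub'').trans h.1, (T_le hf.sub'').trans h.2⟩⟩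
  | succ k ih =>
    rintro R a b ha hb hab ⟨R', R'', c, h1, h2, h3⟩
    have hf := cutFacts h1
    exact ⟨R', R'', c, h1, ih _ _ _ hf.a_mem hf.c_mem' hf.ac h2,
      ih _ _ _ hf.c_mem'' hf.b_mem hf.cb h3⟩

theorem comp {w t w' t' : ℝ} {l : ℕ} (hl : ∀ (R : Rect) (a b : ℂ), a ∈ R.S → b ∈ R.S → a ≠ b →
    R.W ≤ w → R.T ≤ t → Shr l R a b w' t') :
    ∀ (k : ℕ) (R : Rect) (a b : ℂ), a ∈ R.S → b ∈ R.S → a ≠ b →
    Shr k R a b w t → Shr (l + k) R a b w' t' := by
  intro k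
  induction k with
  | zero =>
    intro R a b ha hb hab h
    exact hl R a b ha hb hab h.1 h.2
  | succ k ih =>
    rintro R a b ha hb hab ⟨R', R'', c, h1, h2, h3⟩
    have hf := cutFacts h1
    exact ⟨R', R'', c, h1, ih _ _ _ hf.a_mem hf.c_mem' hf.ac h2,
      ih _ _ _ hf.c_mem'' hf.b_mem hf.cb h3⟩

theorem w1 (R : Rect) {a b : ℂ} (ha : a ∈ R.S) (hb : b ∈ R.S) {s : ℝ}
    (h1 : R.x0 + R.W / 4 < s) (h2 : s < R.x0 + 3 * R.W / 4)
    (h : (a.re < s ∧ s < b.re) ∨ (b.re < s ∧ s < a.re)) :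
    Shr 1 R a b (4 / 5 * R.W) R.T := by
  have hW : 0 < R.W := sub_pos.2 R.hx
  have hW' : R.W = R.x1 - R.x0 := rfl
  obtain ⟨R', R'', c, k0, -, -, k1, k2, k3, k4, k5, k6⟩ :=
    cut_vert R ha hb (δ := R.W / 20) (by positivity) h true
  refine ⟨R', R'', c, k0, ?_, ?_⟩
  · refine ⟨?_, ?_⟩
    · rcases h with ⟨e1, e2⟩ | ⟨e1, e2⟩
      · obtain ⟨f1, f2, f3, f4⟩ := k5 e1
        show R'.x1 - R'.x0 ≤ _
        linarith
      · obtain ⟨f1, f2, f3, f4⟩ := k6 e2
        show R'.x1 - R'.x0 ≤ _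
        linarith
    · show R'.y1 - R'.y0 ≤ R.y1 - R.y0
      linarith
  · refine ⟨?_, ?_⟩
    · rcases h with ⟨e1, e2⟩ | ⟨e1, e2⟩
      · obtain ⟨f1, f2, f3, f4⟩ := k5 e1
        show R''.x1 - R''.x0 ≤ _
        linarith
      · obtain ⟨f1, f2, f3, f4⟩ := k6 e2
        show R''.x1 - R''.x0 ≤ _
        linarith
    · show R''.y1 - R''.y0 ≤ R.y1 - R.y0
      linarith

theorem w2 (R : Rect) {a b : ℂ} (ha : a ∈ R.S) (hb : b ∈ R.S) (hab : a.im ≠ b.im) :
    Shr 2 R a b (4 / 5 * R.W) R.T := by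
  have hab' : a ≠ b := fun h => hab (by rw [h])
  by_cases hc : ∃ s, R.x0 + R.W / 4 < s ∧ s < R.x0 + 3 * R.W / 4 ∧
      ((a.re < s ∧ s < b.re) ∨ (b.re < s ∧ s < a.re))
  · obtain ⟨s, h1, h2, h3⟩ := hc
    exact pad 1 R a b ha hb hab' (w1 R ha hb h1 h2 h3)
  have hW : 0 < R.W := sub_pos.2 R.hx
  have hW' : R.W = R.x1 - R.x0 := rfl
  have h4 : (a.im < (a.im + b.im) / 2 ∧ (a.im + b.im) / 2 < b.im) ∨
      (b.im < (a.im + b.im) / 2 ∧ (a.im + b.im) / 2 < a.im) := by
    rcases lt_or_gt_of_ne hab with h5 | h5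
    · left; constructor <;> linarith
    · right; constructor <;> linarith
  have key : ∃ (side : Bool), ∀ u : ℂ, (u = a ∨ u = b) → ∃ s, R.x0 + R.W / 4 < s ∧
      s < R.x0 + 3 * R.W / 4 ∧ ((u.re < s ∧ s < (if side then R.x1 else R.x0)) ∨
        ((if side then R.x1 else R.x0) < s ∧ s < u.re)) := by
    by_cases hlow : a.re < R.x0 + 3 * R.W / 4 ∧ b.re < R.x0 + 3 * R.W / 4
    · refine ⟨true, ?_⟩
      intro u hu
      have hu1 : u.re < R.x0 + 3 * R.W / 4 := by
        rcases hu with rfl | rfl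
        · exact hlow.1
        · exact hlow.2
      have m1 : R.x0 + R.W / 4 < R.x0 + 3 * R.W / 4 := by linarith
      obtain ⟨s, hs1, hs2⟩ := exists_between (max_lt hu1 m1)
      have q1 := (le_max_left _ _).trans_lt hs1
      have q2 := (le_max_right _ _).trans_lt hs1
      refine ⟨s, q2, hs2, Or.inl ⟨q1, ?_⟩⟩
      simp only [if_true]
      linarith
    · have hboth : R.x0 + 3 * R.W / 4 ≤ a.re ∧ R.x0 + 3 * R.W / 4 ≤ b.re := by
        by_contra hnb
        apply hc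
        have m1 : R.x0 + R.W / 4 < R.x0 + 3 * R.W / 4 := by linarith
        by_cases p1 : a.re < R.x0 + 3 * R.W / 4
        · have p2 : R.x0 + 3 * R.W / 4 ≤ b.re := by
            by_contra p3
            exact hlow ⟨p1, not_le.1 p3⟩
          obtain ⟨s, hs1, hs2⟩ := exists_between (max_lt p1 m1)
          have q1 := (le_max_left _ _).trans_lt hs1
          have q2 := (le_max_right _ _).trans_lt hs1
          exact ⟨s, q2, hs2, Or.inl ⟨q1, hs2.trans_le p2⟩⟩
        · have p2 : b.re < R.x0 + 3 * R.W / 4 := by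
            by_contra p3
            exact hnb ⟨not_lt.1 p1, not_lt.1 p3⟩
          obtain ⟨s, hs1, hs2⟩ := exists_between (max_lt p2 m1)
          have q1 := (le_max_left _ _).trans_lt hs1
          have q2 := (le_max_right _ _).trans_lt hs1
          exact ⟨s, q2, hs2, Or.inr ⟨q1, hs2.trans_le (not_lt.1 p1)⟩⟩
      refine ⟨false, ?_⟩
      intro u hu
      have hu1 : R.x0 + 3 * R.W / 4 ≤ u.re := by
        rcases hu with rfl | rfl
        · exact hboth.1
        · exact hboth.2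
      refine ⟨R.x0 + R.W / 2, by linarith, by linarith, Or.inr ⟨?_, by linarith⟩⟩
      simp only [Bool.false_eq_true, if_false]
      linarith
  obtain ⟨side, hside⟩ := key
  obtain ⟨R', R'', c, k0, -, kc, k1, k2, k3, k4, -, -⟩ :=
    cut_horiz R ha hb one_pos h4 side
  have hf := cutFacts k0
  have hW1 : R'.W = R.W := by unfold Rect.W; rw [k1, k2]
  have hW2 : R''.W = R.W := by unfold Rect.W; rw [k3, k4]
  refine ⟨R', R'', c, k0, ?_, ?_⟩
  · obtain ⟨s, s1, s2, s3⟩ := hside a (Or.inl rfl)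
    have := w1 R' hf.a_mem hf.c_mem' (s := s) (by rw [hW1, k1]; exact s1)
      (by rw [hW1, k1]; exact s2) (by rw [kc]; exact s3)
    rw [hW1] at this
    exact mono le_rfl (T_le hf.sub') 1 _ _ _ this
  · obtain ⟨s, s1, s2, s3⟩ := hside b (Or.inr rfl)
    have := w1 R'' hf.c_mem'' hf.b_mem (s := s) (by rw [hW2, k3]; exact s1)
      (by rw [hW2, k3]; exact s2) (by rw [kc]; exact s3.symm)
    rw [hW2] at this
    exact mono le_rfl (T_le hf.sub'') 1 _ _ _ this

theorem w3 (R : Rect) {a b : ℂ} (ha : a ∈ R.S) (hb : b ∈ R.S) (hab : a ≠ b) :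
    Shr 3 R a b (4 / 5 * R.W) R.T := by
  by_cases him : a.im = b.im
  · have hre : a.re ≠ b.re := fun h3 => hab (Complex.ext h3 him)
    have h4 : (a.re < (a.re + b.re) / 2 ∧ (a.re + b.re) / 2 < b.re) ∨
        (b.re < (a.re + b.re) / 2 ∧ (a.re + b.re) / 2 < a.re) := by
      rcases lt_or_gt_of_ne hre with h5 | h5
      · left; constructor <;> linarith
      · right; constructor <;> linarith
    have hside : ∃ side : Bool, (if side then R.y1 else R.y0) ≠ a.im := by
      by_cases hy : a.im = R.y1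
      · refine ⟨false, ?_⟩
        rw [hy]
        simp only [Bool.false_eq_true, if_false]
        exact R.hy.ne
      · refine ⟨true, ?_⟩
        simp only [if_true]
        exact fun h => hy h.symm
    obtain ⟨side, hs⟩ := hside
    obtain ⟨R', R'', c, k0, -, kc, -⟩ := cut_vert R ha hb one_pos h4 side
    have hf := cutFacts k0
    have c1 : a.im ≠ c.im := by rw [kc]; exact hs.symm
    have c2 : c.im ≠ b.im := by rw [kc, ← him]; exact hs
    refine ⟨R', R'', c, k0, ?_, ?_⟩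
    · have := W_le hf.sub'
      exact mono (by linarith) (T_le hf.sub') 2 _ _ _ (w2 R' hf.a_mem hf.c_mem' c1)
    · have := W_le hf.sub''
      exact mono (by linarith) (T_le hf.sub'') 2 _ _ _ (w2 R'' hf.c_mem'' hf.b_mem c2)
  · exact pad 2 R a b ha hb hab (w2 R ha hb him)

theorem v1 (R : Rect) {a b : ℂ} (ha : a ∈ R.S) (hb : b ∈ R.S) {s : ℝ}
    (h1 : R.y0 + R.T / 4 < s) (h2 : s < R.y0 + 3 * R.T / 4)
    (h : (a.im < s ∧ s < b.im) ∨ (b.im < s ∧ s < a.im)) :
    Shr 1 R a b R.W (4 / 5 * R.T) := by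
  have hT : 0 < R.T := sub_pos.2 R.hy
  have hT' : R.T = R.y1 - R.y0 := rfl
  obtain ⟨R', R'', c, k0, -, -, k1, k2, k3, k4, k5, k6⟩ :=
    cut_horiz R ha hb (δ := R.T / 20) (by positivity) h true
  refine ⟨R', R'', c, k0, ?_, ?_⟩
  · refine ⟨?_, ?_⟩
    · show R'.x1 - R'.x0 ≤ R.x1 - R.x0
      linarith
    · rcases h with ⟨e1, e2⟩ | ⟨e1, e2⟩
      · obtain ⟨f1, f2, f3, f4⟩ := k5 e1
        show R'.y1 - R'.y0 ≤ _
        linarith
      · obtain ⟨f1, f2, f3, f4⟩ := k6 e2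
        show R'.y1 - R'.y0 ≤ _
        linarith
  · refine ⟨?_, ?_⟩
    · show R''.x1 - R''.x0 ≤ R.x1 - R.x0
      linarith
    · rcases h with ⟨e1, e2⟩ | ⟨e1, e2⟩
      · obtain ⟨f1, f2, f3, f4⟩ := k5 e1
        show R''.y1 - R''.y0 ≤ _
        linarith
      · obtain ⟨f1, f2, f3, f4⟩ := k6 e2
        show R''.y1 - R''.y0 ≤ _
        linarith

theorem v2 (R : Rect) {a b : ℂ} (ha : a ∈ R.S) (hb : b ∈ R.S) (hab : a.re ≠ b.re) :
    Shr 2 R a b R.W (4 / 5 * R.T) := by
  have hab' : a ≠ b := fun h => hab (by rw [h])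
  by_cases hc : ∃ s, R.y0 + R.T / 4 < s ∧ s < R.y0 + 3 * R.T / 4 ∧
      ((a.im < s ∧ s < b.im) ∨ (b.im < s ∧ s < a.im))
  · obtain ⟨s, h1, h2, h3⟩ := hc
    exact pad 1 R a b ha hb hab' (v1 R ha hb h1 h2 h3)
  have hW : 0 < R.T := sub_pos.2 R.hy
  have hW' : R.T = R.y1 - R.y0 := rfl
  have h4 : (a.re < (a.re + b.re) / 2 ∧ (a.re + b.re) / 2 < b.re) ∨
      (b.re < (a.re + b.re) / 2 ∧ (a.re + b.re) / 2 < a.re) := by
    rcases lt_or_gt_of_ne hab with h5 | h5
    · left; constructor <;> linarith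
    · right; constructor <;> linarith
  have key : ∃ (side : Bool), ∀ u : ℂ, (u = a ∨ u = b) → ∃ s, R.y0 + R.T / 4 < s ∧
      s < R.y0 + 3 * R.T / 4 ∧ ((u.im < s ∧ s < (if side then R.y1 else R.y0)) ∨
        ((if side then R.y1 else R.y0) < s ∧ s < u.im)) := by
    by_cases hlow : a.im < R.y0 + 3 * R.T / 4 ∧ b.im < R.y0 + 3 * R.T / 4
    · refine ⟨true, ?_⟩
      intro u hu
      have hu1 : u.im < R.y0 + 3 * R.T / 4 := by
        rcases hu with rfl | rfl
        · exact hlow.1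
        · exact hlow.2
      have m1 : R.y0 + R.T / 4 < R.y0 + 3 * R.T / 4 := by linarith
      obtain ⟨s, hs1, hs2⟩ := exists_between (max_lt hu1 m1)
      have q1 := (le_max_left _ _).trans_lt hs1
      have q2 := (le_max_right _ _).trans_lt hs1
      refine ⟨s, q2, hs2, Or.inl ⟨q1, ?_⟩⟩
      simp only [if_true]
      linarith
    · have hboth : R.y0 + 3 * R.T / 4 ≤ a.im ∧ R.y0 + 3 * R.T / 4 ≤ b.im := by
        by_contra hnb
        apply hc
        have m1 : R.y0 + R.T / 4 < R.y0 + 3 * R.T / 4 := by linarith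
        by_cases p1 : a.im < R.y0 + 3 * R.T / 4
        · have p2 : R.y0 + 3 * R.T / 4 ≤ b.im := by
            by_contra p3
            exact hlow ⟨p1, not_le.1 p3⟩
          obtain ⟨s, hs1, hs2⟩ := exists_between (max_lt p1 m1)
          have q1 := (le_max_left _ _).trans_lt hs1
          have q2 := (le_max_right _ _).trans_lt hs1
          exact ⟨s, q2, hs2, Or.inl ⟨q1, hs2.trans_le p2⟩⟩
        · have p2 : b.im < R.y0 + 3 * R.T / 4 := by
            by_contra p3
            exact hnb ⟨not_lt.1 p1, not_lt.1 p3⟩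
          obtain ⟨s, hs1, hs2⟩ := exists_between (max_lt p2 m1)
          have q1 := (le_max_left _ _).trans_lt hs1
          have q2 := (le_max_right _ _).trans_lt hs1
          exact ⟨s, q2, hs2, Or.inr ⟨q1, hs2.trans_le (not_lt.1 p1)⟩⟩
      refine ⟨false, ?_⟩
      intro u hu
      have hu1 : R.y0 + 3 * R.T / 4 ≤ u.im := by
        rcases hu with rfl | rfl
        · exact hboth.1
        · exact hboth.2
      refine ⟨R.y0 + R.T / 2, by linarith, by linarith, Or.inr ⟨?_, by linarith⟩⟩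
      simp only [Bool.false_eq_true, if_false]
      linarith
  obtain ⟨side, hside⟩ := key
  obtain ⟨R', R'', c, k0, -, kc, k1, k2, k3, k4, -, -⟩ :=
    cut_vert R ha hb one_pos h4 side
  have hf := cutFacts k0
  have hW1 : R'.T = R.T := by unfold Rect.T; rw [k1, k2]
  have hW2 : R''.T = R.T := by unfold Rect.T; rw [k3, k4]
  refine ⟨R', R'', c, k0, ?_, ?_⟩
  · obtain ⟨s, s1, s2, s3⟩ := hside a (Or.inl rfl)
    have := v1 R' hf.a_mem hf.c_mem' (s := s) (by rw [hW1, k1]; exact s1)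
      (by rw [hW1, k1]; exact s2) (by rw [kc]; exact s3)
    rw [hW1] at this
    exact mono (W_le hf.sub') le_rfl 1 _ _ _ this
  · obtain ⟨s, s1, s2, s3⟩ := hside b (Or.inr rfl)
    have := v1 R'' hf.c_mem'' hf.b_mem (s := s) (by rw [hW2, k3]; exact s1)
      (by rw [hW2, k3]; exact s2) (by rw [kc]; exact s3.symm)
    rw [hW2] at this
    exact mono (W_le hf.sub'') le_rfl 1 _ _ _ this

theorem v3 (R : Rect) {a b : ℂ} (ha : a ∈ R.S) (hb : b ∈ R.S) (hab : a ≠ b) :
    Shr 3 R a b R.W (4 / 5 * R.T) := by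
  by_cases him : a.re = b.re
  · have hre : a.im ≠ b.im := fun h3 => hab (Complex.ext him h3)
    have h4 : (a.im < (a.im + b.im) / 2 ∧ (a.im + b.im) / 2 < b.im) ∨
        (b.im < (a.im + b.im) / 2 ∧ (a.im + b.im) / 2 < a.im) := by
      rcases lt_or_gt_of_ne hre with h5 | h5
      · left; constructor <;> linarith
      · right; constructor <;> linarith
    have hside : ∃ side : Bool, (if side then R.x1 else R.x0) ≠ a.re := by
      by_cases hy : a.re = R.x1
      · refine ⟨false, ?_⟩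
        rw [hy]
        simp only [Bool.false_eq_true, if_false]
        exact R.hx.ne
      · refine ⟨true, ?_⟩
        simp only [if_true]
        exact fun h => hy h.symm
    obtain ⟨side, hs⟩ := hside
    obtain ⟨R', R'', c, k0, -, kc, -⟩ := cut_horiz R ha hb one_pos h4 side
    have hf := cutFacts k0
    have c1 : a.re ≠ c.re := by rw [kc]; exact hs.symm
    have c2 : c.re ≠ b.re := by rw [kc, ← him]; exact hs
    refine ⟨R', R'', c, k0, ?_, ?_⟩
    · have := T_le hf.sub'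
      exact mono (W_le hf.sub') (by linarith) 2 _ _ _ (v2 R' hf.a_mem hf.c_mem' c1)
    · have := T_le hf.sub''
      exact mono (W_le hf.sub'') (by linarith) 2 _ _ _ (v2 R'' hf.c_mem'' hf.b_mem c2)
  · exact pad 2 R a b ha hb hab (v2 R ha hb him)

end ShrAux

theorem shr_width (R : Rect) {a b : ℂ} (ha : a ∈ R.S) (hb : b ∈ R.S) (hab : a ≠ b) :
    Shr 3 R a b (4 / 5 * R.W) R.T := by
  exact ShrAux.w3 R ha hb hab

theorem shr_height (R : Rect) {a b : ℂ} (ha : a ∈ R.S) (hb : b ∈ R.S) (hab : a ≠ b) :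
    Shr 3 R a b R.W (4 / 5 * R.T) := by
  exact ShrAux.v3 R ha hb hab

theorem shr_six (R : Rect) {a b : ℂ} (ha : a ∈ R.S) (hb : b ∈ R.S) (hab : a ≠ b) :
    Shr 6 R a b (4 / 5 * R.W) (4 / 5 * R.T) := by
  refine ShrAux.comp (w := 4 / 5 * R.W) (t := R.T) (l := 3) ?_ 3 R a b ha hb hab
    (shr_width R ha hb hab)
  intro Q u v hu hv huv h1 h2
  exact ShrAux.mono h1 (by linarith) 3 _ _ _ (shr_height Q hu hv huv)

end Pool.Agent.Lib.GEX
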