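import Pool.Agent.Lib.GEX.Sys
import Pool.Agent.Lib.GEX.CutAll

/-!
# GEX.Step: one step of the construction  (2 h)

`St` is the state at a node of level `n`. Step: first, if `s.j = 0`, replace `(j, w, t, q)` by `(6, 4/5 R.W, 4/5 R.T, q+1)` (`shr_six`; `R.W ≤ w ≤ (4/5)^(q+1)` from `shr : Shr 0 ..`); so `j = j' + 1`. From
`Shr (j'+1)` get `R' R'' c` with `Cut R R' R'' a b c`, `Shr j' R' a c w t`, `Shr j' R'' c b w t`; `cutOK` with `ε = (1/4)^(n+3)` gives `P, h`. Children: `s0 = (R', a, c, ha, h, H P, Ψ h, n+1, j', w, t)`,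
`s1 = (R'', c, b, h, hb, H (1-P), Ψ h, n+1, j', w, t)`: `Ψ h` is in `A(R)`, and `(Ψ h)(H P) = (Ψ H)(h P)`, `(Ψ h)(H (1-P)) = (Ψ H)(h - h P)` are in `A(R)`; restrict with `cutFacts`, `AR.mono`.
Widths of children: `R'.S ⊆ R.S` gives `R.x0 ≤ R'.x0`, ... so `R'.W ≤ R.W`.
-/

open Set MeasureTheory Filter Topology
open Complex (I)

namespace Pool.Agent.Lib.GEX

/-- the state at a node -/
structure St where
  R : Rect
  a : ℂ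
  b : ℂ
  ha : ℂ → ℂ
  hb : ℂ → ℂ
  H : ℂ → ℂ
  Ψ : ℂ → ℂ
  n : ℕ
  j : ℕ
  q : ℕ
  w : ℝ
  t : ℝ
  ok : HOK R a b ha hb H
  psi : AR R Ψ
  psiH : AR R (fun z => Ψ z * H z)
  shr : Shr j R a b w t
  lev : n + j = 6 * q + 6
  hW : R.W ≤ (4 / 5) ^ q
  hT : R.T ≤ (4 / 5) ^ q
  hw : w ≤ (4 / 5) ^ (q + 1)
  ht : t ≤ (4 / 5) ^ (q + 1)

lemma St.small (s : St) : s.R.W ≤ (4 / 5) ^ (s.n / 6) ∧ s.R.T ≤ (4 / 5) ^ (s.n / 6) := by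
  have hlev := s.lev
  rcases Nat.eq_zero_or_pos s.j with hj | hj
  · have hs := s.shr
    rw [hj] at hs
    have hn : s.n / 6 = s.q + 1 := by omega
    rw [hn]
    exact ⟨hs.1.trans s.hw, hs.2.trans s.ht⟩
  · have hn : s.n / 6 ≤ s.q := by omega
    have h1 : ((4 : ℝ) / 5) ^ s.q ≤ (4 / 5) ^ (s.n / 6) :=
      pow_le_pow_of_le_one (by norm_num) (by norm_num) hn
    exact ⟨s.hW.trans h1, s.hT.trans h1⟩

private lemma sub_bounds {R R' : Rect} (h : R'.S ⊆ R.S) :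
    R.x0 ≤ R'.x0 ∧ R'.x1 ≤ R.x1 ∧ R.y0 ≤ R'.y0 ∧ R'.y1 ≤ R.y1 := by
  have h0 : (⟨R'.x0, R'.y0⟩ : ℂ) ∈ R'.S := ⟨le_rfl, R'.hx.le, le_rfl, R'.hy.le⟩
  have h1 : (⟨R'.x1, R'.y1⟩ : ℂ) ∈ R'.S := ⟨R'.hx.le, le_rfl, R'.hy.le, le_rfl⟩
  have g0 := h h0
  have g1 := h h1
  exact ⟨g0.1, g1.2.1, g0.2.2.1, g1.2.2.2⟩

private lemma W_le {R R' : Rect} (h : R'.S ⊆ R.S) : R'.W ≤ R.W := by
  obtain ⟨h1, h2, _, _⟩ := sub_bounds h
  unfold Rect.W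
  linarith

private lemma T_le {R R' : Rect} (h : R'.S ⊆ R.S) : R'.T ≤ R.T := by
  obtain ⟨_, _, h1, h2⟩ := sub_bounds h
  unfold Rect.T
  linarith

private lemma step_aux (s : St) (j' : ℕ) (hj : s.j = j' + 1) : ∃ (s0 s1 : St) (h : ℂ → ℂ),
    s0.n = s.n + 1 ∧ s1.n = s.n + 1 ∧ CutFacts s.R s0.R s1.R s.a s.b s0.b ∧
    s0.a = s.a ∧ s1.a = s0.b ∧ s1.b = s.b ∧
    AR s.R h ∧ (∀ z ∈ s.R.S, h z = 0 ↔ z = s0.b) ∧
    s0.Ψ = (fun z => s.Ψ z * h z) ∧ s1.Ψ = (fun z => s.Ψ z * h z) ∧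
    (∀ F : ℂ → ℂ, AR s.R F →
      BI s0.R (fun z => F z * s0.H z) + BI s1.R (fun z => F z * s1.H z) =
        BI s.R (fun z => F z * s.H z)) ∧
    VI s0.R (fun z => ‖s0.H z‖) + VI s1.R (fun z => ‖s1.H z‖) ≤
      VI s.R (fun z => ‖s.H z‖) + (1 / 4) ^ (s.n + 3) ∧
    ‖BI s0.R (fun z => cj z * s0.H z) + BI s1.R (fun z => cj z * s1.H z) -
      BI s.R (fun z => cj z * s.H z)‖ ≤ (1 / 4) ^ (s.n + 3) := by
  have hs := s.shr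
  rw [hj] at hs
  obtain ⟨R', R'', c, hcut, hs', hs''⟩ := hs
  have hf := cutFacts hcut
  obtain ⟨P, h, hAR, h0, hhP, hok', hok'', hsplit, hmass, hconj⟩ :=
    cutOK hcut s.ha s.hb s.H s.ok ((1 / 4) ^ (s.n + 3)) (by positivity)
  have hlev := s.lev
  have hpsi : AR s.R (fun z => s.Ψ z * h z) := s.psi.mul hAR
  have hpsi1 : AR s.R (fun z => (s.Ψ z * h z) * (s.H z * P z)) :=
    (s.psiH.mul hhP).congr fun z _ => by ring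
  have hpsi2 : AR s.R (fun z => (s.Ψ z * h z) * (s.H z * (1 - P z))) :=
    (s.psiH.mul (hAR.sub hhP)).congr fun z _ => by ring
  refine ⟨⟨R', s.a, c, s.ha, h, fun z => s.H z * P z, fun z => s.Ψ z * h z, s.n + 1, j', s.q, s.w,
      s.t, hok', hpsi.mono hf.sub' hf.osub', hpsi1.mono hf.sub' hf.osub', hs', by omega,
      (W_le hf.sub').trans s.hW, (T_le hf.sub').trans s.hT, s.hw, s.ht⟩,
    ⟨R'', c, s.b, h, s.hb, fun z => s.H z * (1 - P z), fun z => s.Ψ z * h z, s.n + 1, j', s.q, s.w,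
      s.t, hok'', hpsi.mono hf.sub'' hf.osub'', hpsi2.mono hf.sub'' hf.osub'', hs'', by omega,
      (W_le hf.sub'').trans s.hW, (T_le hf.sub'').trans s.hT, s.hw, s.ht⟩, h, rfl, rfl, hf, rfl,
    rfl, rfl, hAR, h0, rfl, rfl, hsplit, hmass, hconj⟩

theorem st_step (s : St) : ∃ (s0 s1 : St) (h : ℂ → ℂ),
    s0.n = s.n + 1 ∧ s1.n = s.n + 1 ∧ CutFacts s.R s0.R s1.R s.a s.b s0.b ∧
    s0.a = s.a ∧ s1.a = s0.b ∧ s1.b = s.b ∧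
    AR s.R h ∧ (∀ z ∈ s.R.S, h z = 0 ↔ z = s0.b) ∧
    s0.Ψ = (fun z => s.Ψ z * h z) ∧ s1.Ψ = (fun z => s.Ψ z * h z) ∧
    (∀ F : ℂ → ℂ, AR s.R F →
      BI s0.R (fun z => F z * s0.H z) + BI s1.R (fun z => F z * s1.H z) =
        BI s.R (fun z => F z * s.H z)) ∧
    VI s0.R (fun z => ‖s0.H z‖) + VI s1.R (fun z => ‖s1.H z‖) ≤
      VI s.R (fun z => ‖s.H z‖) + (1 / 4) ^ (s.n + 3) ∧
    ‖BI s0.R (fun z => cj z * s0.H z) + BI s1.R (fun z => cj z * s1.H z) -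
      BI s.R (fun z => cj z * s.H z)‖ ≤ (1 / 4) ^ (s.n + 3) := by
  rcases Nat.eq_zero_or_pos s.j with hj | hj
  · have hs := s.shr
    rw [hj] at hs
    have hlev := s.lev
    have hW : s.R.W ≤ (4 / 5) ^ (s.q + 1) := hs.1.trans s.hw
    have hT : s.R.T ≤ (4 / 5) ^ (s.q + 1) := hs.2.trans s.ht
    exact step_aux ⟨s.R, s.a, s.b, s.ha, s.hb, s.H, s.Ψ, s.n, 6, s.q + 1, 4 / 5 * s.R.W,
      4 / 5 * s.R.T, s.ok, s.psi, s.psiH, shr_six s.R s.ok.a_mem s.ok.b_mem s.ok.ne, by omega,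
      hW, hT, by rw [pow_succ]; linarith, by rw [pow_succ]; linarith⟩ 5 rfl
  · obtain ⟨j', hj'⟩ := Nat.exists_eq_succ_of_ne_zero hj.ne'
    exact step_aux s j' hj'

end Pool.Agent.Lib.GEX
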