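import Pool.Agent.Lib.GEX.Shr

/-!
# GEX.Sys: the interface between the construction of the tree and the algebra on the interval

Nodes are `(n, k)`, `k < 2^n` (values for other `k` are irrelevant), children `(n+1, 2k)` (containing `a n k`) and `(n+1, 2k+1)` (containing `b n k`), contact point `b (n+1) (2k) = a (n+1) (2k+1)`.
`L n k F = BI (R n k) (F H)`, `M n k = VI (R n k) |H|`.
-/

open Set
open Complex (I)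

namespace Pool.Agent.Lib.GEX

/-- complex conjugation as a function -/
noncomputable def cj : ℂ → ℂ := fun z => (starRingEnd ℂ) z

structure Sys where
  R : ℕ → ℕ → Rect
  a : ℕ → ℕ → ℂ
  b : ℕ → ℕ → ℂ
  h : ℕ → ℕ → ℂ → ℂ
  Ψ : ℕ → ℕ → ℂ → ℂ
  L : ℕ → ℕ → (ℂ → ℂ) → ℂ
  M : ℕ → ℕ → ℝ
  sub0 : ∀ n k, (R (n + 1) (2 * k)).S ⊆ (R n k).S
  sub1 : ∀ n k, (R (n + 1) (2 * k + 1)).S ⊆ (R n k).S
  osub0 : ∀ n k, (R (n + 1) (2 * k)).O ⊆ (R n k).O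
  osub1 : ∀ n k, (R (n + 1) (2 * k + 1)).O ⊆ (R n k).O
  cover : ∀ n k, (R n k).S ⊆ (R (n + 1) (2 * k)).S ∪ (R (n + 1) (2 * k + 1)).S
  a_mem : ∀ n k, a n k ∈ (R n k).S
  b_mem : ∀ n k, b n k ∈ (R n k).S
  a0 : ∀ n k, a (n + 1) (2 * k) = a n k
  b1 : ∀ n k, b (n + 1) (2 * k + 1) = b n k
  ab : ∀ n k, b (n + 1) (2 * k) = a (n + 1) (2 * k + 1)
  a_not : ∀ n k, a n k ∉ (R (n + 1) (2 * k + 1)).S
  b_not : ∀ n k, b n k ∉ (R (n + 1) (2 * k)).S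
  small : ∀ n k, (R n k).W ≤ (4 / 5) ^ (n / 12) ∧ (R n k).T ≤ (4 / 5) ^ (n / 12)
  hAR : ∀ n k, AR (R n k) (h n k)
  h0 : ∀ n k, ∀ z ∈ (R n k).S, (h n k z = 0 ↔ z = a (n + 1) (2 * k + 1))
  Ψ0 : ∀ k, Ψ 0 k = fun _ => 1
  Ψ1 : ∀ n k, Ψ (n + 1) (2 * k) = fun z => Ψ n k z * h n k z
  Ψ2 : ∀ n k, Ψ (n + 1) (2 * k + 1) = fun z => Ψ n k z * h n k z
  Ladd : ∀ n k F G, ContinuousOn F (R n k).S → ContinuousOn G (R n k).S →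
    L n k (fun z => F z + G z) = L n k F + L n k G
  Lsmul : ∀ n k (w : ℂ) F, ContinuousOn F (R n k).S → L n k (fun z => w * F z) = w * L n k F
  Lbd : ∀ n k F m, ContinuousOn F (R n k).S → (∀ z ∈ (R n k).S, ‖F z‖ ≤ m) →
    ‖L n k F‖ ≤ M n k * m
  Lann : ∀ n k G, AR (R n k) G → L n k (fun z => Ψ n k z * G z) = 0
  Lsplit : ∀ n k F, AR (R n k) F → L (n + 1) (2 * k) F + L (n + 1) (2 * k + 1) F = L n k F
  Lmass : ∀ n k, M (n + 1) (2 * k) + M (n + 1) (2 * k + 1) ≤ M n k + (1 / 4) ^ (n + 3)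
  Lconj : ∀ n k, ‖L (n + 1) (2 * k) cj + L (n + 1) (2 * k + 1) cj - L n k cj‖ ≤ (1 / 4) ^ (n + 3)
  M0 : M 0 0 ≤ 4
  Mnn : ∀ n k, 0 ≤ M n k
  Lroot : 2 ≤ ‖L 0 0 cj‖

end Pool.Agent.Lib.GEX
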