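import Pool.Agent.Lib.GEX.Sys

/-!
# GEX.ZBase: dyadic intervals and diameters  (1.5 h)

`b_eq_a`: induction on `n`: `n = 0` impossible; for `n + 1`: `k = 2l`: `ab`. `k = 2l + 1`: `b (n+1) (2l+1) = b n l` (`b1`) `= a n (l+1)` (induction, `l + 1 < 2^n` because `2l + 2 < 2^(n+1)`) `= a (n+1) (2(l+1))` (`a0`).
`diam`: `‖z - w‖ ≤ |(z-w).re| + |(z-w).im| ≤ W + T ≤ 2 (4/5)^(n/12)` (`small`). `diam_lim`: `n/12 → ∞` (`Nat.tendsto_div_const_atTop`), `(4/5)^m → 0`.
`J_exists`: `k = min ⌊2^n t⌋₊ (2^n - 1)`. `J_par`: `k/2^n ≤ t ≤ (k+1)/2^n` when `J (n+1) l t`, `l = 2k` or `2k + 1`. `J_split`: compare `t` with `(2k+1)/2^(n+1)`. `J_near`: `k, l` integers with `k < l + 2`, `l < k + 2`.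
`J_lt`: `J n k t`, `J n l t`, `k < l` give `l/2^n ≤ t ≤ (k+1)/2^n`, so `l ≤ k + 1`.
-/

open Set Filter Topology
open Complex (I)

namespace Pool.Agent.Lib.GEX

/-- `t ∈ [k/2^n, (k+1)/2^n]` -/
def J (n k : ℕ) (t : unitInterval) : Prop := (k : ℝ) / 2 ^ n ≤ t ∧ (t : ℝ) ≤ (k + 1) / 2 ^ n

theorem b_eq_a (s : Sys) (n k : ℕ) (h : k + 1 < 2 ^ n) : s.b n k = s.a n (k + 1) := by
  induction n generalizing k with
  | zero => simp at h
  | succ n ih =>
    obtain ⟨l, rfl | rfl⟩ := Nat.even_or_odd' k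
    · exact s.ab n l
    · have h1 : l + 1 < 2 ^ n := by
        rw [pow_succ] at h
        omega
      have h2 : 2 * l + 1 + 1 = 2 * (l + 1) := by ring
      rw [s.b1, ih l h1, h2, s.a0]

theorem diam (s : Sys) (n k : ℕ) {z w : ℂ} (hz : z ∈ (s.R n k).S) (hw : w ∈ (s.R n k).S) :
    ‖z - w‖ ≤ 2 * (4 / 5) ^ (n / 12) := by
  obtain ⟨hW, hT⟩ := s.small n k
  obtain ⟨z1, z2, z3, z4⟩ := hz
  obtain ⟨w1, w2, w3, w4⟩ := hw
  rw [Rect.W] at hW
  rw [Rect.T] at hT
  have h1 : |z.re - w.re| ≤ (4 / 5) ^ (n / 12) := by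
    rw [abs_le]; constructor <;> linarith
  have h2 : |z.im - w.im| ≤ (4 / 5) ^ (n / 12) := by
    rw [abs_le]; constructor <;> linarith
  have h3 := Complex.norm_le_abs_re_add_abs_im (z - w)
  rw [Complex.sub_re, Complex.sub_im] at h3
  linarith

theorem diam_lim : Tendsto (fun n : ℕ => 2 * ((4 : ℝ) / 5) ^ (n / 12)) atTop (𝓝 0) := by
  have h1 : Tendsto (fun n : ℕ => ((4 : ℝ) / 5) ^ (n / 12)) atTop (𝓝 0) :=
    (tendsto_pow_atTop_nhds_zero_of_lt_one (by norm_num) (by norm_num)).comp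
      (Nat.tendsto_div_const_atTop (by norm_num))
  simpa using h1.const_mul 2

theorem J_exists (n : ℕ) (t : unitInterval) : ∃ k, k < 2 ^ n ∧ J n k t := by
  have hp : (0 : ℝ) < 2 ^ n := by positivity
  have ht0 : (0 : ℝ) ≤ t := t.2.1
  have ht1 : (t : ℝ) ≤ 1 := t.2.2
  have hq : 0 < 2 ^ n := by positivity
  by_cases h : ⌊(2 : ℝ) ^ n * t⌋₊ < 2 ^ n
  · refine ⟨_, h, ?_, ?_⟩
    · rw [div_le_iff₀ hp, mul_comm]
      exact Nat.floor_le (by positivity)
    · rw [le_div_iff₀ hp, mul_comm]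
      exact (Nat.lt_floor_add_one _).le
  · push Not at h
    have h1 : ((2 ^ n : ℕ) : ℝ) ≤ (2 : ℝ) ^ n * t :=
      (Nat.cast_le.2 h).trans (Nat.floor_le (by positivity))
    push_cast at h1
    have h2 : (t : ℝ) = 1 := by
      have : (1 : ℝ) ≤ t := by
        by_contra hlt
        push Not at hlt
        have := mul_lt_mul_of_pos_left hlt hp
        linarith
      linarith
    refine ⟨2 ^ n - 1, by omega, ?_, ?_⟩
    · rw [div_le_iff₀ hp, h2, one_mul]
      simp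
    · rw [le_div_iff₀ hp, h2, one_mul, Nat.cast_sub (by omega)]
      push_cast
      linarith

theorem J_par {n l : ℕ} {t : unitInterval} (h : J (n + 1) l t) : J n (l / 2) t := by
  obtain ⟨h1, h2⟩ := h
  have hp : (0 : ℝ) < 2 ^ n := by positivity
  have e : ∀ x : ℝ, x / 2 ^ (n + 1) = x / 2 / 2 ^ n := by
    intro x
    rw [pow_succ]
    field_simp
  rw [e] at h1 h2
  have h3 : ((l / 2 : ℕ) : ℝ) ≤ (l : ℝ) / 2 := by
    have : (2 : ℝ) * ((l / 2 : ℕ) : ℝ) ≤ l := by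
      have h4 : 2 * (l / 2) ≤ l := by omega
      exact_mod_cast h4
    linarith
  have h5 : ((l : ℝ) + 1) / 2 ≤ ((l / 2 : ℕ) : ℝ) + 1 := by
    have : (l : ℝ) ≤ 2 * ((l / 2 : ℕ) : ℝ) + 1 := by
      have h4 : l ≤ 2 * (l / 2) + 1 := by omega
      exact_mod_cast h4
    linarith
  exact ⟨(div_le_div_of_nonneg_right h3 hp.le).trans h1,
    h2.trans (div_le_div_of_nonneg_right h5 hp.le)⟩

theorem J_split {n k : ℕ} {t : unitInterval} (h : J n k t) :
    J (n + 1) (2 * k) t ∨ J (n + 1) (2 * k + 1) t := by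
  obtain ⟨h1, h2⟩ := h
  have e : ∀ x : ℝ, x / 2 ^ n = 2 * x / 2 ^ (n + 1) := by
    intro x
    rw [pow_succ]
    field_simp
  rw [e] at h1 h2
  rcases le_total (t : ℝ) ((2 * k + 1) / 2 ^ (n + 1)) with h | h
  · left
    refine ⟨?_, ?_⟩
    · push_cast
      exact h1
    · push_cast
      exact h
  · right
    refine ⟨?_, ?_⟩
    · push_cast
      exact h
    · push_cast
      refine h2.trans (le_of_eq ?_)
      ring

theorem J_near {n k l : ℕ} {t u : unitInterval} (ht : J n k t) (hu : J n l u)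
    (h : |(t : ℝ) - u| < 1 / 2 ^ n) : k ≤ l + 1 ∧ l ≤ k + 1 := by
  obtain ⟨h1, h2⟩ := ht
  obtain ⟨h3, h4⟩ := hu
  obtain ⟨h5, h6⟩ := abs_lt.1 h
  have hp : (0 : ℝ) < 2 ^ n := by positivity
  rw [div_le_iff₀ hp] at h1 h3
  rw [le_div_iff₀ hp] at h2 h4
  have h7 : ((t : ℝ) - u) * 2 ^ n < 1 := by rwa [← lt_div_iff₀ hp]
  have h8 : -1 < ((t : ℝ) - u) * 2 ^ n := by
    have : ((u : ℝ) - t) * 2 ^ n < 1 := by
      rw [← lt_div_iff₀ hp]; linarith
    linarith
  constructor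
  · have : (k : ℝ) < l + 2 := by linarith
    have : k < l + 2 := by exact_mod_cast this
    omega
  · have : (l : ℝ) < k + 2 := by linarith
    have : l < k + 2 := by exact_mod_cast this
    omega

theorem J_lt {n k l : ℕ} {t : unitInterval} (hk : J n k t) (hl : J n l t) (h : k < l) :
    l = k + 1 ∧ (t : ℝ) = (k + 1) / 2 ^ n := by
  obtain ⟨h1, h2⟩ := hk
  obtain ⟨h3, h4⟩ := hl
  have hp : (0 : ℝ) < 2 ^ n := by positivity
  have h5 : (l : ℝ) / 2 ^ n ≤ (k + 1) / 2 ^ n := h3.trans h2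
  have h6 : (l : ℝ) ≤ k + 1 := by
    rwa [div_le_div_iff_of_pos_right hp] at h5
  have h7 : l ≤ k + 1 := by exact_mod_cast h6
  have h8 : l = k + 1 := by omega
  refine ⟨h8, le_antisymm h2 ?_⟩
  rw [h8] at h3
  push_cast at h3
  exact h3

/-- the common point of a nested sequence of dyadic intervals -/
theorem J_nested (k : ℕ → ℕ) (h0 : ∀ n, k n < 2 ^ n) (h1 : ∀ n, k (n + 1) / 2 = k n) :
    ∃ t : unitInterval, ∀ n, J n (k n) t := by
  have hm : Monotone fun n => (k n : ℝ) / 2 ^ n := by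
    refine monotone_nat_of_le_succ fun n => ?_
    have h2 : 2 * k n ≤ k (n + 1) := by
      have := h1 n
      omega
    have h3 : (2 : ℝ) * k n ≤ k (n + 1) := by exact_mod_cast h2
    have e : (k n : ℝ) / 2 ^ n = 2 * k n / 2 ^ (n + 1) := by
      rw [pow_succ]
      field_simp
    rw [e]
    exact div_le_div_of_nonneg_right h3 (by positivity)
  have ha : Antitone fun n => ((k n : ℝ) + 1) / 2 ^ n := by
    refine antitone_nat_of_succ_le fun n => ?_
    have h2 : k (n + 1) + 1 ≤ 2 * (k n + 1) := by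
      have := h1 n
      omega
    have h3 : (k (n + 1) : ℝ) + 1 ≤ 2 * (k n + 1) := by exact_mod_cast h2
    have e : ((k n : ℝ) + 1) / 2 ^ n = 2 * (k n + 1) / 2 ^ (n + 1) := by
      rw [pow_succ]
      field_simp
    rw [e]
    exact div_le_div_of_nonneg_right h3 (by positivity)
  have hle : (fun n => (k n : ℝ) / 2 ^ n) ≤ fun n => ((k n : ℝ) + 1) / 2 ^ n := fun n =>
    div_le_div_of_nonneg_right (by linarith) (by positivity)
  have hmem := hm.ciSup_mem_iInter_Icc_of_antitone ha hle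
  rw [mem_iInter] at hmem
  have hz := hmem 0
  have hk0 : k 0 = 0 := by
    have := h0 0
    omega
  simp only [hk0, pow_zero, div_one, Nat.cast_zero, zero_add] at hz
  exact ⟨⟨_, hz⟩, fun n => hmem n⟩

end Pool.Agent.Lib.GEX
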