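import Pool.Agent.Lib.GEX.ZMap

/-!
# GEX.ZInj: contact points  (1.5 h)

Let `z` satisfy `hz` (first property of `exists_z`). (1) `z_contact`: `t = (2k+1)/2^(n+1)`, `c = b (n+1) (2k)`. For `m ≥ n+1` the last descendant of `(n+1, 2k)` at level `m` is `(m, l)`, `l + 1 = 2^(m-n-1) (2k+1)`; `b m l = c` (`b1`), and
`J m l t` (right end point); so `z t, c ∈ (R m l).S`, whose diameter tends to `0` (`small`).
(2) `z_inj`: `J n k t`, `z t = c`, and `t < (2k+1)/2^(n+1)`: with `l_m` as in (1) there is `m ≥ n+1` with `l_m/2^m ≤ t ≤ (2 l_m + 1)/2^(m+1)` (the intervals `[l_m/2^m, (2l_m+1)/2^(m+1)]`, `m = n+1, ...`, cover `[2k/2^(n+1), (2k+1)/2^(n+1))`),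
i.e. `J (m+1) (2 l_m) t`, so `z t ∈ (R (m+1) (2 l_m)).S`, but `b m l_m = c ∉ (R (m+1) (2 l_m)).S` (`b_not`). If `t > `: the first descendants of `(n+1, 2k+1)`: `(m, 2^(m-n-1)(2k+1))`, `a m l = c`, `a_not`.
-/

open Set Filter Topology
open Complex (I)

namespace Pool.Agent.Lib.GEX

private def lst (k : ℕ) : ℕ → ℕ
  | 0 => 2 * k
  | j + 1 => 2 * lst k j + 1

private lemma lst_succ (k j : ℕ) : lst k j + 1 = 2 ^ j * (2 * k + 1) := by
  induction j with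
  | zero => simp [lst]
  | succ j ih =>
    have h : 2 ^ (j + 1) * (2 * k + 1) = 2 * (2 ^ j * (2 * k + 1)) := by ring
    rw [h, ← ih, lst]
    ring

private lemma fst_lt {n k : ℕ} (hk : k < 2 ^ n) (j : ℕ) :
    2 ^ j * (2 * k + 1) < 2 ^ (n + 1 + j) := by
  have h2 : 2 ^ (n + 1 + j) = 2 ^ j * (2 * 2 ^ n) := by ring
  rw [h2]
  exact Nat.mul_lt_mul_of_pos_left (by omega) (by positivity)

private lemma lst_b (s : Sys) (n k j : ℕ) :
    s.b (n + 1 + j) (lst k j) = s.a (n + 1) (2 * k + 1) := by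
  induction j with
  | zero => exact s.ab n k
  | succ j ih => rw [← ih]; exact s.b1 (n + 1 + j) (lst k j)

private lemma fst_a (s : Sys) (n k j : ℕ) :
    s.a (n + 1 + j) (2 ^ j * (2 * k + 1)) = s.a (n + 1) (2 * k + 1) := by
  induction j with
  | zero => simp
  | succ j ih =>
    have h : 2 ^ (j + 1) * (2 * k + 1) = 2 * (2 ^ j * (2 * k + 1)) := by ring
    rw [← ih, h]
    exact s.a0 (n + 1 + j) _

private lemma eq_of_small (s : Sys) (N : ℕ) (l : ℕ → ℕ) {z w : ℂ}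
    (hz : ∀ j, z ∈ (s.R (N + j) (l j)).S) (hw : ∀ j, w ∈ (s.R (N + j) (l j)).S) : z = w := by
  have key : ∀ ε > 0, |z.re - w.re| ≤ ε ∧ |z.im - w.im| ≤ ε := by
    intro ε hε
    obtain ⟨n, hn⟩ := exists_pow_lt_of_lt_one hε (show (4 / 5 : ℝ) < 1 by norm_num)
    obtain ⟨hW, hT⟩ := s.small (N + 12 * n) (l (12 * n))
    have h1 : (4 / 5 : ℝ) ^ ((N + 12 * n) / 12) ≤ (4 / 5) ^ n :=
      pow_le_pow_of_le_one (by norm_num) (by norm_num) (by omega)
    obtain ⟨z1, z2, z3, z4⟩ := hz (12 * n)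
    obtain ⟨w1, w2, w3, w4⟩ := hw (12 * n)
    rw [Rect.W] at hW
    rw [Rect.T] at hT
    constructor <;> rw [abs_le] <;> constructor <;> linarith
  have h1 : |z.re - w.re| ≤ 0 :=
    le_of_forall_pos_le_add fun ε hε => by simpa using (key ε hε).1
  have h2 : |z.im - w.im| ≤ 0 :=
    le_of_forall_pos_le_add fun ε hε => by simpa using (key ε hε).2
  exact Complex.ext (sub_eq_zero.1 (abs_nonpos_iff.1 h1)) (sub_eq_zero.1 (abs_nonpos_iff.1 h2))

private lemma exists_scale (n : ℕ) {x : ℝ} (h0 : 0 < x) (h1 : x ≤ 1 / 2 ^ (n + 1)) :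
    ∃ j, 1 / 2 ^ (n + 1 + j + 1) ≤ x ∧ x ≤ 1 / 2 ^ (n + 1 + j) := by
  classical
  have hex : ∃ j, (1 : ℝ) / 2 ^ (n + 1 + j + 1) ≤ x := by
    obtain ⟨m, hm⟩ := exists_pow_lt_of_lt_one h0 (show (1 / 2 : ℝ) < 1 by norm_num)
    refine ⟨m, le_trans ?_ hm.le⟩
    rw [one_div, ← inv_pow, ← one_div]
    exact pow_le_pow_of_le_one (by norm_num) (by norm_num) (by omega)
  obtain ⟨j, hj, hmin⟩ : ∃ j, (1 : ℝ) / 2 ^ (n + 1 + j + 1) ≤ x ∧
      ∀ i < j, ¬ (1 : ℝ) / 2 ^ (n + 1 + i + 1) ≤ x :=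
    ⟨Nat.find hex, Nat.find_spec hex, fun i hi => Nat.find_min hex hi⟩
  refine ⟨j, hj, ?_⟩
  cases j with
  | zero => simpa using h1
  | succ j =>
    have := hmin j (by omega)
    push Not at this
    exact this.le

theorem z_contact (s : Sys) {z : C(unitInterval, ℂ)}
    (hz : ∀ n k, k < 2 ^ n → ∀ t, J n k t → z t ∈ (s.R n k).S) {n k : ℕ} (hk : k < 2 ^ n)
    {t : unitInterval} (ht : (t : ℝ) = (2 * k + 1) / 2 ^ (n + 1)) :
    z t = s.a (n + 1) (2 * k + 1) := by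
  have e : ∀ j : ℕ, ((lst k j : ℝ) + 1) / 2 ^ (n + 1 + j) = (2 * k + 1) / 2 ^ (n + 1) := by
    intro j
    have h1 : ((lst k j : ℝ) + 1) = 2 ^ j * (2 * k + 1) := by exact_mod_cast lst_succ k j
    rw [h1, pow_add 2 (n + 1) j]
    field_simp
  refine eq_of_small s (n + 1) (lst k) (fun j => ?_) (fun j => ?_)
  · refine hz _ _ ?_ t ⟨?_, ?_⟩
    · have := fst_lt hk j
      have h2 := lst_succ k j
      omega
    · rw [ht, ← e j]
      exact div_le_div_of_nonneg_right (by linarith) (by positivity)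
    · rw [ht, ← e j]
  · rw [← lst_b s n k j]
    exact s.b_mem _ _

theorem z_inj (s : Sys) {z : C(unitInterval, ℂ)}
    (hz : ∀ n k, k < 2 ^ n → ∀ t, J n k t → z t ∈ (s.R n k).S) {n k : ℕ} (hk : k < 2 ^ n)
    {t : unitInterval} (ht : J n k t) (h : z t = s.a (n + 1) (2 * k + 1)) :
    (t : ℝ) = (2 * k + 1) / 2 ^ (n + 1) := by
  have e : ∀ j : ℕ, ((2 : ℝ) * k + 1) / 2 ^ (n + 1) =
      2 ^ j * (2 * k + 1) / 2 ^ (n + 1 + j) := by
    intro j
    rw [pow_add 2 (n + 1) j]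
    field_simp
  have e2 : ∀ (m : ℕ) (x : ℝ), x / 2 ^ m = 2 * x / 2 ^ (m + 1) := by
    intro m x
    rw [pow_succ]
    field_simp
  obtain ⟨hl, hr⟩ := ht
  rcases lt_trichotomy (t : ℝ) ((2 * k + 1) / 2 ^ (n + 1)) with hlt | heq | hgt
  · exfalso
    have hx : (2 * k + 1) / 2 ^ (n + 1) - (t : ℝ) ≤ 1 / 2 ^ (n + 1) := by
      have h1 : ((2 : ℝ) * k + 1) / 2 ^ (n + 1) = k / 2 ^ n + 1 / 2 ^ (n + 1) := by
        rw [e2 n k]; ring
      linarith
    obtain ⟨j, hj1, hj2⟩ := exists_scale n (sub_pos.2 hlt) hx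
    have h1 : ((lst k j : ℝ) + 1) = 2 ^ j * (2 * k + 1) := by exact_mod_cast lst_succ k j
    have h2 : ((2 : ℝ) * k + 1) / 2 ^ (n + 1) = (2 * (lst k j + 1)) / 2 ^ (n + 1 + j + 1) := by
      rw [e j, ← h1, e2]
    have h3 : (1 : ℝ) / 2 ^ (n + 1 + j) = 2 / 2 ^ (n + 1 + j + 1) := by
      rw [e2]; ring
    have hJ : J (n + 1 + j + 1) (2 * lst k j) t := by
      constructor
      · have h4 : ((2 * lst k j : ℕ) : ℝ) / 2 ^ (n + 1 + j + 1) =
            (2 * (lst k j + 1)) / 2 ^ (n + 1 + j + 1) - 2 / 2 ^ (n + 1 + j + 1) := by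
          push_cast; ring
        rw [h4, ← h2, ← h3]
        linarith
      · have h4 : (((2 * lst k j : ℕ) : ℝ) + 1) / 2 ^ (n + 1 + j + 1) =
            (2 * (lst k j + 1)) / 2 ^ (n + 1 + j + 1) - 1 / 2 ^ (n + 1 + j + 1) := by
          push_cast; ring
        rw [h4, ← h2]
        linarith
    have hlt2 : 2 * lst k j < 2 ^ (n + 1 + j + 1) := by
      have h5 := fst_lt hk j
      have h6 := lst_succ k j
      have h7 : 2 ^ (n + 1 + j + 1) = 2 * 2 ^ (n + 1 + j) := by ring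
      omega
    have h8 := hz _ _ hlt2 t hJ
    rw [h, ← lst_b s n k j] at h8
    exact s.b_not _ _ h8
  · exact heq
  · exfalso
    have hx : (t : ℝ) - (2 * k + 1) / 2 ^ (n + 1) ≤ 1 / 2 ^ (n + 1) := by
      have h1 : ((k : ℝ) + 1) / 2 ^ n = (2 * k + 1) / 2 ^ (n + 1) + 1 / 2 ^ (n + 1) := by
        rw [e2 n]; ring
      linarith
    obtain ⟨j, hj1, hj2⟩ := exists_scale n (sub_pos.2 hgt) hx
    have h2 : ((2 : ℝ) * k + 1) / 2 ^ (n + 1) =
        (2 * (2 ^ j * (2 * k + 1))) / 2 ^ (n + 1 + j + 1) := by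
      rw [e j, e2]
    have h3 : (1 : ℝ) / 2 ^ (n + 1 + j) = 2 / 2 ^ (n + 1 + j + 1) := by
      rw [e2]; ring
    have hJ : J (n + 1 + j + 1) (2 * (2 ^ j * (2 * k + 1)) + 1) t := by
      constructor
      · have h4 : ((2 * (2 ^ j * (2 * k + 1)) + 1 : ℕ) : ℝ) / 2 ^ (n + 1 + j + 1) =
            (2 * (2 ^ j * (2 * k + 1))) / 2 ^ (n + 1 + j + 1) + 1 / 2 ^ (n + 1 + j + 1) := by
          push_cast; ring
        rw [h4, ← h2]
        linarith
      · have h4 : (((2 * (2 ^ j * (2 * k + 1)) + 1 : ℕ) : ℝ) + 1) / 2 ^ (n + 1 + j + 1) =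
            (2 * (2 ^ j * (2 * k + 1))) / 2 ^ (n + 1 + j + 1) + 2 / 2 ^ (n + 1 + j + 1) := by
          push_cast; ring
        rw [h4, ← h2, ← h3]
        linarith
    have hlt2 : 2 * (2 ^ j * (2 * k + 1)) + 1 < 2 ^ (n + 1 + j + 1) := by
      have h5 := fst_lt hk j
      have h7 : 2 ^ (n + 1 + j + 1) = 2 * 2 ^ (n + 1 + j) := by ring
      omega
    have h8 := hz _ _ hlt2 t hJ
    rw [h, ← fst_a s n k j] at h8
    exact s.a_not _ _ h8

end Pool.Agent.Lib.GEX
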