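import Pool.Agent.Lib.GEX.ZBase

/-!
# GEX.ZSurj: continuity and surjectivity of `z`  (2 h)

`z_cont`: let `t`, `ε > 0`; choose `n` with `2 (2 (4/5)^(n/12)) < ε` (`diam_lim`). For `|u - t| < 1/2^n` take `k, l < 2^n` with `J n k t`, `J n l u` (`J_exists`); by `J_near` `|k - l| ≤ 1`. If `k = l`: `diam`. If `l = k + 1`:
`z t, b n k ∈ (R n k).S`, `z u, a n (k+1) = b n k ∈ (R n (k+1)).S` (`b_eq_a`): `‖z t - z u‖ ≤ 2 (2 (4/5)^(n/12))`. If `k = l + 1` symmetric.
`z_surj`: let `w ∈ (R n k).S`. By `cover` there is a sequence `κ m` with `κ n = k`, `w ∈ (R m (κ m)).S` for `m ≥ n`, `κ (m+1) ∈ {2 κ m, 2 κ m + 1}`; for `m < n` put `κ m = k / 2^(n-m)`. Then `κ m < 2^m`, `κ (m+1)/2 = κ m` for all `m`; `J_nested` gives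
`t` with `J m (κ m) t` for all `m`. So `z t ∈ (R m (κ m)).S`, `‖z t - w‖ ≤ 2 (4/5)^(m/12) → 0`.
-/

open Set Filter Topology
open Complex (I)

namespace Pool.Agent.Lib.GEX

theorem z_cont (s : Sys) {z : unitInterval → ℂ}
    (hz : ∀ n k, k < 2 ^ n → ∀ t, J n k t → z t ∈ (s.R n k).S) : Continuous z := by
  rw [Metric.continuous_iff]
  intro t ε hε
  have h1 : ∀ᶠ n : ℕ in atTop, 2 * ((4 : ℝ) / 5) ^ (n / 12) < ε / 2 :=
    diam_lim.eventually (gt_mem_nhds (by positivity))
  obtain ⟨n, hn⟩ := h1.exists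
  refine ⟨1 / 2 ^ n, by positivity, fun u hu => ?_⟩
  obtain ⟨k, hk, hkt⟩ := J_exists n t
  obtain ⟨l, hl, hlu⟩ := J_exists n u
  have hut : |(t : ℝ) - u| < 1 / 2 ^ n := by
    rw [Subtype.dist_eq, Real.dist_eq, abs_sub_comm] at hu
    exact hu
  obtain ⟨h2, h3⟩ := J_near hkt hlu hut
  rw [dist_eq_norm]
  have hzt := hz n k hk t hkt
  have hzu := hz n l hl u hlu
  have h4 : k = l ∨ l = k + 1 ∨ k = l + 1 := by omega
  rcases h4 with h | h | h
  · subst h
    have h5 := diam s n k hzu hzt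
    linarith
  · subst h
    have hb1 := s.b_mem n k
    have hb2 := s.a_mem n (k + 1)
    rw [← b_eq_a s n k hl] at hb2
    have d1 := diam s n k hb1 hzt
    have d2 := diam s n (k + 1) hzu hb2
    have d3 := norm_sub_le_norm_sub_add_norm_sub (z u) (s.b n k) (z t)
    linarith
  · subst h
    have hb1 := s.b_mem n l
    have hb2 := s.a_mem n (l + 1)
    rw [← b_eq_a s n l hk] at hb2
    have d1 := diam s n l hzu hb1
    have d2 := diam s n (l + 1) hb2 hzt
    have d3 := norm_sub_le_norm_sub_add_norm_sub (z u) (s.b n l) (z t)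
    linarith

namespace ZSurjAux

open Classical in
/-- descendants containing `w` -/
noncomputable def desc (s : Sys) (w : ℂ) (n k : ℕ) : ℕ → ℕ
  | 0 => k
  | j + 1 => if w ∈ (s.R (n + j + 1) (2 * desc s w n k j)).S then 2 * desc s w n k j
      else 2 * desc s w n k j + 1

theorem desc_half (s : Sys) (w : ℂ) (n k j : ℕ) :
    desc s w n k (j + 1) / 2 = desc s w n k j := by
  rw [desc]
  split_ifs <;> omega

theorem desc_lt (s : Sys) (w : ℂ) {n k : ℕ} (hk : k < 2 ^ n) (j : ℕ) :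
    desc s w n k j < 2 ^ (n + j) := by
  induction j with
  | zero => exact hk
  | succ j ih =>
    have h1 := desc_half s w n k j
    have h2 : 2 ^ (n + (j + 1)) = 2 * 2 ^ (n + j) := by
      rw [← add_assoc, pow_succ, mul_comm]
    omega

theorem desc_mem (s : Sys) {w : ℂ} {n k : ℕ} (hw : w ∈ (s.R n k).S) (j : ℕ) :
    w ∈ (s.R (n + j) (desc s w n k j)).S := by
  induction j with
  | zero => exact hw
  | succ j ih =>
    rw [desc]
    split_ifs with h
    · exact h
    · rcases s.cover (n + j) (desc s w n k j) ih with h1 | h1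
      · exact absurd h1 h
      · exact h1

/-- the whole sequence -/
noncomputable def kap (s : Sys) (w : ℂ) (n k m : ℕ) : ℕ :=
  if m < n then k / 2 ^ (n - m) else desc s w n k (m - n)

theorem kap_n (s : Sys) (w : ℂ) (n k : ℕ) : kap s w n k n = k := by
  unfold kap
  rw [if_neg (lt_irrefl n), Nat.sub_self]
  rfl

theorem kap_lt (s : Sys) (w : ℂ) {n k : ℕ} (hk : k < 2 ^ n) (m : ℕ) :
    kap s w n k m < 2 ^ m := by
  unfold kap
  split_ifs with h
  · apply Nat.div_lt_of_lt_mul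
    rw [← pow_add, show n - m + m = n by omega]
    exact hk
  · have h1 := desc_lt s w hk (m - n)
    rw [show n + (m - n) = m by omega] at h1
    exact h1

theorem kap_half (s : Sys) (w : ℂ) (n k m : ℕ) :
    kap s w n k (m + 1) / 2 = kap s w n k m := by
  unfold kap
  rcases lt_trichotomy (m + 1) n with h | h | h
  · rw [if_pos h, if_pos (by omega), Nat.div_div_eq_div_mul, ← pow_succ,
      show n - (m + 1) + 1 = n - m by omega]
  · rw [if_neg (by omega), if_pos (by omega), show m + 1 - n = 0 by omega,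
      show n - m = 1 by omega, pow_one]
    rfl
  · rw [if_neg (by omega), if_neg (by omega), show m + 1 - n = m - n + 1 by omega]
    exact desc_half s w n k (m - n)

theorem kap_mem (s : Sys) {w : ℂ} {n k : ℕ} (hw : w ∈ (s.R n k).S) {m : ℕ} (hm : n ≤ m) :
    w ∈ (s.R m (kap s w n k m)).S := by
  unfold kap
  rw [if_neg (by omega)]
  have h1 := desc_mem s hw (m - n)
  rw [show n + (m - n) = m by omega] at h1
  exact h1

end ZSurjAux

open ZSurjAux

theorem z_surj (s : Sys) {z : unitInterval → ℂ}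
    (hz : ∀ n k, k < 2 ^ n → ∀ t, J n k t → z t ∈ (s.R n k).S) {n k : ℕ} (hk : k < 2 ^ n)
    {w : ℂ} (hw : w ∈ (s.R n k).S) : ∃ t, J n k t ∧ z t = w := by
  obtain ⟨t, ht⟩ := J_nested (kap s w n k) (kap_lt s w hk) (kap_half s w n k)
  refine ⟨t, ?_, ?_⟩
  · have h1 := ht n
    rw [kap_n] at h1
    exact h1
  · have h1 : ∀ᶠ m : ℕ in atTop, ‖z t - w‖ ≤ 2 * ((4 : ℝ) / 5) ^ (m / 12) := by
      filter_upwards [eventually_ge_atTop n] with m hm
      exact diam s m (kap s w n k m) (hz m _ (kap_lt s w hk m) t (ht m)) (kap_mem s hw hm)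
    have h2 : ‖z t - w‖ ≤ 0 := ge_of_tendsto diam_lim h1
    have h3 : z t - w = 0 := norm_le_zero_iff.1 h2
    exact sub_eq_zero.1 h3

end Pool.Agent.Lib.GEX
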