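import Pool.Agent.Lib.GEX.ZPt
import Pool.Agent.Lib.GEX.ZSurj

/-!
# GEX.ZMap: the map `z : [0,1] → ℂ`
-/

open Set Filter Topology
open Complex (I)

namespace Pool.Agent.Lib.GEX

theorem exists_z (s : Sys) : ∃ z : C(unitInterval, ℂ),
    (∀ n k, k < 2 ^ n → ∀ t, J n k t → z t ∈ (s.R n k).S) ∧
    (∀ n k, k < 2 ^ n → ∀ w ∈ (s.R n k).S, ∃ t, J n k t ∧ z t = w) := by
  choose z hz using exists_pt s
  have h1 : ∀ n k, k < 2 ^ n → ∀ t, J n k t → z t ∈ (s.R n k).S := fun n k hk t ht => hz t n k hk ht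
  exact ⟨⟨z, z_cont s h1⟩, h1, fun n k hk w hw => z_surj s h1 hk hw⟩

end Pool.Agent.Lib.GEX
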