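import Pool.Agent.Lib.GEX.ZBase

/-!
# GEX.ZPt: the point `z t`  (1 h)

`C n = ⋂_{k < 2^n, J n k t} (R n k).S`. Compact (`J_exists`: contained in some compact `(R n k).S`), closed. Nonempty: by `J_lt` at most two `k` occur, `k` and `k + 1`, and then `b n k = a n (k+1)` (`b_eq_a`) is in both; if only one, take `a n k`.
Decreasing: for `k < 2^n` with `J n k t` a child `(n+1, e)`, `e ∈ {2k, 2k+1}`, contains `t` (`J_split`), and `(R (n+1) e).S ⊆ (R n k).S`. So `⋂ C n` is nonempty (`IsCompact.nonempty_iInter_of_sequence_nonempty_isCompact_isClosed`).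
-/

open Set Filter Topology
open Complex (I)

namespace Pool.Agent.Lib.GEX

theorem exists_pt (s : Sys) (t : unitInterval) :
    ∃ w : ℂ, ∀ n k, k < 2 ^ n → J n k t → w ∈ (s.R n k).S := by
  classical
  set C : ℕ → Set ℂ := fun n => ⋂ (k : ℕ) (_ : k < 2 ^ n) (_ : J n k t), (s.R n k).S with hC
  have hmem : ∀ n w, w ∈ C n ↔ ∀ k, k < 2 ^ n → J n k t → w ∈ (s.R n k).S := by
    intro n w
    simp only [hC, mem_iInter]
  have hcl : ∀ n, IsClosed (C n) := fun n =>
    isClosed_iInter fun _ => isClosed_iInter fun _ => isClosed_iInter fun _ => Rect.isClosed_S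
  have hne : ∀ n, (C n).Nonempty := by
    intro n
    have hex : ∃ k, k < 2 ^ n ∧ J n k t := J_exists n t
    set k1 := Nat.find hex with hk1
    have h1 : k1 < 2 ^ n ∧ J n k1 t := Nat.find_spec hex
    have hmin : ∀ l, l < 2 ^ n → J n l t → l = k1 ∨ l = k1 + 1 := by
      intro l hl hJ
      rcases Nat.lt_trichotomy l k1 with h | h | h
      · exact absurd ⟨hl, hJ⟩ (Nat.find_min hex h)
      · exact Or.inl h
      · exact Or.inr (J_lt h1.2 hJ h).1
    by_cases hk : k1 + 1 < 2 ^ n
    · refine ⟨s.b n k1, (hmem n _).2 fun l hl hJ => ?_⟩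
      rcases hmin l hl hJ with h | h
      · rw [h]
        exact s.b_mem n k1
      · rw [h, b_eq_a s n k1 hk]
        exact s.a_mem n (k1 + 1)
    · refine ⟨s.a n k1, (hmem n _).2 fun l hl hJ => ?_⟩
      rcases hmin l hl hJ with h | h
      · rw [h]
        exact s.a_mem n k1
      · rw [h] at hl
        exact absurd hl hk
  have hdec : ∀ n, C (n + 1) ⊆ C n := by
    intro n w hw
    rw [hmem] at hw ⊢
    intro k hk hJ
    have h2 : 2 ^ (n + 1) = 2 * 2 ^ n := by ring
    rcases J_split hJ with h | h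
    · exact s.sub0 n k (hw _ (by omega) h)
    · exact s.sub1 n k (hw _ (by omega) h)
  have hcomp : IsCompact (C 0) := by
    obtain ⟨k, hk, hJ⟩ := J_exists 0 t
    exact (Rect.isCompact_S (R := s.R 0 k)).of_isClosed_subset (hcl 0)
      (fun w hw => (hmem 0 w).1 hw k hk hJ)
  obtain ⟨w, hw⟩ := IsCompact.nonempty_iInter_of_sequence_nonempty_isCompact_isClosed C hdec hne
    hcomp hcl
  refine ⟨w, fun n k hk hJ => ?_⟩
  exact (hmem n w).1 (mem_iInter.1 hw n) k hk hJ

end Pool.Agent.Lib.GEX
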